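import Pool.Agent.LibDC29.Defs2

/-!
[DC A1] Families.  `HL st x l`: `x = ∑ y i * z i`, `z i * y j = δ_ij a i`, where the word
`l = ∑ single (a i) 1`; `st` says that `z i = star (y i)`.  So `Cl x m` means `HL False x l` for
some `l` of class `m`, and `SCl p m` the same with `st = True`.
* `of_fintype`: transport along `Fintype.equivFin ι`.
* `cl_iff`, `scl_iff`, `hcl_iff`: unfold; `mk G (∑ single (a i) 1) = ∑ mv (a i)` (`map_sum`);
  for `True` rewrite `z i = star (y i)`, `vx (a i) * star (u i) = star (u i)` is the adjoint of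
  `u i * vx (a i) = u i`; the support of `∑ single (a i) 1` is the range of `a`.
* `eq_zero`: `l = 0` forces `n = 0`.
* `vx_sum`: family `y f = ed f`, `z f = star (ed f)` indexed by `{f // f ∈ S}` (`of_fintype`).
* `idem`: `x * x = ∑ y i z i y j z j = ∑ y i * vx (a i) * z i = x`.
-/

namespace DC29

open LPA74 Finsupp

variable {G : Gph}

/-- word class. -/
def HL (st : Prop) (x : LA G) (l : G.V →₀ ℕ) : Prop :=
  ∃ (n : ℕ) (a : Fin n → G.V) (y z : Fin n → LA G), x = ∑ i, y i * z i ∧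
    (∀ i j, z i * y j = if i = j then vx (a i) else 0) ∧ (∀ i, y i * vx (a i) = y i) ∧
    (∀ i, vx (a i) * z i = z i) ∧ (st → ∀ i, z i = star (y i)) ∧ l = ∑ i, single (a i) 1

variable {st : Prop} {x p : LA G} {l : G.V →₀ ℕ} {m : Mon G}

theorem HL.of_fintype {ι : Type} [Fintype ι] [DecidableEq ι] (a : ι → G.V) (y z : ι → LA G)
    (h1 : ∀ i j, z i * y j = if i = j then vx (a i) else 0) (h2 : ∀ i, y i * vx (a i) = y i)
    (h3 : ∀ i, vx (a i) * z i = z i) (h4 : st → ∀ i, z i = star (y i)) :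
    HL st (∑ i, y i * z i) (∑ i, single (a i) 1) := by
  let e := Fintype.equivFin ι
  refine ⟨Fintype.card ι, fun i => a (e.symm i), fun i => y (e.symm i), fun i => z (e.symm i),
    ?_, ?_, ?_, ?_, ?_, ?_⟩
  · exact (Equiv.sum_comp e.symm (fun i => y i * z i)).symm
  · intro i j
    rw [h1]
    simp only [EmbeddingLike.apply_eq_iff_eq]
  · intro i
    exact h2 _
  · intro i
    exact h3 _
  · intro hs i
    exact h4 hs _
  · exact (Equiv.sum_comp e.symm (fun i => single (a i) 1)).symm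

theorem HL.mono {st' : Prop} (h : HL st x l) (hs : st' → st) : HL st' x l := by
  obtain ⟨n, a, y, z, h1, h2, h3, h4, h5, h6⟩ := h
  exact ⟨n, a, y, z, h1, h2, h3, h4, fun h => h5 (hs h), h6⟩

theorem cl_iff : Cl x m ↔ ∃ l, HL False x l ∧ mk G l = m := by
  constructor
  · rintro ⟨n, a, y, z, h1, h2, h3, h4, h5⟩
    refine ⟨_, ⟨n, a, y, z, h1, h2, h3, h4, fun h => h.elim, rfl⟩, ?_⟩
    rw [h5, map_sum]
    rfl
  · rintro ⟨l, ⟨n, a, y, z, h1, h2, h3, h4, h5, h6⟩, h7⟩
    refine ⟨n, a, y, z, h1, h2, h3, h4, ?_⟩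
    rw [← h7, h6, map_sum]
    rfl

theorem a1_star {u : LA G} {v : G.V} (h : u * vx v = u) : vx v * star u = star u := by
  have h1 := congrArg star h
  rwa [star_mul, star_vx] at h1

theorem scl_iff : SCl p m ↔ ∃ l, HL True p l ∧ mk G l = m := by
  constructor
  · rintro ⟨n, a, u, h1, h2, h3, h5⟩
    refine ⟨_, ⟨n, a, u, fun i => star (u i), h1, h2, h3, fun i => a1_star (h3 i),
      fun _ _ => rfl, rfl⟩, ?_⟩
    rw [h5, map_sum]
    rfl
  · rintro ⟨l, ⟨n, a, y, z, h1, h2, h3, h4, h5, h6⟩, h7⟩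
    have h8 := h5 trivial
    refine ⟨n, a, y, ?_, ?_, h3, ?_⟩
    · rw [h1]
      exact Finset.sum_congr rfl fun i _ => by rw [h8 i]
    · intro i j
      rw [← h8 i]
      exact h2 i j
    · rw [← h7, h6, map_sum]
      rfl

theorem a1_mem {n : ℕ} (a : Fin n → G.V) (v : G.V) :
    (∑ i, single (a i) 1 : G.V →₀ ℕ) v ≠ 0 ↔ ∃ i, a i = v := by
  classical
  rw [Finsupp.finsetSum_apply, ne_eq, Finset.sum_eq_zero_iff]
  simp [Finsupp.single_apply]

theorem hcl_iff {H : Set G.V} : HCl H p ↔ ∃ l, HL True p l ∧ ∀ v, l v ≠ 0 → v ∈ H := by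
  constructor
  · rintro ⟨n, a, u, h0, h1, h2, h3⟩
    refine ⟨_, ⟨n, a, u, fun i => star (u i), h1, h2, h3, fun i => a1_star (h3 i),
      fun _ _ => rfl, rfl⟩, ?_⟩
    intro v hv
    obtain ⟨i, rfl⟩ := (a1_mem a v).1 hv
    exact h0 i
  · rintro ⟨l, ⟨n, a, y, z, h1, h2, h3, h4, h5, h6⟩, h7⟩
    have h8 := h5 trivial
    refine ⟨n, a, y, ?_, ?_, ?_, h3⟩
    · intro i
      refine h7 _ ?_
      rw [h6]
      exact (a1_mem a (a i)).2 ⟨i, rfl⟩
    · rw [h1]
      exact Finset.sum_congr rfl fun i _ => by rw [h8 i]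
    · intro i j
      rw [← h8 i]
      exact h2 i j

theorem HL.zero : HL st (0 : LA G) 0 := by
  refine ⟨0, fun i => i.elim0, fun i => i.elim0, fun i => i.elim0, ?_, fun i => i.elim0,
    fun i => i.elim0, fun i => i.elim0, fun _ i => i.elim0, ?_⟩
  · rw [Fin.sum_univ_zero]
  · rw [Fin.sum_univ_zero]

theorem HL.vx (v : G.V) : HL st (vx v : LA G) (single v 1) := by
  have h := HL.of_fintype (st := st) (ι := Unit) (fun _ => v) (fun _ => (LPA74.vx v : LA G))
    (fun _ => (LPA74.vx v : LA G)) (fun i j => by simp [vx_mul_self]) (fun _ => vx_mul_self v)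
    (fun _ => vx_mul_self v) (fun _ _ => (star_vx v).symm)
  simpa [vx_mul_self] using h

theorem HL.vx_sum (v : G.V) (S : Finset G.Ed) (h0 : S.Nonempty) (h : ∀ f, f ∈ S ↔ G.s f = v) :
    HL st (LPA74.vx v : LA G) (∑ f ∈ S, single (G.r f) 1) := by
  classical
  have h1 := HL.of_fintype (st := st) (ι := {f // f ∈ S}) (fun f => G.r f.1)
    (fun f => (ed f.1 : LA G)) (fun f => star (ed f.1 : LA G)) (fun i j => by
      split_ifs with hij
      · rw [hij]
        exact star_ed_mul_ed _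
      · exact star_ed_mul_ed_ne fun h2 => hij (Subtype.ext h2)) (fun f => ed_mul_vx f.1)
    (fun f => vx_mul_star_ed f.1) (fun _ _ => rfl)
  rw [Finset.sum_coe_sort S (fun f => (ed f * star (ed f) : LA G)),
    Finset.sum_coe_sort S (fun f => (single (G.r f) 1 : G.V →₀ ℕ)), ← vx_eq_sum v S h0 h] at h1
  exact h1

theorem HL.eq_zero (h : HL st x 0) : x = 0 := by
  obtain ⟨n, a, y, z, h1, h2, h3, h4, h5, h6⟩ := h
  cases n with
  | zero => rw [h1, Fin.sum_univ_zero]
  | succ n =>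
    exfalso
    have h7 := (a1_mem a (a 0)).2 ⟨0, rfl⟩
    rw [← h6] at h7
    exact h7 rfl

theorem HL.idem (h : HL st x l) : x * x = x := by
  obtain ⟨n, a, y, z, h1, h2, h3, h4, h5, h6⟩ := h
  have h7 : ∀ i, z i * x = z i := by
    intro i
    rw [h1, Finset.mul_sum, Finset.sum_eq_single i]
    · rw [← mul_assoc, h2, if_pos rfl, h4]
    · intro j _ hj
      rw [← mul_assoc, h2, if_neg (Ne.symm hj), zero_mul]
    · intro hi
      exact absurd (Finset.mem_univ i) hi
  calc x * x = (∑ i, y i * z i) * x := by rw [← h1]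
    _ = ∑ i, y i * z i := by
        rw [Finset.sum_mul]
        exact Finset.sum_congr rfl fun i _ => by rw [mul_assoc, h7]
    _ = x := h1.symm

theorem HL.pj (h : HL True x l) : Pj x := by
  refine ⟨h.idem, ?_⟩
  obtain ⟨n, a, y, z, h1, h2, h3, h4, h5, h6⟩ := h
  rw [h1, star_sum]
  refine Finset.sum_congr rfl fun i _ => ?_
  rw [h5 trivial i, star_mul, star_star]

end DC29
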