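import Pool.Agent.LibDC29.A1

/-!
[DC A2] Sums, splittings and connection of families.
* `exists_equiv`: two finite families with the same word are related by a bijection of the index
  sets: the fibres `{i // a i = v}` and `{j // b j = v}` have the same cardinality, namely the
  value of the word at `v` (`Finsupp.finset_sum_apply`, `single_apply`, `Finset.sum_boole`); use
  `Equiv.sigmaFiberEquiv a`, `Equiv.sigmaCongrRight`, `Fintype.equivOfCardEq`.
* `add`: families on `Fin n ⊕ Fin n'` (`HL.of_fintype`); cross terms: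
  `z i * y' j = z i * x * x' * y' j = 0` (`z i * x = z i`, `x' * y' j = y' j`).
* `split`: choose a family for `x` with word `l + l'`.  The word `l` is itself the word of a
  family `b : Fin k → V` and `l'` of `b' : Fin k' → V` (induction on `l`, or
  `l.toMultiset.toList`), so `exists_equiv` for `a` and `Sum.elim b b'` gives a bijection
  `e : Fin k ⊕ Fin k' ≃ Fin n` with `a (e i) = Sum.elim b b' i`;
  `x1 = ∑_{i : Fin k} y (e (inl i)) * z (e (inl i))`, `x2` the same with `inr`.
* `conn`: with `e` from `exists_equiv`: `w = ∑ i, y i * z' (e i)`, `w' = ∑ i, y' (e i) * z i`.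
* `trans`: `y' i = w * y i`, `z' i = z i * w'`:
  `z i * w' * w * y j = z i * x * y j = z i * y j`; `∑ w y z w' = w x w' = w w' w w' = x'`.
-/

namespace DC29

open LPA74 Finsupp

variable {G : Gph} {st : Prop} {x x' : LA G} {l l' : G.V →₀ ℕ}

theorem exists_equiv {V ι κ : Type} [Fintype ι] [Fintype κ] (a : ι → V) (b : κ → V)
    (h : (∑ i, single (a i) 1 : V →₀ ℕ) = ∑ j, single (b j) 1) :
    ∃ e : ι ≃ κ, ∀ i, b (e i) = a i := by
  classical
  have hc : ∀ v, Fintype.card {i // a i = v} = Fintype.card {j // b j = v} := by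
    intro v
    have h1 := congrArg (fun l : V →₀ ℕ => l v) h
    simp only [Finsupp.finsetSum_apply, Finsupp.single_apply, Finset.sum_boole, Nat.cast_id] at h1
    rw [Fintype.card_subtype, Fintype.card_subtype]
    exact h1
  let ev : ∀ v, {i // a i = v} ≃ {j // b j = v} := fun v => Fintype.equivOfCardEq (hc v)
  refine ⟨(Equiv.sigmaFiberEquiv a).symm.trans ((Equiv.sigmaCongrRight ev).trans
    (Equiv.sigmaFiberEquiv b)), fun i => ?_⟩
  exact (ev (a i) ⟨i, rfl⟩).2

theorem A2_word {V : Type} (l : V →₀ ℕ) : ∃ (ι : Type) (_ : Fintype ι) (b : ι → V),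
    (∑ i, single (b i) 1 : V →₀ ℕ) = l := by
  induction l using Finsupp.induction_linear with
  | zero => exact ⟨Empty, inferInstance, fun i => i.elim, by simp⟩
  | add l l' h h' =>
    obtain ⟨ι, _, b, hb⟩ := h
    obtain ⟨ι', _, b', hb'⟩ := h'
    exact ⟨ι ⊕ ι', inferInstance, Sum.elim b b', by
      rw [Fintype.sum_sum_type]
      simp only [Sum.elim_inl, Sum.elim_inr]
      rw [hb, hb']⟩
  | single v n => exact ⟨Fin n, inferInstance, fun _ => v, by
      rw [Finset.sum_const, Finset.card_univ, Fintype.card_fin, Finsupp.smul_single, smul_eq_mul,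
        mul_one]⟩

section fam
variable {ι κ : Type} [Fintype ι] [DecidableEq ι] {a : ι → G.V} {y z : ι → LA G}

theorem A2_zx (h1 : ∀ i j, z i * y j = if i = j then vx (a i) else 0)
    (h3 : ∀ i, vx (a i) * z i = z i) (i : ι) : z i * (∑ j, y j * z j) = z i := by
  rw [Finset.mul_sum, Finset.sum_eq_single i]
  · rw [← mul_assoc, h1, if_pos rfl, h3]
  · intro j _ hj
    rw [← mul_assoc, h1, if_neg (Ne.symm hj), zero_mul]
  · intro h
    exact absurd (Finset.mem_univ i) h

theorem A2_xy (h1 : ∀ i j, z i * y j = if i = j then vx (a i) else 0)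
    (h2 : ∀ i, y i * vx (a i) = y i) (i : ι) : (∑ j, y j * z j) * y i = y i := by
  rw [Finset.sum_mul, Finset.sum_eq_single i]
  · rw [mul_assoc, h1, if_pos rfl, h2]
  · intro j _ hj
    rw [mul_assoc, h1, if_neg hj, mul_zero]
  · intro h
    exact absurd (Finset.mem_univ i) h

end fam

theorem HL.add (h : HL st x l) (h' : HL st x' l') (h1 : x * x' = 0) (h2 : x' * x = 0) :
    HL st (x + x') (l + l') := by
  obtain ⟨n, a, y, z, hx, e1, e2, e3, e4, hl⟩ := h
  obtain ⟨n', a', y', z', hx', e1', e2', e3', e4', hl'⟩ := h'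
  have c1 : ∀ i j, z i * y' j = 0 := by
    intro i j
    rw [← A2_zx e1 e3 i, ← A2_xy e1' e2' j, ← hx, ← hx', mul_assoc, ← mul_assoc x, h1, zero_mul,
      mul_zero]
  have c2 : ∀ i j, z' i * y j = 0 := by
    intro i j
    rw [← A2_zx e1' e3' i, ← A2_xy e1 e2 j, ← hx, ← hx', mul_assoc, ← mul_assoc x', h2, zero_mul,
      mul_zero]
  have key := HL.of_fintype (st := st) (Sum.elim a a') (Sum.elim y y') (Sum.elim z z') (by
    rintro (i | i) (j | j)
    · simp only [Sum.elim_inl, Sum.inl.injEq]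
      exact e1 i j
    · simp only [Sum.elim_inl, Sum.elim_inr]
      rw [c1, if_neg (by simp)]
    · simp only [Sum.elim_inl, Sum.elim_inr]
      rw [c2, if_neg (by simp)]
    · simp only [Sum.elim_inr, Sum.inr.injEq]
      exact e1' i j) (by
    rintro (i | i)
    · exact e2 i
    · exact e2' i) (by
    rintro (i | i)
    · exact e3 i
    · exact e3' i) (by
    rintro hst (i | i)
    · exact e4 hst i
    · exact e4' hst i)
  rw [Fintype.sum_sum_type, Fintype.sum_sum_type] at key
  simp only [Sum.elim_inl, Sum.elim_inr] at key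
  rwa [← hx, ← hx', ← hl, ← hl'] at key

theorem HL.split (h : HL st x (l + l')) :
    ∃ x1 x2, x = x1 + x2 ∧ x1 * x2 = 0 ∧ x2 * x1 = 0 ∧ HL st x1 l ∧ HL st x2 l' := by
  classical
  obtain ⟨n, a, y, z, hx, e1, e2, e3, e4, hl⟩ := h
  obtain ⟨ι, _, b, hb⟩ := A2_word l
  obtain ⟨ι', _, b', hb'⟩ := A2_word l'
  obtain ⟨e, he⟩ := exists_equiv (Sum.elim b b') a (by
    rw [Fintype.sum_sum_type, ← hl]
    simp only [Sum.elim_inl, Sum.elim_inr]
    rw [hb, hb'])
  have hel : ∀ i, a (e (Sum.inl i)) = b i := fun i => he (Sum.inl i)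
  have her : ∀ i, a (e (Sum.inr i)) = b' i := fun i => he (Sum.inr i)
  refine ⟨∑ i : ι, y (e (Sum.inl i)) * z (e (Sum.inl i)),
    ∑ i : ι', y (e (Sum.inr i)) * z (e (Sum.inr i)), ?_, ?_, ?_, ?_, ?_⟩
  · rw [hx, ← Equiv.sum_comp e, Fintype.sum_sum_type]
  · rw [Finset.sum_mul]
    refine Finset.sum_eq_zero fun i _ => ?_
    rw [Finset.mul_sum]
    refine Finset.sum_eq_zero fun j _ => ?_
    rw [mul_assoc, ← mul_assoc (z _), e1, if_neg (by simp), zero_mul, mul_zero]
  · rw [Finset.sum_mul]
    refine Finset.sum_eq_zero fun i _ => ?_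
    rw [Finset.mul_sum]
    refine Finset.sum_eq_zero fun j _ => ?_
    rw [mul_assoc, ← mul_assoc (z _), e1, if_neg (by simp), zero_mul, mul_zero]
  · rw [← hb]
    refine HL.of_fintype b (fun i => y (e (Sum.inl i))) (fun i => z (e (Sum.inl i)))
      (fun i j => ?_) (fun i => ?_) (fun i => ?_) (fun hst i => e4 hst _)
    · rw [e1, hel]
      simp
    · rw [← hel]
      exact e2 _
    · rw [← hel]
      exact e3 _
  · rw [← hb']
    refine HL.of_fintype b' (fun i => y (e (Sum.inr i))) (fun i => z (e (Sum.inr i)))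
      (fun i j => ?_) (fun i => ?_) (fun i => ?_) (fun hst i => e4 hst _)
    · rw [e1, her]
      simp
    · rw [← her]
      exact e2 _
    · rw [← her]
      exact e3 _

theorem HL.conn (h : HL st x l) (h' : HL st x' l) :
    ∃ w w', w * w' = x ∧ w' * w = x' ∧ w * w' * w = w ∧ w' * w * w' = w' ∧
      (st → w' = star w) := by
  obtain ⟨n, a, y, z, hx, e1, e2, e3, e4, hl⟩ := h
  obtain ⟨n', a', y', z', hx', e1', e2', e3', e4', hl'⟩ := h'
  obtain ⟨e, he⟩ := exists_equiv a a' (by rw [← hl, ← hl'])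
  have f1 : (∑ i, y i * z' (e i)) * (∑ i, y' (e i) * z i) = x := by
    rw [hx, Finset.sum_mul]
    refine Finset.sum_congr rfl fun i _ => ?_
    rw [Finset.mul_sum, Finset.sum_eq_single i]
    · rw [mul_assoc, ← mul_assoc (z' _), e1', if_pos rfl, he, e3]
    · intro j _ hj
      rw [mul_assoc, ← mul_assoc (z' _), e1', if_neg fun h => hj (e.injective h).symm, zero_mul,
        mul_zero]
    · intro h
      exact absurd (Finset.mem_univ i) h
  have f2 : (∑ i, y' (e i) * z i) * (∑ i, y i * z' (e i)) = x' := by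
    rw [hx', ← Equiv.sum_comp e, Finset.sum_mul]
    refine Finset.sum_congr rfl fun i _ => ?_
    rw [Finset.mul_sum, Finset.sum_eq_single i]
    · rw [mul_assoc, ← mul_assoc (z _), e1, if_pos rfl, ← he, e3']
    · intro j _ hj
      rw [mul_assoc, ← mul_assoc (z _), e1, if_neg (Ne.symm hj), zero_mul, mul_zero]
    · intro h
      exact absurd (Finset.mem_univ i) h
  refine ⟨∑ i, y i * z' (e i), ∑ i, y' (e i) * z i, f1, f2, ?_, ?_, fun hst => ?_⟩
  · rw [f1, Finset.mul_sum]
    refine Finset.sum_congr rfl fun i _ => ?_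
    rw [← mul_assoc, hx, A2_xy e1 e2]
  · rw [f2, Finset.mul_sum]
    refine Finset.sum_congr rfl fun i _ => ?_
    rw [← mul_assoc, hx', A2_xy e1' e2']
  · rw [star_sum]
    refine Finset.sum_congr rfl fun i _ => ?_
    rw [star_mul, e4' hst, star_star, ← e4 hst]

theorem HL.trans (h : HL st x l) {w w' : LA G} (h1 : w * w' = x') (h2 : w' * w = x)
    (h3 : w * w' * w = w) (h4 : w' * w * w' = w') (h5 : st → w' = star w) : HL st x' l := by
  obtain ⟨n, a, y, z, hx, e1, e2, e3, e4, hl⟩ := h
  refine ⟨n, a, fun i => w * y i, fun i => z i * w', ?_, fun i j => ?_, fun i => ?_, fun i => ?_,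
    fun hst i => ?_, hl⟩
  · have f1 : ∑ i, w * y i * (z i * w') = w * x * w' := by
      rw [hx, Finset.mul_sum, Finset.sum_mul]
      refine Finset.sum_congr rfl fun i _ => ?_
      simp only [mul_assoc]
    rw [f1, ← h2, ← mul_assoc, h3, h1]
  · have f1 : z i * w' * (w * y j) = z i * x * y j := by
      rw [← h2]
      simp only [mul_assoc]
    rw [f1, hx, A2_zx e1 e3, e1]
  · rw [mul_assoc, e2]
  · rw [← mul_assoc, e3]
  · rw [star_mul, ← h5 hst, ← e4 hst]

end DC29
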