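import Pool.Agent.LibDC29.A2

/-!
[DC A3] `HL st x l` depends only on the class of the word `l`.
`mk G l = mk G l'` is `(addConGen (MRel G)) l l'` (`AddCon.eq`), and this is the inductive
relation `AddConGen.Rel (MRel G)` (`AddCon.addConGen_eq`, or `AddCon.addConGen_le` with the
`AddCon` whose relation is `R l l' := ∀ x, HL st x l ↔ HL st x l'`).  `R` is an additive
congruence: for sums use `HL.split` and `HL.add`.  It contains `MRel G`: for `v`, `S`:
`HL st x (single v 1)` gives with `HL.vx v` and `HL.conn` elements `w, w'` with `w w' = x`,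
`w' w = vx v`; then `HL.trans (HL.vx_sum v S h0 h)`.  Conversely `HL st x (∑ single (r f) 1)` and
`HL.vx_sum` give `w, w'`, and `HL.trans (HL.vx v)`.
-/

namespace DC29

open LPA74 Finsupp

variable {G : Gph} {st : Prop} {x : LA G} {l l' : G.V →₀ ℕ}

private theorem A3_add {l1 l1' l2 l2' : G.V →₀ ℕ} (h1 : ∀ x : LA G, HL st x l1 → HL st x l1')
    (h2 : ∀ x : LA G, HL st x l2 → HL st x l2') (x : LA G) (h : HL st x (l1 + l2)) :
    HL st x (l1' + l2') := by
  obtain ⟨x1, x2, hx, h12, h21, H1, H2⟩ := HL.split h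
  rw [hx]
  exact HL.add (h1 x1 H1) (h2 x2 H2) h12 h21

private def A3_con (G : Gph) (st : Prop) : AddCon (G.V →₀ ℕ) where
  r l l' := ∀ x : LA G, HL st x l ↔ HL st x l'
  iseqv := ⟨fun _ _ => Iff.rfl, fun h x => (h x).symm, fun h h' x => (h x).trans (h' x)⟩
  add' := fun h1 h2 x => ⟨A3_add (fun y => (h1 y).1) (fun y => (h2 y).1) x,
    A3_add (fun y => (h1 y).2) (fun y => (h2 y).2) x⟩

private theorem A3_le : addConGen (MRel G) ≤ A3_con G st := by
  refine AddCon.addConGen_le.2 ?_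
  rintro _ _ ⟨v, S, h0, h⟩
  intro x
  constructor
  · intro hx
    obtain ⟨w, w', h1, h2, h3, h4, h5⟩ := HL.conn hx (HL.vx v)
    exact HL.trans (HL.vx_sum v S h0 h) h1 h2 h3 h4 h5
  · intro hx
    obtain ⟨w, w', h1, h2, h3, h4, h5⟩ := HL.conn hx (HL.vx_sum v S h0 h)
    exact HL.trans (HL.vx v) h1 h2 h3 h4 h5

theorem HL.congr (h : HL st x l) (hm : mk G l = mk G l') : HL st x l' := by
  have h1 : (addConGen (MRel G)) l l' := (AddCon.eq _).1 hm
  have h2 : A3_con G st l l' := A3_le h1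
  exact (h2 x).1 h

end DC29
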