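import Pool.Agent.LibDC29.A3

/-!
[DC A4] Calculus of `Cl` and `SCl` (everything from `cl_iff`, `scl_iff`, `mk G` is surjective,
`HL.congr`, `HL.split`, `HL.conn`, `HL.trans`, `HL.add`).
`SEqv p q = SEqvIn ⊤ p q` is `∃ w, w w* = p ∧ w* w = q ∧ w w* w = w`; `Eqv` is in `LibLPA74/Pj`.
* `seqv`: `scl_iff`: words `l, l'` of the same class, `HL.congr`, `HL.conn`.
* `split`: choose words of class `m`, `n` (`AddCon.mk'_surjective`), `HL.congr`, `HL.split`; for
  `True` the parts are projections (`HL.pj`).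
* `splitSum`: induction on `s` (`Finset.induction_on`).
* `sum`: induction on `s`.
* `frame`: `splitSum` for `x`: projections `q i`, `SCl (q i) (m i)`, so `SEqv (q i) (y i)`
  by `SCl.seqv`: `g i` with `g i * star (g i) = q i`, `star (g i) * g i = y i`.
* `map`: `p = ∑ u i * star (u i)`; `Φ (u i * star (u i))` is `*`-equivalent (by `Φ (u i)`) to
  `Φ (vx (a i))`, which has class `t (mv (a i))`; `SCl.of_seqv`, `SCl.sum`.
* `Cl.eq_zero`: `mk G l = 0 = mk G 0`, `HL.congr`, `HL.eq_zero`.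
-/

namespace DC29

open LPA74 Finsupp

variable {G : Gph} {x x' p q : LA G} {m n : Mon G}

theorem mk_single_sum {ι : Type} (s : Finset ι) (a : ι → G.V) :
    mk G (∑ i ∈ s, single (a i) 1) = ∑ i ∈ s, mv (a i) := by
  rw [map_sum]
  rfl

theorem SCl.cl (h : SCl p m) : Cl p m := by
  obtain ⟨l, h1, h2⟩ := scl_iff.1 h
  exact cl_iff.2 ⟨l, h1.mono fun h => h.elim, h2⟩

theorem SCl.pj (h : SCl p m) : Pj p := by
  obtain ⟨l, h1, h2⟩ := scl_iff.1 h
  exact h1.pj

theorem Cl.idem (h : Cl x m) : x * x = x := by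
  obtain ⟨l, h1, h2⟩ := cl_iff.1 h
  exact h1.idem

theorem SCl.seqv (h : SCl p m) (h' : SCl q m) : SEqv p q := by
  obtain ⟨l, h1, h2⟩ := scl_iff.1 h
  obtain ⟨l', h1', h2'⟩ := scl_iff.1 h'
  have h3 := h1'.congr (h2'.trans h2.symm)
  obtain ⟨w, w', a1, a2, a3, a4, a5⟩ := h1.conn h3
  have a6 := a5 trivial
  subst a6
  exact ⟨w, trivial, a1, a2, a3⟩

theorem SCl.of_seqv (h : SCl p m) (h' : SEqv q p) : SCl q m := by
  obtain ⟨l, h1, h2⟩ := scl_iff.1 h
  obtain ⟨w, -, a1, a2, a3⟩ := h'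
  exact scl_iff.2 ⟨l, h1.trans a1 a2 a3 (seq_star a3) (fun _ => rfl), h2⟩

theorem Cl.eqv (h : Cl x m) (h' : Cl x' m) : Eqv x x' := by
  obtain ⟨l, h1, h2⟩ := cl_iff.1 h
  obtain ⟨l', h1', h2'⟩ := cl_iff.1 h'
  have h3 := h1'.congr (h2'.trans h2.symm)
  obtain ⟨w, w', a1, a2, a3, a4, a5⟩ := h1.conn h3
  exact ⟨w, w', a1, a2, a3, a4⟩

theorem Cl.of_eqv (h : Cl x m) (h' : Eqv x' x) : Cl x' m := by
  obtain ⟨l, h1, h2⟩ := cl_iff.1 h
  obtain ⟨w, w', a1, a2, a3, a4⟩ := h'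
  exact cl_iff.2 ⟨l, h1.trans a1 a2 a3 a4 (fun h => h.elim), h2⟩

theorem SCl.vx (v : G.V) : SCl (vx v : LA G) (mv v) := scl_iff.2 ⟨single v 1, HL.vx v, rfl⟩

theorem SCl.zero : SCl (0 : LA G) 0 := scl_iff.2 ⟨0, HL.zero, map_zero _⟩

theorem SCl.add (h : SCl p m) (h' : SCl q n) (h1 : p * q = 0) : SCl (p + q) (m + n) := by
  have h2 : q * p = 0 := by
    have h3 := congrArg star h1
    rwa [star_mul, h.pj.2, h'.pj.2, star_zero] at h3
  obtain ⟨l, a1, a2⟩ := scl_iff.1 h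
  obtain ⟨l', b1, b2⟩ := scl_iff.1 h'
  exact scl_iff.2 ⟨l + l', a1.add b1 h1 h2, by rw [map_add, a2, b2]⟩

theorem Cl.add (h : Cl x m) (h' : Cl x' n) (h1 : x * x' = 0) (h2 : x' * x = 0) :
    Cl (x + x') (m + n) := by
  obtain ⟨l, a1, a2⟩ := cl_iff.1 h
  obtain ⟨l', b1, b2⟩ := cl_iff.1 h'
  exact cl_iff.2 ⟨l + l', a1.add b1 h1 h2, by rw [map_add, a2, b2]⟩

theorem SCl.split (h : SCl p (m + n)) : ∃ p1 p2, p = p1 + p2 ∧ p1 * p2 = 0 ∧ p2 * p1 = 0 ∧
    SCl p1 m ∧ SCl p2 n := by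
  obtain ⟨l, a1, a2⟩ := scl_iff.1 h
  obtain ⟨a, ha⟩ : ∃ a, mk G a = m := AddCon.mk'_surjective m
  obtain ⟨b, hb⟩ : ∃ b, mk G b = n := AddCon.mk'_surjective n
  have h1 : mk G l = mk G (a + b) := by rw [a2, map_add, ha, hb]
  obtain ⟨x1, x2, c1, c2, c3, c4, c5⟩ := (a1.congr h1).split
  exact ⟨x1, x2, c1, c2, c3, scl_iff.2 ⟨a, c4, ha⟩, scl_iff.2 ⟨b, c5, hb⟩⟩

theorem SCl.splitSum {ι : Type} (s : Finset ι) (m : ι → Mon G) (h : SCl p (∑ i ∈ s, m i)) :
    ∃ q : ι → LA G, p = ∑ i ∈ s, q i ∧ (∀ i ∈ s, ∀ j ∈ s, i ≠ j → q i * q j = 0) ∧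
      ∀ i ∈ s, SCl (q i) (m i) := by
  classical
  induction s using Finset.induction_on generalizing p with
  | empty =>
    refine ⟨fun _ => 0, ?_, fun i hi => absurd hi (Finset.notMem_empty i),
      fun i hi => absurd hi (Finset.notMem_empty i)⟩
    rw [Finset.sum_empty] at h ⊢
    obtain ⟨l, a1, a2⟩ := scl_iff.1 h
    have h1 : mk G l = mk G 0 := by rw [a2, map_zero]
    exact (a1.congr h1).eq_zero
  | insert i s hi ih =>
    rw [Finset.sum_insert hi] at h
    obtain ⟨p1, p2, c1, c2, c3, c4, c5⟩ := h.split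
    obtain ⟨q, d1, d2, d3⟩ := ih c5
    have e1 : ∀ j ∈ s, p2 * q j = q j := by
      intro j hj
      rw [d1, Finset.sum_mul, Finset.sum_eq_single j (fun k hk hkj => d2 k hk j hj hkj)
        (fun h0 => absurd hj h0)]
      exact (d3 j hj).pj.1
    have e2 : ∀ j ∈ s, q j * p2 = q j := by
      intro j hj
      rw [d1, Finset.mul_sum, Finset.sum_eq_single j (fun k hk hkj => d2 j hj k hk hkj.symm)
        (fun h0 => absurd hj h0)]
      exact (d3 j hj).pj.1
    have e3 : ∀ j ∈ s, p1 * q j = 0 := fun j hj => by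
      rw [← e1 j hj, ← mul_assoc, c2, zero_mul]
    have e4 : ∀ j ∈ s, q j * p1 = 0 := fun j hj => by
      rw [← e2 j hj, mul_assoc, c3, mul_zero]
    have hne : ∀ j ∈ s, j ≠ i := fun j hj h0 => hi (h0 ▸ hj)
    refine ⟨fun j => if j = i then p1 else q j, ?_, ?_, ?_⟩
    · rw [Finset.sum_insert hi, if_pos rfl, c1]
      refine congrArg (p1 + ·) ?_
      rw [d1]
      exact Finset.sum_congr rfl fun j hj => by rw [if_neg (hne j hj)]
    · intro j hj k hk hjk
      beta_reduce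
      rw [Finset.mem_insert] at hj hk
      rcases hj with rfl | hj
      · rcases hk with rfl | hk
        · exact absurd rfl hjk
        · rw [if_pos rfl, if_neg (hne k hk)]
          exact e3 k hk
      · rcases hk with rfl | hk
        · rw [if_pos rfl, if_neg (hne j hj)]
          exact e4 j hj
        · rw [if_neg (hne j hj), if_neg (hne k hk)]
          exact d2 j hj k hk hjk
    · intro j hj
      beta_reduce
      rw [Finset.mem_insert] at hj
      rcases hj with rfl | hj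
      · rw [if_pos rfl]
        exact c4
      · rw [if_neg (hne j hj)]
        exact d3 j hj

theorem SCl.sum {ι : Type} (s : Finset ι) (q : ι → LA G) (m : ι → Mon G)
    (h : ∀ i ∈ s, SCl (q i) (m i)) (ho : ∀ i ∈ s, ∀ j ∈ s, i ≠ j → q i * q j = 0) :
    SCl (∑ i ∈ s, q i) (∑ i ∈ s, m i) := by
  classical
  induction s using Finset.induction_on with
  | empty =>
    rw [Finset.sum_empty, Finset.sum_empty]
    exact SCl.zero
  | insert i s hi ih =>
    rw [Finset.sum_insert hi, Finset.sum_insert hi]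
    refine (h i (Finset.mem_insert_self i s)).add (ih
      (fun j hj => h j (Finset.mem_insert_of_mem hj))
      (fun j hj k hk => ho j (Finset.mem_insert_of_mem hj) k (Finset.mem_insert_of_mem hk))) ?_
    rw [Finset.mul_sum]
    exact Finset.sum_eq_zero fun j hj => ho i (Finset.mem_insert_self i s) j
      (Finset.mem_insert_of_mem hj) fun h0 => hi (h0 ▸ hj)

theorem Cl.zero : Cl (0 : LA G) 0 := SCl.zero.cl

theorem Cl.sum {ι : Type} (s : Finset ι) (q : ι → LA G) (m : ι → Mon G)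
    (h : ∀ i ∈ s, Cl (q i) (m i)) (ho : ∀ i ∈ s, ∀ j ∈ s, i ≠ j → q i * q j = 0) :
    Cl (∑ i ∈ s, q i) (∑ i ∈ s, m i) := by
  classical
  induction s using Finset.induction_on with
  | empty =>
    rw [Finset.sum_empty, Finset.sum_empty]
    exact Cl.zero
  | insert i s hi ih =>
    rw [Finset.sum_insert hi, Finset.sum_insert hi]
    refine (h i (Finset.mem_insert_self i s)).add (ih
      (fun j hj => h j (Finset.mem_insert_of_mem hj))
      (fun j hj k hk => ho j (Finset.mem_insert_of_mem hj) k (Finset.mem_insert_of_mem hk))) ?_ ?_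
    · rw [Finset.mul_sum]
      exact Finset.sum_eq_zero fun j hj => ho i (Finset.mem_insert_self i s) j
        (Finset.mem_insert_of_mem hj) fun h0 => hi (h0 ▸ hj)
    · rw [Finset.sum_mul]
      exact Finset.sum_eq_zero fun j hj => ho j (Finset.mem_insert_of_mem hj) i
        (Finset.mem_insert_self i s) fun h0 => hi (h0 ▸ hj)

open Classical in
theorem SCl.frame {ι : Type} (s : Finset ι) (m : ι → Mon G) (y : ι → LA G)
    (hx : SCl x (∑ i ∈ s, m i)) (hy : ∀ i ∈ s, SCl (y i) (m i)) :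
    ∃ g : ι → LA G, x = ∑ i ∈ s, g i * star (g i) ∧
      (∀ i ∈ s, ∀ j ∈ s, star (g i) * g j = if i = j then y i else 0) ∧
      ∀ i ∈ s, g i * y i = g i ∧ x * g i = g i := by
  obtain ⟨q, h1, h2, h3⟩ := hx.splitSum
  have h4 : ∀ i : ι, ∃ g : LA G, i ∈ s →
      g * star g = q i ∧ star g * g = y i ∧ g * star g * g = g := by
    intro i
    by_cases hi : i ∈ s
    · obtain ⟨g, -, a1, a2, a3⟩ := (h3 i hi).seqv (hy i hi)
      exact ⟨g, fun _ => ⟨a1, a2, a3⟩⟩
    · exact ⟨0, fun h0 => absurd h0 hi⟩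
  choose g hg using h4
  refine ⟨g, ?_, ?_, ?_⟩
  · rw [h1]
    exact Finset.sum_congr rfl fun i hi => (hg i hi).1.symm
  · intro i hi j hj
    obtain ⟨a1, a2, a3⟩ := hg i hi
    obtain ⟨b1, b2, b3⟩ := hg j hj
    split_ifs with hij
    · rw [← hij]
      exact a2
    · calc star (g i) * g j = (star (g i) * g i * star (g i)) * (g j * star (g j) * g j) := by
            rw [seq_star a3, b3]
        _ = star (g i) * ((g i * star (g i)) * (g j * star (g j))) * g j := by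
            simp only [mul_assoc]
        _ = 0 := by rw [a1, b1, h2 i hi j hj hij, mul_zero, zero_mul]
  · intro i hi
    obtain ⟨a1, a2, a3⟩ := hg i hi
    refine ⟨?_, ?_⟩
    · rw [← a2, ← mul_assoc, a3]
    · rw [h1, Finset.sum_mul, Finset.sum_eq_single i]
      · rw [← a1, a3]
      · intro j hj hji
        rw [← a3, a1, ← mul_assoc, h2 j hj i hi hji, zero_mul]
      · intro h0
        exact absurd hi h0

theorem Cl.eq_zero (h : Cl x 0) : x = 0 := by
  obtain ⟨l, a1, a2⟩ := cl_iff.1 h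
  have h1 : mk G l = mk G 0 := by rw [a2, map_zero]
  exact (a1.congr h1).eq_zero

theorem SCl.eS (S : Finset G.V) : SCl (eS S : LA G) (∑ v ∈ S, mv v) :=
  SCl.sum S (fun v => LPA74.vx v) (fun v => mv v) (fun v _ => SCl.vx v)
    (fun _ _ _ _ h => vx_mul_ne h)

theorem SCl.map {G' : Gph} (Φ : LA G →⋆ₙₐ[ℂ] LA G') (t : Mon G →+ Mon G')
    (h : ∀ v, SCl (Φ (LPA74.vx v)) (t (mv v))) (hp : SCl p m) : SCl (Φ p) (t m) := by
  obtain ⟨n, a, u, h1, h2, h3, h4⟩ := hp
  have h5 : Φ p = ∑ i, Φ (u i) * star (Φ (u i)) := by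
    rw [h1, map_sum]
    exact Finset.sum_congr rfl fun i _ => by rw [map_mul, map_star]
  have h6 : t m = ∑ i, t (mv (a i)) := by rw [h4, map_sum]
  have h7 : ∀ i, star (Φ (u i)) * Φ (u i) = Φ (LPA74.vx (a i)) := by
    intro i
    rw [← map_star, ← map_mul, h2, if_pos rfl]
  have h8 : ∀ i, Φ (u i) * Φ (LPA74.vx (a i)) = Φ (u i) := by
    intro i
    rw [← map_mul, h3]
  rw [h5, h6]
  refine SCl.sum Finset.univ _ _ (fun i _ => ?_) fun i _ j _ hij => ?_
  · refine (h (a i)).of_seqv ⟨Φ (u i), trivial, rfl, h7 i, ?_⟩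
    rw [mul_assoc, h7, h8]
  · have h9 : star (Φ (u i)) * Φ (u j) = 0 := by
      rw [← map_star, ← map_mul, h2, if_neg hij, map_zero]
    calc Φ (u i) * star (Φ (u i)) * (Φ (u j) * star (Φ (u j)))
        = Φ (u i) * (star (Φ (u i)) * Φ (u j)) * star (Φ (u j)) := by simp only [mul_assoc]
      _ = 0 := by rw [h9, mul_zero, zero_mul]

end DC29
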