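import Pool.Agent.LibDC29.Defs

/-!
# The graph monoid of a row-finite graph whose only cycles are loops (section 2 of the page)

`Reds hG R a b`: the finite family `b` of vertices is obtained from `a` by replacing vertices in
`R` by the ranges of the edges out of them.
-/

namespace DC29

open LPA74 Finsupp Relation Classical

variable {G : Gph}

/-- the ranges of the edges out of `v`. -/
noncomputable def outs (hG : LG G) (v : G.V) : G.V →₀ ℕ :=
  ∑ f ∈ (hG.rf v).toFinset, single (G.r f) 1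

/-- the ranges of the exits of `v`. -/
noncomputable def wv (hG : LG G) (v : G.V) : G.V →₀ ℕ := ∑ f ∈ exs hG v, single (G.r f) 1

/-- one step: a regular vertex `v ∈ R` is replaced by the ranges of the edges out of it. -/
def Red (hG : LG G) (R : Set G.V) (a b : G.V →₀ ℕ) : Prop :=
  ∃ v ∈ R, (∃ f, G.s f = v) ∧ ∃ x, a = single v 1 + x ∧ b = outs hG v + x

/-- several steps. -/
abbrev Reds (hG : LG G) (R : Set G.V) : (G.V →₀ ℕ) → (G.V →₀ ℕ) → Prop :=
  ReflTransGen (Red hG R)

variable {hG : LG G} {R : Set G.V}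

theorem Red.add_right {a b : G.V →₀ ℕ} (h : Red hG R a b) (x : G.V →₀ ℕ) :
    Red hG R (a + x) (b + x) := by
  obtain ⟨v, hv, hr, y, rfl, rfl⟩ := h
  exact ⟨v, hv, hr, y + x, by rw [add_assoc], by rw [add_assoc]⟩

theorem Reds.add_right {a b : G.V →₀ ℕ} (h : Reds hG R a b) (x : G.V →₀ ℕ) :
    Reds hG R (a + x) (b + x) := by
  induction h with
  | refl => exact .refl
  | tail _ h ih => exact ih.tail (h.add_right x)

theorem Reds.add {a b a' b' : G.V →₀ ℕ} (h : Reds hG R a b) (h' : Reds hG R a' b') :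
    Reds hG R (a + a') (b + b') := by
  refine (h.add_right a').trans ?_
  rw [add_comm b, add_comm b]
  exact h'.add_right b

theorem Reds.sum {ι : Type*} (s : Finset ι) {a b : ι → G.V →₀ ℕ}
    (h : ∀ i ∈ s, Reds hG R (a i) (b i)) : Reds hG R (∑ i ∈ s, a i) (∑ i ∈ s, b i) := by
  induction s using Finset.induction_on with
  | empty => exact .refl
  | insert i s hi ih =>
    rw [Finset.sum_insert hi, Finset.sum_insert hi]
    exact (h i (by simp)).add (ih fun j hj => h j (by simp [hj]))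

theorem Reds.nsmul {a b : G.V →₀ ℕ} (h : Reds hG R a b) (n : ℕ) :
    Reds hG R (n • a) (n • b) := by
  induction n with
  | zero => rw [zero_smul, zero_smul]
  | succ n ih => rw [succ_nsmul, succ_nsmul]; exact ih.add h

theorem Red.mono {R' : Set G.V} (hR : R ⊆ R') {a b : G.V →₀ ℕ} (h : Red hG R a b) :
    Red hG R' a b := by
  obtain ⟨v, hv, h⟩ := h
  exact ⟨v, hR hv, h⟩

theorem Reds.mono {R' : Set G.V} (hR : R ⊆ R') {a b : G.V →₀ ℕ} (h : Reds hG R a b) :
    Reds hG R' a b := by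
  induction h with
  | refl => exact .refl
  | tail _ h ih => exact ih.tail (h.mono hR)

/-- only finitely many vertices are used. -/
theorem Reds.fin {a b : G.V →₀ ℕ} (h : Reds hG R a b) :
    ∃ S : Finset G.V, (S : Set G.V) ⊆ R ∧ Reds hG (S : Set G.V) a b := by
  induction h with
  | refl => exact ⟨∅, by simp, .refl⟩
  | tail _ h ih =>
    obtain ⟨S, hS, h1⟩ := ih
    obtain ⟨v, hv, h2⟩ := h
    refine ⟨insert v S, ?_, ?_⟩
    · intro w hw
      rcases Finset.mem_insert.1 (Finset.mem_coe.1 hw) with rfl | hw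
      · exact hv
      · exact hS hw
    · exact (h1.mono (by simp)).tail ⟨v, by simp, h2⟩

theorem single_le_of {v : G.V} {a x d : G.V →₀ ℕ} (h : single v 1 + x = a + d) :
    (∃ y, a = single v 1 + y ∧ x = y + d) ∨ (∃ y, d = single v 1 + y ∧ x = a + y) := by
  by_cases ha : a v = 0
  · right
    have h1 := DFunLike.congr_fun h v
    have hd : 1 ≤ d v := by
      simp only [Finsupp.coe_add, Pi.add_apply, single_eq_same, ha] at h1
      omega
    have hle : single v 1 ≤ d := by
      rw [Finsupp.single_le_iff]; exact hd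
    obtain ⟨y, hy⟩ := exists_add_of_le hle
    refine ⟨y, hy, ?_⟩
    rw [hy, ← add_assoc, add_comm a, add_assoc] at h
    exact add_left_cancel h
  · left
    have hle : single v 1 ≤ a := by
      rw [Finsupp.single_le_iff]; omega
    obtain ⟨y, hy⟩ := exists_add_of_le hle
    refine ⟨y, hy, ?_⟩
    rw [hy, add_assoc] at h
    exact add_left_cancel h

/-- steps from a sum split. -/
theorem Reds.split {a a' d : G.V →₀ ℕ} (h : Reds hG R (a + a') d) :
    ∃ e e', d = e + e' ∧ Reds hG R a e ∧ Reds hG R a' e' := by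
  induction h with
  | refl => exact ⟨a, a', rfl, .refl, .refl⟩
  | tail _ h ih =>
    obtain ⟨e, e', rfl, h1, h2⟩ := ih
    obtain ⟨v, hv, hr, x, hx, rfl⟩ := h
    rcases single_le_of hx.symm with ⟨y, rfl, rfl⟩ | ⟨y, rfl, rfl⟩
    · exact ⟨outs hG v + y, e', by rw [add_assoc], h1.tail ⟨v, hv, hr, y, rfl, rfl⟩, h2⟩
    · exact ⟨e, outs hG v + y, by rw [add_left_comm], h1, h2.tail ⟨v, hv, hr, y, rfl, rfl⟩⟩

theorem Reds.zero {d : G.V →₀ ℕ} (h : Reds hG R 0 d) : d = 0 := by
  induction h with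
  | refl => rfl
  | tail _ h ih =>
    subst ih
    obtain ⟨v, hv, hr, x, hx, rfl⟩ := h
    have := DFunLike.congr_fun hx v
    simp only [Finsupp.coe_zero, Pi.zero_apply, Finsupp.coe_add, Pi.add_apply,
      single_eq_same] at this
    omega

theorem Reds.splitSum {n : ℕ} {a : Fin n → G.V →₀ ℕ} {d : G.V →₀ ℕ}
    (h : Reds hG R (∑ i, a i) d) :
    ∃ e : Fin n → G.V →₀ ℕ, d = ∑ i, e i ∧ ∀ i, Reds hG R (a i) (e i) := by
  induction n generalizing d with
  | zero =>
    refine ⟨fun _ => 0, ?_, fun i => i.elim0⟩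
    rw [Finset.univ_eq_empty, Finset.sum_empty] at h
    rw [h.zero]; simp
  | succ n ih =>
    rw [Fin.sum_univ_succ] at h
    obtain ⟨e, e', rfl, h1, h2⟩ := h.split
    obtain ⟨f, rfl, hf⟩ := ih h2
    refine ⟨Fin.cons e f, ?_, ?_⟩
    · rw [Fin.sum_univ_succ]; simp
    · intro i
      refine Fin.cases ?_ (fun i => ?_) i
      · simpa using h1
      · simpa using hf i

/-- confluence. -/
theorem Red.diamond {a b c : G.V →₀ ℕ} (h : Red hG R a b) (h' : Red hG R a c) :
    ∃ d, ReflGen (Red hG R) b d ∧ ReflTransGen (Red hG R) c d := by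
  obtain ⟨v, hv, hr, x, rfl, rfl⟩ := h
  obtain ⟨w, hw, hr', y, hxy, rfl⟩ := h'
  by_cases hvw : v = w
  · subst hvw
    have := add_left_cancel hxy
    subst this
    exact ⟨_, .refl, .refl⟩
  · have h1 : single w 1 + y = single v 1 + x := hxy.symm
    rcases single_le_of h1 with ⟨z, hz, rfl⟩ | ⟨z, rfl, rfl⟩
    · exfalso
      have := DFunLike.congr_fun hz w
      simp only [Finsupp.coe_add, Pi.add_apply, single_eq_same] at this
      rw [single_apply, if_neg hvw] at this
      omega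
    · refine ⟨outs hG v + (outs hG w + z), .single ?_, .single ?_⟩
      · refine ⟨w, hw, hr', outs hG v + z, ?_, ?_⟩
        · rw [add_left_comm]
        · rw [add_left_comm]
      · exact ⟨v, hv, hr, outs hG w + z, by rw [add_left_comm], rfl⟩

theorem Reds.confl {a b c : G.V →₀ ℕ} (h : Reds hG R a b) (h' : Reds hG R a c) :
    ∃ d, Reds hG R b d ∧ Reds hG R c d :=
  church_rosser (fun _ _ _ h h' => h.diamond h') h h'

/-- the congruence: having a common reduct. -/
noncomputable def joinCon (hG : LG G) (R : Set G.V) : AddCon (G.V →₀ ℕ) where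
  r := Join (ReflTransGen (Red hG R))
  iseqv := equivalence_join_reflTransGen fun _ _ _ h h' => h.diamond h'
  add' := by
    rintro a b c d ⟨x, h1, h2⟩ ⟨y, h3, h4⟩
    exact ⟨x + y, Reds.add h1 h3, Reds.add h2 h4⟩

theorem mk_outs {v : G.V} (hv : ∃ f, G.s f = v) : mk G (outs hG v) = mk G (single v 1) := by
  symm
  refine (AddCon.eq _).2 (AddConGen.Rel.of _ _ ?_)
  obtain ⟨f, hf⟩ := hv
  exact MRel.mk v _ ⟨f, by simpa using hf⟩ (by simp)

theorem Reds.mk_eq {a b : G.V →₀ ℕ} (h : Reds hG R a b) : mk G a = mk G b := by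
  induction h with
  | refl => rfl
  | tail _ h ih =>
    rw [ih]
    obtain ⟨v, hv, hr, x, rfl, rfl⟩ := h
    rw [map_add, map_add, mk_outs hr]

theorem mk_eq_iff {a b : G.V →₀ ℕ} :
    mk G a = mk G b ↔ ∃ d, Reds hG Set.univ a d ∧ Reds hG Set.univ b d := by
  constructor
  · intro h
    have h1 : addConGen (MRel G) a b := (AddCon.eq _).1 h
    have h2 : addConGen (MRel G) ≤ joinCon hG Set.univ := by
      rw [AddCon.addConGen_le]
      rintro x y ⟨v, S, h0, hS⟩
      refine ⟨∑ f ∈ S, single (G.r f) 1, .single ?_, .refl⟩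
      obtain ⟨f, hf⟩ := h0
      refine ⟨v, trivial, ⟨f, (hS f).1 hf⟩, 0, by simp, ?_⟩
      rw [add_zero, outs]
      refine Finset.sum_congr ?_ fun _ _ => rfl
      ext g; simp [hS]
    exact h2 h1
  · rintro ⟨d, h1, h2⟩
    rw [h1.mk_eq, h2.mk_eq]

theorem mk_surj (m : Mon G) : ∃ a, mk G a = m := AddCon.mk'_surjective m

/-! ## Supports -/

theorem mem_outs {v w : G.V} : w ∈ (outs hG v).support ↔ ∃ f, G.s f = v ∧ G.r f = w := by
  rw [Finsupp.mem_support_iff, outs, Finsupp.finsetSum_apply]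
  constructor
  · intro h
    obtain ⟨f, hf, h1⟩ := Finset.exists_ne_zero_of_sum_ne_zero h
    refine ⟨f, by simpa using hf, ?_⟩
    by_contra h2
    exact h1 (by rw [single_apply, if_neg h2])
  · rintro ⟨f, hf, h1⟩ h
    have h2 := Finset.sum_eq_zero_iff.1 h f (by simpa using hf)
    rw [single_apply, if_pos h1] at h2
    omega

theorem mem_wv {v w : G.V} : w ∈ (wv hG v).support ↔ ∃ f, f ∈ exs hG v ∧ G.r f = w := by
  rw [Finsupp.mem_support_iff, wv, Finsupp.finsetSum_apply]
  constructor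
  · intro h
    obtain ⟨f, hf, h1⟩ := Finset.exists_ne_zero_of_sum_ne_zero h
    refine ⟨f, hf, ?_⟩
    by_contra h2
    exact h1 (by rw [single_apply, if_neg h2])
  · rintro ⟨f, hf, h1⟩ h
    have h2 := Finset.sum_eq_zero_iff.1 h f hf
    rw [single_apply, if_pos h1] at h2
    omega

theorem mem_exs {c : G.V} {f : G.Ed} : f ∈ exs hG c ↔ G.s f = c ∧ G.r f ≠ c := by
  simp [exs]

theorem mem_support_add {a b : G.V →₀ ℕ} {v : G.V} :
    v ∈ (a + b).support ↔ v ∈ a.support ∨ v ∈ b.support := by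
  simp only [Finsupp.mem_support_iff, Finsupp.coe_add, Pi.add_apply]
  omega

theorem mem_support_sum {ι : Type*} (s : Finset ι) {a : ι → G.V →₀ ℕ} {v : G.V} :
    v ∈ (∑ i ∈ s, a i).support ↔ ∃ i ∈ s, v ∈ (a i).support := by
  induction s using Finset.induction_on with
  | empty => simp
  | insert i s hi ih =>
    rw [Finset.sum_insert hi, mem_support_add, ih]
    simp

theorem mem_support_nsmul {n : ℕ} {a : G.V →₀ ℕ} {v : G.V}
    (h : v ∈ (n • a).support) : v ∈ a.support := by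
  rw [Finsupp.mem_support_iff] at h ⊢
  intro h1
  exact h (by simp [h1])

theorem outs_lp {c : G.V} (hc : IsLp G c) : outs hG c = single c 1 + wv hG c := by
  obtain ⟨f, hf, hf'⟩ := hc
  have h1 : (hG.rf c).toFinset = insert f (exs hG c) := by
    ext g
    simp only [Set.Finite.mem_toFinset, Set.mem_ofPred_eq, Finset.mem_insert, mem_exs]
    constructor
    · intro hg
      by_cases hr : G.r g = c
      · left
        exact hG.one g f (hg.trans hr.symm) (hf.trans hg.symm) (hf'.trans hg.symm)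
      · exact .inr ⟨hg, hr⟩
    · rintro (rfl | h)
      · exact hf
      · exact h.1
  have h2 : f ∉ exs hG c := by
    rw [mem_exs]; exact fun h => h.2 hf'
  rw [outs, h1, Finset.sum_insert h2, hf', wv]

theorem mk_wv (c : G.V) : mk G (wv hG c) = wm hG c := by
  rw [wv, wm, map_sum]; rfl

/-- `u` is strictly below `s`. -/
def St (G : Gph) (s u : G.V) : Prop := Rch G s u ∧ s ≠ u

theorem St.trans_rch (hG : LG G) {a b c : G.V} (h : St G a b) (h' : Rch G b c) : St G a c := by
  refine ⟨h.1.trans h', ?_⟩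
  rintro rfl
  exact h.2 (hG.cyc _ _ h.1 h')

theorem St.of_rch (hG : LG G) {a b c : G.V} (h : Rch G a b) (h' : St G b c) : St G a c := by
  refine ⟨h.trans h'.1, ?_⟩
  rintro rfl
  exact h'.2 (hG.cyc _ _ h'.1 h)

theorem st_exs {c : G.V} {f : G.Ed} (hf : f ∈ exs hG c) : St G c (G.r f) :=
  ⟨.single ⟨f, (mem_exs.1 hf).1, rfl⟩, fun h => (mem_exs.1 hf).2 h.symm⟩

theorem st_wv {c v : G.V} (hv : v ∈ (wv hG c).support) : St G c v := by
  obtain ⟨f, hf, rfl⟩ := mem_wv.1 hv
  exact st_exs hf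

theorem Reds.supp {a b : G.V →₀ ℕ} (h : Reds hG R a b) {w : G.V} (hw : w ∈ b.support) :
    ∃ v ∈ a.support, Rch G v w := by
  induction h generalizing w with
  | refl => exact ⟨w, hw, .refl⟩
  | tail _ h ih =>
    obtain ⟨v, hv, hr, x, rfl, rfl⟩ := h
    rcases mem_support_add.1 hw with hw | hw
    · obtain ⟨f, hf, rfl⟩ := mem_outs.1 hw
      obtain ⟨u, hu, hu'⟩ := ih (w := v) (mem_support_add.2 (.inl (by simp)))
      exact ⟨u, hu, hu'.tail ⟨f, hf, rfl⟩⟩
    · exact ih (mem_support_add.2 (.inr hw))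

theorem Reds.supp' {a b : G.V →₀ ℕ} (h : Reds hG R a b) {v : G.V} (hv : v ∈ a.support) :
    ∃ w ∈ b.support, Rch G v w := by
  induction h with
  | refl => exact ⟨v, hv, .refl⟩
  | tail _ h ih =>
    obtain ⟨w, hw, hvw⟩ := ih
    obtain ⟨u, hu, ⟨f, hf⟩, x, rfl, rfl⟩ := h
    rcases mem_support_add.1 hw with hw | hw
    · have : w = u := by
        by_contra h
        rw [Finsupp.mem_support_iff, single_apply, if_neg (Ne.symm h)] at hw
        exact hw rfl
      subst this
      exact ⟨G.r f, mem_support_add.2 (.inl (mem_outs.2 ⟨f, hf, rfl⟩)), hvw.tail ⟨f, hf, rfl⟩⟩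
    · exact ⟨w, mem_support_add.2 (.inr hw), hvw⟩

/-- loop vertices persist. -/
theorem Reds.lp {a b : G.V →₀ ℕ} (h : Reds hG R a b) {c : G.V} (hc : IsLp G c)
    (hca : c ∈ a.support) : c ∈ b.support := by
  induction h with
  | refl => exact hca
  | tail _ h ih =>
    obtain ⟨u, hu, _, x, rfl, rfl⟩ := h
    rcases mem_support_add.1 ih with hw | hw
    · have : c = u := by
        by_contra h
        rw [Finsupp.mem_support_iff, single_apply, if_neg (Ne.symm h)] at hw
        exact hw rfl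
      subst this
      refine mem_support_add.2 (.inl (mem_outs.2 ?_))
      exact hc
    · exact mem_support_add.2 (.inr hw)

/-- reducts of a loop vertex. -/
theorem Reds.of_lp {c : G.V} (hc : IsLp G c) {x : G.V →₀ ℕ} (h : Reds hG R (single c 1) x) :
    ∃ (k : ℕ) (e : G.V →₀ ℕ), x = single c 1 + e ∧ Reds hG R (k • wv hG c) e := by
  induction h with
  | refl => exact ⟨0, 0, by simp, by rw [zero_smul]⟩
  | tail _ h ih =>
    obtain ⟨k, e, rfl, he⟩ := ih
    obtain ⟨v, hv, hr, y, hy, rfl⟩ := h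
    by_cases hvc : v = c
    · subst hvc
      have := add_left_cancel hy
      subst this
      refine ⟨k + 1, wv hG v + e, ?_, ?_⟩
      · rw [outs_lp hc, add_assoc]
      · rw [succ_nsmul, add_comm]
        exact Reds.add .refl he
    · rcases single_le_of hy.symm with ⟨z, hz, rfl⟩ | ⟨z, rfl, rfl⟩
      · exfalso
        have := DFunLike.congr_fun hz v
        simp only [Finsupp.coe_add, Pi.add_apply, single_eq_same] at this
        rw [single_apply, if_neg (Ne.symm hvc)] at this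
        omega
      · exact ⟨k, outs hG v + z, by rw [add_left_comm], he.tail ⟨v, hv, hr, z, rfl, rfl⟩⟩

/-! ## The order -/

theorem Le.rfl' (m : Mon G) : Le m m := ⟨0, add_zero m⟩

theorem Le.trans' {a b c : Mon G} (h : Le a b) (h' : Le b c) : Le a c := by
  obtain ⟨x, rfl⟩ := h
  obtain ⟨y, rfl⟩ := h'
  exact ⟨x + y, by rw [add_assoc]⟩

theorem Le.add' {a b c d : Mon G} (h : Le a b) (h' : Le c d) : Le (a + c) (b + d) := by
  obtain ⟨x, rfl⟩ := h
  obtain ⟨y, rfl⟩ := h'
  exact ⟨x + y, by abel⟩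

theorem Le.sum' {ι : Type*} (s : Finset ι) {a b : ι → Mon G} (h : ∀ i ∈ s, Le (a i) (b i)) :
    Le (∑ i ∈ s, a i) (∑ i ∈ s, b i) := by
  induction s using Finset.induction_on with
  | empty => exact .rfl' _
  | insert i s hi ih =>
    rw [Finset.sum_insert hi, Finset.sum_insert hi]
    exact (h i (by simp)).add' (ih fun j hj => h j (by simp [hj]))

theorem Le.nsmul' {a b : Mon G} (h : Le a b) (n : ℕ) : Le (n • a) (n • b) := by
  obtain ⟨x, rfl⟩ := h
  exact ⟨n • x, by rw [nsmul_add]⟩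

theorem mk_eq_sum (a : G.V →₀ ℕ) : mk G a = ∑ v ∈ a.support, a v • (mv v : Mon G) := by
  conv_lhs => rw [← Finsupp.sum_single a]
  rw [Finsupp.sum, map_sum]
  refine Finset.sum_congr rfl fun v _ => ?_
  rw [mv, ← map_nsmul]
  congr 1
  simp

theorem mk_le_of {a : G.V →₀ ℕ} {m : Mon G} (h : ∀ v ∈ a.support, Le (mv v) m) :
    Le (mk G a) ((∑ v ∈ a.support, a v) • m) := by
  rw [mk_eq_sum, Finset.sum_smul]
  exact Le.sum' _ fun v hv => (h v hv).nsmul' _

theorem le_mk_of_mem {a : G.V →₀ ℕ} {v : G.V} (h : v ∈ a.support) : Le (mv v) (mk G a) := by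
  have hle : single v 1 ≤ a := by
    rw [Finsupp.single_le_iff]
    rw [Finsupp.mem_support_iff] at h; omega
  obtain ⟨y, rfl⟩ := exists_add_of_le hle
  exact ⟨mk G y, by rw [map_add]; rfl⟩

theorem le_of_rch (hG : LG G) {v w : G.V} (h : Rch G v w) : Le (mv w : Mon G) (mv v) := by
  induction h with
  | refl => exact .rfl' _
  | tail _ h ih =>
    refine Le.trans' ?_ ih
    obtain ⟨f, rfl, rfl⟩ := h
    have h1 : mk G (outs hG (G.s f)) = mv (G.s f) := mk_outs ⟨f, rfl⟩
    rw [← h1]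
    exact le_mk_of_mem (mem_outs.2 ⟨f, rfl, rfl⟩)

theorem rch_of_le (hG : LG G) {c v : G.V} (hc : IsLp G c) (h : Le (mv c : Mon G) (mv v)) :
    Rch G v c := by
  obtain ⟨z, hz⟩ := h
  obtain ⟨z, rfl⟩ := mk_surj z
  rw [mv, mv, ← map_add] at hz
  obtain ⟨d, h1, h2⟩ := (mk_eq_iff (hG := hG)).1 hz
  have h3 := h1.lp hc (mem_support_add.2 (.inl (by simp)))
  obtain ⟨u, hu, hu'⟩ := h2.supp h3
  have : u = v := by
    by_contra h
    rw [Finsupp.mem_support_iff, single_apply, if_neg (Ne.symm h)] at hu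
    exact hu rfl
  rwa [this] at hu'

/-- **M5** -/
theorem M5 (hG : LG G) {c v : G.V} (hc : IsLp G c) :
    Le (mv c : Mon G) (mv v) ↔ Rch G v c :=
  ⟨rch_of_le hG hc, le_of_rch hG⟩

theorem mk_eq_zero {a : G.V →₀ ℕ} (hG : LG G) (h : mk G a = 0) : a = 0 := by
  have h' : mk G a = mk G 0 := by rw [h, map_zero]
  obtain ⟨d, h1, h2⟩ := (mk_eq_iff (hG := hG)).1 h'
  rw [h2.zero] at h1
  by_contra ha
  obtain ⟨v, hv⟩ := Finsupp.support_nonempty_iff.2 ha
  obtain ⟨w, hw, _⟩ := h1.supp' hv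
  simp at hw

/-- the monoid is conical. -/
theorem conical (hG : LG G) {m n : Mon G} (h : m + n = 0) : m = 0 := by
  obtain ⟨a, rfl⟩ := mk_surj m
  obtain ⟨b, rfl⟩ := mk_surj n
  rw [← map_add] at h
  have := mk_eq_zero hG h
  have h2 : a = 0 := by
    ext v
    have := DFunLike.congr_fun this v
    simp only [Finsupp.coe_add, Pi.add_apply, Finsupp.coe_zero, Pi.zero_apply] at this ⊢
    omega
  rw [h2, map_zero]

theorem mv_ne_zero (hG : LG G) (v : G.V) : (mv v : Mon G) ≠ 0 := by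
  intro h
  have := mk_eq_zero hG h
  rw [Finsupp.single_eq_zero] at this
  omega

/-- loop vertices are prime. -/
theorem lp_le_sum (hG : LG G) {c : G.V} (hc : IsLp G c) {n : ℕ} {x : Fin n → Mon G}
    (h : Le (mv c) (∑ i, x i)) : ∃ i, Le (mv c) (x i) := by
  choose y hy using fun i => mk_surj (x i)
  obtain ⟨z, hz⟩ := h
  obtain ⟨z, rfl⟩ := mk_surj z
  rw [mv, ← map_add, ← Finset.sum_congr rfl fun i _ => hy i, ← map_sum] at hz
  obtain ⟨d, h1, h2⟩ := (mk_eq_iff (hG := hG)).1 hz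
  have h3 := h1.lp hc (mem_support_add.2 (.inl (by simp)))
  obtain ⟨e, rfl, he⟩ := h2.splitSum
  obtain ⟨i, _, hi⟩ := (mem_support_sum _).1 h3
  refine ⟨i, ?_⟩
  rw [← hy i, (he i).mk_eq]
  exact le_mk_of_mem hi

theorem lp_le_nsmul (hG : LG G) {c : G.V} (hc : IsLp G c) {n : ℕ} {x : Mon G}
    (h : Le (mv c) (n • x)) : Le (mv c) x := by
  have : n • x = ∑ _i : Fin n, x := by simp
  rw [this] at h
  exact (lp_le_sum hG hc h).choose_spec

/-! ## The small elements below a loop vertex -/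

/-- `x` is represented by vertices strictly below `c`. -/
def Sm (G : Gph) (c : G.V) (x : Mon G) : Prop :=
  ∃ a : G.V →₀ ℕ, mk G a = x ∧ ∀ v ∈ a.support, St G c v

theorem Sm.le (hG : LG G) {c : G.V} {x : Mon G} (h : Sm G c x) :
    ∃ n : ℕ, Le x (n • wm hG c) := by
  obtain ⟨a, rfl, ha⟩ := h
  refine ⟨_, mk_le_of fun v hv => ?_⟩
  obtain ⟨h1, h2⟩ := ha v hv
  -- the first step of the path which is not the loop
  have key : ∀ {w : G.V}, Rch G c w → c = w ∨ ∃ f ∈ exs hG c, Rch G (G.r f) w := by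
    intro w hw
    induction hw with
    | refl => exact .inl rfl
    | tail _ h ih =>
      obtain ⟨g, rfl, rfl⟩ := h
      rcases ih with ih | ⟨f, hf, hf'⟩
      · by_cases hr : G.r g = c
        · exact .inl hr.symm
        · exact .inr ⟨g, mem_exs.2 ⟨ih.symm, hr⟩, .refl⟩
      · exact .inr ⟨f, hf, hf'.tail ⟨g, rfl, rfl⟩⟩
  rcases key h1 with h | ⟨f, hf, hf'⟩
  · exact absurd h h2
  · refine (le_of_rch hG hf').trans' ?_
    rw [← mk_wv]
    exact le_mk_of_mem (mem_wv.2 ⟨f, hf, rfl⟩)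

theorem Sm.of_le (hG : LG G) {c : G.V} {x : Mon G} {n : ℕ} (h : Le x (n • wm hG c)) :
    Sm G c x := by
  obtain ⟨z, hz⟩ := h
  obtain ⟨x, rfl⟩ := mk_surj x
  obtain ⟨z, rfl⟩ := mk_surj z
  rw [← map_add, ← mk_wv, ← map_nsmul] at hz
  obtain ⟨d, h1, h2⟩ := (mk_eq_iff (hG := hG)).1 hz
  obtain ⟨e, e', rfl, h3, h4⟩ := h1.split
  refine ⟨e, h3.mk_eq.symm, fun v hv => ?_⟩
  obtain ⟨u, hu, hu'⟩ := h2.supp (mem_support_add.2 (.inl hv))
  exact (st_wv (mem_support_nsmul hu)).trans_rch hG hu'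

theorem not_sm (hG : LG G) {c : G.V} (hc : IsLp G c) : ¬ Sm G c (mv c : Mon G) := by
  rintro ⟨a, ha, h⟩
  obtain ⟨d, h1, h2⟩ := (mk_eq_iff (hG := hG)).1 ha
  have h3 := h2.lp hc (by simp)
  obtain ⟨u, hu, hu'⟩ := h1.supp h3
  exact ((h u hu).trans_rch hG hu').2 rfl

theorem Sm.add {c : G.V} {x y : Mon G} (h : Sm G c x) (h' : Sm G c y) : Sm G c (x + y) := by
  obtain ⟨a, rfl, ha⟩ := h
  obtain ⟨b, rfl, hb⟩ := h'
  refine ⟨a + b, map_add _ _ _, fun v hv => ?_⟩
  rcases mem_support_add.1 hv with hv | hv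
  · exact ha v hv
  · exact hb v hv

/-- refinement. -/
theorem refine_fin (hG : LG G) {a a' : Mon G} {n : ℕ} {b : Fin n → Mon G} (h : a + a' = ∑ j, b j) :
    ∃ d d' : Fin n → Mon G, a = ∑ j, d j ∧ a' = ∑ j, d' j ∧ ∀ j, d j + d' j = b j := by
  obtain ⟨a, rfl⟩ := mk_surj a
  obtain ⟨a', rfl⟩ := mk_surj a'
  choose y hy using fun i => mk_surj (b i)
  rw [← map_add, ← Finset.sum_congr rfl fun i _ => hy i, ← map_sum] at h
  obtain ⟨d, h1, h2⟩ := (mk_eq_iff (hG := hG)).1 h
  obtain ⟨e, e', rfl, h3, h4⟩ := h1.split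
  obtain ⟨g, hg, h5⟩ := h2.splitSum
  -- refinement in the free monoid
  have ref : ∀ (n : ℕ) (e e' : G.V →₀ ℕ) (g : Fin n → G.V →₀ ℕ), e + e' = ∑ i, g i →
      ∃ u u' : Fin n → G.V →₀ ℕ, e = ∑ i, u i ∧ e' = ∑ i, u' i ∧ ∀ i, u i + u' i = g i := by
    intro n
    induction n with
    | zero =>
      intro e e' g h
      have h0 : e + e' = 0 := by rw [h]; simp
      have he : e = 0 := by
        ext v
        have := DFunLike.congr_fun h0 v
        simp only [Finsupp.coe_add, Pi.add_apply, Finsupp.coe_zero, Pi.zero_apply] at this ⊢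
        omega
      have he' : e' = 0 := by rw [he, zero_add] at h0; exact h0
      exact ⟨fun _ => 0, fun _ => 0, by simp [he], by simp [he'], fun i => i.elim0⟩
    | succ n ih =>
      intro e e' g h
      rw [Fin.sum_univ_succ] at h
      set T := ∑ i : Fin n, g i.succ with hT
      -- split the first summand
      let p : G.V →₀ ℕ := e ⊓ g 0
      have hp1 : p ≤ e := inf_le_left
      have hp2 : p ≤ g 0 := inf_le_right
      obtain ⟨q, hq⟩ := exists_add_of_le hp1
      obtain ⟨p', hp'⟩ := exists_add_of_le hp2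
      have hle : p' ≤ e' := by
        intro v
        have h1 := DFunLike.congr_fun h v
        have h2 := DFunLike.congr_fun hp' v
        have h3 : p v = min (e v) (g 0 v) := rfl
        simp only [Finsupp.coe_add, Pi.add_apply] at h1 h2
        omega
      obtain ⟨q', hq'⟩ := exists_add_of_le hle
      have h6 : q + q' = T := by
        rw [hq, hq', hp'] at h
        have : (p + p') + (q + q') = (p + p') + T := by
          rw [← h]; abel
        exact add_left_cancel this
      obtain ⟨u, u', hu, hu', huu⟩ := ih q q' (fun i => g i.succ) h6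
      refine ⟨Fin.cons p u, Fin.cons p' u', ?_, ?_, ?_⟩
      · rw [Fin.sum_univ_succ, hq, hu]; simp
      · rw [Fin.sum_univ_succ, hq', hu']; simp
      · intro i
        refine Fin.cases ?_ (fun i => ?_) i
        · simpa using hp'.symm
        · simpa using huu i
  obtain ⟨u, u', hu, hu', huu⟩ := ref n e e' g hg
  refine ⟨fun i => mk G (u i), fun i => mk G (u' i), ?_, ?_, fun i => ?_⟩
  · rw [h3.mk_eq, hu, map_sum]
  · rw [h4.mk_eq, hu', map_sum]
  · rw [← map_add, huu, ← (h5 i).mk_eq, hy]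

/-- loop vertices are atoms modulo the elements below them. -/
theorem M2n (hG : LG G) {c : G.V} (hc : IsLp G c) {i j a b : Mon G} {n m : ℕ}
    (hi : Le i (n • wm hG c)) (hj : Le j (m • wm hG c)) (h : mv c + i = a + b + j) :
    (∃ k : ℕ, Le a (k • wm hG c)) ∨ (∃ k : ℕ, Le b (k • wm hG c)) := by
  obtain ⟨i, rfl, hi'⟩ := Sm.of_le hG hi
  obtain ⟨j, rfl, hj'⟩ := Sm.of_le hG hj
  obtain ⟨a, rfl⟩ := mk_surj a
  obtain ⟨b, rfl⟩ := mk_surj b
  rw [mv, ← map_add, ← map_add, ← map_add] at h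
  obtain ⟨d, h1, h2⟩ := (mk_eq_iff (hG := hG)).1 h
  obtain ⟨dc, di, rfl, h3, h4⟩ := h1.split
  obtain ⟨dab, dj, hd, h5, h6⟩ := h2.split
  obtain ⟨da, db, rfl, h7, h8⟩ := h5.split
  obtain ⟨k, e, rfl, h9⟩ := h3.of_lp hc
  have he : ∀ v ∈ e.support, St G c v := by
    intro v hv
    obtain ⟨u, hu, hu'⟩ := h9.supp hv
    exact (st_wv (mem_support_nsmul hu)).trans_rch hG hu'
  have hdi : ∀ v ∈ di.support, St G c v := by
    intro v hv
    obtain ⟨u, hu, hu'⟩ := h4.supp hv
    exact (hi' u hu).trans_rch hG hu'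
  have hc1 : ∀ x : G.V →₀ ℕ, (∀ v ∈ x.support, St G c v) → x c = 0 := by
    intro x hx
    by_contra h0
    exact (hx c (Finsupp.mem_support_iff.2 h0)).2 rfl
  have hcoef := DFunLike.congr_fun hd c
  simp only [Finsupp.coe_add, Pi.add_apply, single_eq_same, hc1 e he, hc1 di hdi] at hcoef
  -- one of the two does not contain `c`
  have hall : ∀ v, v ∈ (da + db + dj).support → v = c ∨ St G c v := by
    intro v hv
    rw [← hd] at hv
    rcases mem_support_add.1 hv with hv | hv
    · rcases mem_support_add.1 hv with hv | hv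
      · left
        by_contra h
        rw [Finsupp.mem_support_iff, single_apply, if_neg (Ne.symm h)] at hv
        exact hv rfl
      · exact .inr (he v hv)
    · exact .inr (hdi v hv)
  by_cases hda : da c = 0
  · left
    refine Sm.le hG ⟨da, h7.mk_eq.symm, fun v hv => ?_⟩
    rcases hall v (mem_support_add.2 (.inl (mem_support_add.2 (.inl hv)))) with rfl | h
    · exact absurd hda (Finsupp.mem_support_iff.1 hv)
    · exact h
  · right
    refine Sm.le hG ⟨db, h8.mk_eq.symm, fun v hv => ?_⟩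
    rcases hall v (mem_support_add.2 (.inl (mem_support_add.2 (.inr hv)))) with rfl | h
    · have := Finsupp.mem_support_iff.1 hv
      omega
    · exact h

/-- second half of **M2**. -/
theorem M2' (hG : LG G) {c : G.V} (hc : IsLp G c) (n : ℕ) :
    ¬ Le (mv c) (n • wm hG c) := fun h => not_sm hG hc (Sm.of_le hG h)

/-- **M3**, the stabilizer of a loop vertex. -/
theorem M3 (hG : LG G) {c : G.V} (hc : IsLp G c) {y : Mon G} (h : mv c + y = mv c) :
    ∃ m n : ℕ, y + m • wm hG c = n • wm hG c := by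
  obtain ⟨y, rfl⟩ := mk_surj y
  rw [mv, ← map_add] at h
  obtain ⟨d, h1, h2⟩ := (mk_eq_iff (hG := hG)).1 h
  obtain ⟨dc, dy, rfl, h3, h4⟩ := h1.split
  obtain ⟨k, e, rfl, h5⟩ := h3.of_lp hc
  obtain ⟨l, e', h6, h7⟩ := h2.of_lp hc
  rw [add_assoc] at h6
  have h8 := add_left_cancel h6
  refine ⟨k, l, ?_⟩
  rw [← mk_wv, ← map_nsmul, ← map_nsmul, h7.mk_eq, ← h8, map_add, h5.mk_eq, h4.mk_eq, add_comm]

/-! ## Normal reducts -/

/-- the vertices of `R` which are not loop vertices. -/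
def Rn (G : Gph) (R : Set G.V) : Set G.V := {v | v ∈ R ∧ ¬ IsLp G v}

/-- no regular vertex of `R` without loop occurs in `y`. -/
def Nrm (G : Gph) (R : Set G.V) (y : G.V →₀ ℕ) : Prop :=
  ∀ v ∈ y.support, v ∈ R → (∃ f, G.s f = v) → IsLp G v

theorem Rn_subset : Rn G R ⊆ R := fun _ h => h.1

theorem Nrm.add {a b : G.V →₀ ℕ} (h : Nrm G R a) (h' : Nrm G R b) : Nrm G R (a + b) := by
  intro v hv
  rcases mem_support_add.1 hv with hv | hv
  · exact h v hv
  · exact h' v hv

theorem Nrm.left {a b : G.V →₀ ℕ} (h : Nrm G R (a + b)) : Nrm G R a :=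
  fun v hv => h v (mem_support_add.2 (.inl hv))

theorem Nrm.right {a b : G.V →₀ ℕ} (h : Nrm G R (a + b)) : Nrm G R b :=
  fun v hv => h v (mem_support_add.2 (.inr hv))

theorem Nrm.of_sum {ι : Type*} {s : Finset ι} {a : ι → G.V →₀ ℕ} (h : Nrm G R (∑ i ∈ s, a i))
    {i : ι} (hi : i ∈ s) : Nrm G R (a i) :=
  fun v hv => h v ((mem_support_sum s).2 ⟨i, hi, hv⟩)

theorem exists_normal_single (hG : LG G) (S : Finset G.V) (n : ℕ) (v : G.V)
    (hn : (S.filter fun w => Rch G v w).card ≤ n) :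
    ∃ y, Reds hG (Rn G (S : Set G.V)) (single v 1) y ∧ Nrm G (S : Set G.V) y := by
  induction n generalizing v with
  | zero =>
    refine ⟨single v 1, .refl, fun w hw hwS _ => ?_⟩
    exfalso
    have : w = v := by
      by_contra h
      rw [Finsupp.mem_support_iff, single_apply, if_neg (Ne.symm h)] at hw
      exact hw rfl
    subst this
    have : w ∈ S.filter fun u => Rch G w u := by
      rw [Finset.mem_filter]; exact ⟨by simpa using hwS, .refl⟩
    have h0 := Finset.card_pos.2 ⟨w, this⟩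
    omega
  | succ n ih =>
    by_cases hv : v ∈ S ∧ (∃ f, G.s f = v) ∧ ¬ IsLp G v
    · obtain ⟨hvS, hreg, hlp⟩ := hv
      have hstep : ∀ f : G.Ed, G.s f = v → ∃ y,
          Reds hG (Rn G (S : Set G.V)) (single (G.r f) 1) y ∧ Nrm G (S : Set G.V) y := by
        intro f hf
        refine ih _ ?_
        have hlt : (S.filter fun w => Rch G (G.r f) w) ⊂ (S.filter fun w => Rch G v w) := by
          rw [Finset.ssubset_iff_of_subset]
          · refine ⟨v, by simp only [Finset.mem_filter]; exact ⟨hvS, .refl⟩, ?_⟩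
            rw [Finset.mem_filter]
            rintro ⟨_, h⟩
            have h1 : Rch G v (G.r f) := .single ⟨f, hf, rfl⟩
            exact hlp ⟨f, hf, (hG.cyc _ _ h1 h).symm⟩
          · intro w hw
            rw [Finset.mem_filter] at hw ⊢
            exact ⟨hw.1, .head ⟨f, hf, rfl⟩ hw.2⟩
        have := Finset.card_lt_card hlt
        omega
      choose! y hy hy' using hstep
      refine ⟨∑ f ∈ (hG.rf v).toFinset, y f, ?_, ?_⟩
      · have h1 : Red hG (Rn G (S : Set G.V)) (single v 1) (outs hG v) :=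
          ⟨v, ⟨by simpa using hvS, hlp⟩, hreg, 0, by simp, by simp⟩
        refine ReflTransGen.head h1 ?_
        rw [outs]
        exact Reds.sum _ fun f hf => hy f (by simpa using hf)
      · intro w hw
        obtain ⟨f, hf, hw⟩ := (mem_support_sum _).1 hw
        exact hy' f (by simpa using hf) w hw
    · refine ⟨single v 1, .refl, fun w hw hwS hreg => ?_⟩
      have : w = v := by
        by_contra h
        rw [Finsupp.mem_support_iff, single_apply, if_neg (Ne.symm h)] at hw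
        exact hw rfl
      subst this
      by_contra hlp
      exact hv ⟨by simpa using hwS, hreg, hlp⟩

theorem exists_normal (hG : LG G) (S : Finset G.V) (x : G.V →₀ ℕ) :
    ∃ y, Reds hG (Rn G (S : Set G.V)) x y ∧ Nrm G (S : Set G.V) y := by
  induction x using Finsupp.induction_linear with
  | zero => exact ⟨0, .refl, fun v hv => by simp at hv⟩
  | add x x' h h' =>
    obtain ⟨y, h1, h2⟩ := h
    obtain ⟨y', h3, h4⟩ := h'
    exact ⟨y + y', h1.add h3, h2.add h4⟩
  | single v n =>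
    obtain ⟨y, h1, h2⟩ := exists_normal_single hG S _ v le_rfl
    refine ⟨n • y, ?_, fun w hw => h2 w (mem_support_nsmul hw)⟩
    have : single v n = n • (single v 1 : G.V →₀ ℕ) := by simp
    rw [this]
    exact h1.nsmul n

/-- reducts of a normal family. -/
theorem Nrm.reds {y z : G.V →₀ ℕ} (hy : Nrm G R y) (h : Reds hG R y z) :
    ∃ e, z = y + e ∧ ∀ u ∈ e.support, ∃ s ∈ y.support, St G s u := by
  induction h with
  | refl => exact ⟨0, by simp, fun u hu => by simp at hu⟩
  | tail _ h ih =>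
    obtain ⟨e, rfl, he⟩ := ih
    obtain ⟨v, hv, hr, x, hx, rfl⟩ := h
    rcases single_le_of hx.symm with ⟨w, rfl, rfl⟩ | ⟨w, rfl, rfl⟩
    · have hvy : v ∈ (single v 1 + w).support := mem_support_add.2 (.inl (by simp))
      have hlp := hy v hvy hv hr
      refine ⟨wv hG v + e, ?_, fun u hu => ?_⟩
      · rw [outs_lp hlp]; abel
      · rcases mem_support_add.1 hu with hu | hu
        · exact ⟨v, hvy, st_wv hu⟩
        · exact he u hu
    · refine ⟨outs hG v + w, by abel, fun u hu => ?_⟩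
      rcases mem_support_add.1 hu with hu | hu
      · obtain ⟨s, hs, hs'⟩ := he v (mem_support_add.2 (.inl (by simp)))
        obtain ⟨f, hf, rfl⟩ := mem_outs.1 hu
        exact ⟨s, hs, hs'.trans_rch hG (.single ⟨f, hf, rfl⟩)⟩
      · exact he u (mem_support_add.2 (.inr hu))

/-- `t` is not strictly below an element of `y`. -/
def NB (G : Gph) (t : G.V) (y : G.V →₀ ℕ) : Prop := ∀ s ∈ y.support, ¬ St G s t

theorem NB.eq {t : G.V} {x y y' : G.V →₀ ℕ} (h : Reds hG R x y) (h' : Reds hG R x y')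
    (hy : Nrm G R y) (hy' : Nrm G R y') (ht : NB G t y) : NB G t y' ∧ y t = y' t := by
  obtain ⟨z, h1, h2⟩ := h.confl h'
  obtain ⟨e, rfl, he⟩ := hy.reds h1
  obtain ⟨e', hz, he'⟩ := hy'.reds h2
  have hNB : NB G t y' := by
    intro s hs hst
    have hs1 : s ∈ (y + e).support := by
      rw [hz]; exact mem_support_add.2 (.inl hs)
    rcases mem_support_add.1 hs1 with hs1 | hs1
    · exact ht s hs1 hst
    · obtain ⟨u, hu, hu'⟩ := he s hs1
      exact ht u hu (hu'.trans_rch hG hst.1)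
  refine ⟨hNB, ?_⟩
  have h3 : e t = 0 := by
    by_contra h0
    obtain ⟨u, hu, hu'⟩ := he t (Finsupp.mem_support_iff.2 h0)
    exact ht u hu hu'
  have h4 : e' t = 0 := by
    by_contra h0
    obtain ⟨u, hu, hu'⟩ := he' t (Finsupp.mem_support_iff.2 h0)
    exact hNB u hu hu'
  have h5 := DFunLike.congr_fun hz t
  simp only [Finsupp.coe_add, Pi.add_apply, h3, h4] at h5
  omega

/-- a maximal element of the support. -/
theorem exists_max (hG : LG G) {d : G.V →₀ ℕ} (hd : d ≠ 0) : ∃ t ∈ d.support, NB G t d := by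
  obtain ⟨t, ht, hmax⟩ := Finset.exists_max_image d.support
    (fun t => (d.support.filter fun u => Rch G t u).card) (Finsupp.support_nonempty_iff.2 hd)
  refine ⟨t, ht, fun s hs hst => ?_⟩
  have h1 := hmax s hs
  have h2 : (d.support.filter fun u => Rch G t u) ⊂ (d.support.filter fun u => Rch G s u) := by
    rw [Finset.ssubset_iff_of_subset]
    · refine ⟨s, by simp only [Finset.mem_filter]; exact ⟨hs, .refl⟩, ?_⟩
      rw [Finset.mem_filter]
      rintro ⟨_, h⟩
      exact hst.2 (hG.cyc _ _ hst.1 h)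
    · intro u hu
      rw [Finset.mem_filter] at hu ⊢
      exact ⟨hu.1, hst.1.trans hu.2⟩
  have := Finset.card_lt_card h2
  omega

/-- common normal reduct over a finite set. -/
theorem common_normal (hG : LG G) {a b : G.V →₀ ℕ} (h : mk G a = mk G b) :
    ∃ S0 : Finset G.V, ∀ S : Finset G.V, S0 ⊆ S → ∃ d, Reds hG (S : Set G.V) a d ∧
      Reds hG (S : Set G.V) b d ∧ Nrm G (S : Set G.V) d := by
  obtain ⟨d, h1, h2⟩ := (mk_eq_iff (hG := hG)).1 h
  obtain ⟨S1, _, h3⟩ := h1.fin
  obtain ⟨S2, _, h4⟩ := h2.fin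
  refine ⟨S1 ∪ S2, fun S hS => ?_⟩
  obtain ⟨y, h5, h6⟩ := exists_normal hG S d
  have hm1 : (S1 : Set G.V) ⊆ S := fun v hv => hS (Finset.mem_union_left _ hv)
  have hm2 : (S2 : Set G.V) ⊆ S := fun v hv => hS (Finset.mem_union_right _ hv)
  exact ⟨y, (h3.mono hm1).trans (h5.mono Rn_subset), (h4.mono hm2).trans (h5.mono Rn_subset), h6⟩

/-- **M0** -/
theorem M0 (hG : LG G) {m z : Mon G} (h : m = m + m + z) : m = 0 := by
  obtain ⟨m, rfl⟩ := mk_surj m
  obtain ⟨z, rfl⟩ := mk_surj z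
  rw [← map_add, ← map_add] at h
  obtain ⟨S, hS⟩ := common_normal hG h
  obtain ⟨d, h1, h2, h3⟩ := hS S (Finset.Subset.refl _)
  obtain ⟨d', dz, rfl, h4, h5⟩ := h2.split
  obtain ⟨d1, d2, rfl, h6, h7⟩ := h4.split
  by_cases h0 : d1 + d2 + dz = 0
  · rw [h1.mk_eq, h0, map_zero]
  · exfalso
    obtain ⟨t, ht, ht'⟩ := exists_max hG h0
    have e1 := (ht'.eq h1 h6 h3 h3.left.left).2
    have e2 := (ht'.eq h1 h7 h3 h3.left.right).2
    have h8 := Finsupp.mem_support_iff.1 ht
    simp only [Finsupp.coe_add, Pi.add_apply] at e1 e2 h8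
    omega

/-- any reduct is obtained by adding exits of loop vertices first. -/
theorem Reds.loops_first {x y : G.V →₀ ℕ} (h : Reds hG R x y) :
    ∃ L : List G.V, (∀ c ∈ L, IsLp G c ∧ ∃ s ∈ x.support, Rch G s c) ∧
      Reds hG (Rn G R) (x + (L.map (wv hG)).sum) y := by
  induction h with
  | refl => exact ⟨[], by simp, by simp only [List.map_nil, List.sum_nil, add_zero]; exact .refl⟩
  | @tail y z hxy h ih =>
    obtain ⟨L, hL, h1⟩ := ih
    obtain ⟨v, hv, hr, w, rfl, rfl⟩ := h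
    by_cases hlp : IsLp G v
    · refine ⟨v :: L, ?_, ?_⟩
      · intro c hc
        rcases List.mem_cons.1 hc with rfl | hc
        · exact ⟨hlp, Reds.supp hxy (mem_support_add.2 (.inl (by simp)))⟩
        · exact hL c hc
      · rw [outs_lp hlp, List.map_cons, List.sum_cons]
        have h2 := h1.add_right (wv hG v)
        have e1 : x + (wv hG v + (L.map (wv hG)).sum) = x + (L.map (wv hG)).sum + wv hG v := by
          abel
        have e2 : single v 1 + wv hG v + w = single v 1 + w + wv hG v := by abel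
        rw [e1, e2]
        exact h2
    · exact ⟨L, hL, h1.tail ⟨v, ⟨hv, hlp⟩, hr, w, rfl, rfl⟩⟩

theorem Nrm.irred {y z : G.V →₀ ℕ} (hy : Nrm G R y) (h : Reds hG (Rn G R) y z) : z = y := by
  induction h with
  | refl => rfl
  | tail _ h ih =>
    subst ih
    obtain ⟨v, hv, hr, x, rfl, rfl⟩ := h
    exact absurd (hy v (mem_support_add.2 (.inl (by simp))) hv.1 hr) hv.2

/-- two normal reducts of `x` differ by exits of loop vertices below `x`. -/
theorem Nrm.sub {S : Finset G.V} {x x0 y : G.V →₀ ℕ} (h0 : Reds hG (Rn G (S : Set G.V)) x x0)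
    (hx0 : Nrm G (S : Set G.V) x0) (h : Reds hG (S : Set G.V) x y)
    (hy : Nrm G (S : Set G.V) y) :
    ∃ (e : G.V →₀ ℕ) (L : List G.V), y = x0 + e ∧ mk G e = (L.map fun c => wm hG c).sum ∧
      ∀ c ∈ L, IsLp G c ∧ Le (mv c) (mk G x) := by
  obtain ⟨L, hL, h1⟩ := h.loops_first
  obtain ⟨e, he, he'⟩ := exists_normal hG S (L.map (wv hG)).sum
  obtain ⟨z, h2, h3⟩ := h1.confl (h0.add he)
  have e1 := hy.irred h2
  have e2 := (hx0.add he').irred h3
  refine ⟨e, L, by rw [← e1, e2], ?_, fun c hc => ?_⟩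
  · rw [← he.mk_eq, map_list_sum, List.map_map]
    congr 1
    refine List.map_congr_left fun c _ => ?_
    exact mk_wv c
  · obtain ⟨h4, s, hs, hs'⟩ := hL c hc
    exact ⟨h4, (le_of_rch hG hs').trans' (le_mk_of_mem hs)⟩

theorem absorb_le (hG : LG G) {c : G.V} (hc : IsLp G c) {x : Mon G} (h : Le (mv c) x) :
    x + wm hG c = x := by
  obtain ⟨z, rfl⟩ := h
  have h1 : (mv c : Mon G) + wm hG c = mv c := by
    obtain ⟨f, hf, _⟩ := id hc
    rw [← mk_wv, mv, ← map_add, ← outs_lp hc]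
    exact mk_outs ⟨f, hf⟩
  calc mv c + z + wm hG c = (mv c + wm hG c) + z := by abel
    _ = mv c + z := by rw [h1]

theorem absorb_list (hG : LG G) (L : List G.V) {x : Mon G}
    (h : ∀ c ∈ L, IsLp G c ∧ Le (mv c) x) : x + (L.map fun c => wm hG c).sum = x := by
  induction L with
  | nil => simp
  | cons c L ih =>
    rw [List.map_cons, List.sum_cons, ← add_assoc, absorb_le hG (h c (by simp)).1 (h c (by simp)).2]
    exact ih fun c hc => h c (by simp [hc])

/-- **M4**, cancellation. -/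
theorem M4 (hG : LG G) {p q : Mon G} {m n m' n' : ℕ} (h : p + m • q = n • q)
    (h' : q + m' • p = n' • p) : p = q := by
  obtain ⟨p, rfl⟩ := mk_surj p
  obtain ⟨q, rfl⟩ := mk_surj q
  have hpq : Le (mk G p) (n • mk G q) := ⟨_, h⟩
  have hqp : Le (mk G q) (n' • mk G p) := ⟨_, h'⟩
  have hs : ∀ (k : ℕ) (x : G.V →₀ ℕ), k • mk G x = mk G (∑ _i : Fin k, x) := by
    intro k x; rw [map_sum]; simp
  rw [hs, hs, ← map_add] at h h'
  obtain ⟨S1, hS1⟩ := common_normal hG h
  obtain ⟨S2, hS2⟩ := common_normal hG h'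
  obtain ⟨d, h1, h2, h3⟩ := hS1 (S1 ∪ S2) Finset.subset_union_left
  obtain ⟨d', h1', h2', h3'⟩ := hS2 (S1 ∪ S2) Finset.subset_union_right
  set S := S1 ∪ S2 with hSdef
  obtain ⟨p0, hp0, hp0'⟩ := exists_normal hG S p
  obtain ⟨q0, hq0, hq0'⟩ := exists_normal hG S q
  have hp1 : Reds hG (S : Set G.V) p p0 := hp0.mono Rn_subset
  have hq1 : Reds hG (S : Set G.V) q q0 := hq0.mono Rn_subset
  obtain ⟨dp, dq, hd, h4, h5⟩ := h1.split
  obtain ⟨x, hx, h6⟩ := h5.splitSum
  obtain ⟨y, hy, h7⟩ := h2.splitSum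
  obtain ⟨dq', dp', hd', h4', h5'⟩ := h1'.split
  obtain ⟨x', hx', h6'⟩ := h5'.splitSum
  obtain ⟨y', hy', h7'⟩ := h2'.splitSum
  -- normality of all the pieces
  have ndp : Nrm G (S : Set G.V) dp := by rw [hd] at h3; exact h3.left
  have nx : ∀ i, Nrm G (S : Set G.V) (x i) := by
    rw [hd, hx] at h3; exact fun i => h3.right.of_sum (Finset.mem_univ i)
  have ny : ∀ i, Nrm G (S : Set G.V) (y i) := by
    rw [hy] at h3; exact fun i => h3.of_sum (Finset.mem_univ i)
  have ndq' : Nrm G (S : Set G.V) dq' := by rw [hd'] at h3'; exact h3'.left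
  have nx' : ∀ i, Nrm G (S : Set G.V) (x' i) := by
    rw [hd', hx'] at h3'; exact fun i => h3'.right.of_sum (Finset.mem_univ i)
  have ny' : ∀ i, Nrm G (S : Set G.V) (y' i) := by
    rw [hy'] at h3'; exact fun i => h3'.of_sum (Finset.mem_univ i)
  by_cases h0 : d = 0
  · -- everything vanishes
    have hp : mk G p = 0 := by
      rw [h4.mk_eq]
      have : dp = 0 := by
        ext v
        have := DFunLike.congr_fun (hd.symm.trans h0) v
        simp only [Finsupp.coe_add, Pi.add_apply, Finsupp.coe_zero, Pi.zero_apply] at this ⊢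
        omega
      rw [this, map_zero]
    have hq : mk G q = 0 := by
      obtain ⟨z, hz⟩ := hqp
      rw [hp, nsmul_zero] at hz
      exact conical hG hz
    rw [hp, hq]
  obtain ⟨t, ht, htd⟩ := exists_max hG h0
  have tdp : NB G t dp := fun s hs => htd s (by rw [hd]; exact mem_support_add.2 (.inl hs))
  have tx : ∀ i, NB G t (x i) := fun i s hs => htd s (by
    rw [hd, hx]
    exact mem_support_add.2 (.inr ((mem_support_sum _).2 ⟨i, Finset.mem_univ i, hs⟩)))
  have ty : ∀ i, NB G t (y i) := fun i s hs => htd s (by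
    rw [hy]; exact (mem_support_sum _).2 ⟨i, Finset.mem_univ i, hs⟩)
  have tp0 := tdp.eq h4 hp1 ndp hp0'
  have hyt : ∀ i, y i t = q0 t := fun i => ((ty i).eq (h7 i) hq1 (ny i) hq0').2
  have hxt : ∀ i, x i t = q0 t := fun i => ((tx i).eq (h6 i) hq1 (nx i) hq0').2
  have hnpos : d t = n * q0 t := by
    rw [hy, Finsupp.finsetSum_apply, Finset.sum_congr rfl fun i _ => hyt i]; simp
  have hdt : d t = p0 t + m * q0 t := by
    rw [hd, hx, Finsupp.coe_add, Pi.add_apply, Finsupp.finsetSum_apply,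
      Finset.sum_congr rfl fun i _ => hxt i, tp0.2]; simp
  have hdpos : d t ≠ 0 := Finsupp.mem_support_iff.1 ht
  have hn : n ≠ 0 := by rintro rfl; exact hdpos (by rw [hnpos]; simp)
  have tq0 : NB G t q0 := by
    have i0 : Fin n := ⟨0, Nat.pos_of_ne_zero hn⟩
    exact ((ty i0).eq (h7 i0) hq1 (ny i0) hq0').1
  have hx't : ∀ i, x' i t = p0 t := fun i => (tp0.1.eq hp1 (h6' i) hp0' (nx' i)).2.symm
  have hy't : ∀ i, y' i t = p0 t := fun i => (tp0.1.eq hp1 (h7' i) hp0' (ny' i)).2.symm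
  have hdq't : dq' t = q0 t := (tq0.eq hq1 h4' hq0' ndq').2.symm
  have hd't1 : d' t = q0 t + m' * p0 t := by
    rw [hd', hx', Finsupp.coe_add, Pi.add_apply, Finsupp.finsetSum_apply,
      Finset.sum_congr rfl fun i _ => hx't i, hdq't]; simp
  have hd't2 : d' t = n' * p0 t := by
    rw [hy', Finsupp.finsetSum_apply, Finset.sum_congr rfl fun i _ => hy't i]; simp
  have hqpos : q0 t ≠ 0 := by
    intro h0'; exact hdpos (by rw [hnpos, h0']; simp)
  -- n = m + 1
  have hnm : n = m + 1 := by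
    have e1 : p0 t + m * q0 t = n * q0 t := by rw [← hdt, hnpos]
    have e2 : q0 t + m' * p0 t = n' * p0 t := by rw [← hd't1, hd't2]
    have hppos : p0 t ≠ 0 := by
      intro h0'
      rw [h0'] at e2
      simp at e2
      exact hqpos e2
    have hmn : m < n := by
      by_contra hle
      have : n * q0 t ≤ m * q0 t := Nat.mul_le_mul_right _ (by omega)
      omega
    have hmn' : m' < n' := by
      by_contra hle
      have : n' * p0 t ≤ m' * p0 t := Nat.mul_le_mul_right _ (by omega)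
      omega
    have hge : p0 t ≤ q0 t := by
      have : (m' + 1) * p0 t ≤ n' * p0 t := Nat.mul_le_mul_right _ (by omega)
      rw [add_mul, one_mul] at this
      omega
    by_contra hne
    have : (m + 2) * q0 t ≤ n * q0 t := Nat.mul_le_mul_right _ (by omega)
    rw [add_mul] at this
    omega
  subst hnm
  -- differences
  obtain ⟨ep, Lp, hep, hmep, hLp⟩ := Nrm.sub hp0 hp0' h4 ndp
  choose ex Lx hex hmex hLx using fun i => Nrm.sub hq0 hq0' (h6 i) (nx i)
  choose ey Ly hey hmey hLy using fun i => Nrm.sub hq0 hq0' (h7 i) (ny i)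
  have key : p0 + (ep + ∑ i, ex i) = q0 + ∑ i, ey i := by
    have e1 : dp + ∑ i, x i = ∑ i, y i := by rw [← hx, ← hd, hy]
    rw [hep, Finset.sum_congr rfl fun i _ => hex i, Finset.sum_congr rfl fun i _ => hey i,
      Finset.sum_add_distrib, Finset.sum_add_distrib, Finset.sum_const, Finset.sum_const,
      Finset.card_univ, Finset.card_univ, Fintype.card_fin, Fintype.card_fin, succ_nsmul] at e1
    have e2 : m • q0 + (p0 + (ep + ∑ i, ex i)) = m • q0 + (q0 + ∑ i, ey i) := by
      calc m • q0 + (p0 + (ep + ∑ i, ex i)) = p0 + ep + (m • q0 + ∑ i, ex i) := by abel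
        _ = m • q0 + q0 + ∑ i, ey i := e1
        _ = m • q0 + (q0 + ∑ i, ey i) := by abel
    exact add_left_cancel e2
  have hmk := congrArg (mk G) key
  rw [map_add, map_add, map_add, map_sum, map_sum, hmep,
    Finset.sum_congr rfl fun i _ => hmex i, Finset.sum_congr rfl fun i _ => hmey i,
    ← hp0.mk_eq, ← hq0.mk_eq] at hmk
  have sumabs : ∀ {k : ℕ} (L : Fin k → List G.V) (w : Mon G),
      (∀ i, ∀ c ∈ L i, IsLp G c ∧ Le (mv c) w) →
      w + ∑ i, ((L i).map fun c => wm hG c).sum = w := by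
    intro k
    induction k with
    | zero => intro L w _; simp
    | succ k ih =>
      intro L w hw
      rw [Fin.sum_univ_succ, ← add_assoc, absorb_list hG _ (hw 0)]
      exact ih (fun i => L i.succ) w fun i => hw i.succ
  rw [← add_assoc, absorb_list hG _ hLp, sumabs, sumabs] at hmk
  · exact hmk
  · exact hLy
  · intro i c hc
    refine ⟨(hLx i c hc).1, ?_⟩
    exact lp_le_nsmul hG (hLx i c hc).1 ((hLx i c hc).2.trans' hqp)

/-! ## The interface -/

/-- **M1**, refinement. -/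
theorem M1 (hG : LG G) {ι : Type} (s : Finset ι) (b : ι → Mon G) {a a' : Mon G}
    (h : a + a' = ∑ i ∈ s, b i) :
    ∃ d : ι → Mon G, a = ∑ i ∈ s, d i ∧ ∀ i ∈ s, Le (d i) (b i) := by
  let e := s.equivFin
  have h1 : a + a' = ∑ j : Fin s.card, b (e.symm j) := by
    rw [h, ← Finset.sum_coe_sort]
    exact (Equiv.sum_comp e.symm fun i : s => b i).symm
  obtain ⟨d, d', h2, _, h3⟩ := refine_fin hG h1
  refine ⟨fun i => if hi : i ∈ s then d (e ⟨i, hi⟩) else 0, ?_, fun i hi => ?_⟩
  · rw [h2, ← Finset.sum_coe_sort s]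
    rw [← Equiv.sum_comp e.symm]
    refine Finset.sum_congr rfl fun j _ => ?_
    rw [dif_pos (e.symm j).2]
    simp
  · simp only [dif_pos hi]
    refine ⟨d' (e ⟨i, hi⟩), ?_⟩
    rw [h3]
    simp

/-- **M2**, loop vertices are atoms modulo the elements below them. -/
theorem M2 (hG : LG G) {c : G.V} (hc : IsLp G c) {n n' : ℕ} {i j a b : Mon G}
    (hi : Le i (n • wm hG c)) (hj : Le j (n' • wm hG c)) (h : mv c + i = a + b + j) :
    ∃ k : ℕ, Le a (k • wm hG c) ∨ Le b (k • wm hG c) := by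
  rcases M2n hG hc hi hj h with ⟨k, hk⟩ | ⟨k, hk⟩
  · exact ⟨k, .inl hk⟩
  · exact ⟨k, .inr hk⟩

/-- **M6** -/
theorem M6 (hG : LG G) {c v : G.V} (_hc : IsLp G c) (h : Rch G c v) (hcv : c ≠ v) :
    Le (mv v) (wm hG c) := by
  have key : ∀ {w : G.V}, Rch G c w → c = w ∨ ∃ f ∈ exs hG c, Rch G (G.r f) w := by
    intro w hw
    induction hw with
    | refl => exact .inl rfl
    | tail _ h ih =>
      obtain ⟨g, rfl, rfl⟩ := h
      rcases ih with ih | ⟨f, hf, hf'⟩
      · by_cases hr : G.r g = c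
        · exact .inl hr.symm
        · exact .inr ⟨g, mem_exs.2 ⟨ih.symm, hr⟩, .refl⟩
      · exact .inr ⟨f, hf, hf'.tail ⟨g, rfl, rfl⟩⟩
  rcases key h with h | ⟨f, hf, hf'⟩
  · exact absurd h hcv
  · refine (le_of_rch hG hf').trans' ?_
    rw [← mk_wv]
    exact le_mk_of_mem (mem_wv.2 ⟨f, hf, rfl⟩)

/-- a loop vertex absorbs its exits. -/
theorem absorb (hG : LG G) {c : G.V} (hc : IsLp G c) : mv c + wm hG c = mv c :=
  absorb_le hG hc (.rfl' _)

end DC29
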