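import Pool.Agent.LibDC29.B1
import Pool.Agent.LibLPA74.R1

/-!
[DC R0] Paths with the same end are linearly independent (`ind` of If.lean).
GAUGE: for `|z| = 1` there is `φ : LA G →⋆ₙₐ[ℂ] LA G` with `φ (vx v) = vx v`, `φ (ed e) = z • ed e` (`LA.lift`, `LA.ck`);
so `φ (pe α v) = z ^ α.length • pe α v`, `φ (star (pe α v)) = (conj z) ^ α.length • star (pe α v)`.
Suppose `∑_{α ∈ F} c α • pe α v = 0` (`linearIndependent_iff'`), some `c α ≠ 0`; choose `α0` of maximal length with
`c α0 ≠ 0`.  Multiply by `star (pe α0 v)` on the left: `star (pe α0 v) * pe α v` (`|α| ≤ |α0|`) is `vx v` if `α = α0`, `star (pe γ v)` if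
`α0 = α ++ γ` with `γ ≠ []` (a path from `v` to `v`), and `0` otherwise (induction on `α`).  So
`c α0 • vx v + ∑_{k ≥ 1} u k = 0` (finite sum over lengths `k ≤ n`), `φ_z (u k) = (conj z) ^ k • u k`.  Apply `φ_z` for the `z` with
`z ^ (n+1) = 1` and add up: `(n+1) c α0 • vx v = 0`, contradiction with `vx_ne_zero`.
-/

namespace DC29

open LPA74

/-- `star (pe α0 v) * pe α v` for `α` not longer than `α0`. -/
theorem star_pe_mul {G : Gph} {v : G.V} {α0 α : List G.Ed} (h0 : G.IsP α0 v) (h : G.IsP α v)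
    (hl : α.length ≤ α0.length) : (α = α0 ∧ star (pe α0 v : LA G) * pe α v = vx v) ∨
    (∃ γ, γ ≠ [] ∧ α0 = α ++ γ ∧ G.IsP γ v ∧ star (pe α0 v : LA G) * pe α v = star (pe γ v)) ∨
    star (pe α0 v : LA G) * pe α v = 0 := by
  induction α generalizing α0 with
  | nil =>
    have e1 : star (pe α0 v : LA G) * pe [] v = star (vx v * pe α0 v) := by
      change star (pe α0 v : LA G) * vx v = _
      rw [star_mul, star_vx]
    by_cases hst : v = G.st α0 v
    · have e2 : (vx v : LA G) * pe α0 v = pe α0 v := by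
        have := vx_mul_pe (E := G) α0 v
        rwa [← hst] at this
      rw [e1, e2]
      rcases α0 with _ | ⟨e0, α0⟩
      · exact Or.inl ⟨rfl, star_vx v⟩
      · exact Or.inr (Or.inl ⟨_, by simp, by simp, h0, rfl⟩)
    · refine Or.inr (Or.inr ?_)
      rw [e1, vx_mul_pe_ne hst, star_zero]
  | cons e α ih =>
    rcases α0 with _ | ⟨e0, α0⟩
    · simp at hl
    · have hl' : α.length ≤ α0.length := by simpa using hl
      have e1 : star (pe (e0 :: α0) v : LA G) * pe (e :: α) v =
          star (pe α0 v) * ((star (ed e0) * ed e) * pe α v) := by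
        change star (ed e0 * pe α0 v : LA G) * (ed e * pe α v) = _
        rw [star_mul]
        simp only [mul_assoc]
      by_cases hee : e0 = e
      · subst hee
        have e2 : (star (ed e0 : LA G) * ed e0) * pe α v = pe α v := by
          rw [star_ed_mul_ed, h.1, vx_mul_pe]
        rw [e1, e2]
        rcases ih h0.2 h.2 hl' with ⟨h1, h2⟩ | ⟨γ, h1, h2, h3, h4⟩ | h1
        · exact Or.inl ⟨by rw [h1], h2⟩
        · exact Or.inr (Or.inl ⟨γ, h1, by rw [h2]; rfl, h3, h4⟩)
        · exact Or.inr (Or.inr h1)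
      · refine Or.inr (Or.inr ?_)
        rw [e1, star_ed_mul_ed_ne hee, zero_mul, mul_zero]

theorem gauge (G : Gph) {z : ℂ} (hz : ‖z‖ = 1) : ∃ φ : LA G →⋆ₙₐ[ℂ] LA G,
    (∀ v, φ (vx v) = vx v) ∧ ∀ e, φ (ed e) = z • ed e := by
  have hzz : (starRingEnd ℂ) z * z = 1 := by
    rw [mul_comm, Complex.mul_conj, Complex.normSq_eq_norm_sq, hz]
    simp
  have hzz' : z * (starRingEnd ℂ) z = 1 := by rw [mul_comm]; exact hzz
  have h : CK G (vx : G.V → LA G) (fun e => z • (ed e : LA G)) :=
    { proj := vx_mul_self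
      sa := star_vx
      orth := fun _ _ h => vx_mul_ne h
      se := fun f => by rw [mul_smul_comm, vx_mul_ed]
      er := fun f => by rw [smul_mul_assoc, ed_mul_vx]
      ck1 := fun f => by
        rw [star_smul, smul_mul_smul_comm, star_ed_mul_ed]
        change ((starRingEnd ℂ) z * z) • _ = _
        rw [hzz, one_smul]
      ck1' := fun f f' h => by
        rw [star_smul, smul_mul_smul_comm, star_ed_mul_ed_ne h, smul_zero]
      ck2 := fun a S h0 hS => by
        rw [vx_eq_sum a S h0 hS]
        refine Finset.sum_congr rfl fun f _ => ?_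
        rw [star_smul, smul_mul_smul_comm]
        change _ = (z * (starRingEnd ℂ) z) • _
        rw [hzz', one_smul] }
  exact LA.lift h

theorem gauge_pe {G : Gph} {z : ℂ} {φ : LA G →⋆ₙₐ[ℂ] LA G} (h1 : ∀ v, φ (vx v) = vx v)
    (h2 : ∀ e, φ (ed e) = z • ed e) (α : List G.Ed) (v : G.V) :
    φ (pe α v) = z ^ α.length • pe α v := by
  induction α with
  | nil =>
    change φ (vx v) = z ^ 0 • vx v
    rw [h1, pow_zero, one_smul]
  | cons e α ih =>
    change φ (ed e * pe α v) = z ^ (α.length + 1) • (ed e * pe α v)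
    rw [map_mul, h2, ih, smul_mul_smul_comm, pow_succ']

/-- paths with the same end are linearly independent. -/
theorem ind' {G : Gph} [Countable G.Ed] (v : G.V) :
    LinearIndependent ℂ fun α : {α : List G.Ed // G.IsP α v} => (pe α.1 v : LA G) := by
  classical
  rw [linearIndependent_iff']
  intro s g hg
  by_contra hcon
  push Not at hcon
  obtain ⟨β, hβ, hβg⟩ := hcon
  -- choose a longest one
  obtain ⟨α0, hα0, hmax⟩ := Finset.exists_max_image (s.filter fun α => g α ≠ 0)
    (fun α => α.1.length) ⟨β, Finset.mem_filter.2 ⟨hβ, hβg⟩⟩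
  have hα0s := (Finset.mem_filter.1 hα0).1
  have hα0g := (Finset.mem_filter.1 hα0).2
  set N : ℕ := α0.1.length + 1 with hN
  have hN0 : N ≠ 0 := by omega
  have hprim := Complex.isPrimitiveRoot_exp N hN0
  set ζ : ℂ := Complex.exp (2 * Real.pi * Complex.I / N) with hζ
  have hnorm : ∀ k : ℕ, ‖ζ ^ k‖ = 1 := by
    intro k
    rw [norm_pow, hprim.norm'_eq_one hN0, one_pow]
  choose φ hφ1 hφ2 using fun k : ℕ => gauge G (hnorm k)
  -- the value of the average on one term
  have hav : ∀ α : {α : List G.Ed // G.IsP α v}, α ∈ s → g α ≠ 0 → α ≠ α0 →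
      ∑ k ∈ Finset.range N, φ k (star (pe α0.1 v) * pe α.1 v) = 0 := by
    intro α hα hgα hne
    have hl : α.1.length ≤ α0.1.length := hmax α (Finset.mem_filter.2 ⟨hα, hgα⟩)
    rcases star_pe_mul α0.2 α.2 hl with ⟨h1, _⟩ | ⟨γ, h1, h2, h3, h4⟩ | h1
    · exact absurd (Subtype.ext h1) hne
    · rw [h4]
      have hlen : γ.length ≤ α0.1.length := by
        rw [h2, List.length_append]; omega
      have hpos : 0 < γ.length := List.length_pos_iff.2 h1
      have hterm : ∀ k, φ k (star (pe γ v)) =
          ((starRingEnd ℂ) ζ ^ γ.length) ^ k • star (pe γ v) := by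
        intro k
        rw [map_star, gauge_pe (hφ1 k) (hφ2 k), star_smul]
        congr 1
        change (starRingEnd ℂ) ((ζ ^ k) ^ γ.length) = _
        rw [map_pow, map_pow, ← pow_mul, ← pow_mul, mul_comm]
      rw [Finset.sum_congr rfl fun k _ => hterm k, ← Finset.sum_smul]
      have hz : ((starRingEnd ℂ) ζ ^ γ.length) ≠ 1 := by
        intro hcon
        have h5 : ζ ^ γ.length = 1 := by
          have := congrArg (starRingEnd ℂ) hcon
          rwa [map_pow, Complex.conj_conj, map_one] at this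
        have := (hprim.pow_eq_one_iff_dvd _).1 h5
        exact absurd (Nat.le_of_dvd hpos this) (by omega)
      have hzN : ((starRingEnd ℂ) ζ ^ γ.length) ^ N = 1 := by
        rw [← pow_mul, mul_comm, pow_mul, ← map_pow, hprim.pow_eq_one, map_one, one_pow]
      have := mul_neg_geom_sum ((starRingEnd ℂ) ζ ^ γ.length) N
      rw [hzN, sub_self] at this
      rcases mul_eq_zero.1 this with h | h
      · exact absurd (sub_eq_zero.1 h).symm hz
      · rw [h, zero_smul]
    · rw [h1]
      simp
  have hav0 : ∑ k ∈ Finset.range N, φ k (star (pe α0.1 v) * pe α0.1 v) =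
      (N : ℂ) • (vx v : LA G) := by
    rw [star_pe_mul_pe α0.2, Finset.sum_congr rfl fun k _ => hφ1 k v, Finset.sum_const,
      Finset.card_range, Nat.cast_smul_eq_nsmul]
  have hsum : ∑ k ∈ Finset.range N, φ k (star (pe α0.1 v) *
      ∑ α ∈ s, g α • (pe α.1 v : LA G)) = 0 := by
    rw [hg, mul_zero]
    simp
  have hexp : ∑ k ∈ Finset.range N, φ k (star (pe α0.1 v) *
      ∑ α ∈ s, g α • (pe α.1 v : LA G)) =
      ∑ α ∈ s, g α • ∑ k ∈ Finset.range N, φ k (star (pe α0.1 v) * pe α.1 v) := by
    simp only [Finset.mul_sum, mul_smul_comm, map_sum, map_smul, Finset.smul_sum]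
    exact Finset.sum_comm
  rw [hexp, Finset.sum_eq_single α0] at hsum
  · rw [hav0, smul_smul] at hsum
    rcases smul_eq_zero.1 hsum with h | h
    · rcases mul_eq_zero.1 h with h | h
      · exact hα0g h
      · exact hN0 (by exact_mod_cast h)
    · exact vx_ne_zero v h
  · intro α hα hne
    by_cases hgα : g α = 0
    · rw [hgα, zero_smul]
    · rw [hav α hα hgα hne, smul_zero]
  · intro h
    exact absurd hα0s h

end DC29
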