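import Pool.Agent.LibDC29.B1
import Pool.Agent.LibLPA74.B2

/-!
[DC R2] Reduction (`red` of If.lean).  Let `x ≠ 0`; to show `φ x ≠ 0`.  By `mem_span` `x` is a finite combination of
`pe α u * star (pe γ u)`.  Let `F` be a finite set of edges containing all edges of the `α`, `γ`, such that for every finite
emitter `v` (`{e | s e = v}` finite) `F` contains all edges at `v` or none (enlarge), `S` a finite set of vertices with
`x * eS S = x`, `n` larger than all lengths.  `q v = qq F v = vx v - ∑_{e ∈ F, s e = v} ed e star (ed e)` (`LibLPA74/B2`: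
`vx_eq_qq_add`, `star_ed_mul_qq`).
(1) For every `k`: `eS S` is the sum of the `pe β u star (pe β u)`, `β` of length `k` with edges in `F` starting in `S`, and of the
`pe β u * q u * star (pe β u)`, `β` of length `< k` with edges in `F` starting in `S` (induction on `k`, `vx_eq_qq_add`).  It is
enough to have the CONSEQUENCE: if `x ≠ 0` there is an `F`-path `β` to some `u` with `x * pe β u ≠ 0` and `|β| = n`, or
`x * pe β u * q u ≠ 0`.  (Direct proof by induction: if `y ≠ 0`, `y = y * vx v`, then `y * q v ≠ 0` or `y * ed e ≠ 0` for some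
`e ∈ F`, `s e = v`; start with `y = x * vx v ≠ 0` for some `v ∈ S`; iterate `n` times.)
(2) `star (pe γ u) * pe β u'` for `|γ| ≤ |β|`: `pe β' u'` with `β = γ ++ β'`, or `0`; so `x * pe β u'` (`|β| = n`) is a combination of
paths ending at `u'`.  For `|β| < n`: `star (pe γ u) * pe β u' * q u'` is `pe β' u' * q u'` with `β = γ ++ β'`, or `0` (if
`γ = β ++ e :: γ'` then `star (ed e) * q u' = 0` as `e ∈ F`), so `x * pe β u' * q u'` is (combination of paths to `u'`) `* q u'`.
(3) a nonzero combination `y = ∑ c α • pe α v` has some `c α ≠ 0`, so `φ y ≠ 0` by `h v`; hence `φ x ≠ 0`.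
(4) `y = (∑ c α • pe α v) * q v ≠ 0`: if no edge of `F` starts at `v`, `q v = vx v` and (3).  Otherwise, if `v` is a finite emitter,
`F` contains all its edges and `q v = 0` (`vx_eq_sum`), contradiction; so `v` is an infinite emitter and there is `e'` with
`s e' = v`, `e' ∉ F`: `q v * ed e' = ed e'`, `y * ed e' = ∑ c α • pe (α ++ [e']) (r e')`, a combination of different paths with some
nonzero coefficient: `φ (y * ed e') ≠ 0`.
-/

namespace DC29

open LPA74

theorem R2_app {G : Gph} {α β : List G.Ed} {v : G.V} (hα : G.IsP α (G.st β v)) (hβ : G.IsP β v) :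
    G.IsP (α ++ β) v ∧ (pe (α ++ β) v : LA G) = pe α (G.st β v) * pe β v ∧
      G.st (α ++ β) v = G.st α (G.st β v) := by
  induction α with
  | nil => exact ⟨hβ, (vx_mul_pe β v).symm, rfl⟩
  | cons g α ih =>
    obtain ⟨h1, h2⟩ := hα
    obtain ⟨a, b, c⟩ := ih h2
    refine ⟨⟨?_, a⟩, ?_, rfl⟩
    · exact h1.trans c.symm
    · show ed g * pe (α ++ β) v = ed g * pe α (G.st β v) * pe β v
      rw [b, mul_assoc]

/-- `star (pe γ u) * pe β u'` for `γ` not longer than `β`. -/
theorem R2_w1 {G : Gph} {u u' : G.V} (γ : List G.Ed) : ∀ β : List G.Ed, G.IsP γ u → G.IsP β u' →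
    γ.length ≤ β.length → star (pe γ u : LA G) * pe β u' = 0 ∨
      ∃ β', G.IsP β' u' ∧ G.st β' u' = u ∧ star (pe γ u : LA G) * pe β u' = pe β' u' := by
  induction γ with
  | nil =>
    intro β _ hβ _
    by_cases h : u = G.st β u'
    · right
      refine ⟨β, hβ, h.symm, ?_⟩
      show star (vx u) * pe β u' = pe β u'
      rw [star_vx, h, vx_mul_pe]
    · left
      show star (vx u) * pe β u' = 0
      rw [star_vx, vx_mul_pe_ne h]
  | cons g γ ih =>
    intro β hγ hβ hl
    cases β with
    | nil => simp at hl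
    | cons b β =>
      have hl' : γ.length ≤ β.length := by simpa using hl
      have e1 : star (pe (g :: γ) u : LA G) * pe (b :: β) u' =
          star (pe γ u) * ((star (ed g) * ed b) * pe β u') := by
        show star (ed g * pe γ u) * (ed b * pe β u') = _
        rw [star_mul]
        simp only [mul_assoc]
      by_cases hgb : g = b
      · subst hgb
        have e2 : star (pe (g :: γ) u : LA G) * pe (g :: β) u' = star (pe γ u) * pe β u' := by
          rw [e1, star_ed_mul_ed, hβ.1, vx_mul_pe]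
        rw [e2]
        exact ih β hγ.2 hβ.2 hl'
      · left
        rw [e1, star_ed_mul_ed_ne hgb, zero_mul, mul_zero]

/-- `star (pe γ u) * pe β u' * qq F u'` for `γ` longer than `β`, with edges in `F`. -/
theorem R2_w2 {G : Gph} {u u' : G.V} {F : Finset G.Ed} (γ : List G.Ed) : ∀ β : List G.Ed,
    G.IsP γ u → G.IsP β u' → (∀ g ∈ γ, g ∈ F) → β.length < γ.length →
      star (pe γ u : LA G) * (pe β u' * qq F u') = 0 := by
  induction γ with
  | nil =>
    intro β _ _ _ hl
    simp at hl
  | cons g γ ih =>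
    intro β hγ hβ hF hl
    cases β with
    | nil =>
      show star (ed g * pe γ u) * (vx u' * qq F u') = 0
      rw [vx_mul_qq, star_mul, mul_assoc, star_ed_mul_qq (hF g List.mem_cons_self), mul_zero]
    | cons b β =>
      have hl' : β.length < γ.length := by simpa using hl
      have e1 : star (pe (g :: γ) u : LA G) * (pe (b :: β) u' * qq F u') =
          star (pe γ u) * ((star (ed g) * ed b) * (pe β u' * qq F u')) := by
        show star (ed g * pe γ u) * (ed b * pe β u' * qq F u') = _
        rw [star_mul]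
        simp only [mul_assoc]
      by_cases hgb : g = b
      · subst hgb
        have e2 : star (pe (g :: γ) u : LA G) * (pe (g :: β) u' * qq F u') =
            star (pe γ u) * (pe β u' * qq F u') := by
          rw [e1, star_ed_mul_ed, hβ.1, ← mul_assoc (vx (G.st β u')), vx_mul_pe]
        rw [e2]
        exact ih β hγ.2 hβ.2 (fun g' hg' => hF g' (List.mem_cons_of_mem _ hg')) hl'
      · rw [e1, star_ed_mul_ed_ne hgb, zero_mul, mul_zero]

/-- the span of the paths to `v`. -/
noncomputable def R2_P (G : Gph) (v : G.V) : Submodule ℂ (LA G) :=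
  Submodule.span ℂ (Set.range fun α : {α : List G.Ed // G.IsP α v} => (pe α.1 v : LA G))

/-- the span of the `pe α u * star (pe γ u)`, the edges of `γ` in `F`, the length of `γ` at most `n`. -/
noncomputable def R2_S (G : Gph) (F : Finset G.Ed) (n : ℕ) : Submodule ℂ (LA G) :=
  Submodule.span ℂ {y : LA G | ∃ (u : G.V) (α γ : List G.Ed), G.IsP α u ∧ G.IsP γ u ∧
    (∀ g ∈ γ, g ∈ F) ∧ γ.length ≤ n ∧ y = pe α u * star (pe γ u)}

theorem R2_S_mono {G : Gph} {F F' : Finset G.Ed} {n n' : ℕ} (hF : F ⊆ F') (hn : n ≤ n') :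
    R2_S G F n ≤ R2_S G F' n' := by
  refine Submodule.span_mono ?_
  rintro y ⟨u, α, γ, h1, h2, h3, h4, h5⟩
  exact ⟨u, α, γ, h1, h2, fun g hg => hF (h3 g hg), h4.trans hn, h5⟩

theorem R2_mem_S {G : Gph} (x : LA G) : ∃ F n, x ∈ R2_S G F n := by
  classical
  have h := mem_span x
  induction h using Submodule.span_induction with
  | mem y hy =>
    obtain ⟨u, α, γ, h1, h2, h3⟩ := hy
    exact ⟨γ.toFinset, γ.length, Submodule.subset_span
      ⟨u, α, γ, h1, h2, fun g hg => List.mem_toFinset.2 hg, le_rfl, h3⟩⟩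
  | zero => exact ⟨∅, 0, zero_mem _⟩
  | add y z _ _ hy hz =>
    obtain ⟨F, n, h1⟩ := hy
    obtain ⟨F', n', h2⟩ := hz
    exact ⟨F ∪ F', max n n', add_mem
      (R2_S_mono Finset.subset_union_left (le_max_left _ _) h1)
      (R2_S_mono Finset.subset_union_right (le_max_right _ _) h2)⟩
  | smul c y _ hy =>
    obtain ⟨F, n, h1⟩ := hy
    exact ⟨F, n, Submodule.smul_mem _ _ h1⟩

/-- finite emitters: all edges or none. -/
def R2_cl (G : Gph) (F : Finset G.Ed) : Prop :=
  ∀ g ∈ F, {e | G.s e = G.s g}.Finite → ∀ e, G.s e = G.s g → e ∈ F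

theorem R2_close {G : Gph} (F : Finset G.Ed) : ∃ F', F ⊆ F' ∧ R2_cl G F' := by
  classical
  refine ⟨F.biUnion fun g => if h : {e | G.s e = G.s g}.Finite then h.toFinset else {g}, ?_, ?_⟩
  · intro g hg
    refine Finset.mem_biUnion.2 ⟨g, hg, ?_⟩
    split_ifs with h
    · exact h.mem_toFinset.2 rfl
    · exact Finset.mem_singleton_self g
  · intro g' hg' hfin e he
    obtain ⟨g, hg, hgg⟩ := Finset.mem_biUnion.1 hg'
    by_cases h : {e | G.s e = G.s g}.Finite
    · rw [dif_pos h] at hgg
      have e1 : G.s g' = G.s g := h.mem_toFinset.1 hgg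
      refine Finset.mem_biUnion.2 ⟨g, hg, ?_⟩
      rw [dif_pos h]
      exact h.mem_toFinset.2 (he.trans e1)
    · rw [dif_neg h] at hgg
      have e1 := Finset.mem_singleton.1 hgg
      rw [e1] at hfin
      exact absurd hfin h

/-- choice of a path. -/
theorem R2_path {G : Gph} (F : Finset G.Ed) {x : LA G} (hx : x ≠ 0) (n : ℕ) :
    ∃ (β : List G.Ed) (u : G.V), G.IsP β u ∧ ((β.length = n ∧ x * pe β u ≠ 0) ∨
      (β.length < n ∧ x * (pe β u * qq F u) ≠ 0)) := by
  classical
  induction n with
  | zero =>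
    obtain ⟨S, hS⟩ := exists_unit {x}
    have h1 := (hS S (Finset.Subset.refl _) x (Finset.mem_singleton_self x)).2
    by_contra hcon
    push Not at hcon
    apply hx
    rw [← h1]
    unfold eS
    rw [Finset.mul_sum]
    refine Finset.sum_eq_zero fun v _ => ?_
    exact (hcon [] v trivial).1 rfl
  | succ n ih =>
    obtain ⟨β, u, hβ, h⟩ := ih
    rcases h with ⟨h1, h2⟩ | ⟨h1, h2⟩
    · by_cases hq : x * (pe β u * qq F u) = 0
      · by_contra hcon
        push Not at hcon
        apply h2
        have e1 : x * pe β u = x * (pe β u * vx u) := by rw [pe_mul_vx]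
        rw [e1, vx_eq_qq_add F u, mul_add, mul_add, hq, zero_add, Finset.mul_sum, Finset.mul_sum]
        refine Finset.sum_eq_zero fun g hg => ?_
        have hg' := (Finset.mem_filter.1 hg).2
        subst hg'
        have h3 : G.IsP [g] (G.r g) := ⟨rfl, trivial⟩
        obtain ⟨a, b, -⟩ := R2_app (β := [g]) (v := G.r g) hβ h3
        have h4 := (hcon (β ++ [g]) (G.r g) a).1 (by rw [List.length_append, h1]; rfl)
        have h5 : (pe (β ++ [g]) (G.r g) : LA G) = pe β (G.s g) * (ed g * vx (G.r g)) := b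
        rw [h5] at h4
        calc x * (pe β (G.s g) * (ed g * vx (G.r g) * star (ed g))) =
            x * (pe β (G.s g) * (ed g * vx (G.r g))) * star (ed g) := by
              simp only [mul_assoc]
          _ = 0 := by rw [h4, zero_mul]
      · exact ⟨β, u, hβ, Or.inr ⟨by omega, hq⟩⟩
    · exact ⟨β, u, hβ, Or.inr ⟨by omega, h2⟩⟩

theorem R2_red1 {G : Gph} {F : Finset G.Ed} {n : ℕ} {x : LA G} (hx : x ∈ R2_S G F n)
    {β : List G.Ed} {u : G.V} (hβ : G.IsP β u) (hn : n ≤ β.length) :
    x * pe β u ∈ R2_P G u := by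
  induction hx using Submodule.span_induction with
  | mem y hy =>
    obtain ⟨v, α, γ, h1, h2, h3, h4, rfl⟩ := hy
    rw [mul_assoc]
    rcases R2_w1 γ β h2 hβ (h4.trans hn) with h5 | ⟨β', h5, h6, h7⟩
    · rw [h5, mul_zero]
      exact zero_mem _
    · rw [h7]
      subst h6
      obtain ⟨a, b, -⟩ := R2_app h1 h5
      rw [← b]
      exact Submodule.subset_span ⟨⟨α ++ β', a⟩, rfl⟩
  | zero =>
    rw [zero_mul]
    exact zero_mem _
  | add y z _ _ hy hz =>
    rw [add_mul]
    exact add_mem hy hz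
  | smul c y _ hy =>
    rw [smul_mul_assoc]
    exact Submodule.smul_mem _ _ hy

theorem R2_red2 {G : Gph} {F : Finset G.Ed} {n : ℕ} {x : LA G} (hx : x ∈ R2_S G F n)
    {β : List G.Ed} {u : G.V} (hβ : G.IsP β u) :
    ∃ y ∈ R2_P G u, x * (pe β u * qq F u) = y * qq F u := by
  induction hx using Submodule.span_induction with
  | mem y hy =>
    obtain ⟨v, α, γ, h1, h2, h3, h4, rfl⟩ := hy
    by_cases hl : γ.length ≤ β.length
    · rcases R2_w1 γ β h2 hβ hl with h5 | ⟨β', h5, h6, h7⟩
      · refine ⟨0, zero_mem _, ?_⟩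
        rw [zero_mul, mul_assoc, ← mul_assoc (star (pe γ v)), h5, zero_mul, mul_zero]
      · subst h6
        obtain ⟨a, b, -⟩ := R2_app h1 h5
        refine ⟨pe (α ++ β') u, Submodule.subset_span ⟨⟨α ++ β', a⟩, rfl⟩, ?_⟩
        rw [mul_assoc, ← mul_assoc (star (pe γ (G.st β' u))), h7, b, mul_assoc]
    · refine ⟨0, zero_mem _, ?_⟩
      rw [zero_mul, mul_assoc, R2_w2 γ β h2 hβ h3 (not_le.1 hl), mul_zero]
  | zero => exact ⟨0, zero_mem _, by rw [zero_mul, zero_mul]⟩
  | add y z _ _ hy hz =>
    obtain ⟨a, ha, ha'⟩ := hy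
    obtain ⟨b, hb, hb'⟩ := hz
    exact ⟨a + b, add_mem ha hb, by rw [add_mul, add_mul, ha', hb']⟩
  | smul c y _ hy =>
    obtain ⟨a, ha, ha'⟩ := hy
    exact ⟨c • a, Submodule.smul_mem _ _ ha, by rw [smul_mul_assoc, smul_mul_assoc, ha']⟩

theorem R2_lc {G : Gph} {v : G.V} {y : LA G} (hy : y ∈ R2_P G v) :
    ∃ c : {α : List G.Ed // G.IsP α v} →₀ ℂ, y = ∑ α ∈ c.support, c α • (pe α.1 v : LA G) := by
  obtain ⟨c, hc⟩ := Finsupp.mem_span_range_iff_exists_finsupp.1 hy
  exact ⟨c, hc.symm⟩

theorem red' {G : Gph} {B : Type} [NonUnitalRing B] [StarRing B] [Module ℂ B]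
    [IsScalarTower ℂ B B] [SMulCommClass ℂ B B] [StarModule ℂ B] (φ : LA G →⋆ₙₐ[ℂ] B)
    (h : ∀ v, LinearIndependent ℂ fun α : {α : List G.Ed // G.IsP α v} => φ (pe α.1 v)) :
    Function.Injective φ := by
  classical
  -- paths with the same end
  have h3 : ∀ v, ∀ y ∈ R2_P G v, φ y = 0 → y = 0 := by
    intro v y hy h0
    obtain ⟨c, rfl⟩ := R2_lc hy
    have e1 : Finsupp.linearCombination ℂ
        (fun α : {α : List G.Ed // G.IsP α v} => φ (pe α.1 v)) c = 0 := by
      rw [Finsupp.linearCombination_apply, Finsupp.sum, ← h0, map_sum]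
      exact Finset.sum_congr rfl fun α _ => (map_smul φ _ _).symm
    have e2 := linearIndependent_iff.1 (h v) c e1
    rw [e2]
    simp
  have h4 : ∀ (F : Finset G.Ed), R2_cl G F → ∀ v, ∀ y ∈ R2_P G v, φ (y * qq F v) = 0 →
      y * qq F v = 0 := by
    intro F hF v y hy h0
    have hyv : y * vx v = y := by
      obtain ⟨c, rfl⟩ := R2_lc hy
      rw [Finset.sum_mul]
      refine Finset.sum_congr rfl fun α _ => ?_
      rw [smul_mul_assoc, pe_mul_vx]
    by_cases h1 : ∀ g ∈ F, G.s g ≠ v
    · rw [qq_eq_vx h1, hyv] at h0 ⊢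
      exact h3 v y hy h0
    · push Not at h1
      obtain ⟨g, hg, hgv⟩ := h1
      by_cases hfin : {e | G.s e = v}.Finite
      · -- finite emitter
        have h5 : ∀ e, G.s e = v → e ∈ F := by
          intro e he
          exact hF g hg (by rw [hgv]; exact hfin) e (by rw [hgv]; exact he)
        have h6 : (qq F v : LA G) = 0 := by
          unfold qq
          rw [vx_eq_sum v (F.filter fun g => G.s g = v) ⟨g, Finset.mem_filter.2 ⟨hg, hgv⟩⟩
            (fun f => ?_), sub_self]
          rw [Finset.mem_filter]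
          exact ⟨fun h => h.2, fun h => ⟨h5 f h, h⟩⟩
        rw [h6, mul_zero]
      · -- infinite emitter
        obtain ⟨e', he', heF⟩ : ∃ e', G.s e' = v ∧ e' ∉ F := by
          by_contra hcon
          push Not at hcon
          exact hfin (F.finite_toSet.subset fun e he => hcon e he)
        subst he'
        have h5 : (qq F (G.s e') : LA G) * ed e' = ed e' := by
          unfold qq
          rw [sub_mul, vx_mul_ed, Finset.sum_mul, Finset.sum_eq_zero, sub_zero]
          intro g' hg'
          have hne : g' ≠ e' := fun e => heF (by rw [← e]; exact (Finset.mem_filter.1 hg').1)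
          rw [mul_assoc, star_ed_mul_ed_ne hne, mul_zero]
        obtain ⟨c, rfl⟩ := R2_lc hy
        have hP : ∀ α : {α : List G.Ed // G.IsP α (G.s e')}, G.IsP (α.1 ++ [e']) (G.r e') ∧
            (pe (α.1 ++ [e']) (G.r e') : LA G) = pe α.1 (G.s e') * ed e' := by
          intro α
          have h6 : G.IsP [e'] (G.r e') := ⟨rfl, trivial⟩
          obtain ⟨a, b, -⟩ := R2_app (β := [e']) (v := G.r e') α.2 h6
          refine ⟨a, b.trans ?_⟩
          show pe α.1 (G.s e') * (ed e' * vx (G.r e')) = _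
          rw [ed_mul_vx]
        have hli : LinearIndependent ℂ fun α : {α : List G.Ed // G.IsP α (G.s e')} =>
            φ (pe (α.1 ++ [e']) (G.r e')) :=
          (h (G.r e')).comp (fun α : {α : List G.Ed // G.IsP α (G.s e')} =>
            (⟨α.1 ++ [e'], (hP α).1⟩ : {α : List G.Ed // G.IsP α (G.r e')}))
            (fun α β hαβ => Subtype.ext (List.append_cancel_right (congrArg Subtype.val hαβ)))
        have h7 : φ ((∑ α ∈ c.support, c α • (pe α.1 (G.s e') : LA G)) * ed e') = 0 := by
          have e1 : (∑ α ∈ c.support, c α • (pe α.1 (G.s e') : LA G)) * ed e' =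
              (∑ α ∈ c.support, c α • (pe α.1 (G.s e') : LA G)) * qq F (G.s e') * ed e' := by
            rw [mul_assoc, h5]
          rw [e1, map_mul, h0, zero_mul]
        have e1 : Finsupp.linearCombination ℂ
            (fun α : {α : List G.Ed // G.IsP α (G.s e')} => φ (pe (α.1 ++ [e']) (G.r e'))) c =
              0 := by
          rw [Finsupp.linearCombination_apply, Finsupp.sum, ← h7, Finset.sum_mul, map_sum]
          refine Finset.sum_congr rfl fun α _ => ?_
          rw [smul_mul_assoc, map_smul, (hP α).2]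
        have e2 := linearIndependent_iff.1 hli c e1
        rw [e2]
        simp
  have hmain : ∀ x : LA G, φ x = 0 → x = 0 := by
    intro x h0
    by_contra hx
    obtain ⟨F₀, n, hF₀⟩ := R2_mem_S x
    obtain ⟨F, hFF, hF⟩ := R2_close F₀
    have hxF := R2_S_mono hFF le_rfl hF₀
    obtain ⟨β, u, hβ, h5⟩ := R2_path F hx n
    rcases h5 with ⟨h6, h7⟩ | ⟨h6, h7⟩
    · apply h7
      refine h3 u _ (R2_red1 hxF hβ h6.ge) ?_
      rw [map_mul, h0, zero_mul]
    · obtain ⟨y, hy, hy'⟩ := R2_red2 hxF hβ
      apply h7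
      rw [hy']
      refine h4 F hF u y hy ?_
      rw [← hy', map_mul, h0, zero_mul]
  intro x y hxy
  have h5 := hmain (x - y) (by rw [map_sub, hxy, sub_self])
  exact sub_eq_zero.1 h5

end DC29
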