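import Pool.Agent.LibDC29.Defs

/-!
# Isometries of projections, shift equivalence, good homomorphisms
-/

namespace DC29

open LPA74 Finsupp

section pw
variable {A : Type} [NonUnitalRing A] [StarRing A]

/-- `σ ^ n`, with `σ ^ 0 = x`. -/
def pw (x σ : A) : ℕ → A
  | 0 => x
  | n + 1 => σ * pw x σ n

/-- `σ ^ n` for `n : ℤ`, negative powers being powers of `σ*`. -/
def pz (x σ : A) : ℤ → A
  | Int.ofNat n => pw x σ n
  | Int.negSucc n => star (pw x σ (n + 1))

/-- evaluation of a Laurent polynomial at `σ`. -/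
noncomputable def pl [Module ℂ A] (x σ : A) (p : LaurentPolynomial ℂ) : A :=
  p.coeff.sum fun n l => l • pz x σ n

/-- `σ` is an isometry of the projection `x`. -/
structure Isom (x σ : A) : Prop where
  pj : Pj x
  ss : star σ * σ = x
  xs : x * σ = σ
  sx : σ * x = σ

end pw

/-- `p` is an orthogonal sum of projections `*`-equivalent to vertices of `H`. -/
def HCl {G : Gph} (H : Set G.V) (p : LA G) : Prop :=
  ∃ (n : ℕ) (a : Fin n → G.V) (u : Fin n → LA G), (∀ i, a i ∈ H) ∧ p = ∑ i, u i * star (u i) ∧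
    (∀ i j, star (u i) * u j = if i = j then vx (a i) else 0) ∧ (∀ i, u i * vx (a i) = u i)

/-- shift equivalence of the isometries `σ` of `x` and `τ` of `y`, with defects in `H`. -/
def ShEq {G : Gph} (H : Set G.V) (x σ y τ : LA G) : Prop :=
  ∃ (N : ℕ) (ρ a : LA G), (star ρ * ρ = y ∧ x * ρ = ρ ∧ ρ * y = ρ) ∧
    (star a * a = x ∧ y * a = a ∧ a * x = a) ∧ σ * ρ = ρ * τ ∧ τ * a = a * σ ∧
    ρ * a = pw x σ N ∧ a * ρ = pw y τ N ∧ HCl H (x - ρ * star ρ) ∧ HCl H (y - a * star a)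

/-- the vertices which do not reach `c`. -/
def NR (G : Gph) (c : G.V) : Set G.V := {w | ¬ Rch G w c}

/-- good homomorphisms. -/
structure Gd {G G' : Gph} {hG : LG G} {hG' : LG G'} {t : Mon G ≃+ Mon G'} (M : MD hG hG' t)
    (Φ : LA G →⋆ₙₐ[ℂ] LA G') : Prop where
  cl : ∀ v, SCl (Φ (vx v)) (t (mv v))
  sh : ∀ (f : G.Ed) (f' : G'.Ed), G.r f = G.s f → G'.s f' = M.f (G.s f) → G'.r f' = G'.s f' →
    ShEq (NR G' (G'.s f')) (Φ (vx (G.s f))) (Φ (ed f)) (vx (G'.s f')) (ed f')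

/-- the matching of the inverse. -/
def MD.symm {G G' : Gph} {hG : LG G} {hG' : LG G'} {t : Mon G ≃+ Mon G'} (M : MD hG hG' t) :
    MD hG' hG t.symm where
  f := M.g
  g := M.f
  f_lp := M.g_lp
  g_lp := M.f_lp
  gf := M.fg
  fg := M.gf
  h1 := M.h2
  h2 := fun c hc => by
    obtain ⟨b, n, h1, h2⟩ := M.h1 c hc
    exact ⟨b, n, h1, h2⟩
  h3 := fun c hc => by
    have h := M.h3 (M.g c) (M.g_lp c hc)
    rw [M.fg c hc] at h
    rw [← h]
    exact t.symm_apply_apply _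

end DC29
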