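import Pool.Agent.LibDC29.Defs2
import Pool.Agent.LibDC29.Monoid
import Pool.Agent.LibDC56.TX
import Pool.Agent.LibDC29.R0
import Pool.Agent.LibDC29.R2

/-!
Interfaces: `M0`–`M6`, `absorb` are in `Monoid.lean`; `Cl.unique`, `exists_cl`, `SM1`, `SM2`, `SM3` in
`LibDC56/TX.lean`; `ind`, `red` from `R0.lean`, `R2.lean`.
-/

namespace DC29

open LPA74

/-- paths with the same end are linearly independent. -/
theorem ind {G : Gph} [Countable G.Ed] (v : G.V) :
    LinearIndependent ℂ fun α : {α : List G.Ed // G.IsP α v} => (pe α.1 v : LA G) := ind' v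

/-- reduction: a homomorphism is injective if the images of the paths with the same end are
linearly independent. -/
theorem red {G : Gph} {B : Type} [NonUnitalRing B] [StarRing B] [Module ℂ B]
    [IsScalarTower ℂ B B] [SMulCommClass ℂ B B] [StarModule ℂ B] (φ : LA G →⋆ₙₐ[ℂ] B)
    (h : ∀ v, LinearIndependent ℂ fun α : {α : List G.Ed // G.IsP α v} => φ (pe α.1 v)) :
    Function.Injective φ := red' φ h

end DC29
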