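import Pool.Agent.LibDC29.A4
import Pool.Agent.LibDC29.If

/-!
[DC A5] Room.  `Cl.unique` (classes are unique in normal graphs) is in `If.lean`.
* `SCl.unique`: `SCl.cl`, `Cl.unique` with `Eqv.refl`.
* `mv_eq`: `SCl.of_seqv (SCl.vx v) h`, `SCl.unique`.
* `exists_room`: `m = mk G l`; induction on `l` (`Finsupp.induction_linear` or on
  `∑ l v`, adding one vertex at a time): for `v` take `w ∉ S ∪ T` from `hG.room`, without loop,
  `mv w = mv v` by `mv_eq`.
* `hcl_of_le`: family `a i` for `p`: `Le (mv (a i)) m`, so `Le (mv (a i)) (n • wm c)`; if `a i`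
  reached `c` then `Le (mv c) (mv (a i))` (`M5`), contradicting `M2'`.
-/

namespace DC29

open LPA74 Finsupp

variable {G : Gph} {p q : LA G} {m n : Mon G}

theorem Le.trans {a b c : Mon G} (h : Le a b) (h' : Le b c) : Le a c := Le.trans' h h'

theorem A5_refl {x : LA G} (h : x * x = x) : Eqv x x :=
  ⟨x, x, h, h, by rw [h, h], by rw [h, h]⟩

theorem SCl.unique (hG : NG G) (h : SCl p m) (h' : SCl p n) : m = n :=
  Cl.unique hG h.cl h'.cl (A5_refl h.cl.idem)

theorem mv_eq (hG : NG G) {v w : G.V} (h : SEqv (vx w : LA G) (vx v)) : mv w = mv v :=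
  SCl.unique hG (SCl.vx w) (SCl.of_seqv (SCl.vx v) h)

theorem exists_room (hG : NG G) (m : Mon G) (S : Finset G.V) :
    ∃ T : Finset G.V, Disjoint S T ∧ (∀ v ∈ T, ¬ IsLp G v) ∧ ∑ v ∈ T, mv v = m := by
  classical
  obtain ⟨l, rfl⟩ := mk_surj m
  induction l using Finsupp.induction_linear generalizing S with
  | zero => exact ⟨∅, Finset.disjoint_empty_right S, by simp, by simp⟩
  | add l1 l2 ih1 ih2 =>
    obtain ⟨T1, h1, h2, h3⟩ := ih1 S
    obtain ⟨T2, h4, h5, h6⟩ := ih2 (S ∪ T1)
    rw [Finset.disjoint_union_left] at h4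
    refine ⟨T1 ∪ T2, ?_, ?_, ?_⟩
    · rw [Finset.disjoint_union_right]
      exact ⟨h1, h4.1⟩
    · intro v hv
      rcases Finset.mem_union.1 hv with hv | hv
      · exact h2 v hv
      · exact h5 v hv
    · rw [Finset.sum_union h4.2, h3, h6, map_add]
  | single v k =>
    induction k with
    | zero => exact ⟨∅, Finset.disjoint_empty_right S, by simp, by simp⟩
    | succ k ih =>
      obtain ⟨T, h1, h2, h3⟩ := ih
      obtain ⟨w, hw, hl, he⟩ := hG.room v (S ∪ T)
      rw [Finset.mem_union, not_or] at hw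
      refine ⟨insert w T, ?_, ?_, ?_⟩
      · rw [Finset.disjoint_insert_right]
        exact ⟨hw.1, h1⟩
      · intro u hu
        rcases Finset.mem_insert.1 hu with hu | hu
        · rw [hu]; exact hl
        · exact h2 u hu
      · rw [Finset.sum_insert hw.2, h3, mv_eq hG he, add_comm, Finsupp.single_add, map_add]
        rfl

theorem hcl_of_le (hG : NG G) {c : G.V} (hc : IsLp G c) (h : SCl p m) {k : ℕ}
    (hm : Le m (k • wm hG.toLG c)) : HCl (NR G c) p := by
  classical
  obtain ⟨n, a, u, h1, h2, h3, h4⟩ := h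
  refine ⟨n, a, u, fun i => ?_, h1, h2, h3⟩
  intro hr
  have hr' : Rch G (a i) c := hr
  have e1 : Le (mv c : Mon G) (mv (a i)) := le_of_rch hG.toLG hr'
  have e2 : Le (mv (a i) : Mon G) m :=
    ⟨∑ j ∈ Finset.univ.erase i, mv (a j), by
      rw [h4]
      exact Finset.add_sum_erase Finset.univ (fun j => (mv (a j) : Mon G)) (Finset.mem_univ i)⟩
  exact M2' hG.toLG hc k ((e1.trans e2).trans hm)

end DC29
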