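import Pool.Agent.LibDC29.Defs2
import Pool.Agent.LibLPA74.B1

/-!
[DC B1] Local units, the spanning set of the `α β*`, hereditary corners.
* `eS_mul`: `vx_mul_self`, `vx_mul_ne`.
* `exists_unit`: for one `x` by `LA.induction` (union of the sets), for a finite set by induction.
* `mem_span`: `LA.induction`-like: let `W` be the span.  `W` is stable under left multiplication by
  `vx a`, `ed f`, `star (ed f)` (relations of `Api.lean`, rows of `LibLPA74/B1`:
  `pe (f :: α) u = ed f * pe α u`; `star (ed f) * pe [] u * star (pe β u) =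
  star (pe β u * ed f)`: `β ++ [f]`, use `pe (β ++ [f]) (r f) = pe β (s f) * ed f` and `u = s f`) and
  under `star`.  The set of the `x` with `x * W ⊆ W` and `star x * W ⊆ W` contains the
  generators and is stable under the operations; `x = x * eS S` with `eS S ∈ W`.
* `cor_span`: `x = eS S * x * eS S`, `eS S * pe α u * star (pe β u) * eS S` is `0` or
  `pe α u * star (pe β u)` with `st α u ∈ S`, `st β u ∈ S`.
* `agree`: for a path `α` to `u` with `st α u ∈ H`: `Φ (pe α u) = Ψ (pe α u)` (induction on `α`,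
  `H` hereditary), then `cor_span` and `Submodule.span_induction`.
-/

namespace DC29

open LPA74

variable {G : Gph} {x y : LA G} {H H' : Set G.V}

theorem B1_vx_mul (v : G.V) (T : Finset G.V) [Decidable (v ∈ T)] :
    (LPA74.vx v : LA G) * DC29.eS T = if v ∈ T then LPA74.vx v else 0 := by
  unfold DC29.eS
  rw [Finset.mul_sum]
  split_ifs with h
  · rw [Finset.sum_eq_single v]
    · exact vx_mul_self v
    · intro b _ hb
      exact vx_mul_ne hb.symm
    · intro h'
      exact absurd h h'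
  · refine Finset.sum_eq_zero fun b hb => vx_mul_ne ?_
    rintro rfl
    exact h hb

open Classical in
theorem eS_mul (S T : Finset G.V) : (eS S : LA G) * eS T = eS (S ∩ T) := by
  have h1 : (DC29.eS S : LA G) * DC29.eS T = ∑ v ∈ S, LPA74.vx v * DC29.eS T := by
    rw [← Finset.sum_mul]
    rfl
  rw [h1, Finset.sum_congr rfl fun v _ => B1_vx_mul v T, ← Finset.sum_filter]
  unfold DC29.eS
  rw [Finset.filter_mem_eq_inter]

theorem eS_pj (S : Finset G.V) : Pj (eS S : LA G) := by
  classical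
  refine ⟨by rw [eS_mul, Finset.inter_self], ?_⟩
  unfold DC29.eS
  rw [star_sum]
  exact Finset.sum_congr rfl fun v _ => star_vx v

theorem eS_mul_of_subset {S T : Finset G.V} (h : S ⊆ T) :
    (eS S : LA G) * eS T = eS S ∧ (eS T : LA G) * eS S = eS S := by
  classical
  rw [eS_mul, eS_mul, Finset.inter_eq_left.2 h, Finset.inter_eq_right.2 h]
  exact ⟨rfl, rfl⟩

theorem eS_mul_of_disjoint {S T : Finset G.V} (h : Disjoint S T) : (eS S : LA G) * eS T = 0 := by
  classical
  rw [eS_mul, Finset.disjoint_iff_inter_eq_empty.1 h]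
  unfold DC29.eS
  rw [Finset.sum_empty]

theorem B1_unit_one (x : LA G) : ∃ S : Finset G.V, ∀ T, S ⊆ T →
    DC29.eS T * x = x ∧ x * DC29.eS T = x := by
  classical
  refine LA.induction (p := fun x => ∃ S : Finset G.V, ∀ T, S ⊆ T →
    DC29.eS T * x = x ∧ x * DC29.eS T = x) ?_ ?_ ?_ ?_ ?_ ?_ ?_ x
  · intro a
    refine ⟨{a}, fun T hT => ?_⟩
    have ha : a ∈ T := hT (Finset.mem_singleton_self a)
    have h1 : (LPA74.vx a : LA G) * DC29.eS T = LPA74.vx a := by rw [B1_vx_mul, if_pos ha]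
    refine ⟨?_, h1⟩
    have := congrArg Star.star h1
    rwa [star_mul, star_vx, (eS_pj T).2] at this
  · intro f
    refine ⟨{G.s f, G.r f}, fun T hT => ?_⟩
    have hs : G.s f ∈ T := hT (by simp)
    have hr : G.r f ∈ T := hT (by simp)
    have h1 : ∀ a, a ∈ T → (LPA74.vx a : LA G) * DC29.eS T = LPA74.vx a := fun a ha => by
      rw [B1_vx_mul, if_pos ha]
    have h2 : ∀ a, a ∈ T → DC29.eS T * (LPA74.vx a : LA G) = LPA74.vx a := fun a ha => by
      have := congrArg Star.star (h1 a ha)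
      rwa [star_mul, star_vx, (eS_pj T).2] at this
    constructor
    · rw [← vx_mul_ed, ← mul_assoc, h2 _ hs]
    · rw [← ed_mul_vx, mul_assoc, h1 _ hr]
  · exact ⟨∅, fun T _ => ⟨mul_zero _, zero_mul _⟩⟩
  · rintro x y ⟨S, hS⟩ ⟨S', hS'⟩
    refine ⟨S ∪ S', fun T hT => ?_⟩
    have h1 := hS T (Finset.subset_union_left.trans hT)
    have h2 := hS' T (Finset.subset_union_right.trans hT)
    exact ⟨by rw [mul_add, h1.1, h2.1], by rw [add_mul, h1.2, h2.2]⟩
  · rintro x y ⟨S, hS⟩ ⟨S', hS'⟩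
    refine ⟨S ∪ S', fun T hT => ?_⟩
    have h1 := hS T (Finset.subset_union_left.trans hT)
    have h2 := hS' T (Finset.subset_union_right.trans hT)
    exact ⟨by rw [← mul_assoc, h1.1], by rw [mul_assoc, h2.2]⟩
  · rintro c x ⟨S, hS⟩
    refine ⟨S, fun T hT => ?_⟩
    have h1 := hS T hT
    exact ⟨by rw [mul_smul_comm, h1.1], by rw [smul_mul_assoc, h1.2]⟩
  · rintro x ⟨S, hS⟩
    refine ⟨S, fun T hT => ?_⟩
    have h1 := hS T hT
    have h2 := congrArg Star.star h1.1
    have h3 := congrArg Star.star h1.2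
    rw [star_mul, (eS_pj T).2] at h2 h3
    exact ⟨h3, h2⟩

theorem exists_unit (F : Finset (LA G)) : ∃ S : Finset G.V, ∀ T, S ⊆ T → ∀ x ∈ F,
    eS T * x = x ∧ x * eS T = x := by
  classical
  choose S hS using fun x : LA G => B1_unit_one x
  refine ⟨F.biUnion S, fun T hT x hx => hS x T ?_⟩
  exact (Finset.subset_biUnion_of_mem S hx).trans hT

theorem B1_st_append (l l' : List G.Ed) (u : G.V) : G.st (l ++ l') u = G.st l (G.st l' u) := by
  cases l with
  | nil => rfl
  | cons g l => rfl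

theorem B1_isP_append {l l' : List G.Ed} {u : G.V} (h : G.IsP l (G.st l' u)) (h' : G.IsP l' u) :
    G.IsP (l ++ l') u := by
  induction l with
  | nil => exact h'
  | cons g l ih =>
    refine ⟨?_, ih h.2⟩
    exact h.1.trans (B1_st_append l l' u).symm

theorem B1_pe_append (l l' : List G.Ed) (u : G.V) :
    (pe (l ++ l') u : LA G) = pe l (G.st l' u) * pe l' u := by
  induction l with
  | nil => exact (vx_mul_pe l' u).symm
  | cons g l ih =>
    change ed g * pe (l ++ l') u = ed g * pe l (G.st l' u) * pe l' u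
    rw [ih, mul_assoc]

/-- the span of the paths and ghost paths -/
noncomputable def B1_W (G : Gph) : Submodule ℂ (LA G) := Submodule.span ℂ {y : LA G |
  ∃ (u : G.V) (α β : List G.Ed), G.IsP α u ∧ G.IsP β u ∧ y = pe α u * star (pe β u)}

theorem B1_gen {u : G.V} {α β : List G.Ed} (hα : G.IsP α u) (hβ : G.IsP β u) :
    (pe α u * star (pe β u) : LA G) ∈ B1_W G :=
  Submodule.subset_span ⟨u, α, β, hα, hβ, rfl⟩

theorem B1_left (z : LA G) (h : ∀ (u : G.V) (α β : List G.Ed), G.IsP α u → G.IsP β u →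
    z * (pe α u * star (pe β u)) ∈ B1_W G) : ∀ w ∈ B1_W G, z * w ∈ B1_W G := by
  intro w hw
  refine Submodule.span_induction (p := fun w _ => z * w ∈ B1_W G) ?_ ?_ ?_ ?_ hw
  · rintro w ⟨u, α, β, hα, hβ, rfl⟩
    exact h u α β hα hβ
  · rw [mul_zero]
    exact Submodule.zero_mem _
  · intro x y _ _ hx hy
    rw [mul_add]
    exact Submodule.add_mem _ hx hy
  · intro c x _ hx
    rw [mul_smul_comm]
    exact Submodule.smul_mem _ _ hx

theorem B1_left_vx (a : G.V) : ∀ w ∈ B1_W G, LPA74.vx a * w ∈ B1_W G := by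
  refine B1_left _ fun u α β hα hβ => ?_
  by_cases h : a = G.st α u
  · rw [← mul_assoc, h, vx_mul_pe]
    exact B1_gen hα hβ
  · rw [← mul_assoc, vx_mul_pe_ne h, zero_mul]
    exact Submodule.zero_mem _

theorem B1_left_ed (f : G.Ed) : ∀ w ∈ B1_W G, ed f * w ∈ B1_W G := by
  refine B1_left _ fun u α β hα hβ => ?_
  by_cases h : G.r f = G.st α u
  · have h1 : (ed f : LA G) * (pe α u * star (pe β u)) = pe (f :: α) u * star (pe β u) := by
      rw [← mul_assoc]
      rfl
    rw [h1]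
    exact B1_gen ⟨h, hα⟩ hβ
  · rw [← mul_assoc, ed_mul_pe_ne h, zero_mul]
    exact Submodule.zero_mem _

theorem B1_left_star (f : G.Ed) : ∀ w ∈ B1_W G, Star.star (ed f) * w ∈ B1_W G := by
  refine B1_left _ fun u α β hα hβ => ?_
  cases α with
  | nil =>
    change Star.star (ed f) * (LPA74.vx u * Star.star (pe β u)) ∈ B1_W G
    by_cases h : G.s f = u
    · subst h
      have h1 : Star.star (ed f : LA G) * (LPA74.vx (G.s f) * Star.star (pe β (G.s f))) =
          pe [] (G.r f) * Star.star (pe (β ++ [f]) (G.r f)) := by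
        change _ = LPA74.vx (G.r f) * Star.star (pe (β ++ [f]) (G.r f))
        have h2 : (pe (β ++ [f]) (G.r f) : LA G) = pe β (G.s f) * ed f := by
          rw [B1_pe_append]
          change pe β (G.s f) * (ed f * LPA74.vx (G.r f)) = _
          rw [ed_mul_vx]
        rw [h2, star_mul, ← mul_assoc, star_ed_mul_vx, ← mul_assoc, vx_mul_star_ed]
      rw [h1]
      exact B1_gen trivial (B1_isP_append hβ ⟨rfl, trivial⟩)
    · rw [← mul_assoc, star_ed_mul_vx_ne h, zero_mul]
      exact Submodule.zero_mem _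
  | cons g α =>
    change Star.star (ed f) * (ed g * pe α u * Star.star (pe β u)) ∈ B1_W G
    by_cases h : f = g
    · subst h
      rw [← mul_assoc, ← mul_assoc, star_ed_mul_ed, hα.1, vx_mul_pe]
      exact B1_gen hα.2 hβ
    · rw [← mul_assoc, ← mul_assoc, star_ed_mul_ed_ne h, zero_mul, zero_mul]
      exact Submodule.zero_mem _

theorem B1_eS_mem (S : Finset G.V) : (DC29.eS S : LA G) ∈ B1_W G := by
  unfold DC29.eS
  refine Submodule.sum_mem _ fun v _ => ?_
  have h1 : (LPA74.vx v : LA G) = pe [] v * Star.star (pe [] v) := by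
    change _ = LPA74.vx v * Star.star (LPA74.vx v)
    rw [star_vx, vx_mul_self]
  rw [h1]
  exact B1_gen trivial trivial

theorem mem_span (x : LA G) : x ∈ Submodule.span ℂ {y : LA G | ∃ (u : G.V) (α β : List G.Ed),
    G.IsP α u ∧ G.IsP β u ∧ y = pe α u * star (pe β u)} := by
  have key : (∀ w ∈ B1_W G, x * w ∈ B1_W G) ∧ (∀ w ∈ B1_W G, Star.star x * w ∈ B1_W G) := by
    refine LA.induction (p := fun x => (∀ w ∈ B1_W G, x * w ∈ B1_W G) ∧
      (∀ w ∈ B1_W G, Star.star x * w ∈ B1_W G)) ?_ ?_ ?_ ?_ ?_ ?_ ?_ x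
    · intro a
      rw [star_vx]
      exact ⟨B1_left_vx a, B1_left_vx a⟩
    · intro f
      exact ⟨B1_left_ed f, B1_left_star f⟩
    · rw [star_zero]
      have h0 : ∀ w ∈ B1_W G, (0 : LA G) * w ∈ B1_W G := fun w _ => by
        rw [zero_mul]
        exact Submodule.zero_mem _
      exact ⟨h0, h0⟩
    · rintro x y ⟨h1, h2⟩ ⟨h3, h4⟩
      refine ⟨fun w hw => ?_, fun w hw => ?_⟩
      · rw [add_mul]
        exact Submodule.add_mem _ (h1 w hw) (h3 w hw)
      · rw [star_add, add_mul]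
        exact Submodule.add_mem _ (h2 w hw) (h4 w hw)
    · rintro x y ⟨h1, h2⟩ ⟨h3, h4⟩
      refine ⟨fun w hw => ?_, fun w hw => ?_⟩
      · rw [mul_assoc]
        exact h1 _ (h3 w hw)
      · rw [star_mul, mul_assoc]
        exact h4 _ (h2 w hw)
    · rintro c x ⟨h1, h2⟩
      refine ⟨fun w hw => ?_, fun w hw => ?_⟩
      · rw [smul_mul_assoc]
        exact Submodule.smul_mem _ _ (h1 w hw)
      · rw [star_smul, smul_mul_assoc]
        exact Submodule.smul_mem _ _ (h2 w hw)
    · rintro x ⟨h1, h2⟩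
      rw [star_star]
      exact ⟨h2, h1⟩
  obtain ⟨S, hS⟩ := B1_unit_one x
  have h1 := key.1 _ (B1_eS_mem S)
  rw [(hS S (Finset.Subset.refl S)).2] at h1
  exact h1

theorem B1_eS_pe (S : Finset G.V) (α : List G.Ed) (u : G.V) :
    (G.st α u ∈ S → DC29.eS S * (pe α u : LA G) = pe α u) ∧
      (G.st α u ∉ S → DC29.eS S * (pe α u : LA G) = 0) := by
  classical
  have h1 : DC29.eS S * (LPA74.vx (G.st α u) : LA G) =
      if G.st α u ∈ S then LPA74.vx (G.st α u) else 0 := by
    have := congrArg Star.star (B1_vx_mul (G := G) (G.st α u) S)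
    rw [star_mul, star_vx, (eS_pj S).2] at this
    rw [this]
    split_ifs
    · exact star_vx _
    · exact star_zero _
  constructor
  · intro h
    rw [if_pos h] at h1
    rw [← vx_mul_pe, ← mul_assoc, h1]
  · intro h
    rw [if_neg h] at h1
    rw [← vx_mul_pe, ← mul_assoc, h1, zero_mul]

theorem cor_span (hx : InCor H x) : x ∈ Submodule.span ℂ {y : LA G |
    ∃ (u : G.V) (α β : List G.Ed), G.IsP α u ∧ G.IsP β u ∧ G.st α u ∈ H ∧ G.st β u ∈ H ∧
      y = pe α u * star (pe β u)} := by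
  classical
  obtain ⟨S, hS, h1, h2⟩ := hx
  have key : ∀ w ∈ B1_W G, DC29.eS S * w * DC29.eS S ∈ Submodule.span ℂ {y : LA G |
      ∃ (u : G.V) (α β : List G.Ed), G.IsP α u ∧ G.IsP β u ∧ G.st α u ∈ H ∧ G.st β u ∈ H ∧
        y = pe α u * Star.star (pe β u)} := by
    intro w hw
    refine Submodule.span_induction (p := fun w _ => DC29.eS S * w * DC29.eS S ∈
      Submodule.span ℂ {y : LA G | ∃ (u : G.V) (α β : List G.Ed), G.IsP α u ∧ G.IsP β u ∧
        G.st α u ∈ H ∧ G.st β u ∈ H ∧ y = pe α u * Star.star (pe β u)}) ?_ ?_ ?_ ?_ hw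
    · rintro w ⟨u, α, β, hα, hβ, rfl⟩
      have e1 := B1_eS_pe S α u
      have e2 := B1_eS_pe S β u
      by_cases ha : G.st α u ∈ S
      · by_cases hb : G.st β u ∈ S
        · have h3 : DC29.eS S * (pe α u * Star.star (pe β u)) * DC29.eS S =
              (pe α u * Star.star (pe β u) : LA G) := by
            have h4 := congrArg Star.star (e2.1 hb)
            rw [star_mul, (eS_pj S).2] at h4
            rw [← mul_assoc, e1.1 ha, mul_assoc, h4]
          rw [h3]
          exact Submodule.subset_span ⟨u, α, β, hα, hβ, hS ha, hS hb, rfl⟩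
        · have h3 : DC29.eS S * (pe α u * Star.star (pe β u)) * DC29.eS S = (0 : LA G) := by
            have h4 := congrArg Star.star (e2.2 hb)
            rw [star_mul, (eS_pj S).2, star_zero] at h4
            rw [mul_assoc, mul_assoc, h4, mul_zero, mul_zero]
          rw [h3]
          exact Submodule.zero_mem _
      · rw [← mul_assoc, e1.2 ha, zero_mul, zero_mul]
        exact Submodule.zero_mem _
    · rw [mul_zero, zero_mul]
      exact Submodule.zero_mem _
    · intro x y _ _ hx hy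
      rw [mul_add, add_mul]
      exact Submodule.add_mem _ hx hy
    · intro c x _ hx
      rw [mul_smul_comm, smul_mul_assoc]
      exact Submodule.smul_mem _ _ hx
  have h3 := key x (mem_span x)
  rw [h1, h2] at h3
  exact h3

theorem agree {B : Type} [NonUnitalRing B] [StarRing B] [Module ℂ B] [IsScalarTower ℂ B B]
    [SMulCommClass ℂ B B] [StarModule ℂ B] (Φ Ψ : LA G →⋆ₙₐ[ℂ] B)
    (hH : ∀ e, G.s e ∈ H → G.r e ∈ H) (hv : ∀ w ∈ H, Φ (vx w) = Ψ (vx w))
    (he : ∀ e, G.s e ∈ H → Φ (ed e) = Ψ (ed e)) (hx : InCor H x) : Φ x = Ψ x := by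
  have key : ∀ (u : G.V) (α : List G.Ed), G.IsP α u → G.st α u ∈ H → Φ (pe α u) = Ψ (pe α u) := by
    intro u α
    induction α with
    | nil => exact fun _ h => hv u h
    | cons g α ih =>
      intro h1 h2
      change Φ (ed g * pe α u) = Ψ (ed g * pe α u)
      have h3 : G.s g ∈ H := h2
      rw [map_mul, map_mul, he g h3, ih h1.2 (by rw [← h1.1]; exact hH g h3)]
  refine Submodule.span_induction (p := fun x _ => Φ x = Ψ x) ?_ ?_ ?_ ?_ (cor_span hx)
  · rintro w ⟨u, α, β, hα, hβ, ha, hb, rfl⟩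
    rw [map_mul, map_mul, map_star, map_star, key u α hα ha, key u β hβ hb]
  · rw [map_zero, map_zero]
  · intro x y _ _ hx hy
    rw [map_add, map_add, hx, hy]
  · intro c x _ hx
    rw [map_smul, map_smul, hx]

theorem NR_her (c : G.V) (e : G.Ed) (h : G.s e ∈ NR G c) : G.r e ∈ NR G c :=
  fun h' => h (Relation.ReflTransGen.head ⟨e, rfl, rfl⟩ h')

theorem InCor.of_two {S T : Finset G.V} (hS : (↑S : Set G.V) ⊆ H) (hT : (↑T : Set G.V) ⊆ H)
    (h1 : eS S * x = x) (h2 : x * eS T = x) : InCor H x := by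
  classical
  refine ⟨S ∪ T, ?_, ?_, ?_⟩
  · rw [Finset.coe_union]
    exact Set.union_subset hS hT
  · rw [← h1, ← mul_assoc, (eS_mul_of_subset (Finset.subset_union_left (s₁ := S) (s₂ := T))).2]
  · rw [← h2, mul_assoc, (eS_mul_of_subset (Finset.subset_union_right (s₁ := S) (s₂ := T))).1]

theorem B1_common (h : InCor H x) (h' : InCor H y) : ∃ S : Finset G.V, (↑S : Set G.V) ⊆ H ∧
    DC29.eS S * x = x ∧ x * DC29.eS S = x ∧ DC29.eS S * y = y ∧ y * DC29.eS S = y := by
  classical
  obtain ⟨S, hS, h1, h2⟩ := h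
  obtain ⟨T, hT, h3, h4⟩ := h'
  have e1 := eS_mul_of_subset (G := G) (Finset.subset_union_left (s₁ := S) (s₂ := T))
  have e2 := eS_mul_of_subset (G := G) (Finset.subset_union_right (s₁ := S) (s₂ := T))
  refine ⟨S ∪ T, ?_, ?_, ?_, ?_, ?_⟩
  · rw [Finset.coe_union]
    exact Set.union_subset hS hT
  · rw [← h1, ← mul_assoc, e1.2]
  · rw [← h2, mul_assoc, e1.1]
  · rw [← h3, ← mul_assoc, e2.2]
  · rw [← h4, mul_assoc, e2.1]

theorem InCor.add (h : InCor H x) (h' : InCor H y) : InCor H (x + y) := by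
  obtain ⟨S, hS, h1, h2, h3, h4⟩ := B1_common h h'
  exact ⟨S, hS, by rw [mul_add, h1, h3], by rw [add_mul, h2, h4]⟩

theorem InCor.mul (h : InCor H x) (h' : InCor H y) : InCor H (x * y) := by
  obtain ⟨S, hS, h1, h2, h3, h4⟩ := B1_common h h'
  exact ⟨S, hS, by rw [← mul_assoc, h1], by rw [mul_assoc, h4]⟩

theorem InCor.star (h : InCor H x) : InCor H (star x) := by
  obtain ⟨S, hS, h1, h2⟩ := h
  have e1 := congrArg Star.star h1
  have e2 := congrArg Star.star h2
  rw [star_mul, (eS_pj S).2] at e1 e2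
  exact ⟨S, hS, e2, e1⟩

theorem InCor.smul (c : ℂ) (h : InCor H x) : InCor H (c • x) := by
  obtain ⟨S, hS, h1, h2⟩ := h
  exact ⟨S, hS, by rw [mul_smul_comm, h1], by rw [smul_mul_assoc, h2]⟩

theorem InCor.sub (h : InCor H x) (h' : InCor H y) : InCor H (x - y) := by
  obtain ⟨S, hS, h1, h2, h3, h4⟩ := B1_common h h'
  exact ⟨S, hS, by rw [mul_sub, h1, h3], by rw [sub_mul, h2, h4]⟩

theorem InCor.vx {v : G.V} (h : v ∈ H) : InCor H (vx v : LA G) := by
  have h1 : (DC29.eS {v} : LA G) = LPA74.vx v := by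
    unfold DC29.eS
    rw [Finset.sum_singleton]
  refine ⟨{v}, ?_, ?_, ?_⟩
  · rw [Finset.coe_singleton]
    exact Set.singleton_subset_iff.2 h
  · rw [h1, vx_mul_self]
  · rw [h1, vx_mul_self]

theorem InCor.eS {S : Finset G.V} (h : (↑S : Set G.V) ⊆ H) : InCor H (eS S : LA G) :=
  ⟨S, h, (eS_pj S).1, (eS_pj S).1⟩

theorem InCor.zero : InCor H (0 : LA G) :=
  ⟨∅, by simp, mul_zero _, zero_mul _⟩

theorem InCor.sandwich (h : InCor H x) (h' : InCor H y) (z : LA G) : InCor H (x * z * y) := by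
  obtain ⟨S, hS, h1, h2, h3, h4⟩ := B1_common h h'
  exact ⟨S, hS, by rw [← mul_assoc, ← mul_assoc, h1], by rw [mul_assoc, h4]⟩

theorem InCor.mono (h : InCor H x) (hH : H ⊆ H') : InCor H' x := by
  obtain ⟨S, hS, h1, h2⟩ := h
  exact ⟨S, hS.trans hH, h1, h2⟩

end DC29
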