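import Pool.Agent.LibDC29.A5
import Pool.Agent.LibDC29.B1
import Pool.Agent.LibLPA74.ADJ

/-!
[DC A6] Quasi-unitaries.
* `QU.comp`: `1 + (d + d' + d d') = (1 + d)(1 + d')`; expand (`mul_add`, `add_mul`, use
  `d* d = - d - d*`, ...), see `LibLPA74/ADJ.lean` for the technique.
* `exists_swap`: `d = w + w* - p - q`, where `q w = w = w p`, `p w = 0` (`p w = p q w`),
  `w q = w p q = 0`, `w w = w p q w = 0`.
* `exists_ext`: `q = w w*` is a projection.  Let `S` be a unit of `p`, `w` (`exists_unit`), `T` from
  `exists_room hG m S`, `p' = eS T`: `SCl p' m` (`SCl.eS`), `p' p = 0 = p' q` (`p = eS S p`,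
  `eS T eS S = 0`).  `SCl.seqv`: `u u* = p'`, `u* u = p`.  `exists_swap` for `u` (`p` to `p'`): `d1` with
  `p + d1 p = u`; for `w u*` (`p'` to `q`): `d2` with `p' + d2 p' = w u*`;
  `d = d2 + d1 + d2 d1`: `p + d p = u + d2 u = (p' + d2 p') u = w u* u = w p = w`.
* `Ad_eq`: if `p + d p = w` and `star w * w = p`, `p z p' = z`, `p' + d p' = w'`:
  `Ad d z = w z w'*`.
-/

namespace DC29

open LPA74

theorem QU.comp {A : Type} [NonUnitalRing A] [StarRing A] {d d' : A} (h : QU d) (h' : QU d') :
    QU (d + d' + d * d') := by
  obtain ⟨h1, h2⟩ := h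
  obtain ⟨h1', h2'⟩ := h'
  refine ⟨?_, ?_⟩
  · have e : d + d' + d * d' + star (d + d' + d * d') + star (d + d' + d * d') * (d + d' + d * d') =
        (d' + star d' + star d' * d') + (d + star d + star d * d) +
        (d + star d + star d * d) * d' + star d' * (d + star d + star d * d) +
        star d' * (d + star d + star d * d) * d' := by
      simp only [star_add, star_mul, mul_add, add_mul, mul_assoc]
      abel
    rw [e, h1, h1']
    simp
  · have e : d + d' + d * d' + star (d + d' + d * d') + (d + d' + d * d') * star (d + d' + d * d') =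
        (d + star d + d * star d) + (d' + star d' + d' * star d') +
        d * (d' + star d' + d' * star d') + (d' + star d' + d' * star d') * star d +
        d * (d' + star d' + d' * star d') * star d := by
      simp only [star_add, star_mul, mul_add, add_mul, mul_assoc]
      abel
    rw [e, h2, h2']
    simp

theorem exists_swap {A : Type} [NonUnitalRing A] [StarRing A] {p q w : A} (hp : Pj p)
    (hpq : p * q = 0) (h1 : w * star w = q) (h2 : star w * w = p) (h3 : w * star w * w = w) :
    ∃ d, QU d ∧ p + d * p = w := by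
  obtain ⟨hpp, hps⟩ := hp
  have hqs : star q = q := by rw [← h1, star_mul, star_star]
  have hqp : q * p = 0 := by
    have := congrArg star hpq
    rwa [star_mul, star_zero, hps, hqs] at this
  have hwp : w * p = w := by rw [← h2, ← mul_assoc, h3]
  have hqw : q * w = w := by rw [← h1, h3]
  have hwsq : star w * q = star w := by
    have := congrArg star hqw
    rwa [star_mul, hqs] at this
  have hpws : p * star w = star w := by
    have := congrArg star hwp
    rwa [star_mul, hps] at this
  have hww : w * w = 0 := by
    calc w * w = (w * p) * (q * w) := by rw [hwp, hqw]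
      _ = w * (p * q) * w := by simp only [mul_assoc]
      _ = 0 := by rw [hpq, mul_zero, zero_mul]
  have hwsws : star w * star w = 0 := by
    have := congrArg star hww
    rwa [star_mul, star_zero] at this
  have hwq : w * q = 0 := by
    calc w * q = (w * p) * q := by rw [hwp]
      _ = 0 := by rw [mul_assoc, hpq, mul_zero]
  have hpw : p * w = 0 := by
    calc p * w = p * (q * w) := by rw [hqw]
      _ = 0 := by rw [← mul_assoc, hpq, zero_mul]
  have hwsp : star w * p = 0 := by
    calc star w * p = star w * q * p := by rw [hwsq]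
      _ = 0 := by rw [mul_assoc, hqp, mul_zero]
  have hqws : q * star w = 0 := by
    calc q * star w = q * (p * star w) := by rw [hpws]
      _ = 0 := by rw [← mul_assoc, hqp, zero_mul]
  have hqq : q * q = q := by
    calc q * q = q * (w * star w) := by rw [h1]
      _ = q := by rw [← mul_assoc, hqw, h1]
  have hds : star (w + star w - p - q) = w + star w - p - q := by
    rw [star_sub, star_sub, star_add, star_star, hps, hqs, add_comm (star w) w]
  have hdd : (w + star w - p - q) + (w + star w - p - q) +
      (w + star w - p - q) * (w + star w - p - q) = 0 := by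
    have e : (w + star w - p - q) * (w + star w - p - q) =
        p + p + q + q - w - w - star w - star w := by
      simp only [mul_add, add_mul, mul_sub, sub_mul, hww, h1, hwp, hwq, h2, hwsws, hwsp, hwsq,
        hpw, hpws, hpp, hpq, hqw, hqws, hqp, hqq]
      abel
    rw [e]
    abel
  refine ⟨w + star w - p - q, ⟨?_, ?_⟩, ?_⟩
  · rw [hds]
    exact hdd
  · rw [hds]
    exact hdd
  · rw [sub_mul, sub_mul, add_mul, hwp, hwsp, hpp, hqp]
    abel

theorem exists_ext {G : Gph} (hG : NG G) {p w : LA G} {m : Mon G} (hp : SCl p m)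
    (h1 : star w * w = p) (h2 : w * p = w) : ∃ d, QU d ∧ p + d * p = w := by
  classical
  have hpj := hp.pj
  obtain ⟨hpp, hps⟩ := hpj
  obtain ⟨S, hS⟩ := exists_unit ({p, w} : Finset (LA G))
  have hSp := (hS S le_rfl p (by simp)).1
  have hSw := (hS S le_rfl w (by simp)).1
  obtain ⟨T, hST, -, hT⟩ := exists_room hG m S
  have hTS : (eS T : LA G) * eS S = 0 := eS_mul_of_disjoint hST.symm
  have hTp : (eS T : LA G) * p = 0 := by
    rw [← hSp, ← mul_assoc, hTS, zero_mul]
  have hTw : (eS T : LA G) * w = 0 := by
    rw [← hSw, ← mul_assoc, hTS, zero_mul]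
  have hTj : Pj (eS T : LA G) := eS_pj T
  have hpT : p * (eS T : LA G) = 0 := by
    have := congrArg star hTp
    rwa [star_mul, star_zero, hps, hTj.2] at this
  have hTc : SCl (eS T : LA G) m := by
    have := SCl.eS T
    rwa [hT] at this
  obtain ⟨u, -, hu1, hu2, hu3⟩ := hTc.seqv hp
  obtain ⟨d1, hd1, hd1'⟩ := exists_swap hp.pj hpT hu1 hu2 hu3
  have hqw : (w * star w) * w = w := by rw [mul_assoc, h1, h2]
  have hpu : p * star u = star u := by
    have := congrArg star hu3
    rw [star_mul, star_mul, star_star, ← mul_assoc, hu2] at this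
    exact this
  obtain ⟨d2, hd2, hd2'⟩ := exists_swap (p := (eS T : LA G)) (q := w * star w) (w := w * star u)
    hTj (by rw [← mul_assoc, hTw, zero_mul])
    (by
      rw [star_mul, star_star, mul_assoc, ← mul_assoc (star u), hu2]
      rw [← mul_assoc, h2])
    (by
      rw [star_mul, star_star, mul_assoc, ← mul_assoc (star w), h1, hpu, hu1])
    (by
      rw [star_mul, star_star]
      have e : w * star u * (u * star w) * (w * star u) =
          w * (star u * u) * (star w * w) * star u := by simp only [mul_assoc]
      rw [e, hu2, h1, h2, mul_assoc, hpu])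
  have hTu : (eS T : LA G) * u = u := by rw [← hu1, hu3]
  refine ⟨d2 + d1 + d2 * d1, QU.comp hd2 hd1, ?_⟩
  have e : p + (d2 + d1 + d2 * d1) * p = (p + d1 * p) + d2 * (p + d1 * p) := by
    simp only [mul_add, add_mul, mul_assoc]
    abel
  rw [e, hd1']
  calc u + d2 * u = (eS T + d2 * eS T) * u := by rw [add_mul, mul_assoc, hTu]
    _ = w * (star u * u) := by rw [hd2', mul_assoc]
    _ = w := by rw [hu2, h2]

theorem Ad_eq {A : Type} [NonUnitalRing A] [StarRing A] {d p p' w w' z : A}
    (hp : Pj p) (hp' : Pj p') (h : p + d * p = w) (h' : p' + d * p' = w') (hz : p * z = z)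
    (hz' : z * p' = z) : Ad d z = w * z * star w' := by
  have e1 : w * z = z + d * z := by rw [← h, add_mul, hz, mul_assoc, hz]
  have e2 : z * star w' = z + z * star d := by
    rw [← h', star_add, star_mul, hp'.2, mul_add, hz', ← mul_assoc, hz']
  rw [e1, add_mul, mul_assoc, e2, mul_add, ← mul_assoc]
  unfold Ad
  abel

end DC29
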