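import Pool.Agent.LibDC29.A5
import Pool.Agent.LibLPA74.ADJ

/-!
[DC A7] Calculus of `HCl` (from `hcl_iff`, rows A1-A3) and of shift equivalence.
* `HCl.conj`: `w p` is a partial isometry from `p` to `w p w*`.
* `HCl.map`: the sum of the `Φ (u i * star (u i))`, each `*`-equivalent to `Φ (vx (a i))`.
* `pw_add`: induction on `m`.  `pw_conj`: `ρ * pw y τ n = pw x σ n * ρ`, induction.
* `refl`: `N = 0`, `ρ = a = y`.  `symm`: exchange.
* `trans`: `ρ ρ'`, `a' a`, `N' + N`: `ρ ρ' a' a = ρ (pw y τ N') a = pw x σ N' * ρ * a`;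
  `x - ρρ'ρ'*ρ* = (x - ρρ*) + ρ (y - ρ'ρ'*) ρ*`, `HCl.add`, `HCl.conj`.
* `conj`: `ρ = w`, `a = w*`, `N = 0`.
* `map`: apply `Φ` (`Φ (pw x σ n) = pw (Φ x) (Φ σ) n`).
-/

namespace DC29

open LPA74

section gen
variable {A : Type} [NonUnitalRing A] [StarRing A] {x y σ τ ρ : A}

theorem pw_add (h : x * σ = σ) (hx : x * x = x) (m n : ℕ) :
    pw x σ m * pw x σ n = pw x σ (m + n) := by
  have h0 : ∀ n, x * pw x σ n = pw x σ n := by
    intro n
    cases n with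
    | zero => exact hx
    | succ n => rw [pw, ← mul_assoc, h]
  induction m with
  | zero => rw [Nat.zero_add]; exact h0 n
  | succ m ih =>
    have e : m + 1 + n = (m + n) + 1 := by omega
    rw [e, pw, pw, mul_assoc, ih]

theorem pw_conj (h1 : σ * ρ = ρ * τ) (h2 : x * ρ = ρ) (h3 : ρ * y = ρ) (n : ℕ) :
    ρ * pw y τ n = pw x σ n * ρ := by
  induction n with
  | zero => rw [pw, pw, h2, h3]
  | succ n ih => rw [pw, pw, ← mul_assoc, ← h1, mul_assoc, ih, mul_assoc]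

theorem Isom.pw_corner (h : Isom x σ) (n : ℕ) : x * pw x σ n = pw x σ n ∧
    pw x σ n * x = pw x σ n ∧ star (pw x σ n) * pw x σ n = x := by
  have h1 : x * pw x σ n = pw x σ n := by
    cases n with
    | zero => exact h.pj.1
    | succ n => rw [pw, ← mul_assoc, h.xs]
  refine ⟨h1, ?_, ?_⟩
  · induction n with
    | zero => exact h.pj.1
    | succ n ih =>
      have h2 : x * pw x σ n = pw x σ n := by
        cases n with
        | zero => exact h.pj.1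
        | succ n => rw [pw, ← mul_assoc, h.xs]
      rw [pw, mul_assoc, ih h2]
  · induction n with
    | zero => rw [pw, h.pj.2, h.pj.1]
    | succ n ih =>
      have h2 : x * pw x σ n = pw x σ n := by
        cases n with
        | zero => exact h.pj.1
        | succ n => rw [pw, ← mul_assoc, h.xs]
      rw [pw, star_mul, mul_assoc, ← mul_assoc (star σ), h.ss, h2, ih h2]

end gen

variable {G G' : Gph} {H : Set G.V} {H' : Set G'.V} {p q x y z σ τ υ w : LA G}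

theorem HCl.pj (h : HCl H p) : Pj p := by
  obtain ⟨l, hl, -⟩ := hcl_iff.1 h
  exact hl.pj

theorem HCl.zero : HCl H (0 : LA G) := hcl_iff.2 ⟨0, HL.zero, fun v hv => absurd rfl hv⟩

theorem HCl.add (h : HCl H p) (h' : HCl H q) (h1 : p * q = 0) : HCl H (p + q) := by
  have h2 : q * p = 0 := by
    have h3 := congrArg star h1
    rwa [star_mul, h.pj.2, h'.pj.2, star_zero] at h3
  obtain ⟨l, hl, hl2⟩ := hcl_iff.1 h
  obtain ⟨l', hl', hl2'⟩ := hcl_iff.1 h'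
  refine hcl_iff.2 ⟨l + l', hl.add hl' h1 h2, fun v hv => ?_⟩
  by_cases h3 : l v = 0
  · refine hl2' v fun h4 => hv ?_
    rw [Finsupp.add_apply, h3, h4]
  · exact hl2 v h3

theorem HCl.of_seqv (h : HCl H p) (h' : SEqv q p) : HCl H q := by
  obtain ⟨l, hl, hl2⟩ := hcl_iff.1 h
  obtain ⟨w, -, h1, h2, h3⟩ := h'
  exact hcl_iff.2 ⟨l, hl.trans h1 h2 h3 (seq_star h3) fun _ => rfl, hl2⟩

theorem HCl.conj (h : HCl H p) (h1 : star w * w * p = p) : HCl H (w * p * star w) := by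
  refine h.of_seqv ⟨w * p, trivial, ?_, ?_, ?_⟩
  · rw [star_mul, h.pj.2, mul_assoc, ← mul_assoc p, h.pj.1, mul_assoc]
  · rw [star_mul, h.pj.2, mul_assoc, ← mul_assoc (star w), h1, h.pj.1]
  · rw [star_mul, h.pj.2, mul_assoc, mul_assoc p (star w), ← mul_assoc (star w), h1, h.pj.1,
      mul_assoc, h.pj.1]

theorem HCl.scl (h : HCl H p) : ∃ m, SCl p m := by
  obtain ⟨l, hl, -⟩ := hcl_iff.1 h
  exact ⟨mk G l, scl_iff.2 ⟨l, hl, rfl⟩⟩

private theorem HCl_sum {ι : Type} {G' : Gph} {H' : Set G'.V} (s : Finset ι) (q : ι → LA G')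
    (h : ∀ i ∈ s, HCl H' (q i)) (ho : ∀ i ∈ s, ∀ j ∈ s, i ≠ j → q i * q j = 0) :
    HCl H' (∑ i ∈ s, q i) := by
  classical
  induction s using Finset.induction_on with
  | empty =>
    rw [Finset.sum_empty]
    exact HCl.zero
  | insert i s hi ih =>
    rw [Finset.sum_insert hi]
    refine (h i (Finset.mem_insert_self _ _)).add
      (ih (fun j hj => h j (Finset.mem_insert_of_mem hj))
        fun j hj k hk => ho j (Finset.mem_insert_of_mem hj) k (Finset.mem_insert_of_mem hk)) ?_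
    rw [Finset.mul_sum]
    apply Finset.sum_eq_zero
    intro j hj
    exact ho i (Finset.mem_insert_self _ _) j (Finset.mem_insert_of_mem hj)
      fun hij => hi (by rw [hij]; exact hj)

theorem HCl.map (h : HCl H p) (Φ : LA G →⋆ₙₐ[ℂ] LA G') (hH : ∀ v ∈ H, HCl H' (Φ (vx v))) :
    HCl H' (Φ p) := by
  classical
  obtain ⟨n, a, u, ha, rfl, h1, h2⟩ := h
  rw [map_sum]
  apply HCl_sum
  · intro i _
    refine (hH _ (ha i)).of_seqv ⟨Φ (u i), trivial, ?_, ?_, ?_⟩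
    · rw [← map_star, ← map_mul]
    · rw [← map_star, ← map_mul, h1, if_pos rfl]
    · rw [← map_star, ← map_mul, ← map_mul, mul_assoc, h1, if_pos rfl, h2]
  · intro i _ j _ hij
    rw [← map_mul, mul_assoc, ← mul_assoc (star (u i)), h1, if_neg hij, zero_mul, mul_zero,
      map_zero]

theorem Isom.loop {f : G.Ed} (hf : G.r f = G.s f) : Isom (vx (G.s f) : LA G) (ed f) := by
  refine ⟨⟨vx_mul_self _, star_vx _⟩, ?_, vx_mul_ed f, ?_⟩
  · rw [star_ed_mul_ed, hf]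
  · have h := ed_mul_vx f
    rwa [hf] at h

theorem Isom.map (h : Isom x σ) (Φ : LA G →⋆ₙₐ[ℂ] LA G') : Isom (Φ x) (Φ σ) := by
  refine ⟨h.pj.map Φ, ?_, ?_, ?_⟩
  · rw [← map_star, ← map_mul, h.ss]
  · rw [← map_mul, h.xs]
  · rw [← map_mul, h.sx]

theorem pw_map (Φ : LA G →⋆ₙₐ[ℂ] LA G') (n : ℕ) : Φ (pw x σ n) = pw (Φ x) (Φ σ) n := by
  induction n with
  | zero => rfl
  | succ n ih => rw [pw, pw, map_mul, ih]

theorem ShEq.refl (h : Isom y τ) : ShEq H y τ y τ := by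
  have h0 : HCl H (y - y * star y) := by
    rw [h.pj.2, h.pj.1, sub_self]
    exact HCl.zero
  refine ⟨0, y, y, ⟨?_, h.pj.1, h.pj.1⟩, ⟨?_, h.pj.1, h.pj.1⟩, ?_, ?_, ?_, ?_, h0, h0⟩
  · rw [h.pj.2, h.pj.1]
  · rw [h.pj.2, h.pj.1]
  · rw [h.sx, h.xs]
  · rw [h.sx, h.xs]
  · rw [pw, h.pj.1]
  · rw [pw, h.pj.1]

theorem ShEq.symm (h : ShEq H x σ y τ) : ShEq H y τ x σ := by
  obtain ⟨N, ρ, a, h1, h2, h3, h4, h5, h6, h7, h8⟩ := h
  exact ⟨N, a, ρ, h2, h1, h4, h3, h6, h5, h8, h7⟩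

private theorem A7_defect {x y ρ r : LA G} (hyy : y * y = y) (h1 : star ρ * ρ = y)
    (h2 : x * ρ = ρ) (h3 : ρ * y = ρ) (h4 : y * r = r) (h5 : HCl H (x - ρ * star ρ))
    (h6 : HCl H (y - r * star r)) : HCl H (x - ρ * r * star (ρ * r)) := by
  have e1 : star ρ * ρ * (y - r * star r) = y - r * star r := by
    rw [h1, mul_sub, hyy, ← mul_assoc, h4]
  have e2 := h6.conj (w := ρ) e1
  have e3 : (x - ρ * star ρ) * (ρ * (y - r * star r) * star ρ) = 0 := by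
    have e4 : (x - ρ * star ρ) * ρ = 0 := by
      rw [sub_mul, h2, mul_assoc, h1, h3, sub_self]
    rw [mul_assoc ρ, ← mul_assoc, e4, zero_mul]
  have e5 := h5.add e2 e3
  have e6 : x - ρ * star ρ + ρ * (y - r * star r) * star ρ = x - ρ * r * star (ρ * r) := by
    rw [mul_sub, sub_mul, h3, star_mul]
    simp only [mul_assoc]
    abel
  rwa [e6] at e5

theorem ShEq.trans (hx : Isom x σ) (hy : Isom y τ) (hz : Isom z υ) (h : ShEq H x σ y τ)
    (h' : ShEq H y τ z υ) : ShEq H x σ z υ := by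
  obtain ⟨N1, ρ1, a1, ⟨r1, r2, r3⟩, ⟨s1, s2, s3⟩, h3, h4, h5, h6, h7, h8⟩ := h
  obtain ⟨N2, ρ2, a2, ⟨R1, R2, R3⟩, ⟨S1, S2, S3⟩, k3, k4, k5, k6, k7, k8⟩ := h'
  refine ⟨N2 + N1, ρ1 * ρ2, a2 * a1, ⟨?_, ?_, ?_⟩, ⟨?_, ?_, ?_⟩, ?_, ?_, ?_, ?_, ?_, ?_⟩
  · rw [star_mul, mul_assoc, ← mul_assoc (star ρ1), r1, R2, R1]
  · rw [← mul_assoc, r2]
  · rw [mul_assoc, R3]
  · rw [star_mul, mul_assoc, ← mul_assoc (star a2), S1, s2, s1]
  · rw [← mul_assoc, S2]
  · rw [mul_assoc, s3]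
  · rw [← mul_assoc, h3, mul_assoc, k3, mul_assoc]
  · rw [← mul_assoc, k4, mul_assoc, h4, mul_assoc]
  · calc ρ1 * ρ2 * (a2 * a1) = ρ1 * (ρ2 * a2) * a1 := by simp only [mul_assoc]
      _ = pw x σ N2 * ρ1 * a1 := by rw [k5, pw_conj h3 r2 r3]
      _ = pw x σ (N2 + N1) := by rw [mul_assoc, h5, pw_add hx.xs hx.pj.1]
  · calc a2 * a1 * (ρ1 * ρ2) = a2 * (a1 * ρ1) * ρ2 := by simp only [mul_assoc]
      _ = pw z υ N1 * a2 * ρ2 := by rw [h6, pw_conj k4 S2 S3]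
      _ = pw z υ (N2 + N1) := by
          rw [mul_assoc, k6, pw_add hz.xs hz.pj.1, add_comm]
  · exact A7_defect hy.pj.1 r1 r2 r3 R2 h7 k7
  · exact A7_defect hy.pj.1 S1 S2 S3 s2 k8 h8

theorem ShEq.conj (hx : Isom x σ) (h1 : star w * w = x) (h2 : w * x = w) :
    Isom (w * star w) (w * σ * star w) ∧ ShEq H (w * star w) (w * σ * star w) x σ := by
  have h3 : x * star w = star w := by
    have h4 := congrArg star h2
    rwa [star_mul, hx.pj.2] at h4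
  have e1 : w * star w * w = w := by rw [mul_assoc, h1, h2]
  have e2 : star w * (w * star w) = star w := by rw [← mul_assoc, h1, h3]
  refine ⟨⟨⟨?_, ?_⟩, ?_, ?_, ?_⟩, ?_⟩
  · rw [← mul_assoc, e1]
  · rw [star_mul, star_star]
  · rw [star_mul, star_mul, star_star]
    calc w * (star σ * star w) * (w * σ * star w)
        = w * (star σ * ((star w * w) * σ)) * star w := by simp only [mul_assoc]
      _ = w * star w := by rw [h1, hx.xs, hx.ss, h2]
  · rw [← mul_assoc, ← mul_assoc, e1]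
  · rw [mul_assoc, e2]
  · have d1 : HCl H (w * star w - w * star w) := by rw [sub_self]; exact HCl.zero
    have d2 : HCl H (x - star w * star (star w)) := by
      rw [star_star, h1, sub_self]; exact HCl.zero
    refine ⟨0, w, star w, ⟨h1, e1, h2⟩, ⟨?_, h3, e2⟩, ?_, ?_, ?_, ?_, d1, d2⟩
    · rw [star_star]
    · rw [mul_assoc, h1, mul_assoc, hx.sx]
    · rw [← mul_assoc, ← mul_assoc, h1, hx.xs]
    · rw [pw]
    · rw [pw, h1]

theorem ShEq.map (h : ShEq H x σ y τ) (Φ : LA G →⋆ₙₐ[ℂ] LA G')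
    (hH : ∀ v ∈ H, HCl H' (Φ (vx v))) : ShEq H' (Φ x) (Φ σ) (Φ y) (Φ τ) := by
  obtain ⟨N, ρ, a, ⟨r1, r2, r3⟩, ⟨s1, s2, s3⟩, h3, h4, h5, h6, h7, h8⟩ := h
  refine ⟨N, Φ ρ, Φ a, ⟨?_, ?_, ?_⟩, ⟨?_, ?_, ?_⟩, ?_, ?_, ?_, ?_, ?_, ?_⟩
  · rw [← map_star, ← map_mul, r1]
  · rw [← map_mul, r2]
  · rw [← map_mul, r3]
  · rw [← map_star, ← map_mul, s1]
  · rw [← map_mul, s2]
  · rw [← map_mul, s3]
  · rw [← map_mul, ← map_mul, h3]
  · rw [← map_mul, ← map_mul, h4]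
  · rw [← map_mul, h5, pw_map]
  · rw [← map_mul, h6, pw_map]
  · rw [← map_star, ← map_mul, ← map_sub]
    exact h7.map Φ hH
  · rw [← map_star, ← map_mul, ← map_sub]
    exact h8.map Φ hH

end DC29
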