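import Pool.Agent.LibDC29.Defs

/-!
# Desingularization (Drinen-Tomforde): definitions
-/

namespace DC29

open LPA74

/-- infinite emitter. -/
def IE (E : Gph) (v : E.V) : Prop := ¬ {e | E.s e = v}.Finite

/-- the vertices of the tail of the infinite emitter `v`, starting with `v` itself. -/
def tv {E : Gph} (v : {v // IE E v}) : ℕ → E.V ⊕ ({v // IE E v} × ℕ)
  | 0 => Sum.inl v.1
  | n + 1 => Sum.inr (v, n)

open Classical in
/-- Desingularization: every infinite emitter `v` gets a tail `tv v 0 = v, tv v 1, tv v 2, …`, and the edge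
`e` of `v` with index `k e` starts at `tv v (k e)`. -/
noncomputable def DG (E : Gph) (k : E.Ed → ℕ) : Gph where
  V := E.V ⊕ ({v // IE E v} × ℕ)
  Ed := E.Ed ⊕ ({v // IE E v} × ℕ)
  s := fun x => match x with
    | Sum.inl e => if h : IE E (E.s e) then tv ⟨E.s e, h⟩ (k e) else Sum.inl (E.s e)
    | Sum.inr (v, n) => tv v n
  r := fun x => match x with
    | Sum.inl e => Sum.inl (E.r e)
    | Sum.inr (v, n) => tv v (n + 1)

/-- `k` enumerates the edges of every infinite emitter. -/
def IsK (E : Gph) (k : E.Ed → ℕ) : Prop :=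
  ∀ v, IE E v → Function.Bijective fun e : {e // E.s e = v} => k e.1

end DC29
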