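import Pool.Agent.LibDC29.A5
import Pool.Agent.LibDC29.B1
import Pool.Agent.LibLPA74.R1
import Pool.Agent.LibLPA74.SEQ

/-!
# The isomorphism of the monoids (section 4 of the page)
-/

namespace DC29

open LPA74 Finsupp

variable {G : Gph}

theorem exists_class (hG : NG G) {x : LA G} (hx : x * x = x) : ∃ m, Cl x m := by
  obtain ⟨n, a, y, z, h1, h2, h3, h4, -⟩ := exists_cl hG hx ∅
  exact ⟨_, n, a, y, z, h1, h2, h3, h4, rfl⟩

theorem Cl.uniq (hG : NG G) {x : LA G} {m m' : Mon G} (h : Cl x m) (h' : Cl x m') : m = m' :=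
  Cl.unique hG h h' (Eqv.refl h.idem)

section corner
variable {E : Gph} (s : Setup E)

/-- the corner is closed under sandwiches. -/
theorem Setup.sand {x x' z : LA s.G} (hx : ∃ y, s.io y = x) (hx' : ∃ y, s.io y = x')
    (h : x * z = z) (h' : z * x' = z) : ∃ y, s.io y = z := by
  rw [s.rng] at hx hx' ⊢
  have := InCor.sandwich hx hx' z
  rwa [h, h'] at this

theorem Setup.eqv {x x' : LA E} (h : Eqv (s.io x) (s.io x')) : Eqv x x' := by
  obtain ⟨w, w', h1, h2, h3, h4⟩ := h
  obtain ⟨-, -, a3, a4, a5, a6⟩ := eq_core h1 h2 h3 h4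
  obtain ⟨v, rfl⟩ := s.sand ⟨x, rfl⟩ ⟨x', rfl⟩ a3 a4
  obtain ⟨v', rfl⟩ := s.sand ⟨x', rfl⟩ ⟨x, rfl⟩ a5 a6
  refine ⟨v, v', s.inj ?_, s.inj ?_, s.inj ?_, s.inj ?_⟩
  · rw [map_mul, h1]
  · rw [map_mul, h2]
  · rw [map_mul, map_mul, h3]
  · rw [map_mul, map_mul, h4]

theorem Eqv.io {x x' : LA E} (h : Eqv x x') : Eqv (s.io x) (s.io x') := h.map _ (map_mul s.io)

end corner

section main
variable {E F : Gph} (s : Setup E) (s' : Setup F) (θ : LA E ≃+* LA F)

theorem eqv_transfer {x x' : LA E} (h : Eqv (s.io x) (s.io x')) :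
    Eqv (s'.io (θ x)) (s'.io (θ x')) :=
  Eqv.io s' ((s.eqv h).map _ (map_mul θ))

theorem exists_hom : ∃ t : Mon s.G →+ Mon s'.G,
    ∀ x m, Cl (s.io x) m → Cl (s'.io (θ x)) (t m) := by
  classical
  choose p hp using s.full
  have hp' : ∀ v, Eqv (s.io (p v)) (vx v) := fun v => (hp v).eqvIn.eqv
  have hpi : ∀ v, p v * p v = p v := fun v => s.inj (by
    rw [map_mul]; exact (hp' v).idem_left)
  have hT : ∀ v, ∃ m, Cl (s'.io (θ (p v))) m := fun v =>
    exists_class s'.ng (by rw [← map_mul, ← map_mul, hpi])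
  choose T hT using hT
  let f : (s.G.V →₀ ℕ) →+ Mon s'.G := liftAddHom fun v => multiplesHom _ (T v)
  have hf : ∀ v, f (single v 1) = T v := fun v => by
    simp [f]
  -- the class of the image of an idempotent with a given word
  have key : ∀ (x : LA E) (l : s.G.V →₀ ℕ), HL False (s.io x) l → Cl (s'.io (θ x)) (f l) := by
    rintro x l ⟨n, a, y, z, h1, h2, h3, h4, -, rfl⟩
    have hyz : ∀ i j, (y i * z i) * (y j * z j) = if i = j then y i * z i else 0 := by
      intro i j
      rw [← mul_assoc, mul_assoc (y i), h2 i j]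
      split_ifs with h
      · subst h; rw [h3]
      · rw [mul_zero, zero_mul]
    have hxy : ∀ i, s.io x * (y i * z i) = y i * z i := by
      intro i
      rw [h1, Finset.sum_mul]
      rw [Finset.sum_eq_single i]
      · rw [hyz, if_pos rfl]
      · intro j _ hj
        rw [hyz, if_neg hj]
      · intro h; exact absurd (Finset.mem_univ i) h
    have hyx : ∀ i, (y i * z i) * s.io x = y i * z i := by
      intro i
      rw [h1, Finset.mul_sum]
      rw [Finset.sum_eq_single i]
      · rw [hyz, if_pos rfl]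
      · intro j _ hj
        rw [hyz, if_neg (Ne.symm hj)]
      · intro h; exact absurd (Finset.mem_univ i) h
    have he : ∀ i, ∃ e, s.io e = y i * z i := fun i => s.sand ⟨x, rfl⟩ ⟨x, rfl⟩ (hxy i) (hyx i)
    choose e he using he
    have hx : x = ∑ i, e i := s.inj (by
      rw [map_sum, h1]
      exact Finset.sum_congr rfl fun i _ => (he i).symm)
    have hee : ∀ i j, i ≠ j → e i * e j = 0 := fun i j hij => s.inj (by
      rw [map_mul, he, he, hyz, if_neg hij, map_zero])
    have hcl : ∀ i, Cl (s'.io (θ (e i))) (T (a i)) := by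
      intro i
      have hev : Eqv (y i * z i) (vx (a i) : LA s.G) := by
        refine ⟨y i, z i, rfl, ?_, ?_, ?_⟩
        · rw [h2, if_pos rfl]
        · rw [mul_assoc, h2, if_pos rfl, h3]
        · rw [h2, if_pos rfl, h4]
      have h5 : Eqv (s.io (e i)) (s.io (p (a i))) := by
        rw [he]
        exact hev.trans (hp' (a i)).symm
      exact (hT (a i)).of_eqv (eqv_transfer s s' θ h5)
    have h6 : Cl (∑ i, s'.io (θ (e i))) (∑ i, T (a i)) := by
      refine Cl.sum Finset.univ _ _ (fun i _ => hcl i) fun i _ j _ hij => ?_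
      rw [← map_mul, ← map_mul, hee i j hij, map_zero, map_zero]
    rw [hx, map_sum, map_sum, map_sum]
    simp only [hf]
    exact h6
  have hrel : ∀ l l', MRel s.G l l' → f l = f l' := by
    rintro _ _ ⟨v, S, h0, h⟩
    obtain ⟨w, w', h1, h2, h3, h4⟩ := hp' v
    have k1 : HL False (s.io (p v)) (single v 1) :=
      (HL.vx v).trans h1 h2 h3 h4 (fun h => h.elim)
    have k2 : HL False (s.io (p v)) (∑ f ∈ S, single (s.G.r f) 1) :=
      (HL.vx_sum v S h0 h).trans h1 h2 h3 h4 (fun h => h.elim)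
    exact Cl.uniq s'.ng (key _ _ k1) (key _ _ k2)
  have hle : addConGen (MRel s.G) ≤ AddCon.ker f := AddCon.addConGen_le.2 fun l l' h => hrel l l' h
  refine ⟨AddCon.lift _ f hle, fun x m hm => ?_⟩
  obtain ⟨l, hl, rfl⟩ := cl_iff.1 hm
  exact key x l hl

end main

/-- the isomorphism of the monoids. -/
theorem exists_t {E F : Gph} (s : Setup E) (s' : Setup F) (θ : LA E ≃+* LA F) :
    ∃ t : Mon s.G ≃+ Mon s'.G, ∀ x m, Cl (s.io x) m → Cl (s'.io (θ x)) (t m) := by
  obtain ⟨t, ht⟩ := exists_hom s s' θ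
  obtain ⟨t', ht'⟩ := exists_hom s' s θ.symm
  have hgen : ∀ {E F : Gph} (s : Setup E) (s' : Setup F) (θ : LA E ≃+* LA F)
      (t : Mon s.G →+ Mon s'.G) (t' : Mon s'.G →+ Mon s.G)
      (_ : ∀ x m, Cl (s.io x) m → Cl (s'.io (θ x)) (t m))
      (_ : ∀ x m, Cl (s'.io x) m → Cl (s.io (θ.symm x)) (t' m)) (m : Mon s.G),
      t' (t m) = m := by
    intro E F s s' θ t t' ht ht' m
    have hv : ∀ v : s.G.V, t' (t (mv v)) = mv v := by
      intro v
      obtain ⟨p, hp⟩ := s.full v
      have h1 : Cl (s.io p) (mv v) := (SCl.vx v).cl.of_eqv hp.eqvIn.eqv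
      have h2 := ht' _ _ (ht _ _ h1)
      rw [θ.symm_apply_apply] at h2
      exact Cl.uniq s.ng h2 h1
    obtain ⟨l, rfl⟩ := mk_surj m
    have : (t'.comp t).comp (mk s.G) = mk s.G := by
      refine addHom_ext fun v n => ?_
      have h3 : mk s.G (single v n) = n • mv v := by
        rw [mv, ← map_nsmul, smul_single, smul_eq_mul, mul_one]
      rw [AddMonoidHom.comp_apply, h3, AddMonoidHom.comp_apply, map_nsmul, map_nsmul, hv]
    exact DFunLike.congr_fun this l
  refine ⟨{ toFun := t, invFun := t', left_inv := hgen s s' θ t t' ht ht',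
            right_inv := ?_, map_add' := map_add t }, ht⟩
  refine hgen s' s θ.symm t' t ht' ?_
  simpa using ht

end DC29
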