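import Pool.Agent.LibDC29.D0

/-!
[DC D1g] Combinatorics of the desingularization.
* `exists_k`: for an infinite emitter `{e // s e = v}` is countable and infinite: a bijection with `ℕ`
  (`nonempty_equiv_of_countable` or `Denumerable`); `k e` = the value of the bijection chosen for `s e`, `0` for finite emitters.
* `rf`: edges out of `tv v n`: `inr (v, n)` and the `inl e`, `s e = v`, `k e = n` (at most one); out of `inl v`, `v` a finite
  emitter: the `inl e`, `s e = v`.
* `bs (inl v) = v`, `bs (inr (v, n)) = v`: every edge `x` of `DG` has `bs (s x) = bs (r x)` or is `inl e` with `bs (s x) = s e`,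
  `bs (r x) = r e`: so `Rch (DG) a b → Rch E (bs a) (bs b)` (`rch_bs`).
* `tail_back`: if `Rch (tv v m) (tv v n)`, `n < m`, there is `e` with `s e = v`, `m ≤ k e`, `Rch E (r e) v` and
  `Rch (DG) (inl (r e)) (tv v n)` (induction on the path from the left: the first edge is `inr (v, m)`, or `inl e` with `k e = m`).
* `dc`: let `x`, `y` be edges with the same source and paths back.  `inl e`, `inl e'`: `s e = s e'` (`bs`), `Rch E (r e) (s e)`, so `e = e'`.
  `inr p`, `inr q`: equal (`tv v n = tv w m` implies `v = w`, `n = m` for infinite emitters).  `inl e`, `inr (v, n)`: `s e = v`, `k e = n`;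
  `Rch (tv v (n+1)) (tv v n)`: `tail_back`: `e'` with `k e' ≥ n + 1`, `Rch E (r e') v`; `Rch E (r e) v` too; so `e = e'`, contradiction.
* `base`: `x = inl e`: take `r e`; `x = inr (v, n)`: `tail_back`: take `r e`.
-/

namespace DC29

open LPA74

variable {E : Gph}

theorem exists_k (E : Gph) [Countable E.Ed] : ∃ k, IsK E k := by
  classical
  have h1 : ∀ v, IE E v → Nonempty ({e // E.s e = v} ≃ ℕ) := by
    intro v hv
    have hinf : Infinite {e // E.s e = v} := Set.infinite_coe_iff.2 hv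
    obtain ⟨d⟩ := nonempty_denumerable {e // E.s e = v}
    exact ⟨Denumerable.eqv _⟩
  let q : ∀ (v : E.V), IE E v → ({e // E.s e = v} ≃ ℕ) := fun v hv => (h1 v hv).some
  refine ⟨fun e => if h : IE E (E.s e) then q (E.s e) h ⟨e, rfl⟩ else 0, fun v hv => ?_⟩
  have h2 : (fun e : {e // E.s e = v} =>
      (if h : IE E (E.s e.1) then q (E.s e.1) h ⟨e.1, rfl⟩ else 0)) = q v hv := by
    funext e
    obtain ⟨e, rfl⟩ := e
    exact dif_pos hv
  rw [h2]
  exact (q v hv).bijective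

private theorem D1g_tv_inj {v w : {v // IE E v}} {n m : ℕ} (h : tv v n = tv w m) :
    v = w ∧ n = m := by
  cases n with
  | zero =>
    cases m with
    | zero =>
      have h1 : (Sum.inl v.1 : E.V ⊕ ({v // IE E v} × ℕ)) = Sum.inl w.1 := h
      exact ⟨Subtype.ext (Sum.inl_injective h1), rfl⟩
    | succ m =>
      have h1 : (Sum.inl v.1 : E.V ⊕ ({v // IE E v} × ℕ)) = Sum.inr (w, m) := h
      cases h1
  | succ n =>
    cases m with
    | zero =>
      have h1 : (Sum.inr (v, n) : E.V ⊕ ({v // IE E v} × ℕ)) = Sum.inl w.1 := h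
      cases h1
    | succ m =>
      have h1 : (Sum.inr (v, n) : E.V ⊕ ({v // IE E v} × ℕ)) = Sum.inr (w, m) := h
      have h2 := Sum.inr_injective h1
      exact ⟨congrArg Prod.fst h2, congrArg Nat.succ (congrArg Prod.snd h2)⟩

private theorem D1g_tv_inl {v : {v // IE E v}} {n : ℕ} {w : E.V} (h : tv v n = Sum.inl w) :
    v.1 = w := by
  cases n with
  | zero => exact Sum.inl_injective h
  | succ n => cases h

private theorem D1g_cases (v : E.V ⊕ ({v // IE E v} × ℕ)) :
    (∃ w n, v = tv w n) ∨ ∃ v₀, ¬ IE E v₀ ∧ v = Sum.inl v₀ := by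
  rcases v with v₀ | ⟨w, n⟩
  · by_cases h : IE E v₀
    · exact Or.inl ⟨⟨v₀, h⟩, 0, rfl⟩
    · exact Or.inr ⟨v₀, h, rfl⟩
  · exact Or.inl ⟨w, n + 1, rfl⟩

private theorem D1g_s_ie {k : E.Ed → ℕ} {e : E.Ed} (h : IE E (E.s e)) :
    (DG E k).s (Sum.inl e) = tv ⟨E.s e, h⟩ (k e) := dif_pos h

private theorem D1g_s_not {k : E.Ed → ℕ} {e : E.Ed} (h : ¬ IE E (E.s e)) :
    (DG E k).s (Sum.inl e) = Sum.inl (E.s e) := dif_neg h

/-- an edge of the graph starting in the tail -/
private theorem D1g_s_tv {k : E.Ed → ℕ} {e : E.Ed} {w : {v // IE E v}} {n : ℕ}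
    (h : (DG E k).s (Sum.inl e) = tv w n) : E.s e = w.1 ∧ k e = n := by
  by_cases h0 : IE E (E.s e)
  · rw [D1g_s_ie h0] at h
    obtain ⟨h1, h2⟩ := D1g_tv_inj h
    exact ⟨congrArg Subtype.val h1, h2⟩
  · rw [D1g_s_not h0] at h
    have h1 := D1g_tv_inl h.symm
    exact absurd (h1 ▸ w.2) h0

theorem DG.rf {k : E.Ed → ℕ} (hk : IsK E k) (v : (DG E k).V) :
    {e | (DG E k).s e = v}.Finite := by
  rcases D1g_cases v with ⟨w, n, rfl⟩ | ⟨v₀, hv₀, rfl⟩
  · have hfin : ({e | E.s e = w.1 ∧ k e = n} : Set E.Ed).Finite := by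
      apply Set.Subsingleton.finite
      intro e he e' he'
      have h1 := (hk w.1 w.2).1 (a₁ := ⟨e, he.1⟩) (a₂ := ⟨e', he'.1⟩) (he.2.trans he'.2.symm)
      exact congrArg Subtype.val h1
    refine ((hfin.image Sum.inl).union (Set.finite_singleton (Sum.inr (w, n)))).subset ?_
    rintro (e | ⟨w', n'⟩) hx
    · exact Or.inl ⟨e, D1g_s_tv hx, rfl⟩
    · have hx' : tv w' n' = tv w n := hx
      obtain ⟨h1, h2⟩ := D1g_tv_inj hx'
      right
      rw [h1, h2]
      rfl
  · have hfin : ({e | E.s e = v₀} : Set E.Ed).Finite := not_not.1 hv₀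
    refine (hfin.image Sum.inl).subset ?_
    rintro (e | ⟨w', n'⟩) hx
    · refine ⟨e, ?_, rfl⟩
      by_cases h0 : IE E (E.s e)
      · have hx' : tv ⟨E.s e, h0⟩ (k e) = Sum.inl v₀ := (D1g_s_ie h0).symm.trans hx
        exact D1g_tv_inl hx'
      · have hx' : (Sum.inl (E.s e) : E.V ⊕ ({v // IE E v} × ℕ)) = Sum.inl v₀ :=
          (D1g_s_not (k := k) h0).symm.trans hx
        exact Sum.inl_injective hx'
    · have hx' : tv w' n' = Sum.inl v₀ := hx
      exact absurd (D1g_tv_inl hx' ▸ w'.2) hv₀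

/-- the vertex of the graph below a vertex of the desingularization -/
private def D1g_bs (v : E.V ⊕ ({v // IE E v} × ℕ)) : E.V :=
  match v with
  | Sum.inl v => v
  | Sum.inr (w, _) => w.1

private theorem D1g_bs_tv (w : {v // IE E v}) (n : ℕ) : D1g_bs (tv w n) = w.1 := by
  cases n <;> rfl

private theorem D1g_bs_s {k : E.Ed → ℕ} (e : E.Ed) :
    D1g_bs ((DG E k).s (Sum.inl e)) = E.s e := by
  by_cases h0 : IE E (E.s e)
  · rw [D1g_s_ie h0]
    exact D1g_bs_tv _ _
  · rw [D1g_s_not h0]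
    rfl

private theorem D1g_rch {k : E.Ed → ℕ} {a b : (DG E k).V} (h : Rch (DG E k) a b) :
    Rch E (D1g_bs a) (D1g_bs b) := by
  induction h with
  | refl => exact Relation.ReflTransGen.refl
  | tail _ hbc ih =>
    refine ih.trans ?_
    obtain ⟨x, rfl, rfl⟩ := hbc
    rcases x with e | ⟨w, n⟩
    · rw [D1g_bs_s]
      exact Relation.ReflTransGen.single ⟨e, rfl, rfl⟩
    · have h1 : D1g_bs ((DG E k).s (Sum.inr (w, n))) = w.1 := D1g_bs_tv w n
      have h2 : D1g_bs ((DG E k).r (Sum.inr (w, n))) = w.1 := D1g_bs_tv w (n + 1)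
      rw [h1, h2]

private theorem D1g_tail_back {k : E.Ed → ℕ} {v : {v // IE E v}} {n : ℕ} {a : (DG E k).V}
    (h : Rch (DG E k) a (tv v n)) : ∀ m, a = tv v m → n < m →
      ∃ e, E.s e = v.1 ∧ m ≤ k e ∧ Rch E (E.r e) v.1 ∧
        Rch (DG E k) (Sum.inl (E.r e)) (tv v n) := by
  induction h using Relation.ReflTransGen.head_induction_on with
  | refl =>
    intro m hm hnm
    have := (D1g_tv_inj hm).2
    omega
  | head hab hbc ih =>
    intro m hm hnm
    obtain ⟨x, hx, rfl⟩ := hab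
    rw [hm] at hx
    rcases x with e | ⟨w, n'⟩
    · obtain ⟨h1, h2⟩ := D1g_s_tv hx
      refine ⟨e, h1, h2.ge, ?_, hbc⟩
      have h3 := D1g_rch hbc
      rw [D1g_bs_tv] at h3
      exact h3
    · have hx' : tv w n' = tv v m := hx
      obtain ⟨h1, h2⟩ := D1g_tv_inj hx'
      subst h1 h2
      obtain ⟨e, he1, he2, he3, he4⟩ := ih (n' + 1) rfl (by omega)
      exact ⟨e, he1, by omega, he3, he4⟩

private theorem D1g_mix {k : E.Ed → ℕ} (h : DisjointCycles E) {e : E.Ed} {v : {v // IE E v}}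
    {n : ℕ} (hs : (DG E k).s (Sum.inl e) = (DG E k).s (Sum.inr (v, n)))
    (hx : Rch (DG E k) ((DG E k).r (Sum.inl e)) ((DG E k).s (Sum.inl e)))
    (hy : Rch (DG E k) ((DG E k).r (Sum.inr (v, n))) ((DG E k).s (Sum.inr (v, n)))) : False := by
  have hs' : (DG E k).s (Sum.inl e) = tv v n := hs
  obtain ⟨h1, h2⟩ := D1g_s_tv hs'
  have hy' : Rch (DG E k) (tv v (n + 1)) (tv v n) := hy
  obtain ⟨e', he1, he2, he3, -⟩ := D1g_tail_back hy' (n + 1) rfl (by omega)
  have h3 := D1g_rch hx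
  rw [D1g_bs_s] at h3
  have h4 : Rch E (E.r e) (E.s e) := h3
  rw [← he1] at he3
  have h5 := h e e' (h1.trans he1.symm) h4 he3
  subst h5
  omega

theorem DG.dc {k : E.Ed → ℕ} (hk : IsK E k) (h : DisjointCycles E) :
    DisjointCycles (DG E k) := by
  rintro (e | ⟨v, n⟩) (e' | ⟨w, m⟩) hs hx hy
  · have h1 := congrArg D1g_bs hs
    rw [D1g_bs_s, D1g_bs_s] at h1
    have h2 := D1g_rch hx
    have h3 := D1g_rch hy
    rw [D1g_bs_s] at h2 h3
    rw [h e e' h1 h2 h3]
  · exact (D1g_mix h hs hx hy).elim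
  · exact (D1g_mix h hs.symm hy hx).elim
  · have hs' : tv v n = tv w m := hs
    obtain ⟨h1, h2⟩ := D1g_tv_inj hs'
    rw [h1, h2]

private theorem D1g_up {k : E.Ed → ℕ} (v : {v // IE E v}) (n j : ℕ) :
    Rch (DG E k) (tv v n) (tv v (n + j)) := by
  induction j with
  | zero => exact Relation.ReflTransGen.refl
  | succ j ih => exact ih.tail ⟨Sum.inr (v, n + j), rfl, rfl⟩

theorem DG.base {k : E.Ed → ℕ} (hk : IsK E k) (x : (DG E k).Ed)
    (h : Rch (DG E k) ((DG E k).r x) ((DG E k).s x)) : ∃ v : E.V,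
      Rch (DG E k) ((DG E k).s x) (Sum.inl v) ∧ Rch (DG E k) (Sum.inl v) ((DG E k).s x) := by
  rcases x with e | ⟨v, n⟩
  · exact ⟨E.r e, Relation.ReflTransGen.single ⟨Sum.inl e, rfl, rfl⟩, h⟩
  · have h' : Rch (DG E k) (tv v (n + 1)) (tv v n) := h
    obtain ⟨e', he1, he2, he3, he4⟩ := D1g_tail_back h' (n + 1) rfl (by omega)
    refine ⟨E.r e', ?_, he4⟩
    have h1 := D1g_up (k := k) v n (k e' - n)
    rw [Nat.add_sub_cancel' (by omega : n ≤ k e')] at h1
    refine h1.tail ⟨Sum.inl e', ?_, rfl⟩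
    have h2 : IE E (E.s e') := by
      rw [he1]
      exact v.2
    rw [D1g_s_ie h2]
    congr 1
    exact Subtype.ext he1

end DC29
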