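import Pool.Agent.LibDC29.D1

/-!
# The graph `F` has disjoint cycles if `L(F)` is isomorphic to `L(E)` (F side of the page)
-/

namespace DC29

open LPA74 Finsupp

theorem rch_path {F : Gph} {a b : F.V} (h : Rch F a b) :
    ∃ l : List F.Ed, F.IsP l b ∧ F.st l b = a := by
  induction h using Relation.ReflTransGen.head_induction_on with
  | refl => exact ⟨[], trivial, rfl⟩
  | head h _ ih =>
    obtain ⟨g, rfl, hg⟩ := h
    obtain ⟨l, hl, hl'⟩ := ih
    exact ⟨g :: l, ⟨by rw [hg, hl'], hl⟩, rfl⟩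

/-- `L(F)` has an isometry `a` of `v` which factors through the edge `e`. -/
theorem exists_iso_of_rch {F : Gph} (e : F.Ed) (h : Rch F (F.r e) (F.s e)) :
    ∃ b : LA F, (vx (F.s e) : LA F) * (ed e * b) = ed e * b ∧
      (ed e * b) * vx (F.s e) = ed e * b ∧ star (ed e * b) * (ed e * b) = vx (F.s e) := by
  obtain ⟨l, hl, hl'⟩ := rch_path h
  refine ⟨pe l (F.s e), ?_, ?_, ?_⟩
  · rw [← mul_assoc, vx_mul_ed]
  · rw [mul_assoc, pe_mul_vx]
  · exact star_pe_mul_pe (l := e :: l) (u := F.s e) ⟨hl'.symm, hl⟩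

theorem dc_transfer {E F : Gph} [Countable F.V] [Countable F.Ed] (s : Setup E)
    (θ : LA E ≃+* LA F) : DisjointCycles F := by
  intro e f hef he hf
  by_contra hne
  obtain ⟨b, b1, b2, b3⟩ := exists_iso_of_rch e he
  obtain ⟨b', c1, c2, c3⟩ := exists_iso_of_rch f hf
  rw [← hef] at c1 c2 c3
  set v := F.s e with hv
  set a : LA F := ed e * b with ha
  set a' : LA F := ed f * b' with ha'
  have h12 : star a * a' = 0 := by
    calc star a * a' = star b * ((star (ed e) * ed f) * b') := by
          rw [ha, ha', star_mul]; simp only [mul_assoc]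
      _ = 0 := by rw [star_ed_mul_ed_ne hne, zero_mul, mul_zero]
  have h21 : star a' * a = 0 := by
    have := congrArg star h12
    rwa [star_mul, star_star, star_zero] at this
  have hva : star a * vx v = star a := by
    have := congrArg star b1
    rwa [star_mul, star_vx] at this
  have hva' : star a' * vx v = star a' := by
    have := congrArg star c1
    rwa [star_mul, star_vx] at this
  have hvs : vx v * star a = star a := by
    have := congrArg star b2
    rwa [star_mul, star_vx] at this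
  have hvs' : vx v * star a' = star a' := by
    have := congrArg star c2
    rwa [star_mul, star_vx] at this
  -- transport to `L(G)`
  let Φ : LA F → LA s.G := fun x => s.io (θ.symm x)
  have Φm : ∀ x y, Φ (x * y) = Φ x * Φ y := fun x y => by
    simp only [Φ, map_mul]
  have Φ0 : Φ 0 = 0 := by simp only [Φ, map_zero]
  have hi : Φ (vx v) * Φ (vx v) = Φ (vx v) := by rw [← Φm, vx_mul_self]
  have E1 : Eqv (Φ (a * star a)) (Φ (vx v)) := by
    refine Eqv.map Φ Φm ⟨a, star a, rfl, b3, ?_, ?_⟩
    · rw [mul_assoc, b3, b2]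
    · rw [b3, hvs]
  have E2 : Eqv (Φ (a' * star a')) (Φ (vx v)) := by
    refine Eqv.map Φ Φm ⟨a', star a', rfl, c3, ?_, ?_⟩
    · rw [mul_assoc, c3, c2]
    · rw [c3, hvs']
  obtain ⟨m, hm⟩ := exists_class s.ng hi
  have m1 := hm.of_eqv E1
  have m2 := hm.of_eqv E2
  have o12 : Φ (a * star a) * Φ (a' * star a') = 0 := by
    rw [← Φm, mul_assoc, ← mul_assoc (star a), h12, zero_mul, mul_zero, Φ0]
  have o21 : Φ (a' * star a') * Φ (a * star a) = 0 := by
    rw [← Φm, mul_assoc, ← mul_assoc (star a'), h21, zero_mul, mul_zero, Φ0]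
  have m12 := m1.add m2 o12 o21
  have l1 : Φ (vx v) * Φ (a * star a) = Φ (a * star a) := by
    rw [← Φm, ← mul_assoc, b1]
  have l2 : Φ (vx v) * Φ (a' * star a') = Φ (a' * star a') := by
    rw [← Φm, ← mul_assoc, c1]
  have r1 : Φ (a * star a) * Φ (vx v) = Φ (a * star a) := by
    rw [← Φm, mul_assoc, hva]
  have r2 : Φ (a' * star a') * Φ (vx v) = Φ (a' * star a') := by
    rw [← Φm, mul_assoc, hva']
  set X := Φ (vx v) with hX
  set P := Φ (a * star a) + Φ (a' * star a') with hP
  have hPP : P * P = P := m12.idem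
  have hXP : X * P = P := by rw [hP, mul_add, l1, l2]
  have hPX : P * X = P := by rw [hP, add_mul, r1, r2]
  have hR : (X - P) * (X - P) = X - P := by
    rw [sub_mul, mul_sub, mul_sub, hi, hXP, hPX, hPP, sub_self, sub_zero]
  obtain ⟨z, hz⟩ := exists_class s.ng hR
  have m3 := m12.add hz (by rw [mul_sub, hPX, hPP, sub_self])
    (by rw [sub_mul, hXP, hPP, sub_self])
  rw [add_sub_cancel] at m3
  have h0 := M0 s.ng.toLG (Cl.uniq s.ng hm m3)
  rw [h0] at hm
  have hX0 : Φ (vx v) = 0 := hm.eq_zero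
  have h1 : θ.symm (vx v) = 0 := s.inj (by rw [map_zero]; exact hX0)
  have h2 : (vx v : LA F) = 0 := θ.symm.injective (by rw [h1, map_zero])
  exact vx_ne_zero v h2

end DC29
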