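import Pool.Agent.LibDC29.D1g
import Pool.Agent.LibDC29.B1
import Pool.Agent.LibDC29.If

/-!
[DC D2g] `L(E)` is the corner of `L(DG E)` on the vertices of `E`.
`ta v n` = product of the tail edges `ed (inr (v,0)) * ... * ed (inr (v,n-1))` (with `ta v 0 = vx (inl v)`):
`star (ta v n) * ta v n = vx (tv v n)`, `ta v (n+1) = ta v n * ed (inr (v, n))`.
CK family (`LA.lift`): `P v = vx (inl v)`; `Sg e = ta v (k e) * ed (inl e)` if `v = s e` is an infinite emitter, `ed (inl e)` otherwise.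
`ck1'` for `e ≠ e'` with `s e = s e' = v`, `k e < k e'`: `star (ed (inl e)) * star (ta v (k e)) * ta v (k e') * ed (inl e')`, and
`star (ta v n) * ta v m = ed (inr (v,n)) * ..` for `n < m`, `star (ed (inl e)) * ed (inr (v, n)) = 0`.  `ck2`: only finite emitters.
INJECTIVE: `red`, `ind` for `DG E`: `io (pe α v) = pe (dp α) (inl v)`, `dp e` = tail edges of index `< k e`, then `inl e`;
`α` is recovered from `dp α` by keeping the `inl`s (`List.filterMap`), so `dp` is injective.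
RANGE: `⊆` as usual.  `⊇`: `tau (inl v) = vx (inl v)`, `tau (tv v n) = ta v n` (for a vertex `w` of `DG`).  Claim: for a path `α` of `DG` to `u`
starting in the range of `inl` there is `y` with `pe α u = io y * tau u` (induction on `α` from the right, `List.reverseRecOn`, using
`pe (α ++ [x]) u = pe α (s x) * ed x`): for `x = inr (v, n)`: `tau (tv v n) * ed x = tau (tv v (n+1))`; for `x = inl e`: `tau (s x) * ed x = Sg e = io (ed e)`.
`tau u * star (tau u)` is in the range: `ta v n * star (ta v n) = io (vx v - ∑_{s e = v, k e < n} ed e * star (ed e))` by induction on `n`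
(`vx (tv v n) = ed (inr (v,n)) star (..) + ed (inl e) star (..)`, `k e = n`: `vx_eq_sum` for the two edges).  `cor_span`.
LAST PART: `w = tv v n`: `p = vx v - ∑_{k e < n} ed e star (ed e)`, by the partial isometry `ta v n`.
-/

namespace DC29

open LPA74

variable {E : Gph}

theorem D2g_app {G : Gph} {α β : List G.Ed} {v : G.V} (hα : G.IsP α (G.st β v)) (hβ : G.IsP β v) :
    G.IsP (α ++ β) v ∧ (pe (α ++ β) v : LA G) = pe α (G.st β v) * pe β v ∧
      G.st (α ++ β) v = G.st α (G.st β v) := by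
  induction α with
  | nil => exact ⟨hβ, (vx_mul_pe β v).symm, rfl⟩
  | cons g α ih =>
    obtain ⟨h1, h2⟩ := hα
    obtain ⟨a, b, c⟩ := ih h2
    refine ⟨⟨?_, a⟩, ?_, rfl⟩
    · exact h1.trans c.symm
    · show ed g * pe (α ++ β) v = ed g * pe α (G.st β v) * pe β v
      rw [b, mul_assoc]

theorem D2g_snoc {G : Gph} {α : List G.Ed} {x : G.Ed} {v : G.V} (h : G.IsP (α ++ [x]) v) :
    G.IsP α (G.s x) ∧ G.r x = v ∧ (pe (α ++ [x]) v : LA G) = pe α (G.s x) * ed x ∧
      G.st (α ++ [x]) v = G.st α (G.s x) := by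
  induction α with
  | nil =>
    refine ⟨trivial, h.1, ?_, rfl⟩
    show ed x * vx v = vx (G.s x) * ed x
    rw [vx_mul_ed, ← show G.r x = v from h.1, ed_mul_vx]
  | cons g α ih =>
    obtain ⟨h1, h2⟩ := h
    obtain ⟨a, b, c, d⟩ := ih h2
    refine ⟨⟨h1.trans d, a⟩, b, ?_, rfl⟩
    show ed g * pe (α ++ [x]) v = ed g * pe α (G.s x) * ed x
    rw [c, mul_assoc]

variable {k : E.Ed → ℕ}

/-- the vertex `v`. -/
def D2g_iv (k : E.Ed → ℕ) (v : E.V) : (DG E k).V := Sum.inl v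

/-- the edge `e`. -/
def D2g_ie (k : E.Ed → ℕ) (e : E.Ed) : (DG E k).Ed := Sum.inl e

/-- the tail edge. -/
def D2g_ir (k : E.Ed → ℕ) (v : {v // IE E v}) (n : ℕ) : (DG E k).Ed := Sum.inr (v, n)

/-- the tail vertex. -/
def D2g_tw (k : E.Ed → ℕ) (v : {v // IE E v}) (n : ℕ) : (DG E k).V := tv v n

/-- product of the tail edges. -/
noncomputable def D2g_ta (k : E.Ed → ℕ) (v : {v // IE E v}) : ℕ → LA (DG E k)
  | 0 => vx (D2g_iv k v.1)
  | n + 1 => D2g_ta k v n * ed (D2g_ir k v n)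

theorem D2g_s_ir (v : {v // IE E v}) (n : ℕ) : (DG E k).s (D2g_ir k v n) = D2g_tw k v n := rfl

theorem D2g_r_ir (v : {v // IE E v}) (n : ℕ) : (DG E k).r (D2g_ir k v n) = D2g_tw k v (n + 1) :=
  rfl

theorem D2g_r_ie (e : E.Ed) : (DG E k).r (D2g_ie k e) = D2g_iv k (E.r e) := rfl

theorem D2g_s_ie {e : E.Ed} (h : IE E (E.s e)) :
    (DG E k).s (D2g_ie k e) = D2g_tw k ⟨E.s e, h⟩ (k e) := by
  classical
  exact dif_pos h

theorem D2g_s_fe {e : E.Ed} (h : ¬ IE E (E.s e)) :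
    (DG E k).s (D2g_ie k e) = D2g_iv k (E.s e) := by
  classical
  exact dif_neg h

theorem D2g_iv_inj {a b : E.V} (h : D2g_iv k a = D2g_iv k b) : a = b := Sum.inl.inj h

theorem D2g_ie_inj {a b : E.Ed} (h : D2g_ie k a = D2g_ie k b) : a = b := Sum.inl.inj h

theorem D2g_ie_ne {a : E.Ed} {v : {v // IE E v}} {n : ℕ} : D2g_ie k a ≠ D2g_ir k v n :=
  fun h => Sum.inl_ne_inr h

theorem D2g_tw_inj {v w : {v // IE E v}} {n m : ℕ} (h : D2g_tw k v n = D2g_tw k w m) :
    v = w ∧ n = m := by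
  have h0 : tv v n = tv w m := h
  cases n with
  | zero =>
    cases m with
    | zero => exact ⟨Subtype.ext (Sum.inl.inj h0), rfl⟩
    | succ m => exact absurd h0 (by intro h; exact Sum.inl_ne_inr h)
  | succ n =>
    cases m with
    | zero => exact absurd h0 (by intro h; exact Sum.inr_ne_inl h)
    | succ m =>
      have h1 := Sum.inr.inj h0
      have h2 := congrArg Prod.fst h1
      have h3 : n = m := congrArg Prod.snd h1
      exact ⟨h2, by rw [h3]⟩

theorem D2g_tw_inl {v : {v // IE E v}} {n : ℕ} {a : E.V} (h : D2g_tw k v n = D2g_iv k a) :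
    v.1 = a ∧ n = 0 := by
  have h0 : tv v n = Sum.inl a := h
  cases n with
  | zero => exact ⟨Sum.inl.inj h0, rfl⟩
  | succ n => exact absurd h0 (by intro h; exact Sum.inr_ne_inl h)

theorem D2g_ta_vx (v : {v // IE E v}) (n : ℕ) :
    D2g_ta k v n * vx (D2g_tw k v n) = D2g_ta k v n := by
  cases n with
  | zero => exact vx_mul_self _
  | succ n =>
    show D2g_ta k v n * ed (D2g_ir k v n) * vx (D2g_tw k v (n + 1)) = _
    rw [mul_assoc]
    have h := ed_mul_vx (D2g_ir k v n)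
    rw [D2g_r_ir] at h
    rw [h]
    rfl

theorem D2g_vx_ta (v : {v // IE E v}) (n : ℕ) :
    vx (D2g_iv k v.1) * D2g_ta k v n = D2g_ta k v n := by
  induction n with
  | zero => exact vx_mul_self _
  | succ n ih =>
    show vx (D2g_iv k v.1) * (D2g_ta k v n * ed (D2g_ir k v n)) = _
    rw [← mul_assoc, ih]
    rfl

theorem D2g_star_ta (v : {v // IE E v}) (n : ℕ) :
    star (D2g_ta k v n) * D2g_ta k v n = vx (D2g_tw k v n) := by
  induction n with
  | zero =>
    show star (vx (D2g_iv k v.1)) * vx (D2g_iv k v.1) = _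
    rw [star_vx, vx_mul_self]
    rfl
  | succ n ih =>
    show star (D2g_ta k v n * ed (D2g_ir k v n)) *
      (D2g_ta k v n * ed (D2g_ir k v n)) = _
    have h := vx_mul_ed (D2g_ir k v n)
    rw [D2g_s_ir] at h
    have h2 := star_ed_mul_ed (D2g_ir k v n)
    rw [D2g_r_ir] at h2
    calc star (D2g_ta k v n * ed (D2g_ir k v n)) *
          (D2g_ta k v n * ed (D2g_ir k v n)) =
        star (ed (D2g_ir k v n)) * ((star (D2g_ta k v n) * D2g_ta k v n) *
          ed (D2g_ir k v n)) := by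
          rw [star_mul]
          simp only [mul_assoc]
      _ = vx (D2g_tw k v (n + 1)) := by rw [ih, h, h2]

/-- `star (ed (inl e)) * star (ta v n) * ta v m = 0` for `n < m`. -/
theorem D2g_orth (e : E.Ed) (v : {v // IE E v}) (n d : ℕ) :
    star (ed (D2g_ie k e)) * (star (D2g_ta k v n) * D2g_ta k v (n + 1 + d)) = 0 := by
  induction d with
  | zero =>
    have h := vx_mul_ed (D2g_ir k v n)
    rw [D2g_s_ir] at h
    show star (ed (D2g_ie k e)) *
      (star (D2g_ta k v n) * (D2g_ta k v n * ed (D2g_ir k v n))) = 0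
    rw [← mul_assoc (star (D2g_ta k v n)), D2g_star_ta, h]
    exact star_ed_mul_ed_ne D2g_ie_ne
  | succ d ih =>
    show star (ed (D2g_ie k e)) *
      (star (D2g_ta k v n) * (D2g_ta k v (n + 1 + d) *
        ed (D2g_ir k v (n + 1 + d)))) = 0
    rw [← mul_assoc (star (D2g_ta k v n)), ← mul_assoc, ih, zero_mul]

open Classical in
/-- the prefix of the edge `e`. -/
noncomputable def D2g_tb (k : E.Ed → ℕ) (e : E.Ed) : LA (DG E k) :=
  if h : IE E (E.s e) then D2g_ta k ⟨E.s e, h⟩ (k e) else vx (D2g_iv k (E.s e))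

/-- the image of the edge `e`. -/
noncomputable def D2g_sg (k : E.Ed → ℕ) (e : E.Ed) : LA (DG E k) :=
  D2g_tb k e * ed (D2g_ie k e)

theorem D2g_tb_pos {e : E.Ed} (h : IE E (E.s e)) : D2g_tb k e = D2g_ta k ⟨E.s e, h⟩ (k e) := by
  unfold D2g_tb
  rw [dif_pos h]

theorem D2g_tb_neg {e : E.Ed} (h : ¬ IE E (E.s e)) :
    D2g_tb k e = vx (D2g_iv k (E.s e)) := by
  unfold D2g_tb
  rw [dif_neg h]

theorem D2g_star_tb (e : E.Ed) :
    star (D2g_tb k e) * D2g_tb k e = vx ((DG E k).s (D2g_ie k e)) := by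
  by_cases h : IE E (E.s e)
  · rw [D2g_tb_pos h, D2g_star_ta, D2g_s_ie h]
  · rw [D2g_tb_neg h, D2g_s_fe h, star_vx, vx_mul_self]

theorem D2g_vx_tb (e : E.Ed) :
    vx (D2g_iv k (E.s e)) * D2g_tb k e = D2g_tb k e := by
  by_cases h : IE E (E.s e)
  · rw [D2g_tb_pos h]
    exact D2g_vx_ta (⟨E.s e, h⟩ : {v // IE E v}) (k e)
  · rw [D2g_tb_neg h, vx_mul_self]

theorem D2g_vx_sg (e : E.Ed) :
    vx (D2g_iv k (E.s e)) * D2g_sg k e = D2g_sg k e := by
  unfold D2g_sg
  rw [← mul_assoc, D2g_vx_tb]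

theorem D2g_sg_vx (e : E.Ed) :
    D2g_sg k e * vx (D2g_iv k (E.r e)) = D2g_sg k e := by
  unfold D2g_sg
  rw [mul_assoc]
  have h := ed_mul_vx (D2g_ie k e)
  rw [D2g_r_ie] at h
  rw [h]

theorem D2g_star_sg (e : E.Ed) :
    star (D2g_sg k e) * D2g_sg k e = vx (D2g_iv k (E.r e)) := by
  unfold D2g_sg
  calc star (D2g_tb k e * ed (D2g_ie k e)) *
        (D2g_tb k e * ed (D2g_ie k e)) =
      star (ed (D2g_ie k e)) * ((star (D2g_tb k e) * D2g_tb k e) *
        ed (D2g_ie k e)) := by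
        rw [star_mul]
        simp only [mul_assoc]
    _ = _ := by
        rw [D2g_star_tb, vx_mul_ed, star_ed_mul_ed]
        rfl

theorem D2g_sg_lt {e e' : E.Ed} (hs : E.s e = E.s e') (h : IE E (E.s e)) (hk : k e < k e') :
    star (D2g_sg k e) * D2g_sg k e' = 0 := by
  have h' : IE E (E.s e') := hs ▸ h
  have hv : (⟨E.s e, h⟩ : {v // IE E v}) = ⟨E.s e', h'⟩ := Subtype.ext hs
  obtain ⟨d, hd⟩ := Nat.exists_eq_add_of_lt hk
  unfold D2g_sg
  rw [D2g_tb_pos h, D2g_tb_pos h', hv]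
  have h1 := D2g_orth (k := k) e ⟨E.s e', h'⟩ (k e) d
  have h2 : k e + 1 + d = k e' := by omega
  rw [h2] at h1
  calc star (D2g_ta k ⟨E.s e', h'⟩ (k e) * ed (D2g_ie k e)) *
        (D2g_ta k ⟨E.s e', h'⟩ (k e') * ed (D2g_ie k e')) =
      (star (ed (D2g_ie k e)) * (star (D2g_ta k ⟨E.s e', h'⟩ (k e)) *
        D2g_ta k ⟨E.s e', h'⟩ (k e'))) * ed (D2g_ie k e') := by
        rw [star_mul]
        simp only [mul_assoc]
    _ = 0 := by rw [h1, zero_mul]

theorem D2g_sg_ne (hk : IsK E k) {e e' : E.Ed} (hne : e ≠ e') :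
    star (D2g_sg k e) * D2g_sg k e' = 0 := by
  by_cases hs : E.s e = E.s e'
  · by_cases h : IE E (E.s e)
    · have h' : IE E (E.s e') := hs ▸ h
      have h1 : k e ≠ k e' := by
        intro hkk
        have h2 := (hk (E.s e') h').1 (a₁ := ⟨e, hs⟩) (a₂ := ⟨e', rfl⟩) hkk
        exact hne (congrArg Subtype.val h2)
      rcases lt_or_gt_of_ne h1 with h2 | h2
      · exact D2g_sg_lt hs h h2
      · have h3 := D2g_sg_lt hs.symm h' h2
        have h4 := congrArg star h3
        rwa [star_mul, star_star, star_zero] at h4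
    · have h' : ¬ IE E (E.s e') := hs ▸ h
      unfold D2g_sg
      rw [D2g_tb_neg h, D2g_tb_neg h', ← hs]
      have h1 := vx_mul_ed (D2g_ie k e)
      rw [D2g_s_fe h] at h1
      have h2 := vx_mul_ed (D2g_ie k e')
      rw [D2g_s_fe h', ← hs] at h2
      rw [h1, h2]
      exact star_ed_mul_ed_ne (fun h3 => hne (D2g_ie_inj h3))
  · rw [← D2g_vx_sg e, ← D2g_vx_sg e', star_mul, star_vx, mul_assoc,
      ← mul_assoc (vx (D2g_iv k (E.s e))) (vx (D2g_iv k (E.s e'))),
      vx_mul_ne (fun h => hs (D2g_iv_inj h)), zero_mul, mul_zero]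

theorem D2g_ck (hk : IsK E k) : CK E (fun v => (vx (D2g_iv k v) : LA (DG E k)))
    (D2g_sg k) := by
  classical
  refine ⟨fun a => vx_mul_self _, fun a => star_vx _, fun a b hab =>
    vx_mul_ne (fun h => hab (D2g_iv_inj h)), D2g_vx_sg, D2g_sg_vx, D2g_star_sg,
    fun f f' h => D2g_sg_ne hk h, ?_⟩
  intro a S h0 hS
  have hfin : ¬ IE E a := by
    intro h
    exact h (S.finite_toSet.subset fun e he => (hS e).2 he)
  have h1 := vx_eq_sum (D2g_iv k a) (S.map ⟨D2g_ie k, fun _ _ h => D2g_ie_inj h⟩)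
    (by
      obtain ⟨f, hf⟩ := h0
      exact ⟨D2g_ie k f, Finset.mem_map.2 ⟨f, hf, rfl⟩⟩) (fun x => by
      constructor
      · intro hx
        obtain ⟨f, hf, hfx⟩ := Finset.mem_map.1 hx
        have hfx' : D2g_ie k f = x := hfx
        have h2 : E.s f = a := (hS f).1 hf
        rw [← hfx', D2g_s_fe (by rw [h2]; exact hfin), h2]
      · intro hx
        rcases x with e | ⟨v, n⟩
        · refine Finset.mem_map.2 ⟨e, (hS e).2 ?_, rfl⟩
          have hx' : (DG E k).s (D2g_ie k e) = D2g_iv k a := hx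
          by_cases h : IE E (E.s e)
          · rw [D2g_s_ie h] at hx'
            exact (D2g_tw_inl hx').1
          · rw [D2g_s_fe h] at hx'
            exact D2g_iv_inj hx'
        · have hx' : D2g_tw k v n = D2g_iv k a := hx
          exact absurd v.2 (by rw [(D2g_tw_inl hx').1]; exact hfin))
  show vx (D2g_iv k a) = _
  rw [h1, Finset.sum_map]
  refine Finset.sum_congr rfl fun f hf => ?_
  have h2 : E.s f = a := (hS f).1 hf
  have h3 : ¬ IE E (E.s f) := by rw [h2]; exact hfin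
  have h4 : D2g_sg k f = ed (D2g_ie k f) := by
    unfold D2g_sg
    rw [D2g_tb_neg h3]
    have h5 := vx_mul_ed (D2g_ie k f)
    rwa [D2g_s_fe h3] at h5
  rw [h4]
  rfl

/-- the tail of length `n`, as a list. -/
def D2g_tl (k : E.Ed → ℕ) (v : {v // IE E v}) (n : ℕ) : List (DG E k).Ed :=
  (List.range n).map fun i => D2g_ir k v i

theorem D2g_pe_tl (v : {v // IE E v}) (n : ℕ) : ∀ (l : List (DG E k).Ed) (u : (DG E k).V),
    (DG E k).IsP l u → (DG E k).st l u = D2g_tw k v n →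
    (DG E k).IsP (D2g_tl k v n ++ l) u ∧
      pe (D2g_tl k v n ++ l) u = D2g_ta k v n * pe l u ∧
      (DG E k).st (D2g_tl k v n ++ l) u = D2g_iv k v.1 := by
  induction n with
  | zero =>
    intro l u hl hs
    refine ⟨hl, ?_, hs⟩
    show pe l u = vx (D2g_iv k v.1) * pe l u
    have h1 := vx_mul_pe l u
    rw [hs] at h1
    exact h1.symm
  | succ n ih =>
    intro l u hl hs
    have h1 : D2g_tl k v (n + 1) ++ l = D2g_tl k v n ++ (D2g_ir k v n :: l) := by
      unfold D2g_tl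
      rw [List.range_succ, List.map_append, List.append_assoc]
      rfl
    rw [h1]
    have h2 : (DG E k).IsP (D2g_ir k v n :: l) u := ⟨hs.symm, hl⟩
    obtain ⟨a, b, c⟩ := ih _ u h2 rfl
    refine ⟨a, ?_, c⟩
    rw [b]
    show D2g_ta k v n * (ed (D2g_ir k v n) * pe l u) =
      D2g_ta k v n * ed (D2g_ir k v n) * pe l u
    rw [mul_assoc]

open Classical in
/-- the path of an edge. -/
noncomputable def D2g_dp (k : E.Ed → ℕ) : List E.Ed → List (DG E k).Ed
  | [] => []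
  | e :: l => (if h : IE E (E.s e) then D2g_tl k ⟨E.s e, h⟩ (k e) else []) ++
      (D2g_ie k e :: D2g_dp k l)

theorem D2g_dp_pos {e : E.Ed} (h : IE E (E.s e)) (l : List E.Ed) :
    D2g_dp k (e :: l) = D2g_tl k ⟨E.s e, h⟩ (k e) ++ (D2g_ie k e :: D2g_dp k l) := by
  classical
  rw [D2g_dp, dif_pos h]

theorem D2g_dp_neg {e : E.Ed} (h : ¬ IE E (E.s e)) (l : List E.Ed) :
    D2g_dp k (e :: l) = D2g_ie k e :: D2g_dp k l := by
  classical
  rw [D2g_dp, dif_neg h, List.nil_append]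

/-- keep the `inl`s. -/
def D2g_kp (k : E.Ed → ℕ) (x : (DG E k).Ed) : Option E.Ed :=
  match x with
  | Sum.inl e => some e
  | Sum.inr _ => none

theorem D2g_kp_tl (v : {v // IE E v}) (n : ℕ) :
    (D2g_tl k v n).filterMap (D2g_kp k) = [] := by
  unfold D2g_tl
  rw [List.filterMap_map, List.filterMap_eq_nil_iff]
  intro i _
  rfl

theorem D2g_kp_dp (l : List E.Ed) : (D2g_dp k l).filterMap (D2g_kp k) = l := by
  classical
  induction l with
  | nil => rfl
  | cons e l ih =>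
    have h2 : (D2g_ie k e :: D2g_dp k l).filterMap (D2g_kp k) = e :: l := by
      show e :: (D2g_dp k l).filterMap (D2g_kp k) = e :: l
      rw [ih]
    by_cases h : IE E (E.s e)
    · rw [D2g_dp_pos h, List.filterMap_append, D2g_kp_tl, List.nil_append, h2]
    · rw [D2g_dp_neg h, h2]

theorem D2g_dp_spec (io : LA E →⋆ₙₐ[ℂ] LA (DG E k)) (hv : ∀ v, io (vx v) =
    vx (D2g_iv k v)) (he : ∀ e, io (ed e) = D2g_sg k e) (v : E.V) (l : List E.Ed) :
    E.IsP l v → (DG E k).IsP (D2g_dp k l) (D2g_iv k v) ∧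
      io (pe l v) = pe (D2g_dp k l) (D2g_iv k v) ∧
      (DG E k).st (D2g_dp k l) (D2g_iv k v) = D2g_iv k (E.st l v) := by
  classical
  induction l with
  | nil => exact fun _ => ⟨trivial, hv v, rfl⟩
  | cons e l ih =>
    intro h
    obtain ⟨h1, h2⟩ := h
    obtain ⟨a, b, c⟩ := ih h2
    have h3 : (DG E k).IsP (D2g_ie k e :: D2g_dp k l) (D2g_iv k v) := by
      refine ⟨?_, a⟩
      rw [D2g_r_ie, c, h1]
    have h4 : io (pe (e :: l) v) = D2g_tb k e *
        pe (D2g_ie k e :: D2g_dp k l) (D2g_iv k v) := by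
      show io (ed e * pe l v) = D2g_tb k e * (ed (D2g_ie k e) *
        pe (D2g_dp k l) (D2g_iv k v))
      rw [map_mul, he, b, ← mul_assoc]
      rfl
    rw [h4]
    by_cases hie : IE E (E.s e)
    · obtain ⟨a', b', c'⟩ := D2g_pe_tl ⟨E.s e, hie⟩ (k e) _ _ h3 (D2g_s_ie hie)
      rw [D2g_dp_pos hie, D2g_tb_pos hie]
      exact ⟨a', b'.symm, c'⟩
    · rw [D2g_dp_neg hie, D2g_tb_neg hie]
      refine ⟨h3, ?_, D2g_s_fe hie⟩
      have h6 := vx_mul_pe (D2g_ie k e :: D2g_dp k l) (D2g_iv k v)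
      have h7 : (DG E k).st (D2g_ie k e :: D2g_dp k l) (D2g_iv k v) =
        D2g_iv k (E.s e) := D2g_s_fe hie
      rw [h7] at h6
      exact h6

/-- `tau`. -/
noncomputable def D2g_tau (k : E.Ed → ℕ) (w : (DG E k).V) : LA (DG E k) :=
  match w with
  | Sum.inl v => vx (D2g_iv k v)
  | Sum.inr (v, n) => D2g_ta k v (n + 1)

theorem D2g_tau_iv (v : E.V) : D2g_tau k (D2g_iv k v) = vx (D2g_iv k v) := rfl

theorem D2g_tau_tw (v : {v // IE E v}) (n : ℕ) : D2g_tau k (D2g_tw k v n) = D2g_ta k v n := by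
  cases n <;> rfl

theorem D2g_tau_ie (e : E.Ed) :
    D2g_tau k ((DG E k).s (D2g_ie k e)) * ed (D2g_ie k e) = D2g_sg k e := by
  unfold D2g_sg
  by_cases h : IE E (E.s e)
  · rw [D2g_s_ie h, D2g_tau_tw, D2g_tb_pos h]
  · rw [D2g_s_fe h, D2g_tb_neg h, D2g_tau_iv]

theorem D2g_rng (io : LA E →⋆ₙₐ[ℂ] LA (DG E k)) (hv : ∀ v, io (vx v) =
    vx (D2g_iv k v)) (he : ∀ e, io (ed e) = D2g_sg k e) (α : List (DG E k).Ed) :
    ∀ u, (DG E k).IsP α u → (∃ v : E.V, (DG E k).st α u = D2g_iv k v) →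
      ∃ y, pe α u = io y * D2g_tau k u := by
  induction α using List.reverseRecOn with
  | nil =>
    intro u _ hu
    obtain ⟨v, hv'⟩ := hu
    have hu' : u = D2g_iv k v := hv'
    subst hu'
    refine ⟨vx v, ?_⟩
    show vx (D2g_iv k v) = io (vx v) * D2g_tau k (D2g_iv k v)
    rw [hv, D2g_tau_iv, vx_mul_self]
  | append_singleton α x ih =>
    intro u hP hu
    obtain ⟨h1, h2, h3, h4⟩ := D2g_snoc hP
    rw [h4] at hu
    obtain ⟨y, hy⟩ := ih _ h1 hu
    have hx : (∃ e, x = D2g_ie k e) ∨ ∃ v n, x = D2g_ir k v n := by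
      rcases x with e | ⟨v, n⟩
      · exact Or.inl ⟨e, rfl⟩
      · exact Or.inr ⟨v, n, rfl⟩
    rw [h3, hy]
    rcases hx with ⟨e, rfl⟩ | ⟨v, n, rfl⟩
    · refine ⟨y * ed e, ?_⟩
      have h5 : u = D2g_iv k (E.r e) := h2.symm
      subst h5
      rw [mul_assoc, D2g_tau_ie, ← he, ← map_mul, D2g_tau_iv, ← hv, ← map_mul, mul_assoc,
        ed_mul_vx]
    · refine ⟨y, ?_⟩
      have h5 : u = D2g_tw k v (n + 1) := h2.symm
      subst h5
      rw [mul_assoc, D2g_s_ir, D2g_tau_tw, D2g_tau_tw]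
      rfl

theorem D2g_vx_tw (hk : IsK E k) (v : {v // IE E v}) (n : ℕ) : ∃ e : E.Ed, E.s e = v.1 ∧ k e = n ∧
    vx (D2g_tw k v n) = ed (D2g_ir k v n) *
      star (ed (D2g_ir k v n)) +
      ed (D2g_ie k e) * star (ed (D2g_ie k e)) := by
  classical
  obtain ⟨⟨e, he⟩, hke⟩ := (hk v.1 v.2).2 n
  have hke' : k e = n := hke
  refine ⟨e, he, hke', ?_⟩
  have hie : IE E (E.s e) := by rw [he]; exact v.2
  have hve : (⟨E.s e, hie⟩ : {v // IE E v}) = v := Subtype.ext he
  rw [vx_eq_sum (D2g_tw k v n) {D2g_ir k v n, D2g_ie k e}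
    ⟨_, Finset.mem_insert_self _ _⟩ (fun x => ?_)]
  · rw [Finset.sum_insert, Finset.sum_singleton]
    rw [Finset.mem_singleton]
    exact fun h => D2g_ie_ne h.symm
  · rw [Finset.mem_insert, Finset.mem_singleton]
    constructor
    · rintro (rfl | rfl)
      · rfl
      · rw [D2g_s_ie hie, hve, hke']
    · intro hx
      have hx' : (∃ e, x = D2g_ie k e) ∨ ∃ v n, x = D2g_ir k v n := by
        rcases x with e | ⟨v, n⟩
        · exact Or.inl ⟨e, rfl⟩
        · exact Or.inr ⟨v, n, rfl⟩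
      rcases hx' with ⟨e', rfl⟩ | ⟨w, m, rfl⟩
      · right
        by_cases h' : IE E (E.s e')
        · rw [D2g_s_ie h'] at hx
          obtain ⟨h1, h2⟩ := D2g_tw_inj hx
          have h3 : E.s e' = v.1 := congrArg Subtype.val h1
          have h4 := (hk v.1 v.2).1 (a₁ := ⟨e', h3⟩) (a₂ := ⟨e, he⟩) (h2.trans hke'.symm)
          rw [show e' = e from congrArg Subtype.val h4]
        · rw [D2g_s_fe h'] at hx
          obtain ⟨h1, h2⟩ := D2g_tw_inl hx.symm
          exact absurd v.2 (by rw [h1]; exact h')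
      · left
        rw [D2g_s_ir] at hx
        obtain ⟨h1, h2⟩ := D2g_tw_inj hx
        rw [h1, h2]

theorem D2g_ta_rng (hk : IsK E k) (io : LA E →⋆ₙₐ[ℂ] LA (DG E k)) (hv : ∀ v, io (vx v) =
    vx (D2g_iv k v)) (he : ∀ e, io (ed e) = D2g_sg k e) (v : {v // IE E v}) (n : ℕ) :
    ∃ y, io y = D2g_ta k v n * star (D2g_ta k v n) := by
  induction n with
  | zero =>
    refine ⟨vx v.1, ?_⟩
    show io (vx v.1) = vx (D2g_iv k v.1) * star (vx (D2g_iv k v.1))
    rw [hv, star_vx, vx_mul_self]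
  | succ n ih =>
    obtain ⟨y, hy⟩ := ih
    obtain ⟨e, he1, he2, he3⟩ := D2g_vx_tw hk v n
    have hie : IE E (E.s e) := by rw [he1]; exact v.2
    have hve : (⟨E.s e, hie⟩ : {v // IE E v}) = v := Subtype.ext he1
    have h1 : D2g_sg k e = D2g_ta k v n * ed (D2g_ie k e) := by
      unfold D2g_sg
      rw [D2g_tb_pos hie, hve, he2]
    refine ⟨y - ed e * star (ed e), ?_⟩
    have h2 : ed (D2g_ir k v n) * star (ed (D2g_ir k v n)) =
        vx (D2g_tw k v n) -
          ed (D2g_ie k e) * star (ed (D2g_ie k e)) := by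
      rw [he3]
      abel
    rw [map_sub, map_mul, map_star, he, h1, hy]
    show _ = D2g_ta k v n * ed (D2g_ir k v n) *
      star (D2g_ta k v n * ed (D2g_ir k v n))
    calc D2g_ta k v n * star (D2g_ta k v n) - D2g_ta k v n * ed (D2g_ie k e) *
          star (D2g_ta k v n * ed (D2g_ie k e)) =
        (D2g_ta k v n * vx (D2g_tw k v n)) * star (D2g_ta k v n) -
          D2g_ta k v n * (ed (D2g_ie k e) *
          star (ed (D2g_ie k e))) * star (D2g_ta k v n) := by
          rw [D2g_ta_vx, star_mul]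
          simp only [mul_assoc]
      _ = D2g_ta k v n * (vx (D2g_tw k v n) - ed (D2g_ie k e) *
          star (ed (D2g_ie k e))) * star (D2g_ta k v n) := by
          rw [mul_sub, sub_mul]
      _ = D2g_ta k v n * (ed (D2g_ir k v n) *
          star (ed (D2g_ir k v n))) * star (D2g_ta k v n) := by rw [h2]
      _ = _ := by
          rw [star_mul]
          simp only [mul_assoc]

theorem D2g_io_eS (io : LA E →⋆ₙₐ[ℂ] LA (DG E k)) (hv : ∀ v, io (vx v) =
    vx (D2g_iv k v)) (S : Finset E.V) :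
    io (eS S) = eS (S.map ⟨D2g_iv k, fun _ _ h => D2g_iv_inj h⟩) := by
  unfold eS
  rw [map_sum, Finset.sum_map]
  exact Finset.sum_congr rfl fun v _ => hv v

theorem DG.exists_io [Countable E.V] [Countable E.Ed] {k : E.Ed → ℕ} (hk : IsK E k) :
    ∃ io : LA E →⋆ₙₐ[ℂ] LA (DG E k), Function.Injective io ∧
      (∀ x, (∃ y, io y = x) ↔ InCor {w : (DG E k).V | ∃ v : E.V, w = Sum.inl v} x) ∧
      ∀ w : (DG E k).V, ∃ p, SEqv (io p) (vx w) := by
  classical
  obtain ⟨io, hv, he⟩ := LA.lift (D2g_ck hk)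
  have hcE : Countable (DG E k).Ed := by
    show Countable (E.Ed ⊕ ({v // IE E v} × ℕ))
    infer_instance
  refine ⟨io, ?_, ?_, ?_⟩
  · refine red io fun v => ?_
    have h1 := ind (D2g_iv k v)
    have h2 := h1.comp (fun α : {α : List E.Ed // E.IsP α v} =>
      (⟨D2g_dp k α.1, (D2g_dp_spec io hv he v α.1 α.2).1⟩ :
        {α : List (DG E k).Ed // (DG E k).IsP α (D2g_iv k v)})) (fun α β hαβ => by
      have h3 := congrArg (fun l => l.filterMap (D2g_kp k)) (congrArg Subtype.val hαβ)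
      have h4 : (D2g_dp k α.1).filterMap (D2g_kp k) = (D2g_dp k β.1).filterMap (D2g_kp k) := h3
      rw [D2g_kp_dp, D2g_kp_dp] at h4
      exact Subtype.ext h4)
    have h3 : (fun α : {α : List E.Ed // E.IsP α v} => io (pe α.1 v)) =
        (fun α : {α : List (DG E k).Ed // (DG E k).IsP α (D2g_iv k v)} =>
          (pe α.1 (D2g_iv k v) : LA (DG E k))) ∘ (fun α : {α : List E.Ed // E.IsP α v} =>
      (⟨D2g_dp k α.1, (D2g_dp_spec io hv he v α.1 α.2).1⟩ :
        {α : List (DG E k).Ed // (DG E k).IsP α (D2g_iv k v)})) := by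
      funext α
      exact (D2g_dp_spec io hv he v α.1 α.2).2.1
    rw [h3]
    exact h2
  · intro x
    constructor
    · rintro ⟨y, rfl⟩
      obtain ⟨S, hS⟩ := exists_unit {y}
      obtain ⟨h1, h2⟩ := hS S (Finset.Subset.refl _) y (Finset.mem_singleton_self y)
      refine ⟨S.map ⟨D2g_iv k, fun _ _ h => D2g_iv_inj h⟩, ?_, ?_, ?_⟩
      · intro w hw
        obtain ⟨v, -, hvw⟩ := Finset.mem_map.1 (Finset.mem_coe.1 hw)
        exact ⟨v, hvw.symm⟩
      · rw [← D2g_io_eS io hv, ← map_mul, h1]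
      · rw [← D2g_io_eS io hv, ← map_mul, h2]
    · intro hx
      have h1 := cor_span hx
      clear hx
      induction h1 using Submodule.span_induction with
      | mem z hz =>
        obtain ⟨u, α, β, h2, h3, h4, h5, rfl⟩ := hz
        obtain ⟨y, hy⟩ := D2g_rng io hv he α u h2 h4
        obtain ⟨y', hy'⟩ := D2g_rng io hv he β u h3 h5
        obtain ⟨z, hz⟩ : ∃ z, io z = D2g_tau k u * star (D2g_tau k u) := by
          have hu : (∃ v, u = D2g_iv k v) ∨ ∃ v n, u = D2g_tw k v n := by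
            rcases u with v | ⟨v, n⟩
            · exact Or.inl ⟨v, rfl⟩
            · exact Or.inr ⟨v, n + 1, rfl⟩
          rcases hu with ⟨v, rfl⟩ | ⟨v, n, rfl⟩
          · refine ⟨vx v, ?_⟩
            rw [hv, D2g_tau_iv, star_vx, vx_mul_self]
          · rw [D2g_tau_tw]
            exact D2g_ta_rng hk io hv he v n
        refine ⟨y * z * star y', ?_⟩
        rw [map_mul, map_mul, map_star, hz, hy, hy', star_mul]
        simp only [mul_assoc]
      | zero => exact ⟨0, map_zero io⟩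
      | add a b _ _ ha hb =>
        obtain ⟨a', rfl⟩ := ha
        obtain ⟨b', rfl⟩ := hb
        exact ⟨a' + b', map_add io _ _⟩
      | smul c a _ ha =>
        obtain ⟨a', rfl⟩ := ha
        exact ⟨c • a', map_smul io _ _⟩
  · intro w
    have hw : (∃ v, w = D2g_iv k v) ∨ ∃ v n, w = D2g_tw k v n := by
      rcases w with v | ⟨v, n⟩
      · exact Or.inl ⟨v, rfl⟩
      · exact Or.inr ⟨v, n + 1, rfl⟩
    rcases hw with ⟨v, rfl⟩ | ⟨v, n, rfl⟩
    · refine ⟨vx v, ?_⟩
      rw [hv]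
      exact SEqvIn.refl trivial ⟨vx_mul_self _, star_vx _⟩
    · obtain ⟨p, hp⟩ := D2g_ta_rng hk io hv he v n
      refine ⟨p, D2g_ta k v n, trivial, hp.symm, ?_, ?_⟩
      · exact D2g_star_ta v n
      · rw [mul_assoc, D2g_star_ta]
        exact D2g_ta_vx v n

end DC29
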