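import Pool.Agent.LibDC29.A7
import Pool.Agent.LibDC29.D1

/-!
# Classes of small idempotents at a loop; ring homomorphisms from `ℂ` to `ℂ[T;T⁻¹]`
-/

namespace DC29

open LPA74 Finsupp LaurentPolynomial

/-- there is no ring homomorphism from `ℂ` to `ℂ[T;T⁻¹]` which takes the value `T`. -/
theorem no_hom (φ : ℂ → LaurentPolynomial ℂ) (ha : ∀ a b, φ (a + b) = φ a + φ b)
    (hm : ∀ a b, φ (a * b) = φ a * φ b) (h1 : φ 1 = 1) (l : ℂ) (hl : φ l = T 1) : False := by
  have h2 : φ (l + 1) = T 1 + 1 := by rw [ha, hl, h1]
  by_cases h0 : l + 1 = 0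
  · have h3 : φ 0 = 0 := by
      have := ha 0 0
      rw [add_zero] at this
      exact left_eq_add.1 this
    rw [h0, h3] at h2
    have h4 := congrArg (eval₂ (RingHom.id ℂ) (1 : ℂˣ)) h2
    rw [map_zero, map_add, map_one, eval₂_T, one_zpow, Units.val_one] at h4
    norm_num at h4
  · have h3 : φ (l + 1) * φ (l + 1)⁻¹ = 1 := by
      rw [← hm, mul_inv_cancel₀ h0, h1]
    rw [h2] at h3
    have h4 := congrArg (eval₂ (RingHom.id ℂ) (-1 : ℂˣ)) h3
    rw [map_mul, map_add, map_one, eval₂_T, zpow_one, Units.val_neg, Units.val_one,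
      neg_add_cancel, zero_mul] at h4
    norm_num at h4

variable {G : Gph} (hG : NG G)

theorem mem_rf {g : G.Ed} {v : G.V} : g ∈ (hG.rf v).toFinset ↔ G.s g = v := by
  rw [Set.Finite.mem_toFinset]; rfl

section
variable {f : G.Ed} (hf : G.r f = G.s f)
include hf

open Classical in
theorem rf_eq : (hG.rf (G.s f)).toFinset = insert f (exs hG.toLG (G.s f)) := by
  ext g
  rw [mem_rf hG, Finset.mem_insert, mem_exs]
  constructor
  · intro h
    by_cases hr : G.r g = G.s f
    · left
      exact (hG.one f g hf.symm h hr).symm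
    · exact .inr ⟨h, hr⟩
  · rintro (rfl | h)
    · rfl
    · exact h.1

/-- the defect of a loop is the sum of its exits. -/
theorem defect_eq : (vx (G.s f) : LA G) - ed f * star (ed f) =
    ∑ g ∈ exs hG.toLG (G.s f), ed g * star (ed g) := by
  classical
  have h1 : (vx (G.s f) : LA G) = ∑ g ∈ (hG.rf (G.s f)).toFinset, ed g * star (ed g) :=
    vx_eq_sum _ _ ⟨f, (mem_rf hG).2 rfl⟩ fun g => mem_rf hG
  rw [h1, rf_eq hG hf, Finset.sum_insert (fun h => (mem_exs.1 h).2 hf), add_sub_cancel_left]

theorem cl_defect : Cl ((vx (G.s f) : LA G) - ed f * star (ed f)) (wm hG.toLG (G.s f)) := by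
  rw [defect_eq hG hf]
  refine Cl.sum _ _ _ (fun g _ => (SCl.vx (G.r g)).cl.of_eqv ?_) fun g _ g' _ hne => ?_
  · refine ⟨ed g, star (ed g), rfl, star_ed_mul_ed g, ?_, ?_⟩
    · rw [mul_assoc, star_ed_mul_ed, ed_mul_vx]
    · rw [star_ed_mul_ed, vx_mul_star_ed]
  · rw [mul_assoc, ← mul_assoc (star (ed g)), star_ed_mul_ed_ne hne, zero_mul, mul_zero]

theorem cl_defect_pow (n : ℕ) :
    Cl ((vx (G.s f) : LA G) - pw (vx (G.s f)) (ed f) n * star (pw (vx (G.s f)) (ed f) n))
      (n • wm hG.toLG (G.s f)) := by
  have I := Isom.loop hf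
  have h1 : (vx (G.s f) : LA G) * vx (G.s f) = vx (G.s f) := I.pj.1
  induction n with
  | zero =>
    change Cl ((vx (G.s f) : LA G) - vx (G.s f) * star (vx (G.s f))) _
    rw [I.pj.2, h1, sub_self, zero_nsmul]
    exact SCl.zero.cl
  | succ n ih =>
    change Cl ((vx (G.s f) : LA G) - (ed f * pw (vx (G.s f)) (ed f) n) *
      star (ed f * pw (vx (G.s f)) (ed f) n)) _
    set c : LA G := vx (G.s f)
    set s : LA G := ed f
    set W := pw c s n
    set e := c - W * star W with he
    obtain ⟨w1, w2, w3⟩ := I.pw_corner n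
    have w1' : star W * c = star W := by
      have := congrArg star w1
      rwa [star_mul, I.pj.2] at this
    have hss : star s * s = c := I.ss
    have hsc : s * c = s := I.sx
    have hcs : c * s = s := I.xs
    have hsc' : c * star s = star s := by
      have := congrArg star hsc
      rwa [star_mul, I.pj.2] at this
    have hcs' : star s * c = star s := by
      have := congrArg star hcs
      rwa [star_mul, I.pj.2] at this
    have hce : c * e = e := by rw [he, mul_sub, h1, ← mul_assoc, w1]
    have hec : e * c = e := by rw [he, sub_mul, h1, mul_assoc, w1']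
    have hee : e * e = e := ih.idem
    have e1 : Eqv (s * e * star s) e := by
      refine ⟨s * e, e * star s, ?_, ?_, ?_, ?_⟩
      · rw [mul_assoc, ← mul_assoc e, hee, ← mul_assoc]
      · calc e * star s * (s * e) = e * (star s * s) * e := by simp only [mul_assoc]
          _ = e := by rw [hss, hec, hee]
      · calc s * e * (e * star s) * (s * e) = s * (e * e) * (star s * s) * e := by
              simp only [mul_assoc]
          _ = s * (e * c * e) := by rw [hee, hss]; simp only [mul_assoc]
          _ = s * e := by rw [hec, hee]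
      · calc e * star s * (s * e) * (e * star s) = e * (star s * s) * (e * e) * star s := by
              simp only [mul_assoc]
          _ = (e * c) * e * star s := by rw [hss, hee]
          _ = e * star s := by rw [hec, hee]
    have h2 := (cl_defect hG hf).add (ih.of_eqv e1) (by
        change (c - s * star s) * (s * e * star s) = 0
        calc (c - s * star s) * (s * e * star s)
            = (c * s) * e * star s - s * (star s * s) * e * star s := by
              rw [sub_mul]; simp only [mul_assoc]
          _ = 0 := by rw [hcs, hss, hsc, sub_self]) (by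
        change (s * e * star s) * (c - s * star s) = 0
        calc (s * e * star s) * (c - s * star s)
            = s * e * (star s * c) - s * e * (star s * s) * star s := by
              rw [mul_sub]; simp only [mul_assoc]
          _ = 0 := by rw [hcs', hss, mul_assoc, mul_assoc, hsc']; simp only [mul_assoc, sub_self])
    have h3 : c - s * W * star (s * W) = (c - s * star s) + s * e * star s := by
      rw [he, star_mul, mul_sub, sub_mul, hsc]
      simp only [mul_assoc]
      abel
    rw [h3, succ_nsmul']
    exact h2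

/-- small idempotents have small classes. -/
theorem small_class {q : LA G} (hq : q * q = q) (h1 : vx (G.s f) * q = q)
    (h2 : q * vx (G.s f) = q) {N : ℕ} (h3 : star (pw (vx (G.s f)) (ed f) N) * q = 0)
    (h4 : q * pw (vx (G.s f)) (ed f) N = 0) :
    ∃ m, Cl q m ∧ Le m (N • wm hG.toLG (G.s f)) := by
  have hcl := cl_defect_pow hG hf N
  set W := pw (vx (G.s f) : LA G) (ed f) N
  set e := (vx (G.s f) : LA G) - W * star W with he
  have he1 : e * q = q := by rw [he, sub_mul, h1, mul_assoc, h3, mul_zero, sub_zero]
  have he2 : q * e = q := by rw [he, mul_sub, h2, ← mul_assoc, h4, zero_mul, sub_zero]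
  have hee : e * e = e := hcl.idem
  clear_value e
  have hr : (e - q) * (e - q) = e - q := by
    rw [sub_mul, mul_sub, mul_sub, hee, he1, he2, hq, sub_self, sub_zero]
  obtain ⟨m, hm⟩ := exists_class hG hq
  obtain ⟨m', hm'⟩ := exists_class hG hr
  have h5 := hm.add hm' (by rw [mul_sub, he2, hq, sub_self]) (by rw [sub_mul, he1, hq, sub_self])
  rw [add_sub_cancel] at h5
  exact ⟨m, hm, m', Cl.uniq hG h5 hcl⟩

end

end DC29
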