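import Pool.Agent.LibDC29.Monoid

/-!
# The matching of the loop vertices (4.2 of the page): pure monoids
-/

namespace DC29

open LPA74 Finsupp Relation

variable {G G' : Gph}

theorem Le.zero' (x : Mon G) : Le (0 : Mon G) x := ⟨x, zero_add x⟩

theorem Le.nsmul_trans {a b c : Mon G} {m n : ℕ} (h : Le a (m • b)) (h' : Le b (n • c)) :
    Le a ((m * n) • c) := by
  refine h.trans' ?_
  rw [mul_nsmul']
  exact h'.nsmul' m

theorem Le.add_nsmul' {a b c : Mon G} {m n : ℕ} (h : Le a (m • c)) (h' : Le b (n • c)) :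
    Le (a + b) ((m + n) • c) := by
  rw [_root_.add_nsmul]; exact h.add' h'

theorem Le.map' {a b : Mon G} (t : Mon G ≃+ Mon G') (h : Le a b) : Le (t a) (t b) := by
  obtain ⟨z, rfl⟩ := h
  exact ⟨t z, by rw [map_add]⟩

theorem match_core (hG : LG G) (hG' : LG G') (t : Mon G ≃+ Mon G') {c : G.V} (hc : IsLp G c)
    {c' : G'.V} (hc' : IsLp G' c') {b : Mon G'} {n : ℕ} (h1 : t (mv c) = mv c' + b)
    (hb : Le b (n • t (wm hG c))) {c1 : G.V} (hc1 : IsLp G c1) {a : Mon G} {m : ℕ}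
    (h2 : t.symm (mv c') = mv c1 + a) (ha : Le a (m • t.symm (wm hG' c'))) :
    c1 = c ∧ t (wm hG c) = wm hG' c' ∧ ∃ k : ℕ, Le b (k • wm hG' c') := by
  have e1 : mv c + t.symm (wm hG' c') = mv c := by
    apply t.injective
    rw [map_add, t.apply_symm_apply, h1, add_right_comm, absorb hG' hc']
  obtain ⟨m1, n1, e2⟩ := M3 hG hc e1
  have hw : Le (t.symm (wm hG' c')) (n1 • wm hG c) := ⟨_, e2⟩
  have hb' : Le (t.symm b) (n • wm hG c) := by
    have := hb.map' t.symm
    rwa [map_nsmul, t.symm_apply_apply] at this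
  have ha' : Le a ((m * n1) • wm hG c) := ha.nsmul_trans hw
  have e3 : mv c = mv c1 + a + t.symm b := by
    apply t.injective
    rw [map_add, ← h2, t.apply_symm_apply, t.apply_symm_apply, h1]
  have hcc : c1 = c := by
    by_contra hne
    have h3 : Le (mv c1) (mv c) := ⟨a + t.symm b, by rw [← add_assoc]; exact e3.symm⟩
    have h4 := (M5 hG hc1).1 h3
    have h5 := M6 hG hc h4 (Ne.symm hne)
    have h6 : Le (mv c1) (1 • wm hG c) := by rw [one_nsmul]; exact h5
    refine M2' hG hc (1 + m * n1 + n) ?_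
    have h7 := (h6.add_nsmul' ha').add_nsmul' hb'
    rwa [← e3] at h7
  subst hcc
  have e4 : mv c' = mv c' + (b + t a) := by
    conv_lhs => rw [← t.apply_symm_apply (mv c'), h2, map_add, h1]
    rw [add_assoc]
  obtain ⟨m2, n2, e5⟩ := M3 hG' hc' e4.symm
  have e6 : mv c' + t (wm hG c1) = mv c' := by
    have h8 : mv c' = t (mv c1) + t a := by
      rw [← map_add, ← h2, t.apply_symm_apply]
    rw [h8, add_right_comm, ← map_add t, absorb hG hc]
  obtain ⟨m3, n3, e7⟩ := M3 hG' hc' e6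
  have e8 : wm hG' c' + m1 • t (wm hG c1) = n1 • t (wm hG c1) := by
    have := congrArg t e2
    rwa [map_add, map_nsmul, map_nsmul, t.apply_symm_apply] at this
  have h9 : Le b (b + t a) := ⟨t a, rfl⟩
  refine ⟨rfl, M4 hG' e7 e8, n2, h9.trans' ⟨_, e5⟩⟩

/-- **4.2**: the matching, from 4.1 in both directions. -/
theorem MD_of (hG : LG G) (hG' : LG G') (t : Mon G ≃+ Mon G')
    (h1 : ∀ c, IsLp G c → ∃ c', IsLp G' c' ∧ ∃ (b : Mon G') (n : ℕ), t (mv c) = mv c' + b ∧
      Le b (n • t (wm hG c)))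
    (h2 : ∀ c, IsLp G' c → ∃ c', IsLp G c' ∧ ∃ (a : Mon G) (n : ℕ), t.symm (mv c) = mv c' + a ∧
      Le a (n • t.symm (wm hG' c))) :
    Nonempty (MD hG hG' t) := by
  classical
  have hne : ∀ {G G' : Gph} (_ : LG G) (_ : LG G') (t : Mon G ≃+ Mon G'), Nonempty G.V →
      Nonempty G'.V := by
    rintro G G' hG hG' t ⟨v⟩
    by_contra h
    rw [not_nonempty_iff] at h
    have h0 : t (mv v) = 0 := by
      obtain ⟨a, ha⟩ := mk_surj (t (mv v))
      have : a = 0 := Subsingleton.elim _ _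
      rw [← ha, this, map_zero]
    exact mv_ne_zero hG v (t.injective (by rw [h0, map_zero]))
  by_cases hV : Nonempty G.V
  swap
  · have hV' : ¬ Nonempty G'.V := fun h => hV (hne hG' hG t.symm h)
    exact ⟨{
      f := fun c => (hV ⟨c⟩).elim
      g := fun c => (hV' ⟨c⟩).elim
      f_lp := fun c => (hV ⟨c⟩).elim
      g_lp := fun c => (hV' ⟨c⟩).elim
      gf := fun c => (hV ⟨c⟩).elim
      fg := fun c => (hV' ⟨c⟩).elim
      h1 := fun c => (hV ⟨c⟩).elim
      h2 := fun c => (hV' ⟨c⟩).elim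
      h3 := fun c => (hV ⟨c⟩).elim }⟩
  have hV' : Nonempty G'.V := hne hG hG' t hV
  choose! f hf b n hb hb' using h1
  choose! g hg a m ha ha' using h2
  have hgf : ∀ c, IsLp G c → g (f c) = c ∧ t (wm hG c) = wm hG' (f c) ∧
      ∃ k : ℕ, Le (b c) (k • wm hG' (f c)) := fun c hc =>
    match_core hG hG' t hc (hf c hc) (hb c hc) (hb' c hc) (hg _ (hf c hc)) (ha _ (hf c hc))
      (ha' _ (hf c hc))
  have hfg : ∀ c, IsLp G' c → f (g c) = c ∧ t.symm (wm hG' c) = wm hG (g c) ∧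
      ∃ k : ℕ, Le (a c) (k • wm hG (g c)) := by
    intro c hc
    have h3 := match_core hG' hG t.symm hc (hg c hc) (ha c hc) (ha' c hc) (hf _ (hg c hc))
      (b := a c) (a := b (g c)) (m := n (g c)) (by simpa using hb _ (hg c hc))
      (by simpa using hb' _ (hg c hc))
    exact h3
  exact ⟨{
    f := f
    g := g
    f_lp := hf
    g_lp := hg
    gf := fun c hc => (hgf c hc).1
    fg := fun c hc => (hfg c hc).1
    h1 := fun c hc => by
      obtain ⟨k, hk⟩ := (hgf c hc).2.2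
      exact ⟨b c, k, hb c hc, hk⟩
    h2 := fun c hc => by
      obtain ⟨k, hk⟩ := (hfg c hc).2.2
      exact ⟨a c, k, ha c hc, hk⟩
    h3 := fun c hc => (hgf c hc).2.1 }⟩

end DC29
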