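import Pool.Agent.LibDC29.D3
import Pool.Agent.LibDC29.Match

/-!
# The matching of the loop vertices (4.1 of the page)
-/

namespace DC29

open LPA74 Finsupp LaurentPolynomial

theorem pl_T_one {G : Gph} {x σ : LA G} (h : σ * x = σ) : pl x σ (T 1) = σ := by
  have h1 : (T 1 : LaurentPolynomial ℂ).coeff = single 1 1 := AddMonoidAlgebra.coeff_single _ _
  rw [pl, h1, sum_single_index (h := fun n l => l • pz x σ n) (zero_smul _ _), one_smul]
  exact h

theorem pl_one {G : Gph} {x σ : LA G} : pl x σ 1 = x := by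
  have h1 : (1 : LaurentPolynomial ℂ).coeff = single 0 1 := AddMonoidAlgebra.coeff_single _ _
  rw [pl, h1, sum_single_index (h := fun n l => l • pz x σ n) (zero_smul _ _), one_smul]
  rfl

theorem exists_41 {E F : Gph} (s : Setup E) (s' : Setup F) (θ : LA E ≃+* LA F)
    (t : Mon s.G ≃+ Mon s'.G) (ht : ∀ x m, Cl (s.io x) m → Cl (s'.io (θ x)) (t m))
    (c : s.G.V) (hc : IsLp s.G c) :
    ∃ c', IsLp s'.G c' ∧ ∃ (b : Mon s'.G) (n : ℕ), t (mv c) = mv c' + b ∧
      Le b (n • t (wm s.ng.toLG c)) := by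
  classical
  obtain ⟨f, hfc, hfr⟩ := hc
  have hf : s.G.r f = s.G.s f := by rw [hfc, hfr]
  subst hfc
  have hc : IsLp s.G (s.G.s f) := ⟨f, rfl, hf⟩
  have I := Isom.loop hf
  obtain ⟨x0, hx0⟩ : ∃ x0 : LA E, s.io x0 = vx (s.G.s f) :=
    (s.rng _).2 (InCor.vx (s.lp _ hc))
  obtain ⟨σ0, hσ0⟩ : ∃ σ0 : LA E, s.io σ0 = ed f := s.sand ⟨x0, hx0⟩ ⟨x0, hx0⟩ I.xs I.sx
  set w := wm s.ng.toLG (s.G.s f) with hw
  set X := s'.io (θ x0) with hX
  set S := s'.io (θ σ0) with hS
  have hx0i : x0 * x0 = x0 := s.inj (by rw [map_mul, hx0]; exact I.pj.1)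
  have hxs0 : x0 * σ0 = σ0 := s.inj (by rw [map_mul, hx0, hσ0]; exact I.xs)
  have hsx0 : σ0 * x0 = σ0 := s.inj (by rw [map_mul, hx0, hσ0]; exact I.sx)
  have hXX : X * X = X := by rw [hX, ← map_mul, ← map_mul, hx0i]
  have hXS : X * S = S := by rw [hX, hS, ← map_mul, ← map_mul, hxs0]
  have hSX : S * X = S := by rw [hX, hS, ← map_mul, ← map_mul, hsx0]
  obtain ⟨n, a, y, z, h1, h2, h3, h4, h5⟩ := exists_cl s'.ng hXX {S}
  have hxc : Cl (s.io x0) (mv (s.G.s f)) := by rw [hx0]; exact (SCl.vx _).cl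
  have hsum : t (mv (s.G.s f)) = ∑ i, mv (a i) :=
    Cl.uniq s'.ng (ht _ _ hxc) ⟨n, a, y, z, h1, h2, h3, h4, rfl⟩
  -- one of the vertices is not small
  have hex : ∃ i0, ∀ k : ℕ, ¬ Le (mv (a i0)) (k • t w) := by
    by_contra hcon
    push Not at hcon
    choose k hk using hcon
    have h6 : Le (t (mv (s.G.s f))) ((∑ i, k i) • t w) := by
      rw [hsum, Finset.sum_smul]
      exact Le.sum' _ fun i _ => hk i
    have h7 := h6.map' t.symm
    rw [map_nsmul, t.symm_apply_apply, t.symm_apply_apply] at h7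
    exact M2' s.ng.toLG hc _ h7
  obtain ⟨i0, hi0⟩ := hex
  have hsum2 : t (mv (s.G.s f)) = mv (a i0) + ∑ i ∈ Finset.univ.erase i0, mv (a i) := by
    rw [hsum, ← Finset.add_sum_erase _ _ (Finset.mem_univ i0)]
  set b := ∑ i ∈ Finset.univ.erase i0, (mv (a i) : Mon s'.G) with hb
  have hbk : ∃ k : ℕ, Le (t.symm b) (k • w) := by
    have h6 : mv (s.G.s f) + 0 = t.symm (mv (a i0)) + t.symm b + 0 := by
      rw [add_zero, add_zero, ← map_add, ← hsum2, t.symm_apply_apply]
    obtain ⟨k, h7 | h7⟩ := M2 s.ng.toLG hc (n := 0) (n' := 0) (Le.zero' _) (Le.zero' _) h6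
    · exfalso
      have h8 := h7.map' t
      rw [map_nsmul, t.apply_symm_apply] at h8
      exact hi0 k h8
    · exact ⟨k, h7⟩
  obtain ⟨k, hk⟩ := hbk
  have hk' : Le b (k • t w) := by
    have h8 := hk.map' t
    rwa [map_nsmul, t.apply_symm_apply] at h8
  by_cases hl : IsLp s'.G (a i0)
  · exact ⟨a i0, hl, b, k, hsum2, hk'⟩
  exfalso
  obtain ⟨l, hl⟩ : ∃ l : ℂ, z i0 * S * y i0 = l • vx (a i0) :=
    (h5 i0).resolve_left hl S (Finset.mem_singleton_self S)
  -- the two parts of `X`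
  set P := y i0 * z i0 with hP
  set Q := ∑ i ∈ Finset.univ.erase i0, y i * z i with hQ
  have hXPQ : X = P + Q := by rw [h1, hP, hQ, ← Finset.add_sum_erase _ _ (Finset.mem_univ i0)]
  have hyz : ∀ i j, (y i * z i) * (y j * z j) = if i = j then y i * z i else 0 := by
    intro i j
    rw [← mul_assoc, mul_assoc (y i), h2 i j]
    split_ifs with h
    · subst h; rw [h3]
    · rw [mul_zero, zero_mul]
  have hPP : P * P = P := by rw [hP, hyz, if_pos rfl]
  have hPQ : P * Q = 0 := by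
    rw [hP, hQ, Finset.mul_sum]
    refine Finset.sum_eq_zero fun i hi => ?_
    rw [hyz, if_neg (Finset.ne_of_mem_erase hi).symm]
  have hQP : Q * P = 0 := by
    rw [hP, hQ, Finset.sum_mul]
    refine Finset.sum_eq_zero fun i hi => ?_
    rw [hyz, if_neg (Finset.ne_of_mem_erase hi)]
  have hXP : X * P = P := by rw [hXPQ, add_mul, hPP, hQP, add_zero]
  have hQe : Q = X - P := by rw [hXPQ, add_sub_cancel_left]
  have hPX : P * X = P := by rw [hXPQ, mul_add, hPP, hPQ, add_zero]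
  have hXQ : X * Q = Q := by rw [hQe, mul_sub, hXX, hXP]
  have hQX : Q * X = Q := by rw [hQe, sub_mul, hXX, hPX]
  have hQQ : Q * Q = Q := by
    have h6 : (X - P) * Q = Q := by rw [sub_mul, hXQ, hPQ, sub_zero]
    rwa [← hQe] at h6
  have hQcl : Cl Q b := by
    refine Cl.sum _ _ _ (fun i _ => (SCl.vx (a i)).cl.of_eqv ?_) fun i _ j _ hne => ?_
    · refine ⟨y i, z i, rfl, ?_, ?_, ?_⟩
      · rw [h2, if_pos rfl]
      · rw [mul_assoc, h2, if_pos rfl, h3]
      · rw [h2, if_pos rfl, h4]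
    · rw [hyz, if_neg hne]
  have hPSP : P * S * P = l • P := by
    calc P * S * P = y i0 * (z i0 * S * y i0) * z i0 := by rw [hP]; simp only [mul_assoc]
      _ = l • P := by rw [hl, mul_smul_comm, h3, smul_mul_assoc]
  have hSeq : S = l • X - Q * (l • X) + (X - Q) * S * Q + Q * S * X := by
    have h6 : X - Q = P := by rw [hXPQ, add_sub_cancel_right]
    have h7 : l • X - Q * (l • X) = l • P := by
      rw [mul_smul_comm, hQX, ← smul_sub, h6]
    rw [h7, h6, ← hPSP]
    calc S = X * S * X := by rw [hXS, hSX]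
      _ = (P + Q) * S * (P + Q) := by rw [← hXPQ]
      _ = P * S * P + P * S * Q + Q * S * (P + Q) := by
          rw [add_mul, add_mul, mul_add (P * S), add_assoc]
      _ = P * S * P + P * S * Q + Q * S * X := by rw [← hXPQ]
  -- pull back
  obtain ⟨q1, hq1⟩ := s'.sand ⟨θ x0, rfl⟩ ⟨θ x0, rfl⟩ (z := Q) hXQ hQX
  have hθS : θ σ0 = l • θ x0 - q1 * (l • θ x0) + (θ x0 - q1) * θ σ0 * q1 + q1 * θ σ0 * θ x0 := by
    apply s'.inj
    simp only [map_add, map_sub, map_mul, map_smul, hq1]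
    exact hSeq
  let μ : ℂ → LA s.G := fun l => s.io (θ.symm (l • θ x0))
  set g := s.io (θ.symm q1) with hg
  have hθg : s'.io (θ (θ.symm q1)) = Q := by rw [θ.apply_symm_apply, hq1]
  have hef : (ed f : LA s.G) = μ l - g * μ l + (vx (s.G.s f) - g) * ed f * g +
      g * ed f * vx (s.G.s f) := by
    have h6 := congrArg (fun x => s.io (θ.symm x)) hθS
    simp only [map_add, map_sub, map_mul, θ.symm_apply_apply, hx0, hσ0] at h6
    exact h6
  have hq1x : q1 * θ x0 = q1 := s'.inj (by rw [map_mul, hq1]; exact hQX)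
  have hxq1 : θ x0 * q1 = q1 := s'.inj (by rw [map_mul, hq1]; exact hXQ)
  have hq11 : q1 * q1 = q1 := s'.inj (by rw [map_mul, hq1]; exact hQQ)
  have hgg : g * g = g := by rw [hg, ← map_mul, ← map_mul, hq11]
  have hcg : vx (s.G.s f) * g = g := by
    rw [hg, ← hx0, ← map_mul]
    conv_lhs => rw [← θ.symm_apply_apply x0, ← map_mul, hxq1]
  have hgc : g * vx (s.G.s f) = g := by
    rw [hg, ← hx0, ← map_mul]
    conv_lhs => rw [← θ.symm_apply_apply x0, ← map_mul, hq1x]
  have hμa : ∀ a b, μ (a + b) = μ a + μ b := fun a b => by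
    simp only [μ, add_smul, map_add]
  have hμm : ∀ a b, μ (a * b) = μ a * μ b := fun a b => by
    simp only [μ]
    rw [← map_mul, ← map_mul, smul_mul_smul_comm, ← map_mul, hx0i]
  have hμ1 : μ 1 = vx (s.G.s f) := by
    simp only [μ]
    rw [one_smul, θ.symm_apply_apply, hx0]
  have hcμ : ∀ a, vx (s.G.s f) * μ a = μ a := fun a => by rw [← hμ1, ← hμm, one_mul]
  have hμc : ∀ a, μ a * vx (s.G.s f) = μ a := fun a => by rw [← hμ1, ← hμm, mul_one]
  -- the class of `g`
  obtain ⟨m, hm⟩ := exists_class s.ng hgg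
  have hm' : t m = b := by
    have h6 := ht _ _ hm
    rw [hθg] at h6
    exact Cl.uniq s'.ng h6 hQcl
  have hmk : Le m (k • w) := by
    rw [← t.symm_apply_apply m, hm']
    exact hk
  obtain ⟨π, π1, π2, π3, π4⟩ := SM3 s.ng hf
  have hI1 : vx (s.G.s f) * vx (s.G.s f) = (vx (s.G.s f) : LA s.G) := I.pj.1
  have hpc : π (vx (s.G.s f)) = 1 := by
    have := π3 1
    rwa [pl_one] at this
  have hps : π (ed f) = T 1 := by
    have := π3 (T 1)
    rwa [pl_T_one I.sx] at this
  have πsub : ∀ x y, π (x - y) = π x - π y := fun x y => by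
    have := π1 (x - y) y
    rw [sub_add_cancel] at this
    rw [this, add_sub_cancel_right]
  have cor : ∀ {x : LA s.G}, vx (s.G.s f) * x = x → x * vx (s.G.s f) = x →
      vx (s.G.s f) * x * vx (s.G.s f) = x := fun {x} h h' => by rw [h, h']
  have hcc := cor hI1 hI1
  have hcg' := cor hcg hgc
  have hcs' := cor I.xs I.sx
  have hcμ' := fun a => cor (hcμ a) (hμc a)
  have hpg : π g * π g = π g := by rw [← π2 _ _ hcg' hcg', hgg]
  have hdom : π g = 0 ∨ π g = 1 := by
    have h6 : π g * (π g - 1) = 0 := by rw [mul_sub, hpg, mul_one, sub_self]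
    rcases mul_eq_zero.1 h6 with h6 | h6
    · exact .inl h6
    · exact .inr (sub_eq_zero.1 h6)
  rcases hdom with hpg0 | hpg1
  · -- `T` is the image of `l`
    have h6 : π ((vx (s.G.s f) - g) * ed f * g) = 0 := by
      rw [π2 _ _ ?_ hcg', hpg0, mul_zero]
      refine cor ?_ ?_
      · rw [← mul_assoc, mul_sub, hI1, hcg]
      · rw [mul_assoc, I.sx]
    have h7 : π (g * ed f * vx (s.G.s f)) = 0 := by
      rw [mul_assoc, π2 _ _ hcg' ?_, hpg0, zero_mul]
      refine cor ?_ ?_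
      · rw [← mul_assoc, I.xs]
      · rw [mul_assoc, hI1]
    have h8 : π (μ l) = T 1 := by
      rw [← hps]
      conv_rhs => rw [hef]
      rw [π1, π1, πsub, h6, h7, π2 _ _ hcg' (hcμ' l), hpg0, zero_mul, sub_zero, add_zero,
        add_zero]
    exact no_hom (fun a => π (μ a)) (fun a b => by rw [hμa, π1])
      (fun a b => by rw [hμm, π2 _ _ (hcμ' a) (hcμ' b)]) (by rw [hμ1, hpc]) l h8
  · -- `vx c - g` is small
    set q := vx (s.G.s f) - g with hq
    have hq0 : π q = 0 := by rw [hq, πsub, hpc, hpg1, sub_self]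
    have hcq : vx (s.G.s f) * q = q := by rw [hq, mul_sub, hI1, hcg]
    have hqc : q * vx (s.G.s f) = q := by rw [hq, sub_mul, hI1, hgc]
    have hgq : g * q = 0 := by rw [hq, mul_sub, hgc, hgg, sub_self]
    have hqg : q * g = 0 := by rw [hq, sub_mul, hcg, hgg, sub_self]
    have hqq : q * q = q := by
      have h6 : (vx (s.G.s f) - g) * q = q := by rw [sub_mul, hcq, hgq, sub_zero]
      rwa [← hq] at h6
    obtain ⟨N, h6, h7⟩ := π4 q (cor hcq hqc) hq0
    obtain ⟨m2, hm2, hle⟩ := small_class s.ng hf hqq hcq hqc h6 h7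
    have h8 := hm.add hm2 hgq hqg
    rw [hq, add_sub_cancel] at h8
    have h9 := Cl.uniq s.ng h8 (SCl.vx _).cl
    refine M2' s.ng.toLG hc (k + N) ?_
    rw [← h9]
    exact hmk.add_nsmul' hle

/-- **4.1 and 4.2**, the matching of the loop vertices. -/
theorem exists_MD {E F : Gph} (s : Setup E) (s' : Setup F) (θ : LA E ≃+* LA F)
    (t : Mon s.G ≃+ Mon s'.G) (ht : ∀ x m, Cl (s.io x) m → Cl (s'.io (θ x)) (t m)) :
    Nonempty (MD s.ng.toLG s'.ng.toLG t) := by
  refine MD_of s.ng.toLG s'.ng.toLG t (exists_41 s s' θ t ht) ?_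
  refine exists_41 s' s θ.symm t.symm fun x m hm => ?_
  have hi : θ.symm x * θ.symm x = θ.symm x := by
    rw [← map_mul]
    congr 1
    exact s'.inj (by rw [map_mul, hm.idem])
  obtain ⟨m0, hm0⟩ := exists_class s.ng (x := s.io (θ.symm x)) (by rw [← map_mul, hi])
  have h1 := ht _ _ hm0
  rw [θ.apply_symm_apply] at h1
  rw [← Cl.uniq s'.ng h1 hm, t.symm_apply_apply]
  exact hm0

end DC29
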