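import Pool.Agent.LibLPA74.Cyc
import Pool.Agent.LibLPA74.SEQ

/-!
# Graphs with disjoint cycles, normal graphs, the graph monoid, classes of idempotents
-/

namespace DC29

open LPA74 Finsupp

/-- `w` can be reached from `v` by a path. -/
abbrev Rch (G : Gph) (v w : G.V) : Prop := Relation.ReflTransGen G.Step v w

/-- Different cycles of `E` are disjoint: of the edges out of a vertex at most one lies on a
closed path (that is: has a path back from its range to its source). -/
def DisjointCycles (E : Gph) : Prop :=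
  ∀ e f : E.Ed, E.s e = E.s f → Rch E (E.r e) (E.s e) → Rch E (E.r f) (E.s f) → e = f

/-- there is a loop at `c`. -/
def IsLp (G : Gph) (c : G.V) : Prop := ∃ f, G.s f = c ∧ G.r f = c

/-- Row-finite graph whose only cycles are loops, with at most one loop at each vertex. -/
structure LG (G : Gph) : Prop where
  rf : ∀ v, {f | G.s f = v}.Finite
  cyc : ∀ v w, Rch G v w → Rch G w v → v = w
  one : ∀ f g, G.s f = G.r f → G.s g = G.s f → G.r g = G.s f → f = g

/-- `p` and `q` are `*`-equivalent projections. -/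
abbrev SEqv {A : Type} [NonUnitalRing A] [StarRing A] [Module ℂ A] [IsScalarTower ℂ A A]
    [SMulCommClass ℂ A A] [StarModule ℂ A] (p q : A) : Prop :=
  SEqvIn (⊤ : NonUnitalStarSubalgebra ℂ A) p q

/-- Normal graph: countable, `LG`, and every vertex has infinitely many copies without loop. -/
structure NG (G : Gph) : Prop extends LG G where
  cV : Countable G.V
  cE : Countable G.Ed
  room : ∀ (v : G.V) (S : Finset G.V), ∃ w, w ∉ S ∧ ¬ IsLp G w ∧ SEqv (vx w : LA G) (vx v)

/-! ## The graph monoid -/

/-- the relations `v = ∑ r(f)`, sum over the (finitely many, at least one) edges out of `v`. -/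
inductive MRel (G : Gph) : (G.V →₀ ℕ) → (G.V →₀ ℕ) → Prop
  | mk (v : G.V) (S : Finset G.Ed) (h0 : S.Nonempty) (h : ∀ f, f ∈ S ↔ G.s f = v) :
      MRel G (single v 1) (∑ f ∈ S, single (G.r f) 1)

/-- the graph monoid. -/
abbrev Mon (G : Gph) : Type := (addConGen (MRel G)).Quotient

/-- the class of a finite family of vertices. -/
noncomputable def mk (G : Gph) : (G.V →₀ ℕ) →+ Mon G := (addConGen (MRel G)).mk'

/-- the class of a vertex. -/
noncomputable def mv {G : Gph} (v : G.V) : Mon G := mk G (single v 1)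

/-- algebraic order. -/
def Le {G : Gph} (m n : Mon G) : Prop := ∃ z, m + z = n

open Classical in
/-- the exits of `c`: the edges out of `c` which are not loops. -/
noncomputable def exs {G : Gph} (hG : LG G) (c : G.V) : Finset G.Ed :=
  (hG.rf c).toFinset.filter fun f => G.r f ≠ c

/-- the class of `c` minus the loop: sum of the ranges of the exits of `c`. -/
noncomputable def wm {G : Gph} (hG : LG G) (c : G.V) : Mon G := ∑ f ∈ exs hG c, mv (G.r f)

/-- `x` is equivalent to the sum of the vertices of a family with class `m`. -/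
def Cl {G : Gph} (x : LA G) (m : Mon G) : Prop :=
  ∃ (n : ℕ) (a : Fin n → G.V) (y z : Fin n → LA G), x = ∑ i, y i * z i ∧
    (∀ i j, z i * y j = if i = j then vx (a i) else 0) ∧ (∀ i, y i * vx (a i) = y i) ∧
    (∀ i, vx (a i) * z i = z i) ∧ m = ∑ i, mv (a i)

/-- The projection `p` is the orthogonal sum of projections `*`-equivalent to the vertices of a
family with class `m`. -/
def SCl {G : Gph} (p : LA G) (m : Mon G) : Prop :=
  ∃ (n : ℕ) (a : Fin n → G.V) (u : Fin n → LA G), p = ∑ i, u i * star (u i) ∧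
    (∀ i j, star (u i) * u j = if i = j then vx (a i) else 0) ∧ (∀ i, u i * vx (a i) = u i) ∧
    m = ∑ i, mv (a i)

/-- the sum of a finite set of vertices. -/
noncomputable def eS {G : Gph} (S : Finset G.V) : LA G := ∑ v ∈ S, vx v

/-- `x` is in the corner of `L(G)` on the set of vertices `V0`. -/
def InCor {G : Gph} (V0 : Set G.V) (x : LA G) : Prop :=
  ∃ S : Finset G.V, (↑S : Set G.V) ⊆ V0 ∧ eS S * x = x ∧ x * eS S = x

/-! ## The reduction to normal graphs -/

/-- `L(E)` is the corner on `V0` of `L(G)`, `G` a normal graph. -/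
structure Setup (E : Gph) where
  G : Gph
  ng : NG G
  V0 : Set G.V
  io : LA E →⋆ₙₐ[ℂ] LA G
  inj : Function.Injective io
  rng : ∀ x, (∃ y, io y = x) ↔ InCor V0 x
  lp : ∀ c, IsLp G c → c ∈ V0
  full : ∀ v, ∃ p : LA E, SEqv (io p) (vx v)

/-- matching of the loop vertices of `G` and `G'` along an isomorphism `t` of the monoids. -/
structure MD {G G' : Gph} (hG : LG G) (hG' : LG G') (t : Mon G ≃+ Mon G') where
  f : G.V → G'.V
  g : G'.V → G.V
  f_lp : ∀ c, IsLp G c → IsLp G' (f c)
  g_lp : ∀ c, IsLp G' c → IsLp G (g c)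
  gf : ∀ c, IsLp G c → g (f c) = c
  fg : ∀ c, IsLp G' c → f (g c) = c
  h1 : ∀ c, IsLp G c → ∃ (b : Mon G') (n : ℕ), t (mv c) = mv (f c) + b ∧ Le b (n • wm hG' (f c))
  h2 : ∀ c, IsLp G' c → ∃ (a : Mon G) (n : ℕ), t.symm (mv c) = mv (g c) + a ∧
    Le a (n • wm hG (g c))
  h3 : ∀ c, IsLp G c → t (wm hG c) = wm hG' (f c)

end DC29
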