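import Pool.Agent.LibDC29.Defs2

/-! [DC E0] Statement of the loop step (proved in E9 from the rows E1-E8). -/

namespace DC29

open LPA74

/-- hypotheses of the loop step: `c = s f`, `f` loop of `G`, `f'` the corresponding loop of `G'`. -/
structure LSH {G G' : Gph} {hG : LG G} {hG' : LG G'} {t : Mon G ≃+ Mon G'}
    (M : MD hG hG' t) (Φ : LA G →⋆ₙₐ[ℂ] LA G') (Ψ : LA G' →⋆ₙₐ[ℂ] LA G) (f : G.Ed)
    (f' : G'.Ed) (B : Finset G'.V) (K : G.Ed → Finset G'.V) (η : G.V → LA G) : Prop where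
  hΦ : Gd M Φ
  hΨ : Gd M.symm Ψ
  hf : G.r f = G.s f
  hf' : G'.r f' = G'.s f'
  hff : G'.s f' = M.f (G.s f)
  hB : ∀ w ∈ B, w ∈ NR G' (G'.s f')
  hx : Φ (vx (G.s f)) = vx (G'.s f') + eS B
  hK : ∀ g ∈ exs hG (G.s f), Φ (vx (G.r g)) = eS (K g) ∧ ∀ w ∈ K g, w ∈ NR G' (G'.s f')
  hη : ∀ g ∈ exs hG (G.s f), star (η (G.r g)) * η (G.r g) = Ψ (Φ (vx (G.r g))) ∧
    η (G.r g) * star (η (G.r g)) = vx (G.r g) ∧ vx (G.r g) * η (G.r g) = η (G.r g)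

end DC29
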