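import Pool.Agent.LibDC29.B1

/-!
# Section 6: definitions.  2x2 matrices, the graph of an isometry with exits, representations of its corner
-/

namespace DC29

open LPA74

section units
variable {A : Type} [NonUnitalRing A]

/-- the 2x2 matrices over `A`. -/
abbrev M2x (A : Type) : Type := Matrix (Fin 2) (Fin 2) A

def e11 (z : A) : M2x A := !![z, 0; 0, 0]
def e12 (z : A) : M2x A := !![0, z; 0, 0]
def e21 (z : A) : M2x A := !![0, 0; z, 0]
def e22 (z : A) : M2x A := !![0, 0; 0, z]

theorem e11_mul_e11 (x y : A) : e11 x * e11 y = e11 (x * y) := by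
  ext i j; fin_cases i <;> fin_cases j <;> simp [e11, Matrix.mul_apply]
theorem e11_mul_e12 (x y : A) : e11 x * e12 y = e12 (x * y) := by
  ext i j; fin_cases i <;> fin_cases j <;> simp [e11, e12, Matrix.mul_apply]
theorem e11_mul_e21 (x y : A) : e11 x * e21 y = 0 := by
  ext i j; fin_cases i <;> fin_cases j <;> simp [e11, e21, Matrix.mul_apply]
theorem e11_mul_e22 (x y : A) : e11 x * e22 y = 0 := by
  ext i j; fin_cases i <;> fin_cases j <;> simp [e11, e22, Matrix.mul_apply]
theorem e12_mul_e11 (x y : A) : e12 x * e11 y = 0 := by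
  ext i j; fin_cases i <;> fin_cases j <;> simp [e11, e12, Matrix.mul_apply]
theorem e12_mul_e12 (x y : A) : e12 x * e12 y = 0 := by
  ext i j; fin_cases i <;> fin_cases j <;> simp [e12, Matrix.mul_apply]
theorem e12_mul_e21 (x y : A) : e12 x * e21 y = e11 (x * y) := by
  ext i j; fin_cases i <;> fin_cases j <;> simp [e11, e12, e21, Matrix.mul_apply]
theorem e12_mul_e22 (x y : A) : e12 x * e22 y = e12 (x * y) := by
  ext i j; fin_cases i <;> fin_cases j <;> simp [e12, e22, Matrix.mul_apply]
theorem e21_mul_e11 (x y : A) : e21 x * e11 y = e21 (x * y) := by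
  ext i j; fin_cases i <;> fin_cases j <;> simp [e11, e21, Matrix.mul_apply]
theorem e21_mul_e12 (x y : A) : e21 x * e12 y = e22 (x * y) := by
  ext i j; fin_cases i <;> fin_cases j <;> simp [e12, e21, e22, Matrix.mul_apply]
theorem e21_mul_e21 (x y : A) : e21 x * e21 y = 0 := by
  ext i j; fin_cases i <;> fin_cases j <;> simp [e21, Matrix.mul_apply]
theorem e21_mul_e22 (x y : A) : e21 x * e22 y = 0 := by
  ext i j; fin_cases i <;> fin_cases j <;> simp [e21, e22, Matrix.mul_apply]
theorem e22_mul_e11 (x y : A) : e22 x * e11 y = 0 := by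
  ext i j; fin_cases i <;> fin_cases j <;> simp [e11, e22, Matrix.mul_apply]
theorem e22_mul_e12 (x y : A) : e22 x * e12 y = 0 := by
  ext i j; fin_cases i <;> fin_cases j <;> simp [e12, e22, Matrix.mul_apply]
theorem e22_mul_e21 (x y : A) : e22 x * e21 y = e21 (x * y) := by
  ext i j; fin_cases i <;> fin_cases j <;> simp [e21, e22, Matrix.mul_apply]
theorem e22_mul_e22 (x y : A) : e22 x * e22 y = e22 (x * y) := by
  ext i j; fin_cases i <;> fin_cases j <;> simp [e22, Matrix.mul_apply]
theorem star_e11 [StarRing A] (x : A) : star (e11 x) = e11 (star x) := by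
  ext i j; fin_cases i <;> fin_cases j <;> simp [e11, Matrix.star_apply]
theorem star_e12 [StarRing A] (x : A) : star (e12 x) = e21 (star x) := by
  ext i j; fin_cases i <;> fin_cases j <;> simp [e12, e21, Matrix.star_apply]
theorem star_e21 [StarRing A] (x : A) : star (e21 x) = e12 (star x) := by
  ext i j; fin_cases i <;> fin_cases j <;> simp [e12, e21, Matrix.star_apply]
theorem star_e22 [StarRing A] (x : A) : star (e22 x) = e22 (star x) := by
  ext i j; fin_cases i <;> fin_cases j <;> simp [e22, Matrix.star_apply]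
theorem e11_add (x y : A) : e11 (x + y) = e11 x + e11 y := by
  ext i j; fin_cases i <;> fin_cases j <;> simp [e11]
theorem e12_add (x y : A) : e12 (x + y) = e12 x + e12 y := by
  ext i j; fin_cases i <;> fin_cases j <;> simp [e12]
theorem e21_add (x y : A) : e21 (x + y) = e21 x + e21 y := by
  ext i j; fin_cases i <;> fin_cases j <;> simp [e21]
theorem e22_add (x y : A) : e22 (x + y) = e22 x + e22 y := by
  ext i j; fin_cases i <;> fin_cases j <;> simp [e22]
theorem e11_zero : e11 (0 : A) = 0 := by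
  ext i j; fin_cases i <;> fin_cases j <;> simp [e11]
theorem e12_zero : e12 (0 : A) = 0 := by
  ext i j; fin_cases i <;> fin_cases j <;> simp [e12]
theorem e21_zero : e21 (0 : A) = 0 := by
  ext i j; fin_cases i <;> fin_cases j <;> simp [e21]
theorem e22_zero : e22 (0 : A) = 0 := by
  ext i j; fin_cases i <;> fin_cases j <;> simp [e22]
theorem e_eq (Z : M2x A) : Z = e11 (Z 0 0) + e12 (Z 0 1) + e21 (Z 1 0) + e22 (Z 1 1) := by
  ext i j; fin_cases i <;> fin_cases j <;> simp [e11, e12, e21, e22]
theorem e11_inj {x y : A} (h : e11 x = e11 y) : x = y := by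
  simpa [e11] using congrFun (congrFun h 0) 0
theorem e12_inj {x y : A} (h : e12 x = e12 y) : x = y := by
  simpa [e12] using congrFun (congrFun h 0) 1
theorem e21_inj {x y : A} (h : e21 x = e21 y) : x = y := by
  simpa [e21] using congrFun (congrFun h 1) 0
theorem e22_inj {x y : A} (h : e22 x = e22 y) : x = y := by
  simpa [e22] using congrFun (congrFun h 1) 1

variable [Module ℂ A]
theorem e11_smul (c : ℂ) (x : A) : e11 (c • x) = c • e11 x := by
  ext i j; fin_cases i <;> fin_cases j <;> simp [e11]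
theorem e12_smul (c : ℂ) (x : A) : e12 (c • x) = c • e12 x := by
  ext i j; fin_cases i <;> fin_cases j <;> simp [e12]
theorem e21_smul (c : ℂ) (x : A) : e21 (c • x) = c • e21 x := by
  ext i j; fin_cases i <;> fin_cases j <;> simp [e21]
theorem e22_smul (c : ℂ) (x : A) : e22 (c • x) = c • e22 x := by
  ext i j; fin_cases i <;> fin_cases j <;> simp [e22]

end units

/-- The graph `G` restricted to the hereditary set `H`, with a new vertex `none`, a loop `none` at it, and an
edge from it to `tg k` for each `k : κ`. -/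
def XG (G : Gph) (H : Set G.V) (hH : ∀ e, G.s e ∈ H → G.r e ∈ H) (κ : Type) (tg : κ → H) :
    Gph where
  V := Option H
  Ed := Option ({e : G.Ed // G.s e ∈ H} ⊕ κ)
  s := fun x => match x with
    | none => none
    | some (Sum.inl e) => some ⟨G.s e.1, e.2⟩
    | some (Sum.inr _) => none
  r := fun x => match x with
    | none => none
    | some (Sum.inl e) => some ⟨G.r e.1, hH e.1 e.2⟩
    | some (Sum.inr k) => some (tg k)

variable {G : Gph} {A : Type} [NonUnitalRing A] [StarRing A] [Module ℂ A] [IsScalarTower ℂ A A]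
  [SMulCommClass ℂ A A] [StarModule ℂ A]

open Classical in
/-- an isometry `τ` of `y` with exits `ν k`, relative to `Ψ : L(G) → A`. -/
structure Ext {H : Set G.V} (Ψ : LA G →⋆ₙₐ[ℂ] A) {κ : Type} [Fintype κ] (tg : κ → H) (y τ : A)
    (ν : κ → A) : Prop where
  isom : Isom y τ
  orth : ∀ k l, star (ν k) * ν l = if k = l then Ψ (vx (tg k).1) else 0
  nv : ∀ k, ν k * Ψ (vx (tg k).1) = ν k
  yn : ∀ k, y * ν k = ν k
  df : y - τ * star τ = ∑ k, ν k * star (ν k)

/-- `z ∈ x L(G) e_S`, `S ⊆ H`. -/
def XH (H : Set G.V) (x z : LA G) : Prop :=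
  x * z = z ∧ ∃ S : Finset G.V, (↑S : Set G.V) ⊆ H ∧ z * eS S = z

/-- `z ∈ x L(G) x`. -/
def XX (x z : LA G) : Prop := x * z = z ∧ z * x = z

/-- representations `w2` of `x L(G) x` and `w1` of `x L(G) H`, compatible with `Ψ`. -/
structure OM (H : Set G.V) (Ψ : LA G →⋆ₙₐ[ℂ] A) (x : LA G) (w1 w2 : LA G → A) : Prop where
  a1 : ∀ z z', XH H x z → XH H x z' → w1 (z + z') = w1 z + w1 z'
  s1 : ∀ (c : ℂ) z, XH H x z → w1 (c • z) = c • w1 z
  a2 : ∀ z z', XX x z → XX x z' → w2 (z + z') = w2 z + w2 z'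
  s2 : ∀ (c : ℂ) z, XX x z → w2 (c • z) = c • w2 z
  t2 : ∀ z, XX x z → w2 (star z) = star (w2 z)
  m22 : ∀ z z', XX x z → XX x z' → w2 (z * z') = w2 z * w2 z'
  m21 : ∀ z z', XX x z → XH H x z' → w1 (z * z') = w2 z * w1 z'
  m10 : ∀ z z', XH H x z → InCor H z' → w1 (z * z') = w1 z * Ψ z'
  m11 : ∀ z z', XH H x z → XH H x z' → star (w1 z) * w1 z' = Ψ (star z * z')
  n11 : ∀ z z', XH H x z → XH H x z' → w1 z * star (w1 z') = w2 (z * star z')

end DC29
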