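import Pool.Agent.LibDC29.E1
import Pool.Agent.LibDC29.A7

/-!
[DC E10] The new homomorphism `Ψ'` at the vertex `cv` and the intertwiner `ηc`, pure algebra from the structure `NW`.
`b = eS B`, `x = vx cv + b`, `vx cv * b = 0`, `ρ b = ρ vx cv b = 0`, `x * vx cv = vx cv`, `x * b = b`; `star ρ` is in `XX x`
(`x * star ρ = x * vx cv * star ρ = star ρ`), `b` is in `XH H x` and in `XX x`.  `κ0 = Ψ (vx cv) * κ0 * w2 (ρ star ρ)`.
* `exists_eta`: `ηc = w2 (star ρ) * star κ0 + w1 b`.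
  `star ηc * ηc`: `κ0 w2(ρ) w2(ρ*) κ0* = κ0 w2(ρρ*) κ0* = κ0 κ0* κ0 κ0* = Ψ (vx cv)`; `star (w1 b) * w1 b = Ψ b`; cross term
  `κ0 w2(ρ) w1 b = κ0 w1 (ρ b) = 0`.  `Ψ' x = Ψ' (vx cv) + Ψ' b = Ψ (vx cv) + Ψ b`.
  `ηc * star ηc`: `w2(ρ*) κ0* κ0 w2(ρ) = w2 (ρ* ρρ* ρ) = w2 (vx cv)`; `w1 b * star (w1 b) = w2 (b b*) = w2 b`; cross terms
  `star κ0 * star (w1 b) = star κ0 * Ψ (vx cv) * Ψ b * star (w1 b) = 0` (`w1 b = w1 (b b) = w1 b * Ψ b`, `m10`).
  `XH H x z`: `z = vx cv * z + b * z`, `Ψ' (vx cv z) = κ0 w1 (ρ z)` (`c1`), `Ψ' (b z) = Ψ (b z)` (`c0`):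
  `ηc Ψ' z = w2(ρ*) κ0* κ0 w1 (ρ z) + w1 b * Ψ (b z) = w1 (ρ* ρρ* ρ z) + w1 (b z) = w1 (vx cv z) + w1 (b z) = w1 z`
  (the products `star κ0 * Ψ (b z)` and `w1 b * Ψ' (vx cv z)` vanish: `κ0* = κ0* Ψ (vx cv)`, `w1 b = w1 b Ψ b`).
  `XX x z`: split `z` into `vx cv z vx cv`, `vx cv z b`, `b z vx cv`, `b z b`; `Ψ' (b z vx cv) = star (Ψ' (vx cv z* b)) =
  star (κ0 w1 (ρ z* b))`; the four terms of `ηc Ψ' z` are `w2 (vx cv z ρ*) κ0*`, `w1 (vx cv z b)`, `w2 (b z ρ*) κ0*`, `w1 (b z b)`;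
  sum `w2 (z ρ*) κ0* + w1 (z b) = w2 z * ηc`.
* `sh`: `ρ1 = star κ0`, `a1 = κ0 * w2 (pw x σ N)`, the same `N`.  `star a1 * a1 = w2 (star (pw N) ρρ* pw N) = w2 x` (`pw N = ρ a`, so
  `ρρ* pw N = pw N`).  `w2 σ * ρ1 = ρ1 * Ψ' (ed f')`: `Ψ' (ed f') = κ0 w2 (ρ ed f' ρ*) κ0*`, `ρ ed f' = σ ρ`, so the right side is
  `w2 (σ ρρ*) κ0* = w2 σ w2(ρρ*) κ0* = w2 σ κ0*`.  `Ψ' (ed f') * a1 = κ0 w2 (ρ ed f' ρ* pw N) = κ0 w2 (ρ ed f' a) = κ0 w2 (ρ a σ) =
  a1 * w2 σ`.  `ρ1 * a1 = w2 (ρρ* pw N) = w2 (pw N)` = `pw (w2 x) (w2 σ) N`; `a1 * ρ1 = κ0 w2 (pw N) κ0* = κ0 w2 (pw N ρ ρ*) κ0*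
  = κ0 w2 (ρ pw (vx cv) (ed f') N ρ*) κ0* = Ψ' (pw ..) = pw (Ψ' (vx cv)) (Ψ' (ed f')) N` (`pw_conj`, `c2`, `pw_map`).
  `w2 x - ρ1 star ρ1 = w2 (x - ρρ*)`, `Ψ' (vx cv) - a1 star a1 = κ0 w2 (ρ (vx cv - a a*) ρ*) κ0*`: the hypotheses `g1`, `g2`.
  The equation is first proved as `ShEq H' (w2 x) (w2 σ) (Ψ' (vx cv)) (Ψ' (ed f'))`, then `ShEq.symm`.
-/

namespace DC29

open LPA74

variable {G G' : Gph}

/-- data around the new homomorphism. -/
structure NW (H : Set G'.V) (Ψ Ψ' : LA G' →⋆ₙₐ[ℂ] LA G) (x : LA G') (cv : G'.V)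
    (w1 w2 : LA G' → LA G) (ρ : LA G') (κ0 : LA G) : Prop where
  om : OM H Ψ x w1 w2
  r1 : star ρ * ρ = vx cv
  r2 : x * ρ = ρ
  r3 : ρ * vx cv = ρ
  k1 : star κ0 * κ0 = w2 (ρ * star ρ)
  k2 : κ0 * star κ0 = Ψ (vx cv)
  k3 : κ0 * star κ0 * κ0 = κ0
  v : ∀ w, Ψ' (vx w) = Ψ (vx w)
  c0 : ∀ z, InCor H z → Ψ' z = Ψ z
  c1 : ∀ z, XH H (vx cv) z → Ψ' z = κ0 * w1 (ρ * z)
  c2 : ∀ z, XX (vx cv) z → Ψ' z = κ0 * w2 (ρ * z * star ρ) * star κ0

variable {H : Set G'.V} {Ψ Ψ' : LA G' →⋆ₙₐ[ℂ] LA G} {x σ : LA G'} {cv : G'.V}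
    {w1 w2 : LA G' → LA G} {ρ a : LA G'} {κ0 : LA G}

private theorem E10_xx_mul {x z z' : LA G'} (h : XX x z) (h' : XX x z') : XX x (z * z') :=
  ⟨by rw [← mul_assoc, h.1], by rw [mul_assoc, h'.2]⟩

private theorem E10_xx_star {x z : LA G'} (hx : star x = x) (h : XX x z) : XX x (star z) :=
  ⟨by have h1 := congrArg star h.2; rwa [star_mul, hx] at h1,
    by have h1 := congrArg star h.1; rwa [star_mul, hx] at h1⟩

private theorem E10_xx_add {x z z' : LA G'} (h : XX x z) (h' : XX x z') : XX x (z + z') :=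
  ⟨by rw [mul_add, h.1, h'.1], by rw [add_mul, h.2, h'.2]⟩

private theorem E10_xh_mul {x z z' : LA G'} (h : XX x z) (h' : XH H x z') : XH H x (z * z') :=
  ⟨by rw [← mul_assoc, h.1], h'.2.imp fun S hS => ⟨hS.1, by rw [mul_assoc, hS.2]⟩⟩

private theorem E10_w1_zero {Ψ : LA G' →⋆ₙₐ[ℂ] LA G} (h : OM H Ψ x w1 w2) : w1 0 = 0 := by
  have h1 : XH H x 0 := ⟨mul_zero _, ∅, by simp, zero_mul _⟩
  have h2 := h.s1 0 0 h1
  rwa [zero_smul, zero_smul] at h2

private theorem E10_w2_sub {Ψ : LA G' →⋆ₙₐ[ℂ] LA G} (h : OM H Ψ x w1 w2) {z z' : LA G'}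
    (hz : XX x z) (hz' : XX x z') : w2 (z - z') = w2 z - w2 z' := by
  have h1 : XX x ((-1 : ℂ) • z') :=
    ⟨by rw [mul_smul_comm, hz'.1], by rw [smul_mul_assoc, hz'.2]⟩
  have h2 := h.a2 z _ hz h1
  rw [h.s2 (-1) z' hz'] at h2
  rwa [neg_smul, one_smul, neg_smul, one_smul, ← sub_eq_add_neg, ← sub_eq_add_neg] at h2

/-- elementary consequences of the relations of `κ0`. -/
private theorem E10_k (h : NW H Ψ Ψ' x cv w1 w2 ρ κ0) : Ψ (vx cv) * κ0 = κ0 ∧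
    star κ0 * Ψ (vx cv) = star κ0 ∧ star κ0 * κ0 * star κ0 = star κ0 := by
  have h1 : Ψ (vx cv) * κ0 = κ0 := by rw [← h.k2, h.k3]
  have h3 : star κ0 * κ0 * star κ0 = star κ0 := by
    have h2 := congrArg star h.k3
    rwa [star_mul, star_mul, star_star, ← mul_assoc] at h2
  refine ⟨h1, ?_, h3⟩
  rw [← h.k2, ← mul_assoc, h3]

theorem NW.exists_eta (h : NW H Ψ Ψ' x cv w1 w2 ρ κ0) {B : Finset G'.V} (hB : ∀ w ∈ B, w ∈ H)
    (hcB : cv ∉ B) (hx : x = vx cv + eS B) : ∃ ηc, star ηc * ηc = Ψ' x ∧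
      ηc * star ηc = w2 x ∧ w2 x * ηc = ηc ∧ (∀ z, XH H x z → ηc * Ψ' z = w1 z) ∧
      ∀ z, XX x z → ηc * Ψ' z = w2 z * ηc := by
  classical
  obtain ⟨k5, k6, k33⟩ := E10_k h
  have hom := h.om
  have r1 := h.r1
  have r2 := h.r2
  have r3 := h.r3
  have k1 := h.k1
  have k2 := h.k2
  have hv := h.v cv
  have c1 := h.c1
  have c2 := h.c2
  obtain ⟨c, hc⟩ : ∃ c : LA G', c = vx cv := ⟨_, rfl⟩
  obtain ⟨b, hb⟩ : ∃ b : LA G', b = eS B := ⟨_, rfl⟩
  have cc : c * c = c := by rw [hc]; exact vx_mul_self cv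
  have cs : star c = c := by rw [hc]; exact star_vx cv
  have bb : b * b = b := by rw [hb]; exact (eS_pj B).1
  have bs : star b = b := by rw [hb]; exact (eS_pj B).2
  have cb : c * b = 0 := by
    have h1 : (eS {cv} : LA G') = vx cv := by unfold eS; rw [Finset.sum_singleton]
    rw [hc, hb, ← h1]
    exact eS_mul_of_disjoint (Finset.disjoint_singleton_left.2 hcB)
  have bc : b * c = 0 := by
    have h1 := congrArg star cb
    rwa [star_mul, star_zero, cs, bs] at h1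
  have hbS : b * eS B = b := by rw [← hb, bb]
  have hSb : eS B * b = b := by rw [← hb, bb]
  have hBH : (↑B : Set G'.V) ⊆ H := fun w hw => hB w hw
  rw [← hc] at r1 r3 k2 k5 k6 hv c1 c2
  rw [← hc, ← hb] at hx
  have xc : x * c = c := by rw [hx, add_mul, cc, bc, add_zero]
  have cx : c * x = c := by rw [hx, mul_add, cc, cb, add_zero]
  have xb : x * b = b := by rw [hx, add_mul, bb, cb, zero_add]
  have bx : b * x = b := by rw [hx, mul_add, bb, bc, zero_add]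
  have xx : x * x = x := by
    have h1 : x * x = x * c + x * b := by rw [← mul_add, ← hx]
    rw [h1, xc, xb, ← hx]
  have xs : star x = x := by rw [hx, star_add, cs, bs]
  have rb : ρ * b = 0 := by rw [← r3, mul_assoc, cb, mul_zero]
  have rx : ρ * x = ρ := by rw [hx, mul_add, r3, rb, add_zero]
  have Xρ : XX x ρ := ⟨r2, rx⟩
  have Xρs : XX x (star ρ) := E10_xx_star xs Xρ
  have Xc : XX x c := ⟨xc, cx⟩
  have Xb : XX x b := ⟨xb, bx⟩
  have Xx : XX x x := ⟨xx, xx⟩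
  have Xρρ : XX x (ρ * star ρ) := E10_xx_mul Xρ Xρs
  have Hb : XH H x b := ⟨xb, B, hBH, hbS⟩
  have Ib : InCor H b := ⟨B, hBH, hSb, hbS⟩
  have sr3 : c * star ρ = star ρ := by
    have h1 := congrArg star r3
    rwa [star_mul, cs] at h1
  have srb : b * star ρ = 0 := by rw [← sr3, ← mul_assoc, bc, zero_mul]
  -- relations of κ0 and w1 b
  have k7 : star κ0 * Ψ b = 0 := by rw [← k6, mul_assoc, ← map_mul, cb, map_zero, mul_zero]
  have k8 : Ψ b * κ0 = 0 := by rw [← k5, ← mul_assoc, ← map_mul, bc, map_zero, zero_mul]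
  have w1b : w1 b * Ψ b = w1 b := by rw [← hom.m10 b b Hb Ib, bb]
  have k9 : w1 b * κ0 = 0 := by rw [← w1b, mul_assoc, k8, mul_zero]
  have k10 : star κ0 * star (w1 b) = 0 := by
    rw [← star_mul, k9, star_zero]
  have w1z := E10_w1_zero hom
  -- the general products
  have q1 : ∀ z, XH H x z → w2 (star ρ) * star κ0 * (κ0 * w1 z) = w1 (star ρ * z) := by
    intro z hz
    have h1 : w2 (star ρ) * star κ0 * (κ0 * w1 z) =
        w2 (star ρ) * ((star κ0 * κ0) * w1 z) := by simp only [mul_assoc]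
    rw [h1, k1, ← hom.m21 _ _ Xρρ hz, ← hom.m21 _ _ Xρs (E10_xh_mul Xρρ hz)]
    congr 1
    calc star ρ * (ρ * star ρ * z) = star ρ * ρ * (star ρ * z) := by simp only [mul_assoc]
      _ = star ρ * z := by rw [r1, ← mul_assoc, sr3]
  have q2 : ∀ z, XX x z → w2 (star ρ) * star κ0 * (κ0 * w2 z) = w2 (star ρ * z) := by
    intro z hz
    have h1 : w2 (star ρ) * star κ0 * (κ0 * w2 z) =
        w2 (star ρ) * ((star κ0 * κ0) * w2 z) := by simp only [mul_assoc]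
    rw [h1, k1, ← hom.m22 _ _ Xρρ hz, ← hom.m22 _ _ Xρs (E10_xx_mul Xρρ hz)]
    congr 1
    calc star ρ * (ρ * star ρ * z) = star ρ * ρ * (star ρ * z) := by simp only [mul_assoc]
      _ = star ρ * z := by rw [r1, ← mul_assoc, sr3]
  obtain ⟨η, hη⟩ : ∃ η, η = w2 (star ρ) * star κ0 + w1 b := ⟨_, rfl⟩
  have w2s : star (w2 (star ρ)) = w2 ρ := by
    rw [← hom.t2 _ Xρs, star_star]
  have hηs : star η = κ0 * w2 ρ + star (w1 b) := by
    rw [hη, star_add, star_mul, star_star, w2s]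
  have t1 : κ0 * w2 ρ * w1 b = 0 := by
    rw [mul_assoc, ← hom.m21 _ _ Xρ Hb, rb, w1z, mul_zero]
  have t2 : star (w1 b) * (w2 (star ρ) * star κ0) = 0 := by
    have h1 := congrArg star t1
    rwa [star_mul, star_zero, star_mul, ← hom.t2 _ Xρ] at h1
  have Ψb : Ψ' b = Ψ b := h.c0 b Ib
  refine ⟨η, ?_, ?_, ?_, ?_, ?_⟩
  · rw [hηs]
    have h1 : (κ0 * w2 ρ + star (w1 b)) * η = κ0 * w2 ρ * (w2 (star ρ) * star κ0) +
        κ0 * w2 ρ * w1 b + (star (w1 b) * (w2 (star ρ) * star κ0) + star (w1 b) * w1 b) := by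
      rw [hη, mul_add, add_mul, add_mul]
      abel
    have h2 : κ0 * w2 ρ * (w2 (star ρ) * star κ0) = Ψ c := by
      have h3 : κ0 * w2 ρ * (w2 (star ρ) * star κ0) =
        κ0 * (w2 ρ * w2 (star ρ)) * star κ0 := by simp only [mul_assoc]
      rw [h3, ← hom.m22 _ _ Xρ Xρs, ← k1]
      have h4 : κ0 * (star κ0 * κ0) * star κ0 = κ0 * (star κ0 * κ0 * star κ0) := by
        simp only [mul_assoc]
      rw [h4, k33, k2]
    have h5 : star (w1 b) * w1 b = Ψ b := by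
      rw [hom.m11 _ _ Hb Hb, bs, bb]
    rw [h1, t1, t2, h2, h5, add_zero, zero_add, hx, map_add, hv, Ψb]
  · have h1 : η * star η = w2 (star ρ) * star κ0 * (κ0 * w2 ρ) +
        w2 (star ρ) * (star κ0 * star (w1 b)) + (w1 b * κ0 * w2 ρ + w1 b * star (w1 b)) := by
      rw [hηs, hη, mul_add, add_mul, add_mul]
      simp only [mul_assoc]
      abel
    rw [h1, k10, k9, mul_zero, zero_mul, add_zero, zero_add, q2 _ Xρ, r1, hom.n11 _ _ Hb Hb, bs, bb,
      ← hom.a2 _ _ Xc Xb, ← hx]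
  · rw [hη, mul_add, ← mul_assoc, ← hom.m22 _ _ Xx Xρs, Xρs.1, ← hom.m21 _ _ Xx Hb, xb]
  · intro z hz
    obtain ⟨S, hS, hzS⟩ := hz.2
    have hcz : XH H c (c * z) := ⟨by rw [← mul_assoc, cc], S, hS, by rw [mul_assoc, hzS]⟩
    have Hcz : XH H x (c * z) := E10_xh_mul Xc hz
    have Hbz : XH H x (b * z) := E10_xh_mul Xb hz
    have Hρz : XH H x (ρ * z) := E10_xh_mul Xρ hz
    have Ibz : InCor H (b * z) := InCor.of_two (S := B) (T := S) hBH hS
      (by rw [← mul_assoc, hSb]) (by rw [mul_assoc, hzS])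
    have e1 : z = c * z + b * z := by rw [← add_mul, ← hx, hz.1]
    have e2 : Ψ' (c * z) = κ0 * w1 (ρ * z) := by
      rw [c1 _ hcz, ← mul_assoc ρ, r3]
    have e3 : Ψ' (b * z) = Ψ (b * z) := h.c0 _ Ibz
    have e4 : η * Ψ' z = w2 (star ρ) * star κ0 * (κ0 * w1 (ρ * z)) +
        w2 (star ρ) * (star κ0 * Ψ b) * Ψ z + (w1 b * κ0 * w1 (ρ * z) + w1 b * Ψ (b * z)) := by
      conv_lhs => rw [e1]
      rw [map_add, e2, e3, hη, mul_add, add_mul, add_mul, map_mul]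
      simp only [mul_assoc]
      abel
    have e5 : star ρ * (ρ * z) = c * z := by rw [← mul_assoc, r1]
    have e6 : b * (b * z) = b * z := by rw [← mul_assoc, bb]
    rw [e4, k7, k9, mul_zero, zero_mul, zero_mul, add_zero, zero_add, q1 _ Hρz, e5,
      ← hom.m10 _ _ Hb Ibz, e6, ← hom.a1 _ _ Hcz Hbz, ← e1]
  · intro z hz
    have Xzs : XX x (star z) := E10_xx_star xs hz
    -- the four parts of z
    have e1 : z = c * z * c + c * z * b + (b * z * c + b * z * b) := by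
      rw [← mul_add, ← mul_add, ← hx, ← add_mul, ← add_mul, ← hx, hz.1, hz.2]
    have hcc : XX c (c * z * c) := ⟨by simp only [← mul_assoc, cc], by rw [mul_assoc, cc]⟩
    have Hzb : XH H x (z * b) := ⟨by rw [← mul_assoc, hz.1], B, hBH, by rw [mul_assoc, hbS]⟩
    have Hzsb : XH H x (star z * b) :=
      ⟨by rw [← mul_assoc, Xzs.1], B, hBH, by rw [mul_assoc, hbS]⟩
    have hcb : XH H c (c * (z * b)) := ⟨by rw [← mul_assoc, cc], B, hBH, by
      rw [mul_assoc, mul_assoc, hbS]⟩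
    have hcsb : XH H c (c * (star z * b)) := ⟨by rw [← mul_assoc, cc], B, hBH, by
      rw [mul_assoc, mul_assoc, hbS]⟩
    have Ibzb : InCor H (b * z * b) := ⟨B, hBH, by rw [← mul_assoc, ← mul_assoc, hSb], by
      rw [mul_assoc, hbS]⟩
    have Xzr : XX x (z * star ρ) := E10_xx_mul hz Xρs
    have Xczr : XX x (c * (z * star ρ)) := E10_xx_mul Xc Xzr
    have Xbzr : XX x (b * (z * star ρ)) := E10_xx_mul Xb Xzr
    have p1 : Ψ' (c * z * c) = κ0 * w2 (ρ * (z * star ρ)) * star κ0 := by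
      rw [c2 _ hcc]
      congr 3
      calc ρ * (c * z * c) * star ρ = ρ * c * (z * (c * star ρ)) := by simp only [mul_assoc]
        _ = ρ * (z * star ρ) := by rw [r3, sr3]
    have p2 : Ψ' (c * z * b) = κ0 * w1 (ρ * (z * b)) := by
      rw [mul_assoc, c1 _ hcb, ← mul_assoc ρ, r3]
    have p3 : Ψ' (b * z * c) = star (w1 (ρ * (star z * b))) * star κ0 := by
      have h1 : Ψ' (c * (star z * b)) = κ0 * w1 (ρ * (star z * b)) := by
        rw [c1 _ hcsb, ← mul_assoc ρ, r3]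
      have h2 := congrArg star h1
      rw [star_mul, ← map_star, star_mul, star_mul, star_star, cs, bs] at h2
      exact h2
    have p4 : Ψ' (b * z * b) = Ψ (b * z * b) := h.c0 _ Ibzb
    have Hρzb : XH H x (ρ * (z * b)) := E10_xh_mul Xρ Hzb
    have Hρzsb : XH H x (ρ * (star z * b)) := E10_xh_mul Xρ Hzsb
    have Hczb : XH H x (c * (z * b)) := E10_xh_mul Xc Hzb
    have Hbzb : XH H x (b * (z * b)) := E10_xh_mul Xb Hzb
    -- the products
    have s1 : η * Ψ' (c * z * c) = w2 (c * (z * star ρ)) * star κ0 := by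
      have h1 : η * Ψ' (c * z * c) =
          w2 (star ρ) * star κ0 * (κ0 * w2 (ρ * (z * star ρ))) * star κ0 +
          w1 b * κ0 * (w2 (ρ * (z * star ρ)) * star κ0) := by
        rw [p1, hη, add_mul]
        simp only [mul_assoc]
      have h2 : star ρ * (ρ * (z * star ρ)) = c * (z * star ρ) := by rw [← mul_assoc, r1]
      rw [h1, k9, zero_mul, add_zero, q2 _ (E10_xx_mul Xρ Xzr), h2]
    have s2 : η * Ψ' (c * z * b) = w1 (c * (z * b)) := by
      have h1 : η * Ψ' (c * z * b) =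
          w2 (star ρ) * star κ0 * (κ0 * w1 (ρ * (z * b))) + w1 b * κ0 * w1 (ρ * (z * b)) := by
        rw [p2, hη, add_mul]
        simp only [mul_assoc]
      have h2 : star ρ * (ρ * (z * b)) = c * (z * b) := by rw [← mul_assoc, r1]
      rw [h1, k9, zero_mul, add_zero, q1 _ Hρzb, h2]
    have s3 : η * Ψ' (b * z * c) = w2 (b * (z * star ρ)) * star κ0 := by
      have h1 : w1 (ρ * (star z * b)) * Ψ b = w1 (ρ * (star z * b)) := by
        rw [← hom.m10 _ _ Hρzsb Ib]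
        congr 1
        simp only [mul_assoc, bb]
      have h2 : star κ0 * star (w1 (ρ * (star z * b))) = 0 := by
        rw [← h1, star_mul, ← mul_assoc, ← map_star, bs, k7, zero_mul]
      have h3 : η * Ψ' (b * z * c) =
          w2 (star ρ) * (star κ0 * star (w1 (ρ * (star z * b)))) * star κ0 +
          w1 b * star (w1 (ρ * (star z * b))) * star κ0 := by
        rw [p3, hη, add_mul]
        simp only [mul_assoc]
      have h4 : b * star (ρ * (star z * b)) = b * (z * star ρ) := by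
        rw [star_mul, star_mul, star_star, bs]
        calc b * (b * z * star ρ) = b * b * (z * star ρ) := by simp only [mul_assoc]
          _ = b * (z * star ρ) := by rw [bb]
      rw [h3, h2, mul_zero, zero_mul, zero_add, hom.n11 _ _ Hb Hρzsb, h4]
    have s4 : η * Ψ' (b * z * b) = w1 (b * (z * b)) := by
      have h1 : η * Ψ' (b * z * b) =
          w2 (star ρ) * (star κ0 * Ψ b) * Ψ (z * b) + w1 b * Ψ (b * z * b) := by
        rw [p4, hη, add_mul]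
        congr 1
        rw [mul_assoc b, map_mul]
        simp only [mul_assoc]
      have h2 : b * (b * z * b) = b * (z * b) := by
        calc b * (b * z * b) = b * b * (z * b) := by simp only [mul_assoc]
          _ = b * (z * b) := by rw [bb]
      rw [h1, k7, mul_zero, zero_mul, zero_add, ← hom.m10 _ _ Hb Ibzb, h2]
    have e5 : c * (z * star ρ) + b * (z * star ρ) = z * star ρ := by
      rw [← add_mul, ← hx, ← mul_assoc, hz.1]
    have e6 : c * (z * b) + b * (z * b) = z * b := by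
      rw [← add_mul, ← hx, ← mul_assoc, hz.1]
    have e7 : η * Ψ' z = w2 (z * star ρ) * star κ0 + w1 (z * b) := by
      have h1 : η * Ψ' z = (w2 (c * (z * star ρ)) + w2 (b * (z * star ρ))) * star κ0 +
          (w1 (c * (z * b)) + w1 (b * (z * b))) := by
        conv_lhs => rw [e1]
        rw [map_add, map_add, map_add, mul_add, mul_add, mul_add, s1, s2, s3, s4, add_mul]
        abel
      rw [h1, ← hom.a2 _ _ Xczr Xbzr, ← hom.a1 _ _ Hczb Hbzb, e5, e6]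
    rw [e7, hη, mul_add, hom.m22 _ _ hz Xρs, hom.m21 _ _ hz Hb, mul_assoc]

theorem NW.sh (h : NW H Ψ Ψ' x cv w1 w2 ρ κ0) (hx : Isom x σ) {f' : G'.Ed}
    (hf' : G'.s f' = cv ∧ G'.r f' = cv) {N : ℕ} (ha : star a * a = x ∧ vx cv * a = a ∧ a * x = a)
    (h1 : σ * ρ = ρ * ed f') (h2 : ed f' * a = a * σ) (h3 : ρ * a = pw x σ N)
    (h4 : a * ρ = pw (vx cv) (ed f') N) {H' : Set G.V} (g1 : HCl H' (w2 (x - ρ * star ρ)))
    (g2 : HCl H' (κ0 * w2 (ρ * (vx cv - a * star a) * star ρ) * star κ0)) :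
    ShEq H' (Ψ' (vx cv)) (Ψ' (ed f')) (w2 x) (w2 σ) := by
  obtain ⟨k5, k6, k33⟩ := E10_k h
  have hom := h.om
  have xs : star x = x := hx.pj.2
  have xx : x * x = x := hx.pj.1
  have Xσ : XX x σ := ⟨hx.xs, hx.sx⟩
  have Xx : XX x x := ⟨xx, xx⟩
  have hv := h.v cv
  have hfc : vx cv * ed f' = (ed f' : LA G') := by rw [← hf'.1]; exact vx_mul_ed f'
  have hfd : (ed f' : LA G') * vx cv = ed f' := by rw [← hf'.2]; exact ed_mul_vx f'
  have r1 := h.r1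
  have r2 := h.r2
  have r3 := h.r3
  have k1 := h.k1
  have k2 := h.k2
  have k3 := h.k3
  have c2 := h.c2
  obtain ⟨c, hc⟩ : ∃ c : LA G', c = vx cv := ⟨_, rfl⟩
  obtain ⟨τ, hτ⟩ : ∃ τ : LA G', τ = ed f' := ⟨_, rfl⟩
  have cs : star c = c := by rw [hc]; exact star_vx cv
  rw [← hc] at r1 r3 k2 k5 k6 hv c2 hfc hfd ha h4 g2
  rw [← hτ] at hfc hfd h1 h2 h4
  rw [← hc, ← hτ]
  have sr3 : c * star ρ = star ρ := by
    have h5 := congrArg star r3
    rwa [star_mul, cs] at h5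
  -- ρ = ρ ρ* ρ
  have rrr : ρ * star ρ * ρ = ρ := by rw [mul_assoc, r1, r3]
  obtain ⟨pN, hpN⟩ : ∃ p : LA G', p = pw x σ N := ⟨_, rfl⟩
  obtain ⟨xp, px, pp⟩ := hx.pw_corner N
  rw [← hpN] at h3 xp px pp
  have Xp : XX x pN := ⟨xp, px⟩
  have Xps : XX x (star pN) := E10_xx_star xs Xp
  have rp : ρ * star ρ * pN = pN := by
    rw [← h3, ← mul_assoc, rrr]
  have Xrr : XX x (ρ * star ρ) := by
    refine ⟨by rw [← mul_assoc, r2], ?_⟩
    have h5 : star ρ * x = star ρ := by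
      have h6 := congrArg star r2
      rwa [star_mul, xs] at h6
    rw [mul_assoc, h5]
  have k4 : star κ0 * κ0 * star κ0 = star κ0 := k33
  have kr : w2 (ρ * star ρ) * star κ0 = star κ0 := by rw [← k1, k33]
  have kl : κ0 * w2 (ρ * star ρ) = κ0 := by rw [← k1, ← mul_assoc, k3]
  have Xc2 : ∀ z, XX c z → XX x (ρ * z * star ρ) := by
    intro z hz
    refine ⟨by rw [← mul_assoc, ← mul_assoc, r2], ?_⟩
    have h5 : star ρ * x = star ρ := by
      have h6 := congrArg star r2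
      rwa [star_mul, xs] at h6
    rw [mul_assoc, h5]
  have Xτ : XX c τ := ⟨hfc, hfd⟩
  have hΨτ : Ψ' τ = κ0 * w2 (ρ * τ * star ρ) * star κ0 := c2 _ Xτ
  have pwx : ∀ n, XX x (pw x σ n) := fun n => ⟨(hx.pw_corner n).1, (hx.pw_corner n).2.1⟩
  have pww : ∀ n, w2 (pw x σ n) = pw (w2 x) (w2 σ) n := by
    intro n
    induction n with
    | zero => rfl
    | succ n ih =>
      change w2 (σ * pw x σ n) = w2 σ * pw (w2 x) (w2 σ) n
      rw [hom.m22 _ _ Xσ (pwx n), ih]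
  refine ShEq.symm ⟨N, star κ0, κ0 * w2 pN, ⟨?_, ?_, ?_⟩, ⟨?_, ?_, ?_⟩, ?_, ?_, ?_, ?_, ?_, ?_⟩
  · rw [star_star, k2, hv]
  · have h5 : w2 x * star κ0 = w2 x * (w2 (ρ * star ρ) * star κ0) := by rw [kr]
    rw [h5, ← mul_assoc, ← hom.m22 _ _ Xx Xrr, Xrr.1, kr]
  · rw [hv, k6]
  · have h5 : star (κ0 * w2 pN) * (κ0 * w2 pN) =
        star (w2 pN) * (star κ0 * κ0 * w2 pN) := by
      rw [star_mul]; simp only [mul_assoc]
    rw [h5, k1, ← hom.m22 _ _ Xrr Xp, rp, ← hom.t2 _ Xp, ← hom.m22 _ _ Xps Xp, pp]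
  · rw [hv, ← mul_assoc, k5]
  · rw [mul_assoc, ← hom.m22 _ _ Xp Xx, px]
  · have h5 : star κ0 * Ψ' τ = star κ0 * κ0 * (w2 (ρ * τ * star ρ) * star κ0) := by
      rw [hΨτ]; simp only [mul_assoc]
    have h6 : ρ * star ρ * (ρ * τ * star ρ) = σ * (ρ * star ρ) := by
      calc ρ * star ρ * (ρ * τ * star ρ) = ρ * (star ρ * ρ * τ) * star ρ := by
            simp only [mul_assoc]
        _ = ρ * τ * star ρ := by rw [r1, hfc]
        _ = σ * ρ * star ρ := by rw [h1]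
        _ = σ * (ρ * star ρ) := by rw [mul_assoc]
    rw [h5, k1, ← mul_assoc, ← hom.m22 _ _ Xrr (Xc2 _ Xτ), h6, hom.m22 _ _ Xσ Xrr, mul_assoc, kr]
  · have h5 : Ψ' τ * (κ0 * w2 pN) =
        κ0 * (w2 (ρ * τ * star ρ) * (star κ0 * κ0 * w2 pN)) := by
      rw [hΨτ]; simp only [mul_assoc]
    have h6 : ρ * τ * star ρ * pN = pN * σ := by
      calc ρ * τ * star ρ * pN = ρ * τ * (star ρ * ρ * a) := by rw [← h3]; simp only [mul_assoc]
        _ = ρ * (τ * a) := by rw [r1, ha.2.1, mul_assoc]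
        _ = ρ * a * σ := by rw [h2, mul_assoc]
        _ = pN * σ := by rw [h3]
    rw [h5, k1, ← hom.m22 _ _ Xrr Xp, rp, ← hom.m22 _ _ (Xc2 _ Xτ) Xp, h6,
      hom.m22 _ _ Xp Xσ, mul_assoc]
  · rw [← mul_assoc, k1, ← hom.m22 _ _ Xrr Xp, rp, hpN, pww]
  · have h5 : Ψ' (pw c τ N) = pw (Ψ' c) (Ψ' τ) N := pw_map Ψ' N
    have Xpc : XX c (pw c τ N) := by
      rw [← h4]
      refine ⟨by rw [← mul_assoc, ha.2.1], by rw [mul_assoc, r3]⟩
    have h6 : ρ * pw c τ N = pN * ρ := by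
      rw [hpN]
      exact pw_conj h1 r2 r3 N
    rw [← h5, c2 _ Xpc, h6, mul_assoc pN, hom.m22 _ _ Xp Xrr]
    have h7 : κ0 * (w2 pN * w2 (ρ * star ρ)) * star κ0 =
        κ0 * w2 pN * (w2 (ρ * star ρ) * star κ0) := by simp only [mul_assoc]
    rw [h7, kr]
  · rw [star_star, k1, ← E10_w2_sub hom Xx Xrr]
    exact g1
  · have h5 : κ0 * w2 (ρ * (c - a * star a) * star ρ) * star κ0 =
        Ψ' c - κ0 * w2 pN * star (κ0 * w2 pN) := by
      have h6 : ρ * (c - a * star a) * star ρ = ρ * star ρ - pN * star pN := by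
        rw [← h3, star_mul, mul_sub, sub_mul, r3]
        simp only [mul_assoc]
      have Xpp : XX x (pN * star pN) := E10_xx_mul Xp Xps
      rw [h6, E10_w2_sub hom Xrr Xpp, mul_sub, sub_mul, kl, k2, hv, hom.m22 _ _ Xp Xps, star_mul,
        hom.t2 _ Xp]
      simp only [mul_assoc]
    rw [← h5]
    exact g2

end DC29
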