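import Pool.Agent.LibDC29.E1

/-!
[DC E2] The Cuntz-Krieger family of an isometry with exits, in the 2x2 matrices (`LA.lift` with the `CK` structure of
`LibLPA74/Api.lean`; `P none = e22 y`, `P (some w) = e11 (Ψ (vx w))`, `Sg none = e22 τ`, `Sg (some (inl e)) = e11 (Ψ (ed e))`,
`Sg (some (inr k)) = e21 (ν k)`).  Products by the rules of `E1.lean`.
* `τ* ν k = 0`: multiply `df` by `star τ` on the left and by `ν k` on the right (`star τ * y = star τ`).
* `ck2` at `none`: the edges with source `none` are `none` and the `some (inr k)`: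
  `∑ = e22 (τ τ*) + ∑_k e22 (ν k ν k*) = e22 y` by `df`.
* `ck2` at `some w`: `S` consists of the `some (inl e)` with `s e = w`; the finset `S'` of these `e.1` satisfies
  `e ∈ S' ↔ s e = w`; apply `Ψ` to `vx_eq_sum`.
-/

namespace DC29

open LPA74

variable {G : Gph} {A : Type} [NonUnitalRing A] [StarRing A] [Module ℂ A] [IsScalarTower ℂ A A]
  [SMulCommClass ℂ A A] [StarModule ℂ A]

/-- the values of the homomorphism of an isometry with exits. -/
structure IsLam {H : Set G.V} {hH : ∀ e, G.s e ∈ H → G.r e ∈ H} {κ : Type} {tg : κ → H}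
    (Ψ : LA G →⋆ₙₐ[ℂ] A) (y τ : A) (ν : κ → A)
    (Λ : LA (XG G H hH κ tg) →⋆ₙₐ[ℂ] M2x A) : Prop where
  v0 : Λ (vx (E := XG G H hH κ tg) none) = e22 y
  v1 : ∀ w : H, Λ (vx (E := XG G H hH κ tg) (some w)) = e11 (Ψ (vx w.1))
  l0 : Λ (ed (E := XG G H hH κ tg) none) = e22 τ
  l1 : ∀ e : {e : G.Ed // G.s e ∈ H},
    Λ (ed (E := XG G H hH κ tg) (some (Sum.inl e))) = e11 (Ψ (ed e.1))
  l2 : ∀ k, Λ (ed (E := XG G H hH κ tg) (some (Sum.inr k))) = e21 (ν k)

theorem E2_e11_sum {ι : Type} (S : Finset ι) (f : ι → A) :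
    ∑ i ∈ S, e11 (f i) = e11 (∑ i ∈ S, f i) := by
  classical
  induction S using Finset.induction_on with
  | empty => rw [Finset.sum_empty, Finset.sum_empty, e11_zero]
  | insert a S ha ih => rw [Finset.sum_insert ha, Finset.sum_insert ha, e11_add, ih]

theorem E2_e22_sum {ι : Type} (S : Finset ι) (f : ι → A) :
    ∑ i ∈ S, e22 (f i) = e22 (∑ i ∈ S, f i) := by
  classical
  induction S using Finset.induction_on with
  | empty => rw [Finset.sum_empty, Finset.sum_empty, e22_zero]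
  | insert a S ha ih => rw [Finset.sum_insert ha, Finset.sum_insert ha, e22_add, ih]

theorem E2_tn {H : Set G.V} {κ : Type} [Fintype κ]
    {tg : κ → H} {Ψ : LA G →⋆ₙₐ[ℂ] A} {y τ : A} {ν : κ → A} (h : Ext Ψ tg y τ ν) (k : κ) :
    star τ * ν k = 0 := by
  classical
  have h1 : star τ * y = star τ := by
    have h2 := congrArg star h.isom.xs
    rwa [star_mul, h.isom.pj.2] at h2
  have h2 : y * star τ = star τ := by
    have h3 := congrArg star h.isom.sx
    rwa [star_mul, h.isom.pj.2] at h3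
  have h3 : star τ * (y - τ * star τ) = 0 := by
    rw [mul_sub, h1, ← mul_assoc, h.isom.ss, h2, sub_self]
  rw [h.df] at h3
  have h4 : (star τ * ∑ l, ν l * star (ν l)) * ν k = star τ * ν k := by
    rw [Finset.mul_sum, Finset.sum_mul, Finset.sum_eq_single k]
    · have h5 := h.orth k k
      rw [if_pos rfl] at h5
      rw [mul_assoc, mul_assoc, h5, h.nv]
    · intro l _ hl
      have h5 := h.orth l k
      rw [if_neg hl] at h5
      rw [mul_assoc, mul_assoc, h5, mul_zero, mul_zero]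
    · intro h'
      exact absurd (Finset.mem_univ k) h'
  rw [← h4, h3, zero_mul]

/-- the images of the vertices -/
noncomputable def E2_P {H : Set G.V} (Ψ : LA G →⋆ₙₐ[ℂ] A) (y : A) : Option H → M2x A
  | none => e22 y
  | some w => e11 (Ψ (vx w.1))

/-- the images of the edges -/
noncomputable def E2_S {H : Set G.V} {κ : Type} (Ψ : LA G →⋆ₙₐ[ℂ] A) (τ : A) (ν : κ → A) :
    Option ({e : G.Ed // G.s e ∈ H} ⊕ κ) → M2x A
  | none => e22 τ
  | some (Sum.inl e) => e11 (Ψ (ed e.1))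
  | some (Sum.inr k) => e21 (ν k)

theorem E2_ck2_none {H : Set G.V} {κ : Type} [Fintype κ]
    {tg : κ → H} {Ψ : LA G →⋆ₙₐ[ℂ] A} {y τ : A} {ν : κ → A} (h : Ext Ψ tg y τ ν)
    (S : Finset (Option ({e : G.Ed // G.s e ∈ H} ⊕ κ)))
    (hS : ∀ f, f ∈ S ↔ f = none ∨ ∃ k, some (Sum.inr k) = f) :
    e22 y = ∑ f ∈ S, E2_S Ψ τ ν f * star (E2_S Ψ τ ν f) := by
  classical
  have hinj : Function.Injective (fun k : κ =>
      (some (Sum.inr k) : Option ({e : G.Ed // G.s e ∈ H} ⊕ κ))) := by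
    intro a b hab
    exact Sum.inr_injective (Option.some_injective _ hab)
  have hS' : S = insert (none : Option ({e : G.Ed // G.s e ∈ H} ⊕ κ))
      ((Finset.univ : Finset κ).map ⟨fun k : κ => (some (Sum.inr k) :
        Option ({e : G.Ed // G.s e ∈ H} ⊕ κ)), hinj⟩) := by
    apply Finset.ext
    intro f
    rw [Finset.mem_insert, Finset.mem_map, hS]
    constructor
    · rintro (h' | ⟨k, hk⟩)
      · exact Or.inl h'
      · exact Or.inr ⟨k, Finset.mem_univ k, hk⟩
    · rintro (h' | ⟨k, _, hk⟩)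
      · exact Or.inl h'
      · exact Or.inr ⟨k, hk⟩
  rw [hS', Finset.sum_insert, Finset.sum_map]
  · have e1 : E2_S (H := H) Ψ τ ν none * star (E2_S (H := H) Ψ τ ν none) =
        e22 (τ * star τ) := by
      show e22 τ * star (e22 τ) = _
      rw [star_e22, e22_mul_e22]
    have e2 : ∀ k : κ, E2_S (H := H) Ψ τ ν (some (Sum.inr k)) *
        star (E2_S (H := H) Ψ τ ν (some (Sum.inr k))) = e22 (ν k * star (ν k)) := by
      intro k
      show e21 (ν k) * star (e21 (ν k)) = _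
      rw [star_e21, e21_mul_e12]
    have e3 : ∑ k, (E2_S (H := H) Ψ τ ν (some (Sum.inr k)) *
        star (E2_S (H := H) Ψ τ ν (some (Sum.inr k)))) = e22 (∑ k, ν k * star (ν k)) := by
      rw [← E2_e22_sum]
      exact Finset.sum_congr rfl fun k _ => e2 k
    refine Eq.trans ?_ (congrArg₂ (· + ·) e1 e3).symm
    show e22 y = e22 (τ * star τ) + e22 (∑ k, ν k * star (ν k))
    rw [← e22_add, ← h.df]
    congr 1
    abel
  · rw [Finset.mem_map]
    rintro ⟨k, _, hk⟩
    exact absurd hk (Option.some_ne_none _)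

theorem E2_src_none {H : Set G.V} (hH : ∀ e, G.s e ∈ H → G.r e ∈ H) {κ : Type} {tg : κ → H}
    (f : Option ({e : G.Ed // G.s e ∈ H} ⊕ κ)) :
    (XG G H hH κ tg).s f = none ↔ f = none ∨ ∃ k, some (Sum.inr k) = f := by
  rcases f with _ | (e | k)
  · exact ⟨fun _ => Or.inl rfl, fun _ => rfl⟩
  · constructor
    · intro h'
      exact absurd h' (Option.some_ne_none _)
    · rintro (h' | ⟨k, hk⟩)
      · exact absurd h' (Option.some_ne_none _)
      · exact absurd (Option.some_injective _ hk) (by simp)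
  · exact ⟨fun _ => Or.inr ⟨k, rfl⟩, fun _ => rfl⟩

theorem E2_ck2_some {H : Set G.V} (hH : ∀ e, G.s e ∈ H → G.r e ∈ H) {κ : Type}
    {tg : κ → H} {Ψ : LA G →⋆ₙₐ[ℂ] A} {τ : A} {ν : κ → A} (w : H)
    (S : Finset (XG G H hH κ tg).Ed) (h0 : S.Nonempty)
    (hS : ∀ f, f ∈ S ↔ (XG G H hH κ tg).s f = some w) :
    e11 (Ψ (vx w.1)) = ∑ f ∈ S, E2_S Ψ τ ν f * star (E2_S Ψ τ ν f) := by
  classical
  let g : {e : G.Ed // G.s e ∈ H} → (XG G H hH κ tg).Ed := fun e => some (Sum.inl e)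
  have hinj : Function.Injective g := by
    intro a b hab
    exact Sum.inl_injective (Option.some_injective _ hab)
  have hform : ∀ f ∈ S, ∃ e, g e = f := by
    intro f hf
    have h1 := (hS f).1 hf
    rcases f with _ | (e | k)
    · exact absurd h1.symm (Option.some_ne_none _)
    · exact ⟨e, rfl⟩
    · exact absurd h1.symm (Option.some_ne_none _)
  have hmem : ∀ e : {e : G.Ed // G.s e ∈ H}, g e ∈ S ↔ G.s e.1 = w.1 := by
    intro e
    rw [hS]
    constructor
    · intro h1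
      exact congrArg Subtype.val (Option.some_injective _ h1)
    · intro h1
      show (some (⟨G.s e.1, e.2⟩ : H)) = some w
      exact congrArg some (Subtype.ext h1)
  let T := S.preimage g hinj.injOn
  let S' := T.map (Function.Embedding.subtype _)
  have hS' : ∀ e, e ∈ S' ↔ G.s e = w.1 := by
    intro e
    show e ∈ T.map (Function.Embedding.subtype _) ↔ _
    rw [Finset.mem_map]
    constructor
    · rintro ⟨e', he', rfl⟩
      exact (hmem e').1 (Finset.mem_preimage.1 he')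
    · intro h1
      have h2 : G.s e ∈ H := h1 ▸ w.2
      exact ⟨⟨e, h2⟩, Finset.mem_preimage.2 ((hmem ⟨e, h2⟩).2 h1), rfl⟩
  have hS'0 : S'.Nonempty := by
    obtain ⟨f, hf⟩ := h0
    obtain ⟨e, he⟩ := hform f hf
    rw [← he] at hf
    exact ⟨e.1, (hS' e.1).2 ((hmem e).1 hf)⟩
  rw [vx_eq_sum w.1 S' hS'0 hS', map_sum, ← E2_e11_sum]
  show ∑ e ∈ T.map (Function.Embedding.subtype _), e11 (Ψ (ed e * star (ed e))) = _
  rw [Finset.sum_map, ← Finset.sum_preimage g S hinj.injOn]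
  · refine Finset.sum_congr rfl fun e _ => ?_
    show e11 (Ψ (ed e.1 * star (ed e.1))) = e11 (Ψ (ed e.1)) * star (e11 (Ψ (ed e.1)))
    rw [star_e11, e11_mul_e11, map_mul, map_star]
  · intro f hf hn
    exact absurd (hform f hf) hn

theorem E2_ck {H : Set G.V} (hH : ∀ e, G.s e ∈ H → G.r e ∈ H) {κ : Type} [Fintype κ]
    {tg : κ → H} {Ψ : LA G →⋆ₙₐ[ℂ] A} {y τ : A} {ν : κ → A} (h : Ext Ψ tg y τ ν) :
    CK (XG G H hH κ tg) (E2_P (H := H) Ψ y) (E2_S (H := H) Ψ τ ν) where
  proj := by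
    rintro (_ | w)
    · show e22 y * e22 y = e22 y
      rw [e22_mul_e22, h.isom.pj.1]
    · show e11 (Ψ (vx w.1)) * e11 (Ψ (vx w.1)) = e11 (Ψ (vx w.1))
      rw [e11_mul_e11, ← map_mul, vx_mul_self]
  sa := by
    rintro (_ | w)
    · show star (e22 y) = e22 y
      rw [star_e22, h.isom.pj.2]
    · show star (e11 (Ψ (vx w.1))) = e11 (Ψ (vx w.1))
      rw [star_e11, ← map_star, star_vx]
  orth := by
    rintro (_ | w) (_ | w') hne
    · exact absurd rfl hne
    · exact e22_mul_e11 _ _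
    · exact e11_mul_e22 _ _
    · show e11 (Ψ (vx w.1)) * e11 (Ψ (vx w'.1)) = 0
      have h1 : w.1 ≠ w'.1 := fun h' => hne (congrArg some (Subtype.ext h'))
      rw [e11_mul_e11, ← map_mul, vx_mul_ne h1, map_zero, e11_zero]
  se := by
    rintro (_ | (e | k))
    · show e22 y * e22 τ = e22 τ
      rw [e22_mul_e22, h.isom.xs]
    · show e11 (Ψ (vx (G.s e.1))) * e11 (Ψ (ed e.1)) = e11 (Ψ (ed e.1))
      rw [e11_mul_e11, ← map_mul, vx_mul_ed]
    · show e22 y * e21 (ν k) = e21 (ν k)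
      rw [e22_mul_e21, h.yn]
  er := by
    rintro (_ | (e | k))
    · show e22 τ * e22 y = e22 τ
      rw [e22_mul_e22, h.isom.sx]
    · show e11 (Ψ (ed e.1)) * e11 (Ψ (vx (G.r e.1))) = e11 (Ψ (ed e.1))
      rw [e11_mul_e11, ← map_mul, ed_mul_vx]
    · show e21 (ν k) * e11 (Ψ (vx (tg k).1)) = e21 (ν k)
      rw [e21_mul_e11, h.nv]
  ck1 := by
    rintro (_ | (e | k))
    · show star (e22 τ) * e22 τ = e22 y
      rw [star_e22, e22_mul_e22, h.isom.ss]
    · show star (e11 (Ψ (ed e.1))) * e11 (Ψ (ed e.1)) = e11 (Ψ (vx (G.r e.1)))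
      rw [star_e11, e11_mul_e11, ← map_star, ← map_mul, star_ed_mul_ed]
    · show star (e21 (ν k)) * e21 (ν k) = e11 (Ψ (vx (tg k).1))
      have h5 := h.orth k k
      rw [if_pos rfl] at h5
      rw [star_e21, e12_mul_e21, h5]
  ck1' := by
    rintro (_ | (e | k)) (_ | (e' | k')) hne
    · exact absurd rfl hne
    · show star (e22 τ) * e11 (Ψ (ed e'.1)) = 0
      rw [star_e22, e22_mul_e11]
    · show star (e22 τ) * e21 (ν k') = 0
      rw [star_e22, e22_mul_e21, E2_tn h, e21_zero]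
    · show star (e11 (Ψ (ed e.1))) * e22 τ = 0
      rw [star_e11, e11_mul_e22]
    · show star (e11 (Ψ (ed e.1))) * e11 (Ψ (ed e'.1)) = 0
      have h1 : e.1 ≠ e'.1 := fun h' => hne (congrArg (fun z => some (Sum.inl z)) (Subtype.ext h'))
      rw [star_e11, e11_mul_e11, ← map_star, ← map_mul, star_ed_mul_ed_ne h1, map_zero, e11_zero]
    · show star (e11 (Ψ (ed e.1))) * e21 (ν k') = 0
      rw [star_e11, e11_mul_e21]
    · show star (e21 (ν k)) * e22 τ = 0
      have h1 : star (ν k) * τ = 0 := by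
        have h2 := congrArg star (E2_tn h k)
        rwa [star_mul, star_star, star_zero] at h2
      rw [star_e21, e12_mul_e22, h1, e12_zero]
    · show star (e21 (ν k)) * e11 (Ψ (ed e'.1)) = 0
      rw [star_e21, e12_mul_e11]
    · show star (e21 (ν k)) * e21 (ν k') = 0
      have h1 : k ≠ k' := fun h' => hne (congrArg (fun z => some (Sum.inr z)) h')
      have h5 := h.orth k k'
      rw [if_neg h1] at h5
      rw [star_e21, e12_mul_e21, h5, e11_zero]
  ck2 := by
    rintro (_ | w) S h0 hS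
    · exact E2_ck2_none h S fun f => (hS f).trans (E2_src_none hH f)
    · exact E2_ck2_some hH w S h0 hS

theorem exists_lam {H : Set G.V} (hH : ∀ e, G.s e ∈ H → G.r e ∈ H) {κ : Type} [Fintype κ]
    {tg : κ → H} {Ψ : LA G →⋆ₙₐ[ℂ] A} {y τ : A} {ν : κ → A} (h : Ext Ψ tg y τ ν) :
    ∃ Λ : LA (XG G H hH κ tg) →⋆ₙₐ[ℂ] M2x A, IsLam Ψ y τ ν Λ := by
  obtain ⟨Λ, h1, h2⟩ := LA.lift (E2_ck hH h)
  exact ⟨Λ, h1 none, fun w => h1 (some w), h2 none, fun e => h2 (some (Sum.inl e)),
    fun k => h2 (some (Sum.inr k))⟩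

end DC29
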