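import Pool.Agent.LibDC29.E2
import Pool.Agent.LibDC29.A7
import Pool.Agent.LibDC29.If

/-!
[DC E3] Injectivity of `Λ` (`red`, `ind` of `If.lean`).  Paths of `XG` ending at `none`: `List.replicate n none`,
`Λ (pe _ none) = e22 (pw x σ n)`; with `ρ` from `hsh`: `star ρ * pw x σ n * ρ = pw (vx c) (ed f) n`
(`pw_conj`), which is `pe (List.replicate n f) c`: independent by `ind`.
Paths ending at `some h`: type A: `β.map (some ∘ inl)`, `β` a path of `G` ending at `h` with all sources in `H`
(`Λ = e11 (pe β h)`); type B: `replicate n none ++ some (inr k) :: (type A path starting at tg k)`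
(`Λ = e21 (pw x σ n * ν k * pe β h)`).
-/

namespace DC29

open LPA74

/-- criterion of independence. -/
private theorem E3_li {ι M N : Type} [AddCommGroup M] [Module ℂ M] [AddCommGroup N] [Module ℂ N]
    (v : ι → M) (h : ∀ i0, ∃ (P : ι → Prop) (L : M →ₗ[ℂ] N), P i0 ∧ (∀ i, ¬ P i → L (v i) = 0) ∧
      LinearIndependent ℂ fun i : {i // P i} => L (v i.1)) : LinearIndependent ℂ v := by
  classical
  rw [linearIndependent_iff']
  intro s g hg i0 hi0
  obtain ⟨P, L, hP, h0, hli⟩ := h i0
  have h1 : ∑ i ∈ s, g i • L (v i) = 0 := by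
    have h2 := congrArg L hg
    rw [map_sum, map_zero] at h2
    rw [← h2]
    exact Finset.sum_congr rfl fun i _ => (map_smul L _ _).symm
  have h3 : ∑ i ∈ s.subtype P, g i.1 • L (v i.1) = 0 := by
    rw [Finset.sum_subtype_eq_sum_filter (fun i => g i • L (v i)) (p := P),
      Finset.sum_filter]
    refine Eq.trans ?_ h1
    refine Finset.sum_congr rfl fun i _ => ?_
    split_ifs with h4
    · rfl
    · rw [h0 i h4, smul_zero]
  rw [linearIndependent_iff'] at hli
  exact hli (s.subtype P) (fun i => g i.1) h3 ⟨i0, hP⟩ (by simpa using hi0)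

section ext
variable {G : Gph} {A : Type} [NonUnitalRing A] [StarRing A] [Module ℂ A]

private theorem E3_sn [IsScalarTower ℂ A A]
  [SMulCommClass ℂ A A] [StarModule ℂ A] {H : Set G.V} {Ψ : LA G →⋆ₙₐ[ℂ] A} {κ : Type} [Fintype κ] {tg : κ → H}
    {y τ : A} {ν : κ → A} (h : Ext Ψ tg y τ ν) (k : κ) : star τ * ν k = 0 := by
  classical
  have h1 := congrArg (fun z => star τ * z * ν k) h.df
  have h2 : star τ * y = star τ := by
    have := congrArg star h.isom.xs
    rwa [star_mul, h.isom.pj.2] at this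
  have h3 : y * star τ = star τ := by
    have := congrArg star h.isom.sx
    rwa [star_mul, h.isom.pj.2] at this
  have h4 : star τ * (y - τ * star τ) = 0 := by
    rw [mul_sub, h2, ← mul_assoc, h.isom.ss, h3, sub_self]
  have h5 : (0 : A) = ∑ l, star τ * (ν l * star (ν l)) * ν k := by
    rw [← Finset.sum_mul, ← Finset.mul_sum]
    refine Eq.trans ?_ h1
    change 0 = star τ * (y - τ * star τ) * ν k
    rw [h4, zero_mul]
  rw [h5, Finset.sum_eq_single k]
  · rw [mul_assoc, mul_assoc (ν k), h.orth, if_pos rfl, h.nv]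
  · intro l _ hl
    rw [mul_assoc, mul_assoc (ν l), h.orth, if_neg hl, mul_zero, mul_zero]
  · intro hk
    exact absurd (Finset.mem_univ k) hk

end ext

private theorem E3_orth {A : Type} [NonUnitalRing A] [StarRing A] {x σ a b : A} (h : Isom x σ)
    (ha : star σ * a = 0) (hb : star σ * b = 0) (hxb : x * b = b) {n m : ℕ} :
    star (pw x σ n * a) * (pw x σ m * b) = if n = m then star a * b else 0 := by
  have hax : star a * σ = 0 := by
    have := congrArg star ha
    rwa [star_mul, star_star, star_zero] at this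
  have key : ∀ (n : ℕ), star (pw x σ n) * pw x σ n = x := fun n => (h.pw_corner n).2.2
  rcases lt_trichotomy n m with hnm | hnm | hnm
  · rw [if_neg (ne_of_lt hnm)]
    obtain ⟨k, rfl⟩ : ∃ k, m = n + (k + 1) := ⟨m - n - 1, by omega⟩
    rw [← pw_add h.xs h.pj.1 n (k + 1)]
    have h1 : star (pw x σ n * a) * (pw x σ n * pw x σ (k + 1) * b)
        = star a * ((star (pw x σ n) * pw x σ n) * (pw x σ (k + 1) * b)) := by
      rw [star_mul]
      simp only [mul_assoc]
    rw [h1, key, ← mul_assoc x, (h.pw_corner (k + 1)).1]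
    change star a * (σ * pw x σ k * b) = 0
    rw [mul_assoc σ, ← mul_assoc, hax, zero_mul]
  · subst hnm
    rw [if_pos rfl, star_mul]
    have h1 : star a * star (pw x σ n) * (pw x σ n * b)
        = star a * ((star (pw x σ n) * pw x σ n) * b) := by
      simp only [mul_assoc]
    rw [h1, key, hxb]
  · rw [if_neg (ne_of_gt hnm)]
    obtain ⟨k, rfl⟩ : ∃ k, n = m + (k + 1) := ⟨n - m - 1, by omega⟩
    rw [← pw_add h.xs h.pj.1 m (k + 1)]
    have h1 : star (pw x σ m * pw x σ (k + 1) * a) * (pw x σ m * b)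
        = star a * (star (pw x σ (k + 1)) * ((star (pw x σ m) * pw x σ m) * b)) := by
      rw [star_mul, star_mul]
      simp only [mul_assoc]
    rw [h1, key, hxb]
    change star a * (star (σ * pw x σ k) * b) = 0
    rw [star_mul, mul_assoc (star (pw x σ k)), hb, mul_zero, mul_zero]

section paths
variable {G : Gph} {H : Set G.V} {hH : ∀ e, G.s e ∈ H → G.r e ∈ H} {κ : Type} {tg : κ → H}

/-- the edges of `G` with source in `H`, as edges of `XG`. -/
private def E3_in (H : Set G.V) (hH : ∀ e, G.s e ∈ H → G.r e ∈ H) (κ : Type) (tg : κ → H) :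
    {e : G.Ed // G.s e ∈ H} → (XG G H hH κ tg).Ed :=
  fun e => some (Sum.inl e)

private theorem E3_in_inj : Function.Injective (E3_in H hH κ tg) := by
  intro a b h
  exact Sum.inl_injective (Option.some_injective _ h)

private theorem E3_st (β : List {e : G.Ed // G.s e ∈ H}) (h : H) :
    ∃ hm, (XG G H hH κ tg).st (β.map (E3_in H hH κ tg)) (some h)
      = some ⟨G.st (β.map Subtype.val) h.1, hm⟩ := by
  cases β with
  | nil => exact ⟨h.2, rfl⟩
  | cons e β => exact ⟨e.2, rfl⟩

private theorem E3_none {α : List (XG G H hH κ tg).Ed} (h : (XG G H hH κ tg).IsP α none) :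
    α = List.replicate α.length none ∧ (XG G H hH κ tg).st α none = none := by
  induction α with
  | nil => exact ⟨rfl, rfl⟩
  | cons g l ih =>
    obtain ⟨h1, h2⟩ := h
    obtain ⟨h3, h4⟩ := ih h2
    rw [h4] at h1
    have hg : g = none := by
      match g, h1 with
      | none, _ => rfl
      | some (Sum.inl e), h1 => exact absurd h1 (by simp [XG])
      | some (Sum.inr k), h1 => exact absurd h1 (by simp [XG])
    subst hg
    exact ⟨congrArg (List.cons _) h3, rfl⟩

private theorem E3_some {α : List (XG G H hH κ tg).Ed} {h : H}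
    (hα : (XG G H hH κ tg).IsP α (some h)) :
    (∃ β : List {e : G.Ed // G.s e ∈ H}, α = β.map (E3_in H hH κ tg) ∧
      G.IsP (β.map Subtype.val) h.1) ∨
    ∃ (n : ℕ) (k : κ) (β : List {e : G.Ed // G.s e ∈ H}),
      α = List.replicate n none ++ some (Sum.inr k) :: β.map (E3_in H hH κ tg) ∧
      G.IsP (β.map Subtype.val) h.1 ∧ G.st (β.map Subtype.val) h.1 = (tg k).1 := by
  induction α with
  | nil => exact Or.inl ⟨[], rfl, trivial⟩
  | cons g l ih =>
    obtain ⟨h1, h2⟩ := hα
    rcases ih h2 with ⟨β, rfl, hβ⟩ | ⟨n, k, β, rfl, hβ, hk⟩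
    · obtain ⟨hm, hst⟩ := E3_st (hH := hH) (κ := κ) (tg := tg) β h
      rw [hst] at h1
      match g, h1 with
      | none, h1 => exact absurd h1 (by simp [XG])
      | some (Sum.inl e), h1 =>
        refine Or.inl ⟨e :: β, rfl, ?_, hβ⟩
        exact congrArg Subtype.val (Option.some_injective _ h1)
      | some (Sum.inr k), h1 =>
        refine Or.inr ⟨0, k, β, rfl, hβ, ?_⟩
        exact (congrArg Subtype.val (Option.some_injective _ h1)).symm
    · have h3 : (XG G H hH κ tg).st (List.replicate n none ++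
          some (Sum.inr k) :: β.map (E3_in H hH κ tg)) (some h) = none := by
        cases n <;> rfl
      rw [h3] at h1
      match g, h1 with
      | none, _ => exact Or.inr ⟨n + 1, k, β, rfl, hβ, hk⟩
      | some (Sum.inl e), h1 => exact absurd h1 (by simp [XG])
      | some (Sum.inr k), h1 => exact absurd h1 (by simp [XG])

end paths

section vals
variable {G : Gph} {H : Set G.V} {hH : ∀ e, G.s e ∈ H → G.r e ∈ H} {κ : Type} {tg : κ → H}
variable {A : Type} [NonUnitalRing A] [StarRing A] [Module ℂ A] [IsScalarTower ℂ A A]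
  [SMulCommClass ℂ A A] [StarModule ℂ A]
  {Ψ : LA G →⋆ₙₐ[ℂ] A} {y τ : A} {ν : κ → A} {Λ : LA (XG G H hH κ tg) →⋆ₙₐ[ℂ] M2x A}

private theorem E3_vA (hΛ : IsLam Ψ y τ ν Λ) (β : List {e : G.Ed // G.s e ∈ H}) (h : H) :
    Λ (pe (β.map (E3_in H hH κ tg)) (some h)) = e11 (Ψ (pe (β.map Subtype.val) h.1)) := by
  induction β with
  | nil => exact hΛ.v1 h
  | cons e β ih =>
    change Λ (ed (E := XG G H hH κ tg) (some (Sum.inl e)) *
      pe (β.map (E3_in H hH κ tg)) (some h)) = e11 (Ψ (ed e.1 * pe (β.map Subtype.val) h.1))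
    rw [map_mul, ih, hΛ.l1, e11_mul_e11, map_mul]

private theorem E3_vN (hΛ : IsLam Ψ y τ ν Λ) (n : ℕ) :
    Λ (pe (E := XG G H hH κ tg) (List.replicate n none) none) = e22 (pw y τ n) := by
  induction n with
  | zero => exact hΛ.v0
  | succ n ih =>
    change Λ (ed (E := XG G H hH κ tg) none * pe (List.replicate n none) none)
      = e22 (τ * pw y τ n)
    rw [map_mul, ih, hΛ.l0, e22_mul_e22]

private theorem E3_vB (hΛ : IsLam Ψ y τ ν Λ) (hy : ∀ k, y * ν k = ν k) (n : ℕ) (k : κ)
    (β : List {e : G.Ed // G.s e ∈ H}) (h : H) :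
    Λ (pe (E := XG G H hH κ tg) (List.replicate n none ++ some (Sum.inr k) ::
      β.map (E3_in H hH κ tg)) (some h))
      = e21 (pw y τ n * ν k * Ψ (pe (β.map Subtype.val) h.1)) := by
  induction n with
  | zero =>
    change Λ (ed (E := XG G H hH κ tg) (some (Sum.inr k)) *
      pe (β.map (E3_in H hH κ tg)) (some h)) = e21 (y * ν k * Ψ (pe (β.map Subtype.val) h.1))
    rw [map_mul, E3_vA hΛ, hΛ.l2, e21_mul_e11, hy]
  | succ n ih =>
    change Λ (ed (E := XG G H hH κ tg) none * pe (List.replicate n none ++ some (Sum.inr k) ::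
      β.map (E3_in H hH κ tg)) (some h))
      = e21 (τ * pw y τ n * ν k * Ψ (pe (β.map Subtype.val) h.1))
    rw [map_mul, ih, hΛ.l0, e22_mul_e21]
    simp only [mul_assoc]

end vals

private theorem E3_vN' {G : Gph} {H : Set G.V} {hH : ∀ e, G.s e ∈ H → G.r e ∈ H} {κ : Type}
    {tg : κ → H} {A : Type} [NonUnitalRing A] [StarRing A] [Module ℂ A] [IsScalarTower ℂ A A]
    [SMulCommClass ℂ A A] [StarModule ℂ A] {Ψ : LA G →⋆ₙₐ[ℂ] A} {y τ : A} {ν : κ → A}
    {Λ : LA (XG G H hH κ tg) →⋆ₙₐ[ℂ] M2x A} (hΛ : IsLam Ψ y τ ν Λ)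
    {α : List (XG G H hH κ tg).Ed} (h : (XG G H hH κ tg).IsP α none) :
    Λ (pe α none) = e22 (pw y τ α.length) := by
  obtain ⟨n, rfl⟩ : ∃ n, α = List.replicate n none := ⟨_, (E3_none h).1⟩
  exact (E3_vN hΛ n).trans (congrArg (fun m => e22 (pw y τ m)) List.length_replicate.symm)

/-- independence from a map to paths. -/
private theorem E3_comp {G : Gph} [Countable G.Ed] {ι : Type} (v : ι → LA G) (u : G.V)
    (h : ∀ i, ∃ β : List G.Ed, G.IsP β u ∧ v i = pe β u)
    (hi : ∀ i j (β : List G.Ed), G.IsP β u → v i = pe β u → v j = pe β u → i = j) :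
    LinearIndependent ℂ v := by
  choose β h1 h2 using h
  have h3 := (ind (G := G) u).comp (fun i => (⟨β i, h1 i⟩ : {α : List G.Ed // G.IsP α u})) (by
    intro i j hij
    have h4 : β i = β j := congrArg Subtype.val hij
    exact hi i j (β i) (h1 i) (h2 i) (by rw [h2 j, h4]))
  have h4 : v = (fun α : {α : List G.Ed // G.IsP α u} => (pe α.1 u : LA G)) ∘
      fun i => (⟨β i, h1 i⟩ : {α : List G.Ed // G.IsP α u}) := funext h2
  rw [h4]
  exact h3

/-- the paths are determined by their products. -/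
private theorem E3_pe_inj {G : Gph} [Countable G.Ed] {u : G.V} {α β : List G.Ed}
    (hα : G.IsP α u) (hβ : G.IsP β u) (h : (pe α u : LA G) = pe β u) : α = β :=
  congrArg Subtype.val ((ind (G := G) u).injective
    (show (fun α : {α : List G.Ed // G.IsP α u} => (pe α.1 u : LA G)) ⟨α, hα⟩ =
      (fun α : {α : List G.Ed // G.IsP α u} => (pe α.1 u : LA G)) ⟨β, hβ⟩ from h))

variable {G : Gph}

private theorem E3_caseN (hG : NG G) {f : G.Ed} (hf : G.r f = G.s f)
    (hH : ∀ e, G.s e ∈ NR G (G.s f) → G.r e ∈ NR G (G.s f)) {κ : Type}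
    {tg : κ → (NR G (G.s f))} {x σ : LA G} {ν : κ → LA G}
    (hsh : ShEq (NR G (G.s f)) x σ (vx (G.s f)) (ed f))
    {Λ : LA (XG G (NR G (G.s f)) hH κ tg) →⋆ₙₐ[ℂ] M2x (LA G)}
    (hΛ : IsLam (NonUnitalStarAlgHom.id ℂ (LA G)) x σ ν Λ) :
    LinearIndependent ℂ fun α : {α : List (XG G (NR G (G.s f)) hH κ tg).Ed //
        (XG G (NR G (G.s f)) hH κ tg).IsP α none} => Λ (pe α.1 none) := by
  have := hG.cE
  obtain ⟨N, ρ, a, ⟨r1, r2, r3⟩, -, r4, -⟩ := hsh
  let L : M2x (LA G) →ₗ[ℂ] LA G :=
    { toFun := fun Z => star ρ * Z 1 1 * ρ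
      map_add' := fun Z W => by rw [Matrix.add_apply, mul_add, add_mul]
      map_smul' := fun c Z => by
        rw [Matrix.smul_apply, mul_smul_comm, smul_mul_assoc, RingHom.id_apply] }
  have hloop : Isom (vx (G.s f) : LA G) (ed f) := Isom.loop hf
  have hpe : ∀ n, pw (vx (G.s f) : LA G) (ed f) n = pe (List.replicate n f) (G.s f) := by
    intro n
    induction n with
    | zero => rfl
    | succ n ih =>
      change ed f * pw (vx (G.s f)) (ed f) n = ed f * pe (List.replicate n f) (G.s f)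
      rw [ih]
  have hL : ∀ α : {α : List (XG G (NR G (G.s f)) hH κ tg).Ed //
      (XG G (NR G (G.s f)) hH κ tg).IsP α none},
      L (Λ (pe α.1 none)) = pe (List.replicate α.1.length f) (G.s f) := by
    intro α
    have h1 := congrArg L (E3_vN' hΛ α.2)
    refine h1.trans ?_
    change star ρ * (e22 (pw x σ α.1.length)) 1 1 * ρ = _
    have h2 : (e22 (pw x σ α.1.length) : M2x (LA G)) 1 1 = pw x σ α.1.length := by
      simp [e22]
    rw [h2, mul_assoc, ← pw_conj r4 r2 r3, ← mul_assoc, r1, (hloop.pw_corner _).1, hpe]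
  have hp : ∀ n, G.IsP (List.replicate n f) (G.s f) := by
    intro n
    induction n with
    | zero => trivial
    | succ n ih =>
      refine ⟨?_, ih⟩
      cases n <;> exact hf
  refine LinearIndependent.of_comp L ?_
  refine E3_comp _ (G.s f) (fun α => ⟨_, hp _, hL α⟩) ?_
  intro α β γ h1 h2 h3
  have h4 := E3_pe_inj (hp _) h1 ((hL α).symm.trans h2)
  have h5 := E3_pe_inj (hp _) h1 ((hL β).symm.trans h3)
  have h6 := congrArg List.length (h4.trans h5.symm)
  simp only [List.length_replicate] at h6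
  refine Subtype.ext ?_
  exact (E3_none α.2).1.trans (by rw [h6]; exact (E3_none β.2).1.symm)

private theorem E3_caseS (hG : NG G) {H : Set G.V}
    (hH : ∀ e, G.s e ∈ H → G.r e ∈ H) {κ : Type} [Fintype κ]
    {tg : κ → H} {x σ : LA G} {ν : κ → LA G}
    (hE : Ext (NonUnitalStarAlgHom.id ℂ (LA G)) tg x σ ν)
    {Λ : LA (XG G H hH κ tg) →⋆ₙₐ[ℂ] M2x (LA G)}
    (hΛ : IsLam (NonUnitalStarAlgHom.id ℂ (LA G)) x σ ν Λ) (h : H) :
    LinearIndependent ℂ fun α : {α : List (XG G H hH κ tg).Ed //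
        (XG G H hH κ tg).IsP α (some h)} => Λ (pe α.1 (some h)) := by
  classical
  have := hG.cE
  have hvi : Function.Injective (fun β : List {e : G.Ed // G.s e ∈ H} => β.map Subtype.val) :=
    List.map_injective_iff.mpr Subtype.val_injective
  have hB : ∀ (n : ℕ) (k : κ) (β : List {e : G.Ed // G.s e ∈ H}),
      Λ (pe (E := XG G H hH κ tg) (List.replicate n none ++ some (Sum.inr k) ::
        β.map (E3_in H hH κ tg)) (some h)) = e21 (pw x σ n * ν k * pe (β.map Subtype.val) h.1) :=
    fun n k β => E3_vB hΛ hE.yn n k β h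
  have hA : ∀ (β : List {e : G.Ed // G.s e ∈ H}),
      Λ (pe (β.map (E3_in H hH κ tg)) (some h)) = e11 (pe (β.map Subtype.val) h.1) :=
    fun β => E3_vA hΛ β h
  refine E3_li (N := LA G) _ ?_
  rintro ⟨α0, hα0⟩
  rcases E3_some hα0 with ⟨β0, e0, hβ0⟩ | ⟨n0, k0, β0, e0, hβ0, hk0⟩
  · refine ⟨fun α => ∃ β : List {e : G.Ed // G.s e ∈ H}, α.1 = β.map (E3_in H hH κ tg) ∧
      G.IsP (β.map Subtype.val) h.1, 
      { toFun := fun Z => Z 0 0
        map_add' := fun Z W => rfl
        map_smul' := fun c Z => rfl }, ⟨β0, e0, hβ0⟩, ?_, ?_⟩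
    · rintro ⟨α, hα⟩ hn
      rcases E3_some hα with h1 | ⟨n, k, β, e, hβ, hk⟩
      · exact absurd h1 hn
      · subst e
        change (Λ (pe (E := XG G H hH κ tg) (List.replicate n none ++ some (Sum.inr k) ::
          β.map (E3_in H hH κ tg)) (some h))) 0 0 = 0
        rw [hB]
        simp [e21]
    · refine E3_comp _ h.1 ?_ ?_
      · rintro ⟨⟨α, hα⟩, β, e, hβ⟩
        refine ⟨β.map Subtype.val, hβ, ?_⟩
        change (Λ (pe α (some h))) 0 0 = _
        have e' : α = β.map (E3_in H hH κ tg) := e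
        subst e'
        rw [hA]
        simp [e11]
      · rintro ⟨⟨α, hα⟩, β, e, hβ⟩ ⟨⟨α', hα'⟩, β', e', hβ'⟩ γ hγ h1 h2
        have e1 : α = β.map (E3_in H hH κ tg) := e
        have e1' : α' = β'.map (E3_in H hH κ tg) := e'
        subst e1 e1'
        change (Λ (pe (β.map (E3_in H hH κ tg)) (some h))) 0 0 = _ at h1
        change (Λ (pe (β'.map (E3_in H hH κ tg)) (some h))) 0 0 = _ at h2
        rw [hA] at h1 h2
        have h3 : (pe (β.map Subtype.val) h.1 : LA G) = pe γ h.1 := by simpa [e11] using h1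
        have h4 : (pe (β'.map Subtype.val) h.1 : LA G) = pe γ h.1 := by simpa [e11] using h2
        have h5 := E3_pe_inj hβ hβ' (h3.trans h4.symm)
        have h6 : β = β' := hvi h5
        subst h6
        rfl
  · have hsn := fun k => E3_sn hE k
    have hval : ∀ (n : ℕ) (k : κ) (β : List {e : G.Ed // G.s e ∈ H}),
        star (pw x σ n0 * ν k0) * (pw x σ n * ν k * pe (β.map Subtype.val) h.1) =
        if n0 = n then (if k0 = k then vx (tg k0).1 * pe (β.map Subtype.val) h.1 else 0) else 0 := by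
      intro n k β
      rw [← mul_assoc, E3_orth hE.isom (hsn k0) (hsn k) (hE.yn k)]
      split_ifs with h1 h2
      · rw [hE.orth, if_pos h2]
        rfl
      · rw [hE.orth, if_neg h2, zero_mul]
      · rw [zero_mul]
    refine ⟨fun α => ∃ β : List {e : G.Ed // G.s e ∈ H},
      α.1 = List.replicate n0 none ++ some (Sum.inr k0) :: β.map (E3_in H hH κ tg) ∧
      G.IsP (β.map Subtype.val) h.1 ∧ G.st (β.map Subtype.val) h.1 = (tg k0).1, 
      { toFun := fun Z => star (pw x σ n0 * ν k0) * Z 1 0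
        map_add' := fun Z W => by rw [Matrix.add_apply, mul_add]
        map_smul' := fun c Z => by
          rw [Matrix.smul_apply, mul_smul_comm, RingHom.id_apply] },
      ⟨β0, e0, hβ0, hk0⟩, ?_, ?_⟩
    · rintro ⟨α, hα⟩ hn
      rcases E3_some hα with ⟨β, e, hβ⟩ | ⟨n, k, β, e, hβ, hk⟩
      · subst e
        change star (pw x σ n0 * ν k0) * (Λ (pe (β.map (E3_in H hH κ tg)) (some h))) 1 0 = 0
        rw [hA]
        simp [e11]
      · subst e
        change star (pw x σ n0 * ν k0) * (Λ (pe (E := XG G H hH κ tg)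
          (List.replicate n none ++ some (Sum.inr k) ::
          β.map (E3_in H hH κ tg)) (some h))) 1 0 = 0
        rw [hB]
        have h1 : (e21 (pw x σ n * ν k * pe (β.map Subtype.val) h.1) : M2x (LA G)) 1 0 =
          pw x σ n * ν k * pe (β.map Subtype.val) h.1 := by simp [e21]
        rw [h1, hval]
        split_ifs with h2 h3
        · subst h2 h3
          exact absurd ⟨β, rfl, hβ, hk⟩ hn
        · rfl
        · rfl
    · have hval2 : ∀ β : List {e : G.Ed // G.s e ∈ H}, G.st (β.map Subtype.val) h.1 = (tg k0).1 →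
          star (pw x σ n0 * ν k0) * (Λ (pe (E := XG G H hH κ tg)
          (List.replicate n0 none ++ some (Sum.inr k0) ::
          β.map (E3_in H hH κ tg)) (some h))) 1 0 = pe (β.map Subtype.val) h.1 := by
        intro β hβ
        rw [hB]
        have h1 : (e21 (pw x σ n0 * ν k0 * pe (β.map Subtype.val) h.1) : M2x (LA G)) 1 0 =
          pw x σ n0 * ν k0 * pe (β.map Subtype.val) h.1 := by simp [e21]
        rw [h1, hval, if_pos rfl, if_pos rfl, ← hβ, vx_mul_pe]
      refine E3_comp _ h.1 ?_ ?_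
      · rintro ⟨⟨α, hα⟩, β, e, hβ, hβk⟩
        refine ⟨β.map Subtype.val, hβ, ?_⟩
        have e' : α = List.replicate n0 none ++ some (Sum.inr k0) :: β.map (E3_in H hH κ tg) := e
        subst e'
        exact hval2 β hβk
      · rintro ⟨⟨α, hα⟩, β, e, hβ, hβk⟩ ⟨⟨α', hα'⟩, β', e', hβ', hβk'⟩ γ hγ h1 h2
        have e1 : α = List.replicate n0 none ++ some (Sum.inr k0) :: β.map (E3_in H hH κ tg) := e
        have e1' : α' = List.replicate n0 none ++ some (Sum.inr k0) ::
          β'.map (E3_in H hH κ tg) := e'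
        subst e1 e1'
        have h3 := (hval2 β hβk).symm.trans h1
        have h4 := (hval2 β' hβk').symm.trans h2
        have h5 := E3_pe_inj hβ hβ' (h3.trans h4.symm)
        have h6 : β = β' := hvi h5
        subst h6
        rfl

theorem lam_inj (hG : NG G) {f : G.Ed} (hf : G.r f = G.s f)
    (hH : ∀ e, G.s e ∈ NR G (G.s f) → G.r e ∈ NR G (G.s f)) {κ : Type} [Fintype κ]
    {tg : κ → (NR G (G.s f))} {x σ : LA G} {ν : κ → LA G}
    (hE : Ext (NonUnitalStarAlgHom.id ℂ (LA G)) tg x σ ν)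
    (hsh : ShEq (NR G (G.s f)) x σ (vx (G.s f)) (ed f))
    {Λ : LA (XG G (NR G (G.s f)) hH κ tg) →⋆ₙₐ[ℂ] M2x (LA G)}
    (hΛ : IsLam (NonUnitalStarAlgHom.id ℂ (LA G)) x σ ν Λ) : Function.Injective Λ := by
  refine red Λ fun v => ?_
  match v with
  | none => exact E3_caseN hG hf hH hsh hΛ
  | some h => exact E3_caseS hG hH hE hΛ h

end DC29
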