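import Pool.Agent.LibDC29.E1
import Pool.Agent.LibDC29.A7
import Pool.Agent.LibDC29.If

/-!
[DC E4] Generation.  `N, ρ, a` from `hsh`, `y = vx c`, `τ = ed f`.
* `tele`: induction on `n`; `pw x σ (n+1) = pw x σ n * σ`.
* `gen1`: `z * eS S = z`.  For `v ∈ S`: `SM1` for `star ρ * z * vx v`; take `K` = the maximum over `S`
  (`star (pw K) * u = 0` persists for larger `K`): `star (pw y τ K) * (star ρ * z) = 0`.  `pw x σ (K + N) = pw x σ K * (ρ * a) =
  ρ * pw y τ K * a` (`pw_add`, `pw_conj`), so `star (pw x σ (K + N)) * z = 0`.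
* `pl_conj`: `star ρ * pz x σ n * ρ = pz y τ n`.
* `gen2`: `SM2` for `star ρ * z * ρ`: `p`, `K`.  For `u = z - pl x σ p`: `star ρ * u * ρ = (star ρ * z * ρ) - pl y τ p`;
  `star (pw x σ (K+N)) * u * pw x σ (K+N) = star a * star (pw y τ K) * (star ρ * u * ρ) * pw y τ K * a = 0`.
* `xh_expand`: `gen1` and `tele` and `df`: `z = (x - pw K star (pw K)) z`.
* `xx_expand`: `u = e_K u + pw K star (pw K) u e_K`, `e_K = x - pw K star (pw K)`.
-/

namespace DC29

open LPA74

variable {G : Gph} {x σ z : LA G}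

theorem tele {A : Type} [NonUnitalRing A] [StarRing A] {x σ : A} (h : Isom x σ) (n : ℕ) :
    x - pw x σ n * star (pw x σ n) =
      ∑ i ∈ Finset.range n, pw x σ i * (x - σ * star σ) * star (pw x σ i) := by
  have hps : ∀ m, pw x σ m * σ = pw x σ (m + 1) := by
    intro m
    have h1 := pw_add h.xs h.pj.1 m 1
    have h2 : pw x σ 1 = σ := h.sx
    rwa [h2] at h1
  induction n with
  | zero =>
    rw [Finset.range_zero, Finset.sum_empty]
    show x - x * star x = 0
    rw [h.pj.2, h.pj.1, sub_self]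
  | succ n ih =>
    rw [Finset.sum_range_succ, ← ih, ← hps n]
    have h1 : pw x σ n * x = pw x σ n := (h.pw_corner n).2.1
    rw [mul_sub, h1, sub_mul, star_mul]
    simp only [mul_assoc]
    abel

theorem E4_ps {A : Type} [NonUnitalRing A] [StarRing A] {x σ : A} (h : Isom x σ) (m n : ℕ) :
    star (pw x σ (m + n)) = star (pw x σ n) * star (pw x σ m) := by
  rw [← pw_add h.xs h.pj.1 m n, star_mul]

theorem E4_pz {A : Type} [NonUnitalRing A] [StarRing A] {x σ : A} (h : Isom x σ) (n : ℤ) :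
    x * pz x σ n = pz x σ n ∧ pz x σ n * x = pz x σ n := by
  have hs := h.pj.2
  cases n with
  | ofNat n => exact ⟨(h.pw_corner n).1, (h.pw_corner n).2.1⟩
  | negSucc n =>
    show x * star (pw x σ (n + 1)) = star (pw x σ (n + 1)) ∧
      star (pw x σ (n + 1)) * x = star (pw x σ (n + 1))
    have h1 := congrArg star (h.pw_corner (n + 1)).2.1
    have h2 := congrArg star (h.pw_corner (n + 1)).1
    rw [star_mul, hs] at h1 h2
    exact ⟨h1, h2⟩

theorem E4_conj {A : Type} [NonUnitalRing A] [StarRing A] {x y σ τ ρ : A} (hx : Isom x σ)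
    (hy : Isom y τ) (h0 : star ρ * ρ = y) (h1 : σ * ρ = ρ * τ) (h2 : x * ρ = ρ) (h3 : ρ * y = ρ)
    (n : ℤ) : star ρ * pz x σ n * ρ = pz y τ n := by
  have key : ∀ n : ℕ, star ρ * pw x σ n * ρ = pw y τ n := by
    intro n
    rw [mul_assoc, ← pw_conj h1 h2 h3 n, ← mul_assoc, h0]
    exact (hy.pw_corner n).1
  cases n with
  | ofNat n => exact key n
  | negSucc n =>
    show star ρ * star (pw x σ (n + 1)) * ρ = star (pw y τ (n + 1))
    rw [← key (n + 1), star_mul, star_mul, star_star, ← mul_assoc]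

theorem E4_pl {A : Type} [NonUnitalRing A] [StarRing A] [Module ℂ A] [IsScalarTower ℂ A A]
    [SMulCommClass ℂ A A] {x y σ τ ρ : A} (hx : Isom x σ)
    (hy : Isom y τ) (h0 : star ρ * ρ = y) (h1 : σ * ρ = ρ * τ) (h2 : x * ρ = ρ) (h3 : ρ * y = ρ)
    (p : LaurentPolynomial ℂ) : star ρ * pl x σ p * ρ = pl y τ p := by
  unfold pl Finsupp.sum
  rw [Finset.mul_sum, Finset.sum_mul]
  refine Finset.sum_congr rfl fun n _ => ?_
  rw [mul_smul_comm, smul_mul_assoc, E4_conj hx hy h0 h1 h2 h3]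

theorem E4_eS {G : Gph} {S : Finset G.V} {v : G.V} (h : v ∈ S) :
    (eS S : LA G) * vx v = vx v ∧ (vx v : LA G) * eS S = vx v := by
  unfold eS
  rw [Finset.sum_mul, Finset.mul_sum]
  constructor
  · rw [Finset.sum_eq_single v, vx_mul_self]
    · intro w _ hw
      exact vx_mul_ne hw
    · intro h'
      exact absurd h h'
  · rw [Finset.sum_eq_single v, vx_mul_self]
    · intro w _ hw
      exact vx_mul_ne hw.symm
    · intro h'
      exact absurd h h'

theorem E4_eSS {G : Gph} {S T : Finset G.V} (h : S ⊆ T) : (eS S : LA G) * eS T = eS S := by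
  conv_lhs => rw [eS, Finset.sum_mul]
  exact Finset.sum_congr rfl fun v hv => (E4_eS (h hv)).2

theorem pl_xx (h : Isom x σ) (p : LaurentPolynomial ℂ) : XX x (pl x σ p) := by
  unfold XX pl Finsupp.sum
  rw [Finset.mul_sum, Finset.sum_mul]
  constructor
  · refine Finset.sum_congr rfl fun n _ => ?_
    rw [mul_smul_comm, (E4_pz h n).1]
  · refine Finset.sum_congr rfl fun n _ => ?_
    rw [smul_mul_assoc, (E4_pz h n).2]

variable (hG : NG G) {f : G.Ed} (hf : G.r f = G.s f) (hx : Isom x σ)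
    (hsh : ShEq (NR G (G.s f)) x σ (vx (G.s f)) (ed f))
include hG hf hx hsh

theorem gen1 (hz : XH (NR G (G.s f)) x z) : ∃ K, star (pw x σ K) * z = 0 := by
  obtain ⟨N, ρ, a, ⟨h1, h2, h3⟩, ⟨h4, h5, h6⟩, h7, h8, h9, h10, h11, h12⟩ := hsh
  obtain ⟨hxz, S, hS, hzS⟩ := hz
  have hy : Isom (vx (G.s f) : LA G) (ed f) := Isom.loop hf
  have hyρ : vx (G.s f) * star ρ = star ρ := by
    have := congrArg star h3
    rwa [star_mul, star_vx] at this
  have hv : ∀ v : G.V, ∃ K, v ∈ S → star (pw (vx (G.s f)) (ed f) K) * (star ρ * z * vx v) = 0 := by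
    intro v
    by_cases hvS : v ∈ S
    · obtain ⟨K, hK⟩ := SM1 hG hf (z := star ρ * z * vx v) (v := v)
        (by rw [← mul_assoc, ← mul_assoc, hyρ]) (by rw [mul_assoc, vx_mul_self])
        (hS (Finset.mem_coe.2 hvS))
      exact ⟨K, fun _ => hK⟩
    · exact ⟨0, fun h => absurd h hvS⟩
  choose Kf hKf using hv
  have hK : ∀ v ∈ S, star (pw (vx (G.s f)) (ed f) (S.sup Kf)) * (star ρ * z * vx v) = 0 := by
    intro v hvS
    obtain ⟨k, hk⟩ := Nat.exists_eq_add_of_le (Finset.le_sup (f := Kf) hvS)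
    rw [hk, E4_ps hy, mul_assoc, hKf v hvS, mul_zero]
  have h13 : star (pw (vx (G.s f)) (ed f) (S.sup Kf)) * (star ρ * z) = 0 := by
    calc star (pw (vx (G.s f)) (ed f) (S.sup Kf)) * (star ρ * z)
        = star (pw (vx (G.s f)) (ed f) (S.sup Kf)) * (star ρ * (z * eS S)) := by rw [hzS]
      _ = ∑ v ∈ S, star (pw (vx (G.s f)) (ed f) (S.sup Kf)) * (star ρ * z * vx v) := by
          unfold eS
          rw [Finset.mul_sum, Finset.mul_sum, Finset.mul_sum]
          refine Finset.sum_congr rfl fun v _ => ?_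
          simp only [mul_assoc]
      _ = 0 := Finset.sum_eq_zero fun v hvS => hK v hvS
  refine ⟨S.sup Kf + N, ?_⟩
  rw [← pw_add hx.xs hx.pj.1, ← h9, ← mul_assoc, ← pw_conj h7 h2 h3, star_mul, star_mul]
  rw [mul_assoc, mul_assoc, h13, mul_zero]

theorem gen2 (hz : XX x z) : ∃ (p : LaurentPolynomial ℂ) (K : ℕ),
    star (pw x σ K) * (z - pl x σ p) * pw x σ K = 0 := by
  obtain ⟨N, ρ, a, ⟨h1, h2, h3⟩, ⟨h4, h5, h6⟩, h7, h8, h9, h10, h11, h12⟩ := hsh
  have hy : Isom (vx (G.s f) : LA G) (ed f) := Isom.loop hf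
  have hyρ : vx (G.s f) * star ρ = star ρ := by
    have := congrArg star h3
    rwa [star_mul, star_vx] at this
  obtain ⟨p, K, hK, _⟩ := SM2 hG hf (z := star ρ * z * ρ)
    (by rw [← mul_assoc, ← mul_assoc, hyρ]) (by rw [mul_assoc, h3])
  have h13 : star ρ * (z - pl x σ p) * ρ = star ρ * z * ρ - pl (vx (G.s f)) (ed f) p := by
    rw [mul_sub, sub_mul, E4_pl hx hy h1 h7 h2 h3]
  refine ⟨p, K + N, ?_⟩
  have h14 : pw x σ (K + N) = ρ * pw (vx (G.s f)) (ed f) K * a := by
    rw [← pw_add hx.xs hx.pj.1, ← h9, ← mul_assoc, ← pw_conj h7 h2 h3]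
  rw [h14, star_mul, star_mul]
  calc star a * (star (pw (vx (G.s f)) (ed f) K) * star ρ) * (z - pl x σ p) *
        (ρ * pw (vx (G.s f)) (ed f) K * a)
      = star a * (star (pw (vx (G.s f)) (ed f) K) * (star ρ * (z - pl x σ p) * ρ)) *
          (pw (vx (G.s f)) (ed f) K * a) := by simp only [mul_assoc]
    _ = 0 := by rw [h13, hK, mul_zero, zero_mul]

omit hG hf hsh in
theorem E4_tele {κ : Type} [Fintype κ] {tg : κ → (NR G (G.s f))} {ν : κ → LA G}
    (hE : Ext (NonUnitalStarAlgHom.id ℂ (LA G)) tg x σ ν) (K : ℕ) :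
    x - pw x σ K * star (pw x σ K) =
      ∑ i ∈ Finset.range K, ∑ k, pw x σ i * ν k * star (pw x σ i * ν k) := by
  rw [tele hx K]
  refine Finset.sum_congr rfl fun i _ => ?_
  rw [hE.df, Finset.mul_sum, Finset.sum_mul]
  refine Finset.sum_congr rfl fun k _ => ?_
  rw [star_mul]
  simp only [mul_assoc]

theorem xh_expand {κ : Type} [Fintype κ] {tg : κ → (NR G (G.s f))} {ν : κ → LA G}
    (hE : Ext (NonUnitalStarAlgHom.id ℂ (LA G)) tg x σ ν) (hz : XH (NR G (G.s f)) x z) :
    ∃ K : ℕ, z = ∑ i ∈ Finset.range K, ∑ k, pw x σ i * ν k * (star (ν k) * star (pw x σ i) * z) ∧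
      ∀ i k, InCor (NR G (G.s f)) (star (ν k) * star (pw x σ i) * z) ∧
        XH (NR G (G.s f)) x (pw x σ i * ν k) := by
  obtain ⟨K, hK⟩ := gen1 hG hf hx hsh hz
  obtain ⟨hxz, S, hS, hzS⟩ := hz
  have hnv : ∀ k, ν k * vx (tg k).1 = ν k := fun k => hE.nv k
  refine ⟨K, ?_, fun i k => ⟨?_, ?_, {(tg k).1}, ?_, ?_⟩⟩
  · have h1 : (x - pw x σ K * star (pw x σ K)) * z = z := by
      rw [sub_mul, hxz, mul_assoc, hK, mul_zero, sub_zero]
    conv_lhs => rw [← h1, E4_tele hx hE K, Finset.sum_mul]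
    refine Finset.sum_congr rfl fun i _ => ?_
    rw [Finset.sum_mul]
    refine Finset.sum_congr rfl fun k _ => ?_
    rw [star_mul]
    simp only [mul_assoc]
  · classical
    refine ⟨insert (tg k).1 S, ?_, ?_, ?_⟩
    · intro v hv
      rcases Finset.mem_insert.1 (Finset.mem_coe.1 hv) with h | h
      · rw [h]
        exact (tg k).2
      · exact hS (Finset.mem_coe.2 h)
    · have h1 : star (ν k) = vx (tg k).1 * star (ν k) := by
        have := congrArg star (hnv k)
        rw [star_mul, star_vx] at this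
        exact this.symm
      calc eS (insert (tg k).1 S) * (star (ν k) * star (pw x σ i) * z)
          = eS (insert (tg k).1 S) * (vx (tg k).1 * star (ν k) * star (pw x σ i) * z) := by
            rw [← h1]
        _ = (eS (insert (tg k).1 S) * vx (tg k).1) * (star (ν k) * star (pw x σ i) * z) := by
            simp only [mul_assoc]
        _ = vx (tg k).1 * (star (ν k) * star (pw x σ i) * z) := by
            rw [(E4_eS (Finset.mem_insert_self _ _)).1]
        _ = (vx (tg k).1 * star (ν k)) * star (pw x σ i) * z := by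
            simp only [mul_assoc]
        _ = _ := by rw [← h1]
    · have h1 : z * eS (insert (tg k).1 S) = z := by
        calc z * eS (insert (tg k).1 S) = z * (eS S * eS (insert (tg k).1 S)) := by
              rw [← mul_assoc, hzS]
          _ = z := by rw [E4_eSS (Finset.subset_insert _ _), hzS]
      rw [mul_assoc, h1]
  · rw [← mul_assoc, (hx.pw_corner i).1]
  · intro v hv
    rw [Finset.coe_singleton, Set.mem_singleton_iff] at hv
    rw [hv]
    exact (tg k).2
  · have h1 : (eS {(tg k).1} : LA G) = vx (tg k).1 := by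
      unfold eS
      rw [Finset.sum_singleton]
    rw [h1, mul_assoc, hnv k]

theorem xx_expand {κ : Type} [Fintype κ] {tg : κ → (NR G (G.s f))} {ν : κ → LA G}
    (hE : Ext (NonUnitalStarAlgHom.id ℂ (LA G)) tg x σ ν) (hz : XX x z) :
    ∃ (p : LaurentPolynomial ℂ) (K : ℕ), z = pl x σ p +
      ∑ i ∈ Finset.range K, ∑ k, pw x σ i * ν k *
        star (star (z - pl x σ p) * (pw x σ i * ν k)) +
      ∑ i ∈ Finset.range K, ∑ k, (pw x σ K * star (pw x σ K) * (z - pl x σ p) *
        (pw x σ i * ν k)) * star (pw x σ i * ν k) := by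
  obtain ⟨p, K, hK⟩ := gen2 hG hf hx hsh hz
  obtain ⟨u, hu⟩ : ∃ u, u = z - pl x σ p := ⟨_, rfl⟩
  have hxu : x * u = u := by
    rw [hu, mul_sub, hz.1, (pl_xx hx p).1]
  have hux : u * x = u := by
    rw [hu, sub_mul, hz.2, (pl_xx hx p).2]
  refine ⟨p, K, ?_⟩
  rw [← hu] at hK ⊢
  have h1 : (x - pw x σ K * star (pw x σ K)) * u + pw x σ K * star (pw x σ K) * u *
      (x - pw x σ K * star (pw x σ K)) = u := by
    have h2 : pw x σ K * star (pw x σ K) * u * (pw x σ K * star (pw x σ K)) = 0 := by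
      calc pw x σ K * star (pw x σ K) * u * (pw x σ K * star (pw x σ K))
          = pw x σ K * (star (pw x σ K) * u * pw x σ K) * star (pw x σ K) := by
            simp only [mul_assoc]
        _ = 0 := by rw [hK, mul_zero, zero_mul]
    rw [mul_sub, h2, sub_zero, sub_mul, hxu, mul_assoc (pw x σ K * star (pw x σ K)) u x, hux]
    abel
  have h3 : (x - pw x σ K * star (pw x σ K)) * u =
      ∑ i ∈ Finset.range K, ∑ k, pw x σ i * ν k * star (star u * (pw x σ i * ν k)) := by
    rw [E4_tele hx hE K, Finset.sum_mul]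
    refine Finset.sum_congr rfl fun i _ => ?_
    rw [Finset.sum_mul]
    refine Finset.sum_congr rfl fun k _ => ?_
    rw [star_mul (star u), star_star, mul_assoc]
  have h4 : pw x σ K * star (pw x σ K) * u * (x - pw x σ K * star (pw x σ K)) =
      ∑ i ∈ Finset.range K, ∑ k, (pw x σ K * star (pw x σ K) * u * (pw x σ i * ν k)) *
        star (pw x σ i * ν k) := by
    rw [E4_tele hx hE K, Finset.mul_sum]
    refine Finset.sum_congr rfl fun i _ => ?_
    rw [Finset.mul_sum]
    refine Finset.sum_congr rfl fun k _ => ?_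
    simp only [mul_assoc]
  rw [← h3, ← h4, add_assoc, h1, hu]
  abel

end DC29
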