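import Pool.Agent.LibDC29.E3
import Pool.Agent.LibDC29.E4

/-!
[DC E5] Existence of the representation.  `H = NR G (s f)`, hereditary (`NR_her`).  `Λ` (for the identity, `x`, `σ`, `ν`) and `Λ'`
(for `Ψ`, `y`, `τ`, `ν'`) from `exists_lam`; `Λ` is injective (`lam_inj`).  `T : Λ u ↦ Λ' u` on the range of `Λ`;
`w2 z` is the entry `(1,1)` of `T (e22 z)`, `w1 z` the entry `(1,0)` of `T (e21 z)`.
-/

namespace DC29

open LPA74

section rel
variable {G : Gph} {A B C : Type} [NonUnitalRing A] [StarRing A] [Module ℂ A]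
  [NonUnitalRing B] [StarRing B] [Module ℂ B] [NonUnitalRing C] [StarRing C] [Module ℂ C]

/-- `Z` is `Λ u`. -/
private def E5_Rg (Λ : C →⋆ₙₐ[ℂ] A) (Z : A) : Prop := ∃ u, Λ u = Z

private theorem E5_Rg.add {Λ : C →⋆ₙₐ[ℂ] A} {Z W : A} (h : E5_Rg Λ Z) (h' : E5_Rg Λ W) :
    E5_Rg Λ (Z + W) := by
  obtain ⟨u, rfl⟩ := h
  obtain ⟨v, rfl⟩ := h'
  exact ⟨u + v, map_add _ _ _⟩

private theorem E5_Rg.mul {Λ : C →⋆ₙₐ[ℂ] A} {Z W : A} (h : E5_Rg Λ Z) (h' : E5_Rg Λ W) :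
    E5_Rg Λ (Z * W) := by
  obtain ⟨u, rfl⟩ := h
  obtain ⟨v, rfl⟩ := h'
  exact ⟨u * v, map_mul _ _ _⟩

private theorem E5_Rg.smul {Λ : C →⋆ₙₐ[ℂ] A} {Z : A} (c : ℂ) (h : E5_Rg Λ Z) :
    E5_Rg Λ (c • Z) := by
  obtain ⟨u, rfl⟩ := h
  exact ⟨c • u, map_smul _ _ _⟩

private theorem E5_Rg.star {Λ : C →⋆ₙₐ[ℂ] A} {Z : A} (h : E5_Rg Λ Z) :
    E5_Rg Λ (star Z) := by
  obtain ⟨u, rfl⟩ := h
  exact ⟨_, map_star _ _⟩

private theorem E5_Rg.zero {Λ : C →⋆ₙₐ[ℂ] A} : E5_Rg Λ 0 := ⟨0, map_zero _⟩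

private theorem E5_Rg.sum {Λ : C →⋆ₙₐ[ℂ] A} {ι : Type} (s : Finset ι) (F : ι → A)
    (h : ∀ i ∈ s, E5_Rg Λ (F i)) : E5_Rg Λ (∑ i ∈ s, F i) := by
  classical
  induction s using Finset.induction_on with
  | empty => rw [Finset.sum_empty]; exact E5_Rg.zero
  | insert i s hi ih =>
    rw [Finset.sum_insert hi]
    exact (h i (Finset.mem_insert_self i s)).add
      (ih fun j hj => h j (Finset.mem_insert_of_mem hj))

open Classical in
/-- the map `Λ u ↦ Λ' u`. -/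
private noncomputable def E5_T (Λ : C →⋆ₙₐ[ℂ] A) (Λ' : C →⋆ₙₐ[ℂ] B) (Z : A) : B :=
  if h : ∃ u, Λ u = Z then Λ' h.choose else 0

private theorem E5_T_eq {Λ : C →⋆ₙₐ[ℂ] A} {Λ' : C →⋆ₙₐ[ℂ] B} (hi : Function.Injective Λ)
    (u : C) : E5_T Λ Λ' (Λ u) = Λ' u := by
  have h : ∃ v, Λ v = Λ u := ⟨u, rfl⟩
  rw [E5_T, dif_pos h, hi h.choose_spec]

variable {Λ : C →⋆ₙₐ[ℂ] A} {Λ' : C →⋆ₙₐ[ℂ] B} (hi : Function.Injective Λ) {Z W : A}
include hi

private theorem E5_T_add (h : E5_Rg Λ Z) (h' : E5_Rg Λ W) :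
    E5_T Λ Λ' (Z + W) = E5_T Λ Λ' Z + E5_T Λ Λ' W := by
  obtain ⟨u, rfl⟩ := h
  obtain ⟨v, rfl⟩ := h'
  rw [← map_add, E5_T_eq hi, E5_T_eq hi, E5_T_eq hi, map_add]

private theorem E5_T_mul (h : E5_Rg Λ Z) (h' : E5_Rg Λ W) :
    E5_T Λ Λ' (Z * W) = E5_T Λ Λ' Z * E5_T Λ Λ' W := by
  obtain ⟨u, rfl⟩ := h
  obtain ⟨v, rfl⟩ := h'
  rw [← map_mul, E5_T_eq hi, E5_T_eq hi, E5_T_eq hi, map_mul]

private theorem E5_T_smul (c : ℂ) (h : E5_Rg Λ Z) :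
    E5_T Λ Λ' (c • Z) = c • E5_T Λ Λ' Z := by
  obtain ⟨u, rfl⟩ := h
  rw [← map_smul, E5_T_eq hi, E5_T_eq hi, map_smul]

private theorem E5_T_star (h : E5_Rg Λ Z) :
    E5_T Λ Λ' (star Z) = star (E5_T Λ Λ' Z) := by
  obtain ⟨u, rfl⟩ := h
  rw [← map_star, E5_T_eq hi, E5_T_eq hi, map_star]

end rel

section mats
variable {A : Type} [NonUnitalRing A]

private theorem E5_c22 (p : A) (Z : M2x A) : e22 p * Z * e22 p = e22 (p * Z 1 1 * p) := by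
  ext i j; fin_cases i <;> fin_cases j <;> simp [e22, Matrix.mul_apply, Matrix.vecMul, dotProduct, Fin.sum_univ_two]

private theorem E5_c21 (p q : A) (Z : M2x A) : e22 p * Z * e11 q = e21 (p * Z 1 0 * q) := by
  ext i j; fin_cases i <;> fin_cases j <;>
    simp [e22, e11, e21, Matrix.mul_apply, Matrix.vecMul, dotProduct, Fin.sum_univ_two]

private theorem E5_ap22 (z : A) : (e22 z : M2x A) 1 1 = z := by simp [e22]

private theorem E5_ap21 (z : A) : (e21 z : M2x A) 1 0 = z := by simp [e21]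

private theorem E5_sum21 {ι : Type} (s : Finset ι) (F : ι → A) :
    (e21 (∑ i ∈ s, F i) : M2x A) = ∑ i ∈ s, e21 (F i) :=
  map_sum (AddMonoidHom.mk' (e21 : A → M2x A) e21_add) F s

private theorem E5_sum22 {ι : Type} (s : Finset ι) (F : ι → A) :
    (e22 (∑ i ∈ s, F i) : M2x A) = ∑ i ∈ s, e22 (F i) :=
  map_sum (AddMonoidHom.mk' (e22 : A → M2x A) e22_add) F s

end mats

variable {G : Gph} {A : Type} [NonUnitalRing A] [StarRing A] [Module ℂ A] [IsScalarTower ℂ A A]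
  [SMulCommClass ℂ A A] [StarModule ℂ A]

omit [IsScalarTower ℂ A A] [SMulCommClass ℂ A A] [StarModule ℂ A] in
/-- two homomorphisms on the same element: paths. -/
private theorem E5_path {H : Set G.V} {hH : ∀ e, G.s e ∈ H → G.r e ∈ H} {κ : Type} {tg : κ → H}
    {x σ : LA G} {ν : κ → LA G} {Λ : LA (XG G H hH κ tg) →⋆ₙₐ[ℂ] M2x (LA G)}
    (hΛ : IsLam (NonUnitalStarAlgHom.id ℂ (LA G)) x σ ν Λ) {Ψ : LA G →⋆ₙₐ[ℂ] A} {y τ : A}
    {ν' : κ → A} {Λ' : LA (XG G H hH κ tg) →⋆ₙₐ[ℂ] M2x A} (hΛ' : IsLam Ψ y τ ν' Λ')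
    (α : List G.Ed) (u : G.V) (hα : G.IsP α u) (hs : G.st α u ∈ H) :
    ∃ v, Λ v = e11 (pe α u) ∧ Λ' v = e11 (Ψ (pe α u)) := by
  induction α with
  | nil => exact ⟨vx (E := XG G H hH κ tg) (some ⟨u, hs⟩), hΛ.v1 ⟨u, hs⟩, hΛ'.v1 ⟨u, hs⟩⟩
  | cons g l ih =>
    obtain ⟨h1, h2⟩ := hα
    have hs' : G.s g ∈ H := hs
    have h3 : G.st l u ∈ H := by
      rw [← h1]
      exact hH g hs'
    obtain ⟨v, h4, h5⟩ := ih h2 h3
    refine ⟨ed (E := XG G H hH κ tg) (some (Sum.inl ⟨g, hs'⟩)) * v, ?_, ?_⟩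
    · rw [map_mul, h4, hΛ.l1, e11_mul_e11]
      rfl
    · rw [map_mul, h5, hΛ'.l1, e11_mul_e11, ← map_mul]
      rfl

private theorem E5_cor {H : Set G.V} {hH : ∀ e, G.s e ∈ H → G.r e ∈ H} {κ : Type} {tg : κ → H}
    {x σ : LA G} {ν : κ → LA G} {Λ : LA (XG G H hH κ tg) →⋆ₙₐ[ℂ] M2x (LA G)}
    (hΛ : IsLam (NonUnitalStarAlgHom.id ℂ (LA G)) x σ ν Λ) {Ψ : LA G →⋆ₙₐ[ℂ] A} {y τ : A}
    {ν' : κ → A} {Λ' : LA (XG G H hH κ tg) →⋆ₙₐ[ℂ] M2x A} (hΛ' : IsLam Ψ y τ ν' Λ')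
    {z : LA G} (hz : InCor H z) :
    ∃ v, Λ v = e11 z ∧ Λ' v = e11 (Ψ z) := by
  refine Submodule.span_induction (p := fun z _ => ∃ v, Λ v = e11 z ∧ Λ' v = e11 (Ψ z))
    ?_ ?_ ?_ ?_ (cor_span hz)
  · rintro z ⟨u, α, β, hα, hβ, hsα, hsβ, rfl⟩
    obtain ⟨v, h1, h2⟩ := E5_path hΛ hΛ' α u hα hsα
    obtain ⟨w, h3, h4⟩ := E5_path hΛ hΛ' β u hβ hsβ
    refine ⟨v * star w, ?_, ?_⟩
    · rw [map_mul, map_star, h1, h3, star_e11, e11_mul_e11]
    · rw [map_mul, map_star, h2, h4, star_e11, e11_mul_e11, map_mul, map_star]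
  · exact ⟨0, by rw [map_zero, e11_zero], by rw [map_zero, map_zero, e11_zero]⟩
  · rintro z w - - ⟨v, h1, h2⟩ ⟨v', h3, h4⟩
    exact ⟨v + v', by rw [map_add, h1, h3, e11_add], by rw [map_add, map_add, h2, h4, e11_add]⟩
  · rintro c z - ⟨v, h1, h2⟩
    exact ⟨c • v, by rw [map_smul, h1, e11_smul], by rw [map_smul, map_smul, h2, e11_smul]⟩

theorem exists_OM (hG : NG G) {f : G.Ed} (hf : G.r f = G.s f) {κ : Type} [Fintype κ]
    {tg : κ → (NR G (G.s f))} {x σ : LA G} {ν : κ → LA G}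
    (hE : Ext (NonUnitalStarAlgHom.id ℂ (LA G)) tg x σ ν)
    (hsh : ShEq (NR G (G.s f)) x σ (vx (G.s f)) (ed f)) {Ψ : LA G →⋆ₙₐ[ℂ] A} {y τ : A}
    {ν' : κ → A} (hE' : Ext Ψ tg y τ ν') :
    ∃ w1 w2, OM (NR G (G.s f)) Ψ x w1 w2 ∧ w2 x = y ∧ w2 σ = τ ∧ ∀ k, w1 (ν k) = ν' k := by
  classical
  obtain ⟨Λ, hΛ⟩ := exists_lam (NR_her (G.s f)) hE
  obtain ⟨Λ', hΛ'⟩ := exists_lam (NR_her (G.s f)) hE'
  have hi : Function.Injective Λ := lam_inj hG hf (NR_her (G.s f)) hE hsh hΛ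
  have hx := hE.isom
  have hxx : x * x = x := hx.pj.1
  -- corner elements
  have R11 : ∀ z, InCor (NR G (G.s f)) z → E5_Rg Λ (e11 z) := fun z hz => by
    obtain ⟨v, h1, -⟩ := E5_cor hΛ hΛ' hz
    exact ⟨v, h1⟩
  have T11 : ∀ z, InCor (NR G (G.s f)) z → E5_T Λ Λ' (e11 z) = e11 (Ψ z) := fun z hz => by
    obtain ⟨v, h1, h2⟩ := E5_cor hΛ hΛ' hz
    rw [← h1, E5_T_eq hi, h2]
  have Rx : E5_Rg Λ (e22 x) := ⟨_, hΛ.v0⟩
  have Tx : E5_T Λ Λ' (e22 x) = e22 y := by rw [← hΛ.v0, E5_T_eq hi, hΛ'.v0]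
  have Rσ : E5_Rg Λ (e22 σ) := ⟨_, hΛ.l0⟩
  have Tσ : E5_T Λ Λ' (e22 σ) = e22 τ := by rw [← hΛ.l0, E5_T_eq hi, hΛ'.l0]
  have Rν : ∀ k, E5_Rg Λ (e21 (ν k)) := fun k => ⟨_, hΛ.l2 k⟩
  have Tν : ∀ k, E5_T Λ Λ' (e21 (ν k)) = e21 (ν' k) := fun k => by
    rw [← hΛ.l2 k, E5_T_eq hi, hΛ'.l2]
  have Rpw : ∀ n, E5_Rg Λ (e22 (pw x σ n)) := by
    intro n
    induction n with
    | zero => exact Rx
    | succ n ih =>
      change E5_Rg Λ (e22 (σ * pw x σ n))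
      rw [← e22_mul_e22]
      exact Rσ.mul ih
  have Rpz : ∀ n, E5_Rg Λ (e22 (pz x σ n)) := by
    intro n
    cases n with
    | ofNat n => exact Rpw n
    | negSucc n =>
      change E5_Rg Λ (e22 (star (pw x σ (n + 1))))
      rw [← star_e22]
      exact (Rpw (n + 1)).star
  have Rpl : ∀ p, E5_Rg Λ (e22 (pl x σ p)) := by
    intro p
    unfold pl Finsupp.sum
    rw [E5_sum22]
    refine E5_Rg.sum _ _ fun n _ => ?_
    rw [e22_smul]
    exact (Rpz n).smul _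
  -- elements of `x L(G) H`
  have R21 : ∀ z, XH (NR G (G.s f)) x z → E5_Rg Λ (e21 z) := by
    intro z hz
    obtain ⟨K, h1, h2⟩ := xh_expand hG hf hx hsh hE hz
    rw [h1, E5_sum21]
    refine E5_Rg.sum _ _ fun i _ => ?_
    rw [E5_sum21]
    refine E5_Rg.sum _ _ fun k _ => ?_
    have h3 : (e21 (pw x σ i * ν k * (star (ν k) * star (pw x σ i) * z)) : M2x (LA G)) =
        e22 (pw x σ i) * e21 (ν k) * e11 (star (ν k) * star (pw x σ i) * z) := by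
      rw [e22_mul_e21, e21_mul_e11]
    rw [h3]
    exact ((Rpw i).mul (Rν k)).mul (R11 _ (h2 i k).1)
  have hstar : ∀ z, XX x z → XX x (star z) := by
    intro z hz
    refine ⟨?_, ?_⟩
    · have := congrArg star hz.2
      rwa [star_mul, hx.pj.2] at this
    · have := congrArg star hz.1
      rwa [star_mul, hx.pj.2] at this
  have hXmul : ∀ z u, XX x z → XH (NR G (G.s f)) x u → XH (NR G (G.s f)) x (z * u) := by
    rintro z u hz ⟨h1, S, h2, h3⟩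
    exact ⟨by rw [← mul_assoc, hz.1], S, h2, by rw [mul_assoc, h3]⟩
  have hXXmul : ∀ z w, XX x z → XX x w → XX x (z * w) := by
    intro z w hz hw
    exact ⟨by rw [← mul_assoc, hz.1], by rw [mul_assoc, hw.2]⟩
  have hpw : ∀ n, XX x (pw x σ n) := fun n => ⟨(hx.pw_corner n).1, (hx.pw_corner n).2.1⟩
  have R22 : ∀ z, XX x z → E5_Rg Λ (e22 z) := by
    intro z hz
    obtain ⟨p, K, h1⟩ := xx_expand hG hf hx hsh hE hz
    have hX : ∀ i k, XH (NR G (G.s f)) x (pw x σ i * ν k) := by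
      intro i k
      refine hXmul _ _ (hpw i) ⟨hE.yn k, {(tg k).1}, ?_, ?_⟩
      · rw [Finset.coe_singleton, Set.singleton_subset_iff]
        exact (tg k).2
      · have h2 : (eS {(tg k).1} : LA G) = vx (tg k).1 := by
          unfold eS
          rw [Finset.sum_singleton]
        rw [h2]
        exact hE.nv k
    have hd : XX x (z - pl x σ p) := by
      have h3 := pl_xx hx p
      exact ⟨by rw [mul_sub, hz.1, h3.1], by rw [sub_mul, hz.2, h3.2]⟩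
    have key : ∀ u u', XH (NR G (G.s f)) x u → XH (NR G (G.s f)) x u' →
        E5_Rg Λ (e22 (u * star u')) := by
      intro u u' hu hu'
      have h3 : (e22 (u * star u') : M2x (LA G)) = e21 u * star (e21 u') := by
        rw [star_e21, e21_mul_e12]
      rw [h3]
      exact (R21 u hu).mul (R21 u' hu').star
    rw [h1, e22_add, e22_add]
    refine ((Rpl p).add ?_).add ?_
    · rw [E5_sum22]
      refine E5_Rg.sum _ _ fun i _ => ?_
      rw [E5_sum22]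
      refine E5_Rg.sum _ _ fun k _ => ?_
      exact key _ _ (hX i k) (hXmul _ _ (hstar _ hd) (hX i k))
    · rw [E5_sum22]
      refine E5_Rg.sum _ _ fun i _ => ?_
      rw [E5_sum22]
      refine E5_Rg.sum _ _ fun k _ => ?_
      refine key _ _ (hXmul _ _ ?_ (hX i k)) (hX i k)
      exact hXXmul _ _ (hXXmul _ _ (hpw K) (hstar _ (hpw K))) hd
  -- the maps
  let w1 : LA G → A := fun z => E5_T Λ Λ' (e21 z) 1 0
  let w2 : LA G → A := fun z => E5_T Λ Λ' (e22 z) 1 1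
  have T22 : ∀ z, XX x z → E5_T Λ Λ' (e22 z) = e22 (w2 z) := by
    intro z hz
    have h1 : (e22 z : M2x (LA G)) = e22 x * e22 z * e22 x := by
      rw [e22_mul_e22, e22_mul_e22, hz.1, hz.2]
    have h2 : E5_T Λ Λ' (e22 z) = e22 (y * E5_T Λ Λ' (e22 z) 1 1 * y) := by
      conv_lhs => rw [h1, E5_T_mul hi (Rx.mul (R22 z hz)) Rx, E5_T_mul hi Rx (R22 z hz), Tx]
      exact E5_c22 _ _
    have h3 := congrFun (congrFun h2 1) 1
    rw [E5_ap22] at h3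
    change E5_T Λ Λ' (e22 z) = e22 (E5_T Λ Λ' (e22 z) 1 1)
    rw [h3]
    exact h2
  have T21 : ∀ z, XH (NR G (G.s f)) x z → E5_T Λ Λ' (e21 z) = e21 (w1 z) := by
    intro z hz
    obtain ⟨S, hS, hS'⟩ := hz.2
    have h1 : (e21 z : M2x (LA G)) = e22 x * e21 z * e11 (eS S) := by
      rw [e22_mul_e21, e21_mul_e11, hz.1, hS']
    have h2 : E5_T Λ Λ' (e21 z) = e21 (y * E5_T Λ Λ' (e21 z) 1 0 * Ψ (eS S)) := by
      conv_lhs => rw [h1, E5_T_mul hi (Rx.mul (R21 z hz)) (R11 _ (InCor.eS hS)),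
        E5_T_mul hi Rx (R21 z hz), Tx, T11 _ (InCor.eS hS)]
      exact E5_c21 _ _ _
    have h3 := congrFun (congrFun h2 1) 0
    rw [E5_ap21] at h3
    change E5_T Λ Λ' (e21 z) = e21 (E5_T Λ Λ' (e21 z) 1 0)
    rw [h3]
    exact h2
  refine ⟨w1, w2, ?_, ?_, ?_, ?_⟩
  · constructor
    · intro z z' hz hz'
      change E5_T Λ Λ' (e21 (z + z')) 1 0 = _
      rw [e21_add, E5_T_add hi (R21 z hz) (R21 z' hz')]
      rfl
    · intro c z hz
      change E5_T Λ Λ' (e21 (c • z)) 1 0 = _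
      rw [e21_smul, E5_T_smul hi c (R21 z hz)]
      rfl
    · intro z z' hz hz'
      change E5_T Λ Λ' (e22 (z + z')) 1 1 = _
      rw [e22_add, E5_T_add hi (R22 z hz) (R22 z' hz')]
      rfl
    · intro c z hz
      change E5_T Λ Λ' (e22 (c • z)) 1 1 = _
      rw [e22_smul, E5_T_smul hi c (R22 z hz)]
      rfl
    · intro z hz
      change E5_T Λ Λ' (e22 (star z)) 1 1 = _
      rw [← star_e22, E5_T_star hi (R22 z hz)]
      rfl
    · intro z z' hz hz'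
      change E5_T Λ Λ' (e22 (z * z')) 1 1 = _
      rw [← e22_mul_e22, E5_T_mul hi (R22 z hz) (R22 z' hz'), T22 z hz, T22 z' hz',
        e22_mul_e22, E5_ap22]
    · intro z z' hz hz'
      change E5_T Λ Λ' (e21 (z * z')) 1 0 = _
      rw [← e22_mul_e21, E5_T_mul hi (R22 z hz) (R21 z' hz'), T22 z hz, T21 z' hz',
        e22_mul_e21, E5_ap21]
    · intro z z' hz hz'
      change E5_T Λ Λ' (e21 (z * z')) 1 0 = _
      rw [← e21_mul_e11, E5_T_mul hi (R21 z hz) (R11 z' hz'), T21 z hz, T11 z' hz',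
        e21_mul_e11, E5_ap21]
    · intro z z' hz hz'
      obtain ⟨S, hS, hS'⟩ := hz.2
      obtain ⟨S1, hS1, hS1'⟩ := hz'.2
      have hc : InCor (NR G (G.s f)) (star z * z') := by
        refine InCor.of_two hS hS1 ?_ ?_
        · have h1 := congrArg star hS'
          rw [star_mul, (eS_pj S).2] at h1
          rw [← mul_assoc, h1]
        · rw [mul_assoc, hS1']
      refine e11_inj ?_
      rw [← T11 _ hc, ← e12_mul_e21 (star z) z', ← star_e21,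
        E5_T_mul hi (R21 z hz).star (R21 z' hz'), E5_T_star hi (R21 z hz), T21 z hz, T21 z' hz',
        star_e21, e12_mul_e21]
    · intro z z' hz hz'
      change _ = E5_T Λ Λ' (e22 (z * star z')) 1 1
      rw [← e21_mul_e12, ← star_e21, E5_T_mul hi (R21 z hz) (R21 z' hz').star,
        E5_T_star hi (R21 z' hz'), T21 z hz, T21 z' hz', star_e21, e21_mul_e12, E5_ap22]
  · change E5_T Λ Λ' (e22 x) 1 1 = y
    rw [Tx, E5_ap22]
  · change E5_T Λ Λ' (e22 σ) 1 1 = τ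
    rw [Tσ, E5_ap22]
  · intro k
    change E5_T Λ Λ' (e21 (ν k)) 1 0 = ν' k
    rw [Tν, E5_ap21]

end DC29
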