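import Pool.Agent.LibDC29.P3
import Pool.Agent.LibDC29.A5

/-!
[DC P4] `n` expansions.  Induction on `n` for all `y τ D b`.
`n = 0`: `b = 0`, so `D = 0` (`Cl.eq_zero`).
`n + 1`: `b + z = wm + n • wm` (`succ_nsmul`); `M1` for the sum over `Finset.univ : Finset (Fin 2)` (or `Bool`):
`b = b1 + b2`, `Le b1 (n • wm)`, `Le b2 wm`.  `D = D1 + D2` (`SCl.split`), `y D1 = y D D1 = 0`.
Induction hypothesis for `D1`: `τ1` for `y1 = y + D1`, defect of class `wm`.  `b2 + e = wm`: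
`SCl.split` of the defect: `y1 - τ1 τ1* = E1 + E2`, `SCl E1 b2`, `SCl E2 e`; `SCl.seqv`:
`δ δ* = E1`, `δ* δ = D2`, `δ δ* δ = δ`.  `expand_isom`, `expand_sh` with `d = D2` (`hcl_of_le` for
`D2`, `E2`: classes `≤ 1 • wm`), `ShEq.trans`.  New defect `E2 + D2`, of class `e + b2 = wm`
(`SCl.add`, `E2 D2 = E2 y1 D2 = 0`).
-/

namespace DC29

open LPA74

private theorem P4_two {G : Gph} (hG : LG G) {b z u v : Mon G} (h : b + z = u + v) :
    ∃ b1 b2, b = b1 + b2 ∧ Le b1 u ∧ Le b2 v := by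
  obtain ⟨d, h1, h2⟩ := M1 hG (s := (Finset.univ : Finset Bool)) (a := b) (a' := z)
    (b := fun i => cond i u v) (by rw [h, Fintype.sum_bool]; rfl)
  refine ⟨d true, d false, ?_, h2 true (Finset.mem_univ _), h2 false (Finset.mem_univ _)⟩
  rw [h1, Fintype.sum_bool]

private theorem P4_left {A : Type} [NonUnitalRing A] {p q : A} (hp : p * p = p) (h : q * p = 0) :
    (p + q) * p = p := by rw [add_mul, hp, h, add_zero]

private theorem P4_right {A : Type} [NonUnitalRing A] {p q : A} (hq : q * q = q) (h : p * q = 0) :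
    (p + q) * q = q := by rw [add_mul, hq, h, zero_add]

theorem expansions {G : Gph} (hG : NG G) {c : G.V} (hc : IsLp G c) {x0 σ0 : LA G}
    (h0 : Isom x0 σ0) (n : ℕ) : ∀ (y τ : LA G), Isom y τ → ShEq (NR G c) y τ x0 σ0 →
      SCl (y - τ * star τ) (wm hG.toLG c) → ∀ (D : LA G) (b : Mon G), y * D = 0 → SCl D b →
      Le b (n • wm hG.toLG c) → ∃ τ', Isom (y + D) τ' ∧ ShEq (NR G c) (y + D) τ' x0 σ0 ∧
        SCl (y + D - τ' * star τ') (wm hG.toLG c) := by
  induction n with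
  | zero =>
    intro y τ hy hs hE D b hyD hD hb
    obtain ⟨z, hz⟩ := hb
    rw [zero_nsmul] at hz
    have hb0 : b = 0 := conical hG.toLG hz
    rw [hb0] at hD
    have hD0 : D = 0 := Cl.eq_zero (SCl.cl hD)
    rw [hD0, add_zero]
    exact ⟨τ, hy, hs, hE⟩
  | succ n ih =>
    intro y τ hy hs hE D b hyD hD hb
    obtain ⟨z, hz⟩ := hb
    rw [succ_nsmul] at hz
    obtain ⟨b1, b2, hb12, hb1, hb2⟩ := P4_two hG.toLG hz
    rw [hb12] at hD
    obtain ⟨D1, D2, hD12, ho1, ho2, hD1, hD2⟩ := SCl.split hD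
    have i1 : D1 * D1 = D1 := Cl.idem (SCl.cl hD1)
    have i2 : D2 * D2 = D2 := Cl.idem (SCl.cl hD2)
    have hyD1 : y * D1 = 0 := by
      have e : D * D1 = D1 := by rw [hD12]; exact P4_left i1 ho2
      rw [← e, ← mul_assoc, hyD, zero_mul]
    have hyD2 : y * D2 = 0 := by
      have e : D * D2 = D2 := by rw [hD12]; exact P4_right i2 ho1
      rw [← e, ← mul_assoc, hyD, zero_mul]
    obtain ⟨τ1, hy1, hs1, hE1⟩ := ih y τ hy hs hE D1 b1 hyD1 hD1 hb1
    obtain ⟨e, he⟩ := hb2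
    have hE1' := hE1
    rw [← he] at hE1'
    obtain ⟨E1, E2, hE12, oE1, oE2, sE1, sE2⟩ := SCl.split hE1'
    have j1 : E1 * E1 = E1 := Cl.idem (SCl.cl sE1)
    have j2 : E2 * E2 = E2 := Cl.idem (SCl.cl sE2)
    obtain ⟨δ, -, d1, d2, d3⟩ := SCl.seqv sE1 hD2
    have hyd : (y + D1) * D2 = 0 := by rw [add_mul, hyD2, ho1, add_zero]
    have hδ1 : (y + D1 - τ1 * star τ1) * δ = δ := by
      have e1 : E1 * δ = δ := by rw [← d1, d3]
      rw [hE12, ← e1, ← mul_assoc, P4_left j1 oE2]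
    have hδ2 : δ * D2 = δ := by rw [← d2, ← mul_assoc, d3]
    have hEd : y + D1 - τ1 * star τ1 - δ * star δ = E2 := by
      rw [hE12, d1, add_sub_cancel_left]
    obtain ⟨hI, hdef⟩ := expand_isom hy1 (SCl.pj hD2) hyd d2 hδ1 hδ2
    have hH1 : HCl (NR G c) D2 := hcl_of_le hG hc hD2 (k := 1) (by
      rw [one_nsmul]
      exact ⟨e, he⟩)
    have hH2 : HCl (NR G c) (y + D1 - τ1 * star τ1 - δ * star δ) := by
      rw [hEd]
      exact hcl_of_le hG hc sE2 (k := 1) (by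
        rw [one_nsmul]
        exact ⟨b2, by rw [add_comm, he]⟩)
    have hsh := expand_sh hy1 (SCl.pj hD2) hyd d2 hδ1 hδ2 hH1 hH2
    have hyy : y + D = y + D1 + D2 := by rw [hD12, add_assoc]
    rw [hyy]
    refine ⟨τ1 + δ, hI, ShEq.trans hI hy1 h0 hsh hs1, ?_⟩
    rw [hdef, hEd, ← he, add_comm b2 e]
    refine SCl.add sE2 hD2 ?_
    have k1 : E2 * (y + D1 - τ1 * star τ1) = E2 := by
      rw [hE12, mul_add, oE2, j2, zero_add]
    have k2 : star τ1 * (y + D1) = star τ1 := by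
      have h := congrArg star hy1.xs
      rw [star_mul, hy1.pj.2] at h
      exact h
    have k3 : (y + D1 - τ1 * star τ1) * (y + D1) = y + D1 - τ1 * star τ1 := by
      rw [sub_mul, hy1.pj.1, mul_assoc, k2]
    rw [← k1, ← k3, mul_assoc, mul_assoc, hyd, mul_zero, mul_zero]

/-- the defect of a loop. -/
theorem loop_defect {G : Gph} (hG : LG G) {f : G.Ed} (hf : G.r f = G.s f) :
    (vx (G.s f) : LA G) - ed f * star (ed f) = ∑ g ∈ exs hG (G.s f), ed g * star (ed g) ∧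
    SCl ((vx (G.s f) : LA G) - ed f * star (ed f)) (wm hG (G.s f)) := by
  classical
  have hS : ∀ g, g ∈ insert f (exs hG (G.s f)) ↔ G.s g = G.s f := by
    intro g
    rw [Finset.mem_insert, mem_exs]
    constructor
    · rintro (rfl | h)
      · rfl
      · exact h.1
    · intro h
      by_cases h1 : G.r g = G.s f
      · left
        exact (hG.one f g hf.symm h h1).symm
      · right
        exact ⟨h, h1⟩
  have hnot : f ∉ exs hG (G.s f) := fun h => (mem_exs.1 h).2 hf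
  have h1 : (vx (G.s f) : LA G) - ed f * star (ed f) =
      ∑ g ∈ exs hG (G.s f), ed g * star (ed g) := by
    rw [vx_eq_sum (G.s f) (insert f (exs hG (G.s f))) ⟨f, Finset.mem_insert_self _ _⟩ hS,
      Finset.sum_insert hnot, add_sub_cancel_left]
  refine ⟨h1, ?_⟩
  rw [h1, wm]
  refine SCl.sum _ (fun g => (ed g : LA G) * star (ed g)) (fun g => mv (G.r g)) ?_ ?_
  · intro g _
    refine SCl.of_seqv (SCl.vx (G.r g)) ⟨ed g, trivial, rfl, star_ed_mul_ed g, ?_⟩
    rw [mul_assoc, star_ed_mul_ed, ed_mul_vx]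
  · intro g _ g' _ hne
    show (ed g : LA G) * star (ed g) * (ed g' * star (ed g')) = 0
    rw [mul_assoc, ← mul_assoc (star (ed g)), star_ed_mul_ed_ne hne, zero_mul, mul_zero]

end DC29
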