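import Pool.Agent.LibDC29.Defs2

/-!
[DC P6] Changing a `*`-homomorphism at one vertex: `LA.lift` for `P = Ψ ∘ vx`,
`Sg e = g e` if `s e = c`, `Ψ (ed e)` otherwise.  CK relations: at `c` from the hypotheses, elsewhere from
`LA.ck` through `Ψ`; `ck1'` for `s e = c`, `s e' ≠ c`: `g e = Ψ (vx c) * g e` (from `h3`, or
`star (g e) * Ψ (ed e') = star (g e) * Ψ (vx c) * Ψ (vx (s e')) * Ψ (ed e') = 0`).
-/

namespace DC29

open LPA74

open Classical in
theorem change_at {G : Gph} {B : Type} [NonUnitalRing B] [StarRing B] [Module ℂ B]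
    [IsScalarTower ℂ B B] [SMulCommClass ℂ B B] [StarModule ℂ B] (Ψ : LA G →⋆ₙₐ[ℂ] B) (c : G.V)
    (g : G.Ed → B)
    (h1 : ∀ e e', G.s e = c → G.s e' = c →
      star (g e) * g e' = if e = e' then Ψ (vx (G.r e)) else 0)
    (h2 : ∀ e, G.s e = c → g e * Ψ (vx (G.r e)) = g e)
    (h3 : ∀ e, G.s e = c → Ψ (vx c) * g e = g e)
    (h4 : ∀ S : Finset G.Ed, S.Nonempty → (∀ e, e ∈ S ↔ G.s e = c) →
      Ψ (vx c) = ∑ e ∈ S, g e * star (g e)) :
    ∃ Ψ' : LA G →⋆ₙₐ[ℂ] B, (∀ w, Ψ' (vx w) = Ψ (vx w)) ∧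
      (∀ e, G.s e ≠ c → Ψ' (ed e) = Ψ (ed e)) ∧ ∀ e, G.s e = c → Ψ' (ed e) = g e := by
  have hck : CK G (fun w => Ψ (vx w)) (fun e => if G.s e = c then g e else Ψ (ed e)) := by
    refine ⟨?_, ?_, ?_, ?_, ?_, ?_, ?_, ?_⟩
    · intro a
      change Ψ (vx a) * Ψ (vx a) = Ψ (vx a)
      rw [← map_mul, vx_mul_self]
    · intro a
      change star (Ψ (vx a)) = Ψ (vx a)
      rw [← map_star, star_vx]
    · intro a b hab
      change Ψ (vx a) * Ψ (vx b) = 0
      rw [← map_mul, vx_mul_ne hab, map_zero]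
    · intro f
      change Ψ (vx (G.s f)) * (if G.s f = c then g f else Ψ (ed f)) = _
      by_cases hf : G.s f = c
      · rw [if_pos hf, hf]
        exact h3 f hf
      · rw [if_neg hf, ← map_mul, vx_mul_ed]
    · intro f
      change (if G.s f = c then g f else Ψ (ed f)) * Ψ (vx (G.r f)) = _
      by_cases hf : G.s f = c
      · rw [if_pos hf]
        exact h2 f hf
      · rw [if_neg hf, ← map_mul, ed_mul_vx]
    · intro f
      change star (if G.s f = c then g f else Ψ (ed f)) * (if G.s f = c then g f else Ψ (ed f)) =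
        Ψ (vx (G.r f))
      by_cases hf : G.s f = c
      · rw [if_pos hf, h1 f f hf hf, if_pos rfl]
      · rw [if_neg hf, ← map_star, ← map_mul, star_ed_mul_ed]
    · intro f f' hff
      change star (if G.s f = c then g f else Ψ (ed f)) *
        (if G.s f' = c then g f' else Ψ (ed f')) = 0
      have key : ∀ u v, G.s u = c → G.s v ≠ c → star (g u) * Ψ (ed v) = 0 := by
        intro u v hu hv
        rw [← h3 u hu, star_mul, ← map_star, star_vx, ← vx_mul_ed v, map_mul, mul_assoc,
          ← mul_assoc (Ψ (vx c)), ← map_mul, vx_mul_ne (fun h => hv h.symm), map_zero, zero_mul,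
          mul_zero]
      by_cases hf : G.s f = c <;> by_cases hf' : G.s f' = c
      · rw [if_pos hf, if_pos hf', h1 f f' hf hf', if_neg hff]
      · rw [if_pos hf, if_neg hf']
        exact key f f' hf hf'
      · rw [if_neg hf, if_pos hf']
        have := congrArg star (key f' f hf' hf)
        rwa [star_mul, star_star, star_zero] at this
      · rw [if_neg hf, if_neg hf', ← map_star, ← map_mul, star_ed_mul_ed_ne hff, map_zero]
    · intro a S h0 hS
      change Ψ (vx a) = ∑ f ∈ S, (if G.s f = c then g f else Ψ (ed f)) *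
        star (if G.s f = c then g f else Ψ (ed f))
      by_cases ha : a = c
      · rw [ha, h4 S h0 (fun e => by rw [hS e, ha])]
        refine Finset.sum_congr rfl fun e he => ?_
        rw [if_pos (((hS e).1 he).trans ha)]
      · rw [vx_eq_sum a S h0 hS, map_sum]
        refine Finset.sum_congr rfl fun e he => ?_
        have h : G.s e ≠ c := by rw [(hS e).1 he]; exact ha
        rw [if_neg h, map_mul, map_star]
  obtain ⟨φ, hv, he⟩ := LA.lift hck
  refine ⟨φ, hv, fun e h => ?_, fun e h => ?_⟩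
  · rw [he e]
    change (if G.s e = c then g e else Ψ (ed e)) = _
    rw [if_neg h]
  · rw [he e]
    change (if G.s e = c then g e else Ψ (ed e)) = _
    rw [if_pos h]

end DC29
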