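import Pool.Agent.LibDC29.E4
import Pool.Agent.LibDC29.P6
import Pool.Agent.LibDC29.P4

/-!
[DC E6] Uniqueness of representations, and their calculus.
* `OM.zero`, `OM.pw`: `w2 (pw x σ n) = pw (w2 x) (w2 σ) n` (`m22`).
* `unique`: `xh_expand`: `w1 z = ∑ w1 (pw i * ν k * u) = ∑ w2 (pw i) * w1 (ν k) * Ψ u` (sums: `a1` with the `XH` property of
  the partial sums); `xx_expand`: `w2 (u * star u') = w1 u * star (w1 u')` (`n11`), and `w2 (pl x σ p)` is a combination of the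
  `w2 (pz x σ n)` (`t2` for negative `n`).
* `self`: clear; for `m11` note `InCor H (star z * z')`.
* `push`: `ρ z` is in `XH H x` if `XH H y0 z`; e.g. `m22`: `κ0 w2(ρzρ*) κ0* κ0 w2(ρz'ρ*) κ0* = κ0 w2(ρzρ* ρρ* ρz'ρ*) κ0*`.
* `exists_new`: `c = s f`.  `change_at` with `g f = W2 (ed f)`, `g e = W1 (ed e)` for the exits `e` of `c`.  Relations: `m11`, `m22`,
  `star (W2 (ed f)) * W1 (ed e) = W1 (star (ed f) * ed e) = W1 0 = 0`, `W2 (vx c) = W2 (ed f star (ed f) + ∑ ed e star (ed e))`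
  (`vx_eq_sum`, `n11`, additivity).  Then `OM.unique` for `x = vx c`, `σ = ed f`, `ν` = the exits (index type `{e // e ∈ exs hG c}`;
  `Ext id tg (vx c) (ed f) ν` from `loop_defect`), `ShEq.refl`, comparing `(W1, W2)` and `(Ψ', Ψ')` (`OM.self`, using `agree` for
  `Ψ' = Ψ` on `InCor`).
-/

namespace DC29

open LPA74

variable {G : Gph} {A : Type} [NonUnitalRing A] [StarRing A] [Module ℂ A] [IsScalarTower ℂ A A]
  [SMulCommClass ℂ A A] [StarModule ℂ A]
variable {H : Set G.V} {Ψ Ψ' : LA G →⋆ₙₐ[ℂ] A} {x y0 ρ σ : LA G} {w1 w2 w1' w2' : LA G → A}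

private theorem e6_xx_add {x z z' : LA G} (h : XX x z) (h' : XX x z') : XX x (z + z') :=
  ⟨by rw [mul_add, h.1, h'.1], by rw [add_mul, h.2, h'.2]⟩

private theorem e6_xx_zero {x : LA G} : XX x (0 : LA G) := ⟨mul_zero _, zero_mul _⟩

private theorem e6_xx_smul {x z : LA G} (c : ℂ) (h : XX x z) : XX x (c • z) :=
  ⟨by rw [mul_smul_comm, h.1], by rw [smul_mul_assoc, h.2]⟩

private theorem e6_xx_mul {x z z' : LA G} (h : XX x z) (h' : XX x z') : XX x (z * z') :=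
  ⟨by rw [← mul_assoc, h.1], by rw [mul_assoc, h'.2]⟩

private theorem e6_xx_star {x z : LA G} (hx : Pj x) (h : XX x z) : XX x (star z) := by
  constructor
  · have := congrArg star h.2
    rwa [star_mul, hx.2] at this
  · have := congrArg star h.1
    rwa [star_mul, hx.2] at this

private theorem e6_xx_sum {x : LA G} {ι : Type} (s : Finset ι) (F : ι → LA G)
    (h : ∀ i ∈ s, XX x (F i)) : XX x (∑ i ∈ s, F i) :=
  ⟨by rw [Finset.mul_sum]; exact Finset.sum_congr rfl fun i hi => (h i hi).1,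
    by rw [Finset.sum_mul]; exact Finset.sum_congr rfl fun i hi => (h i hi).2⟩

private theorem e6_xh_zero {H : Set G.V} {x : LA G} : XH H x (0 : LA G) :=
  ⟨mul_zero _, ∅, by simp, zero_mul _⟩

private theorem e6_xh_add {H : Set G.V} {x z z' : LA G} (h : XH H x z) (h' : XH H x z') :
    XH H x (z + z') := by
  classical
  obtain ⟨h1, S, hS, h2⟩ := h
  obtain ⟨h1', S', hS', h2'⟩ := h'
  refine ⟨by rw [mul_add, h1, h1'], S ∪ S', ?_, ?_⟩
  · intro v hv
    rcases Finset.mem_union.1 (Finset.mem_coe.1 hv) with hv | hv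
    · exact hS (Finset.mem_coe.2 hv)
    · exact hS' (Finset.mem_coe.2 hv)
  · rw [add_mul]
    congr 1
    · rw [← h2, mul_assoc, (eS_mul_of_subset Finset.subset_union_left).1]
    · rw [← h2', mul_assoc, (eS_mul_of_subset Finset.subset_union_right).1]

private theorem e6_xh_sum {H : Set G.V} {x : LA G} {ι : Type} (s : Finset ι) (F : ι → LA G)
    (h : ∀ i ∈ s, XH H x (F i)) : XH H x (∑ i ∈ s, F i) := by
  classical
  induction s using Finset.induction_on with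
  | empty => rw [Finset.sum_empty]; exact e6_xh_zero
  | insert a s ha ih =>
    rw [Finset.sum_insert ha]
    exact e6_xh_add (h a (Finset.mem_insert_self a s))
      (ih fun i hi => h i (Finset.mem_insert_of_mem hi))

/-- `x z = z` and `z' ∈ e L(G) e_S`. -/
private theorem e6_xh_mulIn {H : Set G.V} {x z z' : LA G} (h : x * z = z) (h' : InCor H z') :
    XH H x (z * z') := by
  obtain ⟨S, hS, -, h2⟩ := h'
  exact ⟨by rw [← mul_assoc, h], S, hS, by rw [mul_assoc, h2]⟩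

private theorem e6_xh_mulXH {H : Set G.V} {x y z z' : LA G} (h : x * z = z) (h' : XH H y z') :
    XH H x (z * z') := by
  obtain ⟨-, S, hS, h2⟩ := h'
  exact ⟨by rw [← mul_assoc, h], S, hS, by rw [mul_assoc, h2]⟩

private theorem e6_xh_incor {H : Set G.V} {x z z' : LA G} (h : XH H x z) (h' : XH H x z') :
    InCor H (star z * z') := by
  obtain ⟨h1, S, hS, h2⟩ := h
  obtain ⟨h1', S', hS', h2'⟩ := h'
  refine InCor.of_two hS hS' ?_ ?_
  · have h3 := congrArg star h2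
    rw [star_mul, (eS_pj S).2] at h3
    rw [← mul_assoc, h3]
  · rw [mul_assoc, h2']

private theorem e6_sum1 (h : OM H Ψ x w1 w2) (h0 : w1 0 = 0) {ι : Type} (s : Finset ι)
    (F : ι → LA G) (hF : ∀ i ∈ s, XH H x (F i)) : w1 (∑ i ∈ s, F i) = ∑ i ∈ s, w1 (F i) := by
  classical
  induction s using Finset.induction_on with
  | empty => rw [Finset.sum_empty, Finset.sum_empty, h0]
  | insert a s ha ih =>
    have h1 := fun i hi => hF i (Finset.mem_insert_of_mem hi)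
    rw [Finset.sum_insert ha, Finset.sum_insert ha,
      h.a1 _ _ (hF a (Finset.mem_insert_self a s)) (e6_xh_sum s F h1), ih h1]

private theorem e6_sum2 (h : OM H Ψ x w1 w2) (h0 : w2 0 = 0) {ι : Type} (s : Finset ι)
    (F : ι → LA G) (hF : ∀ i ∈ s, XX x (F i)) : w2 (∑ i ∈ s, F i) = ∑ i ∈ s, w2 (F i) := by
  classical
  induction s using Finset.induction_on with
  | empty => rw [Finset.sum_empty, Finset.sum_empty, h0]
  | insert a s ha ih =>
    have h1 := fun i hi => hF i (Finset.mem_insert_of_mem hi)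
    rw [Finset.sum_insert ha, Finset.sum_insert ha,
      h.a2 _ _ (hF a (Finset.mem_insert_self a s)) (e6_xx_sum s F h1), ih h1]

theorem OM.zero (h : OM H Ψ x w1 w2) : w1 0 = 0 ∧ w2 0 = 0 := by
  constructor
  · have h1 := h.s1 0 0 e6_xh_zero
    rwa [zero_smul, zero_smul] at h1
  · have h1 := h.s2 0 0 e6_xx_zero
    rwa [zero_smul, zero_smul] at h1

theorem OM.pw (h : OM H Ψ x w1 w2) (hx : Isom x σ) (n : ℕ) :
    w2 (DC29.pw x σ n) = DC29.pw (w2 x) (w2 σ) n := by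
  induction n with
  | zero => rfl
  | succ n ih =>
    change w2 (σ * DC29.pw x σ n) = w2 σ * DC29.pw (w2 x) (w2 σ) n
    rw [h.m22 _ _ ⟨hx.xs, hx.sx⟩ ⟨(hx.pw_corner n).1, (hx.pw_corner n).2.1⟩, ih]

theorem OM.self (hx : Pj x) (h : ∀ z, InCor H z → Ψ' z = Ψ z) : OM H Ψ x Ψ' Ψ' where
  a1 := fun _ _ _ _ => map_add _ _ _
  s1 := fun _ _ _ => map_smul _ _ _
  a2 := fun _ _ _ _ => map_add _ _ _
  s2 := fun _ _ _ => map_smul _ _ _
  t2 := fun _ _ => map_star _ _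
  m22 := fun _ _ _ _ => map_mul _ _ _
  m21 := fun _ _ _ _ => map_mul _ _ _
  m10 := fun z z' _ hz' => by rw [map_mul, h z' hz']
  m11 := fun z z' hz hz' => by rw [← map_star, ← map_mul, h _ (e6_xh_incor hz hz')]
  n11 := fun z z' _ _ => by rw [← map_star, ← map_mul]

theorem OM.push (h : OM H Ψ x w1 w2) (hx : Pj x) (h1 : star ρ * ρ = y0) (h2 : x * ρ = ρ)
    (h3 : ρ * y0 = ρ)
    {κ0 : A} (hκ : star κ0 * κ0 = w2 (ρ * star ρ)) (hκ2 : κ0 * star κ0 * κ0 = κ0) :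
    OM H Ψ y0 (fun z => κ0 * w1 (ρ * z)) (fun z => κ0 * w2 (ρ * z * star ρ) * star κ0) := by
  have h2' : star ρ * x = star ρ := by
    have h4 := congrArg star h2
    rwa [star_mul, hx.2] at h4
  have hy : Pj y0 := by
    constructor
    · nth_rewrite 1 [← h1]
      rw [mul_assoc, h3, h1]
    · rw [← h1, star_mul, star_star]
  have h3' : y0 * star ρ = star ρ := by
    have h4 := congrArg star h3
    rwa [star_mul, hy.2] at h4
  have hH : ∀ z, XH H y0 z → XH H x (ρ * z) := fun z hz => e6_xh_mulXH h2 hz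
  have hX : ∀ z, XX y0 z → XX x (ρ * z * star ρ) := fun z hz =>
    ⟨by rw [← mul_assoc, ← mul_assoc, h2], by rw [mul_assoc, h2']⟩
  have hrr : XX x (ρ * star ρ) := ⟨by rw [← mul_assoc, h2], by rw [mul_assoc, h2']⟩
  have hrho : ∀ z, y0 * z = z → ρ * star ρ * (ρ * z) = ρ * z := by
    intro z hz
    rw [mul_assoc, ← mul_assoc (star ρ), h1, hz]
  have hk1 : ∀ z, XH H y0 z → star κ0 * (κ0 * w1 (ρ * z)) = w1 (ρ * z) := by
    intro z hz
    rw [← mul_assoc, hκ, ← h.m21 _ _ hrr (hH z hz), hrho z hz.1]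
  have hk2 : ∀ z, XX y0 z → star κ0 * (κ0 * w2 (ρ * z * star ρ)) = w2 (ρ * z * star ρ) := by
    intro z hz
    rw [← mul_assoc, hκ, ← h.m22 _ _ hrr (hX z hz), ← mul_assoc, hrho z hz.1]
  have hr' : ∀ z, y0 * z = z → star ρ * (ρ * z) = z := by
    intro z hz
    rw [← mul_assoc, h1, hz]
  refine ⟨?_, ?_, ?_, ?_, ?_, ?_, ?_, ?_, ?_, ?_⟩
  · intro z z' hz hz'
    change κ0 * w1 (ρ * (z + z')) = κ0 * w1 (ρ * z) + κ0 * w1 (ρ * z')
    rw [mul_add ρ, h.a1 _ _ (hH z hz) (hH z' hz'), mul_add]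
  · intro c z hz
    change κ0 * w1 (ρ * (c • z)) = c • (κ0 * w1 (ρ * z))
    rw [mul_smul_comm, h.s1 c _ (hH z hz), mul_smul_comm]
  · intro z z' hz hz'
    change κ0 * w2 (ρ * (z + z') * star ρ) * star κ0 =
      κ0 * w2 (ρ * z * star ρ) * star κ0 + κ0 * w2 (ρ * z' * star ρ) * star κ0
    rw [mul_add ρ, add_mul, h.a2 _ _ (hX z hz) (hX z' hz'), mul_add, add_mul]
  · intro c z hz
    change κ0 * w2 (ρ * (c • z) * star ρ) * star κ0 = c • (κ0 * w2 (ρ * z * star ρ) * star κ0)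
    rw [mul_smul_comm, smul_mul_assoc, h.s2 c _ (hX z hz), mul_smul_comm, smul_mul_assoc]
  · intro z hz
    change κ0 * w2 (ρ * star z * star ρ) * star κ0 = star (κ0 * w2 (ρ * z * star ρ) * star κ0)
    rw [star_mul, star_mul, star_star, ← h.t2 _ (hX z hz), star_mul, star_mul, star_star,
      mul_assoc, mul_assoc]
  · intro z z' hz hz'
    change κ0 * w2 (ρ * (z * z') * star ρ) * star κ0 =
      κ0 * w2 (ρ * z * star ρ) * star κ0 * (κ0 * w2 (ρ * z' * star ρ) * star κ0)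
    have h5 : star κ0 * (κ0 * w2 (ρ * z' * star ρ) * star κ0) =
        w2 (ρ * z' * star ρ) * star κ0 := by
      rw [← mul_assoc, hk2 z' hz']
    have h6 : ρ * (z * z') * star ρ = (ρ * z * star ρ) * (ρ * z' * star ρ) := by
      rw [mul_assoc (ρ * z), ← mul_assoc (star ρ), hr' z' hz'.1]
      simp only [mul_assoc]
    rw [mul_assoc (κ0 * w2 (ρ * z * star ρ)), h5, h6, h.m22 _ _ (hX z hz) (hX z' hz')]
    simp only [mul_assoc]
  · intro z z' hz hz'
    change κ0 * w1 (ρ * (z * z')) =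
      κ0 * w2 (ρ * z * star ρ) * star κ0 * (κ0 * w1 (ρ * z'))
    have h6 : ρ * (z * z') = (ρ * z * star ρ) * (ρ * z') := by
      rw [mul_assoc (ρ * z), hr' z' hz'.1]
      simp only [mul_assoc]
    rw [mul_assoc (κ0 * w2 (ρ * z * star ρ)), hk1 z' hz', h6, h.m21 _ _ (hX z hz) (hH z' hz')]
    simp only [mul_assoc]
  · intro z z' hz hz'
    change κ0 * w1 (ρ * (z * z')) = κ0 * w1 (ρ * z) * Ψ z'
    rw [← mul_assoc ρ, h.m10 _ _ (hH z hz) hz', mul_assoc]
  · intro z z' hz hz'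
    change star (κ0 * w1 (ρ * z)) * (κ0 * w1 (ρ * z')) = Ψ (star z * z')
    rw [star_mul, mul_assoc, hk1 z' hz', h.m11 _ _ (hH z hz) (hH z' hz'), star_mul, mul_assoc,
      hr' z' hz'.1]
  · intro z z' hz hz'
    change κ0 * w1 (ρ * z) * star (κ0 * w1 (ρ * z')) =
      κ0 * w2 (ρ * (z * star z') * star ρ) * star κ0
    have h6 : ρ * (z * star z') * star ρ = (ρ * z) * star (ρ * z') := by
      rw [star_mul]
      simp only [mul_assoc]
    rw [h6, ← h.n11 _ _ (hH z hz) (hH z' hz'), star_mul]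
    simp only [mul_assoc]

private theorem e6_pz (hx : Isom x σ) (h : OM H Ψ x w1 w2) (h' : OM H Ψ x w1' w2')
    (h1 : w2 x = w2' x) (h2 : w2 σ = w2' σ) (n : ℤ) :
    XX x (pz x σ n) ∧ w2 (pz x σ n) = w2' (pz x σ n) := by
  have hX : ∀ m : ℕ, XX x (DC29.pw x σ m) := fun m => ⟨(hx.pw_corner m).1, (hx.pw_corner m).2.1⟩
  have hm : ∀ m : ℕ, w2 (DC29.pw x σ m) = w2' (DC29.pw x σ m) := fun m => by
    rw [h.pw hx, h'.pw hx, h1, h2]
  cases n with
  | ofNat m => exact ⟨hX m, hm m⟩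
  | negSucc m =>
    change XX x (star (DC29.pw x σ (m + 1))) ∧ w2 (star (DC29.pw x σ (m + 1))) =
      w2' (star (DC29.pw x σ (m + 1)))
    exact ⟨e6_xx_star hx.pj (hX _), by rw [h.t2 _ (hX _), h'.t2 _ (hX _), hm]⟩

private theorem e6_pl (hx : Isom x σ) (h : OM H Ψ x w1 w2) (h' : OM H Ψ x w1' w2')
    (h1 : w2 x = w2' x) (h2 : w2 σ = w2' σ) (p : LaurentPolynomial ℂ) :
    w2 (pl x σ p) = w2' (pl x σ p) := by
  have h3 := e6_pz hx h h' h1 h2
  change w2 (∑ n ∈ p.coeff.support, p.coeff n • pz x σ n) =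
    w2' (∑ n ∈ p.coeff.support, p.coeff n • pz x σ n)
  have hF : ∀ n ∈ p.coeff.support, XX x (p.coeff n • pz x σ n) := fun n _ =>
    e6_xx_smul _ (h3 n).1
  rw [e6_sum2 h h.zero.2 _ _ hF, e6_sum2 h' h'.zero.2 _ _ hF]
  refine Finset.sum_congr rfl fun n _ => ?_
  rw [h.s2 _ _ (h3 n).1, h'.s2 _ _ (h3 n).1, (h3 n).2]

theorem OM.unique (hG : NG G) {f : G.Ed} (hf : G.r f = G.s f) {κ : Type} [Fintype κ]
    {tg : κ → (NR G (G.s f))} {ν : κ → LA G}
    (hE : Ext (NonUnitalStarAlgHom.id ℂ (LA G)) tg x σ ν)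
    (hsh : ShEq (NR G (G.s f)) x σ (vx (G.s f)) (ed f)) (h : OM (NR G (G.s f)) Ψ x w1 w2)
    (h' : OM (NR G (G.s f)) Ψ x w1' w2') (hx : w2 x = w2' x) (hσ : w2 σ = w2' σ)
    (hν : ∀ k, w1 (ν k) = w1' (ν k)) :
    (∀ z, XH (NR G (G.s f)) x z → w1 z = w1' z) ∧ ∀ z, XX x z → w2 z = w2' z := by
  have hI := hE.isom
  have hXp : ∀ m : ℕ, XX x (DC29.pw x σ m) := fun m => ⟨(hI.pw_corner m).1, (hI.pw_corner m).2.1⟩
  have hνH : ∀ k, XH (NR G (G.s f)) x (ν k) := by
    intro k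
    refine ⟨hE.yn k, {(tg k).1}, ?_, ?_⟩
    · intro v hv
      rw [Finset.coe_singleton, Set.mem_singleton_iff] at hv
      rw [hv]
      exact (tg k).2
    · have h1 := hE.nv k
      have h2 : (eS {(tg k).1} : LA G) = vx (tg k).1 := Finset.sum_singleton _ _
      rw [h2]
      exact h1
  have hpν : ∀ i k, w1 (DC29.pw x σ i * ν k) = w1' (DC29.pw x σ i * ν k) := by
    intro i k
    rw [h.m21 _ _ (hXp i) (hνH k), h'.m21 _ _ (hXp i) (hνH k), h.pw hI, h'.pw hI, hx, hσ, hν]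
  have key : ∀ z, XH (NR G (G.s f)) x z → w1 z = w1' z := by
    intro z hz
    obtain ⟨K, h1, h2⟩ := xh_expand hG hf hI hsh hE hz
    have h3 : ∀ i k, XH (NR G (G.s f)) x
        (DC29.pw x σ i * ν k * (star (ν k) * star (DC29.pw x σ i) * z)) := fun i k =>
      e6_xh_mulIn (h2 i k).2.1 (h2 i k).1
    rw [h1, e6_sum1 h h.zero.1 _ _ fun i _ => e6_xh_sum _ _ fun k _ => h3 i k,
      e6_sum1 h' h'.zero.1 _ _ fun i _ => e6_xh_sum _ _ fun k _ => h3 i k]
    refine Finset.sum_congr rfl fun i _ => ?_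
    rw [e6_sum1 h h.zero.1 _ _ fun k _ => h3 i k, e6_sum1 h' h'.zero.1 _ _ fun k _ => h3 i k]
    refine Finset.sum_congr rfl fun k _ => ?_
    rw [h.m10 _ _ (h2 i k).2 (h2 i k).1, h'.m10 _ _ (h2 i k).2 (h2 i k).1, hpν]
  refine ⟨key, ?_⟩
  intro z hz
  obtain ⟨p, K, h1⟩ := xx_expand hG hf hI hsh hE hz
  have hpl : XX x (pl x σ p) := pl_xx hI p
  have hu : XX x (z - pl x σ p) :=
    ⟨by rw [mul_sub, hz.1, hpl.1], by rw [sub_mul, hz.2, hpl.2]⟩
  have hpH : ∀ i k, XH (NR G (G.s f)) x (DC29.pw x σ i * ν k) := fun i k =>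
    e6_xh_mulXH (hXp i).1 (hνH k)
  have hsu : XX x (star (z - pl x σ p)) := e6_xx_star hI.pj hu
  have hA : ∀ i k, XH (NR G (G.s f)) x (star (z - pl x σ p) * (DC29.pw x σ i * ν k)) :=
    fun i k => e6_xh_mulXH hsu.1 (hpH i k)
  have hB : ∀ i k, XH (NR G (G.s f)) x
      (DC29.pw x σ K * star (DC29.pw x σ K) * (z - pl x σ p) * (DC29.pw x σ i * ν k)) :=
    fun i k => e6_xh_mulXH
      (e6_xx_mul (e6_xx_mul (hXp K) (e6_xx_star hI.pj (hXp K))) hu).1 (hpH i k)
  have hXXa : ∀ a b, XH (NR G (G.s f)) x a → XH (NR G (G.s f)) x b → XX x (a * star b) := by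
    intro a b ha hb
    refine ⟨by rw [← mul_assoc, ha.1], ?_⟩
    have h4 := congrArg star hb.1
    rw [star_mul, hI.pj.2] at h4
    rw [mul_assoc, h4]
  have hT1 : ∀ i ∈ Finset.range K, XX x (∑ k, DC29.pw x σ i * ν k *
        star (star (z - pl x σ p) * (DC29.pw x σ i * ν k))) := fun i _ =>
    e6_xx_sum _ _ fun k _ => hXXa _ _ (hpH i k) (hA i k)
  have hT2 : ∀ i ∈ Finset.range K, XX x (∑ k, (DC29.pw x σ K * star (DC29.pw x σ K) *
        (z - pl x σ p) * (DC29.pw x σ i * ν k)) * star (DC29.pw x σ i * ν k)) := fun i _ =>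
    e6_xx_sum _ _ fun k _ => hXXa _ _ (hB i k) (hpH i k)
  have h5 : w2 (∑ i ∈ Finset.range K, ∑ k, DC29.pw x σ i * ν k *
        star (star (z - pl x σ p) * (DC29.pw x σ i * ν k))) =
      w2' (∑ i ∈ Finset.range K, ∑ k, DC29.pw x σ i * ν k *
        star (star (z - pl x σ p) * (DC29.pw x σ i * ν k))) := by
    rw [e6_sum2 h h.zero.2 _ _ hT1, e6_sum2 h' h'.zero.2 _ _ hT1]
    refine Finset.sum_congr rfl fun i _ => ?_
    rw [e6_sum2 h h.zero.2 _ _ fun k _ => hXXa _ _ (hpH i k) (hA i k),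
      e6_sum2 h' h'.zero.2 _ _ fun k _ => hXXa _ _ (hpH i k) (hA i k)]
    refine Finset.sum_congr rfl fun k _ => ?_
    rw [← h.n11 _ _ (hpH i k) (hA i k), ← h'.n11 _ _ (hpH i k) (hA i k), hpν, key _ (hA i k)]
  have h6 : w2 (∑ i ∈ Finset.range K, ∑ k, (DC29.pw x σ K * star (DC29.pw x σ K) *
        (z - pl x σ p) * (DC29.pw x σ i * ν k)) * star (DC29.pw x σ i * ν k)) =
      w2' (∑ i ∈ Finset.range K, ∑ k, (DC29.pw x σ K * star (DC29.pw x σ K) *
        (z - pl x σ p) * (DC29.pw x σ i * ν k)) * star (DC29.pw x σ i * ν k)) := by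
    rw [e6_sum2 h h.zero.2 _ _ hT2, e6_sum2 h' h'.zero.2 _ _ hT2]
    refine Finset.sum_congr rfl fun i _ => ?_
    rw [e6_sum2 h h.zero.2 _ _ fun k _ => hXXa _ _ (hB i k) (hpH i k),
      e6_sum2 h' h'.zero.2 _ _ fun k _ => hXXa _ _ (hB i k) (hpH i k)]
    refine Finset.sum_congr rfl fun k _ => ?_
    rw [← h.n11 _ _ (hB i k) (hpH i k), ← h'.n11 _ _ (hB i k) (hpH i k), hpν, key _ (hB i k)]
  have hS1 := e6_xx_sum (Finset.range K) _ hT1
  have hS2 := e6_xx_sum (Finset.range K) _ hT2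
  rw [h1, h.a2 _ _ (e6_xx_add hpl hS1) hS2, h'.a2 _ _ (e6_xx_add hpl hS1) hS2,
    h.a2 _ _ hpl hS1, h'.a2 _ _ hpl hS1, e6_pl hI h h' hx hσ p, h5, h6]

theorem exists_new (hG : NG G) {f : G.Ed} (hf : G.r f = G.s f)
    (h : OM (NR G (G.s f)) Ψ (vx (G.s f)) w1 w2) (hx : w2 (vx (G.s f)) = Ψ (vx (G.s f))) :
    ∃ Ψ' : LA G →⋆ₙₐ[ℂ] A, (∀ w, Ψ' (vx w) = Ψ (vx w)) ∧
      (∀ e, G.s e ≠ G.s f → Ψ' (ed e) = Ψ (ed e)) ∧
      (∀ z, InCor (NR G (G.s f)) z → Ψ' z = Ψ z) ∧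
      (∀ z, XH (NR G (G.s f)) (vx (G.s f)) z → Ψ' z = w1 z) ∧
      ∀ z, XX (vx (G.s f)) z → Ψ' z = w2 z := by
  classical
  -- the exits
  have hnr : ∀ e, G.s e = G.s f → e ≠ f → G.r e ∈ NR G (G.s f) := by
    intro e he hef hr
    have h1 : G.r e = G.s f := hG.cyc (G.r e) (G.s f) hr (by
      rw [← he]
      exact Relation.ReflTransGen.single ⟨e, rfl, rfl⟩)
    exact hef (hG.one e f (by rw [he, h1]) (by rw [he]) (by rw [hf, he]))
  have hXHe : ∀ e, G.s e = G.s f → e ≠ f → XH (NR G (G.s f)) (vx (G.s f)) (ed e) := by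
    intro e he hef
    refine ⟨by rw [← he]; exact vx_mul_ed e, {G.r e}, ?_, ?_⟩
    · intro v hv
      rw [Finset.coe_singleton, Set.mem_singleton_iff] at hv
      rw [hv]
      exact hnr e he hef
    · have h2 : (eS {G.r e} : LA G) = vx (G.r e) := Finset.sum_singleton _ _
      rw [h2]
      exact ed_mul_vx e
  have hXXv : XX (vx (G.s f)) (vx (G.s f) : LA G) := ⟨vx_mul_self _, vx_mul_self _⟩
  have hfv : (ed f : LA G) * vx (G.s f) = ed f := by
    rw [← hf]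
    exact ed_mul_vx f
  have hXXf : XX (vx (G.s f)) (ed f : LA G) := ⟨vx_mul_ed f, hfv⟩
  have hPv : Pj (vx (G.s f) : LA G) := ⟨vx_mul_self _, star_vx _⟩
  have hXXfs : XX (vx (G.s f)) (star (ed f) : LA G) := e6_xx_star hPv hXXf
  have g0 := h.zero
  set g : G.Ed → A := fun e => if e = f then w2 (ed f) else w1 (ed e) with hgdef
  have hgf : g f = w2 (ed f) := if_pos rfl
  have hge : ∀ e, e ≠ f → g e = w1 (ed e) := fun e he => if_neg he
  have hfe : ∀ e, G.s e = G.s f → e ≠ f → star (w2 (ed f)) * w1 (ed e) = 0 := by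
    intro e he hef
    rw [← h.t2 _ hXXf, ← h.m21 _ _ hXXfs (hXHe e he hef), star_ed_mul_ed_ne (Ne.symm hef), g0.1]
  obtain ⟨Ψ', hv, he1, he2⟩ := change_at Ψ (G.s f) g (by
      intro e e' he he'
      by_cases hef : e = f
      · subst hef
        by_cases hef' : e' = e
        · subst hef'
          rw [if_pos rfl, hgf, ← h.t2 _ hXXf, ← h.m22 _ _ hXXfs hXXf, star_ed_mul_ed, hf, hx]
        · rw [if_neg (Ne.symm hef'), hgf, hge e' hef', hfe e' he' hef']
      · by_cases hef' : e' = f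
        · subst hef'
          rw [if_neg hef, hgf, hge e hef]
          have h1 := congrArg star (hfe e he hef)
          rwa [star_mul, star_star, star_zero] at h1
        · rw [hge e hef, hge e' hef', h.m11 _ _ (hXHe e he hef) (hXHe e' he' hef')]
          by_cases hee : e = e'
          · subst hee
            rw [if_pos rfl, star_ed_mul_ed]
          · rw [if_neg hee, star_ed_mul_ed_ne hee, map_zero])
    (by
      intro e he
      by_cases hef : e = f
      · subst hef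
        rw [hgf, hf, ← hx, ← h.m22 _ _ hXXf hXXv, hfv]
      · rw [hge e hef, ← h.m10 _ _ (hXHe e he hef) (InCor.vx (hnr e he hef)), ed_mul_vx])
    (by
      intro e he
      by_cases hef : e = f
      · subst hef
        rw [hgf, ← hx, ← h.m22 _ _ hXXv hXXf, vx_mul_ed]
      · rw [hge e hef, ← hx, ← h.m21 _ _ hXXv (hXHe e he hef), (hXHe e he hef).1])
    (by
      intro S hS0 hS
      have hXXs : ∀ e, G.s e = G.s f → XX (vx (G.s f)) (ed e * star (ed e) : LA G) := by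
        intro e he
        refine ⟨?_, ?_⟩
        · rw [← mul_assoc, ← he, vx_mul_ed]
        · rw [mul_assoc, ← he, star_ed_mul_vx]
      rw [← hx]
      nth_rewrite 1 [vx_eq_sum (G.s f) S hS0 hS]
      rw [e6_sum2 h g0.2 _ _ fun e he => hXXs e ((hS e).1 he)]
      refine Finset.sum_congr rfl fun e he => ?_
      by_cases hef : e = f
      · subst hef
        rw [hgf, h.m22 _ _ hXXf hXXfs, h.t2 _ hXXf]
      · have hH := hXHe e ((hS e).1 he) hef
        rw [hge e hef, h.n11 _ _ hH hH])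
  have hag : ∀ z, InCor (NR G (G.s f)) z → Ψ' z = Ψ z := by
    intro z hz
    refine agree Ψ' Ψ (NR_her (G.s f)) (fun w _ => hv w) (fun e he => he1 e ?_) hz
    intro hc
    exact he (by rw [hc])
  have hI : Isom (vx (G.s f) : LA G) (ed f) := Isom.loop hf
  have hex : ∀ e, e ∈ exs hG.toLG (G.s f) → G.s e = G.s f ∧ e ≠ f := by
    intro e he
    unfold exs at he
    rw [Finset.mem_filter, Set.Finite.mem_toFinset] at he
    refine ⟨he.1, ?_⟩
    rintro rfl
    exact he.2 hf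
  have hE : Ext (κ := {e // e ∈ exs hG.toLG (G.s f)}) (NonUnitalStarAlgHom.id ℂ (LA G))
      (fun k => (⟨G.r k.1, hnr k.1 (hex k.1 k.2).1 (hex k.1 k.2).2⟩ : NR G (G.s f)))
      (vx (G.s f)) (ed f) (fun k => ed k.1) := by
    refine ⟨hI, ?_, ?_, ?_, ?_⟩
    · intro k l
      by_cases hkl : k = l
      · subst hkl
        rw [if_pos rfl, star_ed_mul_ed]
        rfl
      · rw [if_neg hkl, star_ed_mul_ed_ne fun h1 => hkl (Subtype.ext h1)]
    · intro k
      exact ed_mul_vx k.1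
    · intro k
      exact (hXHe k.1 (hex k.1 k.2).1 (hex k.1 k.2).2).1
    · rw [(loop_defect hG.toLG hf).1]
      exact (Finset.sum_coe_sort (exs hG.toLG (G.s f))
        fun e => (ed e * star (ed e) : LA G)).symm
  have hself : OM (NR G (G.s f)) Ψ (vx (G.s f)) Ψ' Ψ' := OM.self hPv hag
  obtain ⟨h1, h2⟩ := OM.unique hG hf hE (ShEq.refl hI) hself h (by rw [hv, hx])
    (by rw [he2 f rfl, hgf])
    (fun k => by rw [he2 k.1 (hex k.1 k.2).1, hge k.1 (hex k.1 k.2).2])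
  exact ⟨Ψ', hv, he1, hag, h1, h2⟩

end DC29
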