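import Pool.Agent.LibDC29.P1
import Pool.Agent.LibDC29.A6
import Pool.Agent.LibDC29.A7

/-!
[DC P7] Good homomorphisms: first facts.
* `her`: `v ∈ NR c`: family `a i` of `Φ (vx v)`, `mv (a i) ≤ t (mv v)`; as in `Pos.nr`: if `a i` reached
  `c' = M.f c` then `Rch G v c`.
* `comp_cl`: `SCl.map Ψ t.symm`.
* `ad`: `exists_AdH`; `SCl`: `seqvIn_Ad`, `SCl.of_seqv`.  `sh`: `x = Φ (vx c)`, `σ = Φ (ed f)`,
  `w = x + d * x`: `star w * w = x`, `Ad d x = w * star w`, `Ad d σ = w * σ * star w` (`Ad_eq`);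
  `ShEq.conj`, `ShEq.trans` (`Isom.loop`, `Isom.map`).
* `norm`: `Φ (vx v)`, `eS (q v)`, `v ∈ X`, are two families of orthogonal projections of the same
  classes: `SCl.seqv`: `w v` with `w v * star (w v) = eS (q v)`, `star (w v) * w v = Φ (vx v)`;
  `w = ∑_{v ∈ X} w v`, `star w * w = Φ (eS X)`, `w * Φ (eS X) = w`; `exists_ext` (`SCl.sum`/`SCl.map`);
  `Φ (vx v) + d * Φ (vx v) = w v`; `Ad d (Φ (vx v)) = w v * star (w v)`.
* `exists_d`: the same for `η`: `w = ∑_{v ∈ X} η v`, `star w * w = Θ (eS X)`, where `Θ (vx v)` has class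
  `mv v`.
-/

namespace DC29

open LPA74

variable {G G' : Gph} {hG : NG G} {hG' : NG G'} {t : Mon G ≃+ Mon G'}
  {M : MD hG.toLG hG'.toLG t}

theorem Gd.her {Φ : LA G →⋆ₙₐ[ℂ] LA G'} (h : Gd M Φ) {c v : G.V} (hc : IsLp G c)
    (hv : v ∈ NR G c) : HCl (NR G' (M.f c)) (Φ (vx v)) := by
  obtain ⟨n, a, u, h1, h2, h3, h4⟩ := h.cl v
  refine ⟨n, a, u, fun i => ?_, h1, h2, h3⟩
  intro hr
  apply hv
  have h5 : Le (mv (M.f c)) (mv (a i)) := le_of_rch hG'.toLG hr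
  have h6 : Le (mv (a i)) (t (mv v)) := by
    refine ⟨∑ j ∈ Finset.univ.erase i, mv (a j), ?_⟩
    rw [h4]
    exact Finset.add_sum_erase Finset.univ (fun j => (mv (a j) : Mon G')) (Finset.mem_univ i)
  obtain ⟨z, hz⟩ := Le.trans' h5 h6
  obtain ⟨b, k, h7, -⟩ := M.h2 (M.f c) (M.f_lp c hc)
  rw [M.gf c hc] at h7
  have h8 := congrArg t.symm hz
  rw [map_add, h7, t.symm_apply_apply] at h8
  exact rch_of_le hG.toLG hc ⟨b + t.symm z, by rw [← add_assoc, h8]⟩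

theorem Gd.comp_cl {Φ : LA G →⋆ₙₐ[ℂ] LA G'} {Ψ : LA G' →⋆ₙₐ[ℂ] LA G} (h : Gd M Φ)
    (h' : Gd M.symm Ψ) (v : G.V) : SCl (Ψ (Φ (vx v))) (mv v) := by
  have h1 := SCl.map Ψ (t.symm : Mon G' →+ Mon G) h'.cl (h.cl v)
  have h2 : (t.symm : Mon G' →+ Mon G) (t (mv v)) = mv v := t.symm_apply_apply _
  rwa [h2] at h1

theorem Gd.ad {Φ : LA G →⋆ₙₐ[ℂ] LA G'} (h : Gd M Φ) {d : LA G'} (hd : QU d) :
    ∃ Φ' : LA G →⋆ₙₐ[ℂ] LA G', Gd M Φ' ∧ ∀ x, Φ' x = Ad d (Φ x) := by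
  obtain ⟨φ, hφ⟩ := exists_AdH hd
  refine ⟨φ.comp Φ, ⟨?_, ?_⟩, fun x => hφ _⟩
  · intro v
    have h1 : (φ.comp Φ) (vx v) = Ad d (Φ (vx v)) := hφ _
    rw [h1]
    exact (h.cl v).of_seqv (seqvIn_Ad hd trivial trivial (h.cl v).pj)
  · intro f f' hf hs hr
    have h1 : (φ.comp Φ) (vx (G.s f)) = Ad d (Φ (vx (G.s f))) := hφ _
    have h2 : (φ.comp Φ) (ed f) = Ad d (Φ (ed f)) := hφ _
    have hx : Isom (Φ (vx (G.s f))) (Φ (ed f)) := (Isom.loop hf).map Φ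
    obtain ⟨a1, a2, a3, -⟩ := adj_aux hd hx.pj.1
    have a4 : star (Φ (vx (G.s f)) + d * Φ (vx (G.s f))) =
        Φ (vx (G.s f)) + Φ (vx (G.s f)) * star d := by
      rw [star_add, star_mul, hx.pj.2]
    have a5 : (Φ (vx (G.s f)) + d * Φ (vx (G.s f))) * Φ (vx (G.s f)) =
        Φ (vx (G.s f)) + d * Φ (vx (G.s f)) := by
      rw [add_mul, mul_assoc, hx.pj.1]
    rw [← a4] at a1 a2
    obtain ⟨b1, b2⟩ := ShEq.conj (H := NR G' (G'.s f')) hx a2 a5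
    have b3 : Ad d (Φ (ed f)) = (Φ (vx (G.s f)) + d * Φ (vx (G.s f))) * Φ (ed f) *
        star (Φ (vx (G.s f)) + d * Φ (vx (G.s f))) :=
      Ad_eq hx.pj hx.pj rfl rfl hx.xs hx.sx
    rw [h1, h2, ← a1, b3]
    exact ShEq.trans b1 hx (Isom.loop hr) b2 (h.sh f f' hf hs hr)

theorem p7_ext (hG : NG G) {ι : Type} (X : Finset ι) (p w : ι → LA G) {m : Mon G}
    (hp : SCl (∑ v ∈ X, p v) m) (hpj : ∀ v ∈ X, Pj (p v))
    (h0 : ∀ u ∈ X, ∀ v ∈ X, u ≠ v → p u * p v = 0)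
    (h1 : ∀ v ∈ X, star (w v) * w v = p v) (h2 : ∀ v ∈ X, w v * p v = w v)
    (h3 : ∀ u ∈ X, ∀ v ∈ X, u ≠ v → star (w u) * w v = 0) :
    ∃ d, QU d ∧ ∀ v ∈ X, p v + d * p v = w v := by
  have e1 : ∀ u ∈ X, ∀ v ∈ X, u ≠ v → w u * p v = 0 := by
    intro u hu v hv huv
    rw [← h2 u hu, mul_assoc, h0 u hu v hv huv, mul_zero]
  have e2 : ∀ v ∈ X, (∑ u ∈ X, w u) * p v = w v := by
    intro v hv
    rw [Finset.sum_mul, Finset.sum_eq_single v (fun u hu huv => e1 u hu v hv huv)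
      (fun h => absurd hv h)]
    exact h2 v hv
  have e3 : ∀ v ∈ X, (∑ u ∈ X, p u) * p v = p v := by
    intro v hv
    rw [Finset.sum_mul, Finset.sum_eq_single v (fun u hu huv => h0 u hu v hv huv)
      (fun h => absurd hv h)]
    exact (hpj v hv).1
  have e4 : star (∑ u ∈ X, w u) * (∑ u ∈ X, w u) = ∑ u ∈ X, p u := by
    rw [star_sum, Finset.sum_mul]
    refine Finset.sum_congr rfl fun u hu => ?_
    rw [Finset.mul_sum, Finset.sum_eq_single u (fun v hv hvu => h3 u hu v hv hvu.symm)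
      (fun h => absurd hu h)]
    exact h1 u hu
  have e5 : (∑ u ∈ X, w u) * (∑ u ∈ X, p u) = ∑ u ∈ X, w u := by
    rw [Finset.mul_sum]
    exact Finset.sum_congr rfl e2
  obtain ⟨d, hd, hd1⟩ := exists_ext hG hp e4 e5
  refine ⟨d, hd, fun v hv => ?_⟩
  have e6 := congrArg (· * p v) hd1
  simp only [add_mul, mul_assoc, e3 v hv, e2 v hv] at e6
  exact e6

theorem p7_cl {Θ : LA G →⋆ₙₐ[ℂ] LA G'} (s : Mon G →+ Mon G') (h : ∀ v, SCl (Θ (vx v)) (s (mv v)))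
    (X : Finset G.V) : SCl (∑ v ∈ X, Θ (vx v)) (s (∑ v ∈ X, mv v)) := by
  have h1 := SCl.map Θ s h (SCl.eS X)
  have h2 : Θ (eS X) = ∑ v ∈ X, Θ (vx v) := by
    rw [eS, map_sum]
  rwa [h2] at h1

theorem p7_orth (Θ : LA G →⋆ₙₐ[ℂ] LA G') {u v : G.V} (h : u ≠ v) :
    Θ (vx u) * Θ (vx v) = 0 := by
  rw [← map_mul, vx_mul_ne h, map_zero]

theorem Gd.norm {Φ : LA G →⋆ₙₐ[ℂ] LA G'} (h : Gd M Φ) (P : Pos M) (X : Finset G.V) :
    ∃ d, QU d ∧ ∀ v ∈ X, Ad d (Φ (vx v)) = eS (P.q v) := by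
  have h1 : ∀ v, SEqv (eS (P.q v) : LA G') (Φ (vx v)) := fun v => (P.scl v).seqv (h.cl v)
  choose w hw using h1
  obtain ⟨d, hd, hd1⟩ := p7_ext hG' X (fun v => Φ (vx v)) w
    (p7_cl (t : Mon G →+ Mon G') h.cl X) (fun v _ => (h.cl v).pj)
    (fun u _ v _ huv => p7_orth Φ huv) (fun v _ => (hw v).2.2.1)
    (fun v _ => by
      rw [← (hw v).2.2.1, ← mul_assoc]
      exact (hw v).2.2.2)
    (fun u _ v _ huv => by
      obtain ⟨-, a1, a2, a3⟩ := hw u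
      obtain ⟨-, b1, b2, b3⟩ := hw v
      calc star (w u) * w v = (star (w u) * w u * star (w u)) * (w v * star (w v) * w v) := by
            rw [seq_star a3, b3]
        _ = star (w u) * ((w u * star (w u)) * (w v * star (w v))) * w v := by
            simp only [mul_assoc]
        _ = 0 := by rw [a1, b1, P.orth huv, mul_zero, zero_mul])
  refine ⟨d, hd, fun v hv => ?_⟩
  obtain ⟨-, a1, a2, a3⟩ := hw v
  have hp := (h.cl v).pj
  rw [Ad_eq hp hp (hd1 v hv) (hd1 v hv) hp.1 hp.1, ← a2, ← mul_assoc, a3, a1]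

theorem exists_dX (hG : NG G) {Θ : LA G →⋆ₙₐ[ℂ] LA G} (h : ∀ v, SCl (Θ (vx v)) (mv v))
    (X : Finset G.V) (η : G.V → LA G) (hη : ∀ v ∈ X, star (η v) * η v = Θ (vx v) ∧
      η v * star (η v) = vx v ∧ vx v * η v = η v) :
    ∃ d, QU d ∧ ∀ v ∈ X, Θ (vx v) + d * Θ (vx v) = η v := by
  refine p7_ext hG X (fun v => Θ (vx v)) η (p7_cl (AddMonoidHom.id (Mon G)) h X)
    (fun v _ => (h v).pj) (fun u _ v _ huv => p7_orth Θ huv) (fun v hv => (hη v hv).1) ?_ ?_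
  · intro v hv
    obtain ⟨a1, a2, a3⟩ := hη v hv
    rw [← a1, ← mul_assoc, a2, a3]
  · intro u hu v hv huv
    obtain ⟨a1, a2, a3⟩ := hη u hu
    obtain ⟨b1, b2, b3⟩ := hη v hv
    have a4 : star (η u) * vx u = star (η u) := by
      have h1 := congrArg star a3
      rwa [star_mul, star_vx] at h1
    rw [← a4, ← b3, mul_assoc, ← mul_assoc (vx u) (vx v), vx_mul_ne huv, zero_mul, mul_zero]

end DC29
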