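import Pool.Agent.LibDC29.E1
import Pool.Agent.LibDC29.A7
import Pool.Agent.LibDC29.P7

/-!
[DC E7] Classes of the images of defect projections.
* `hcl`, `scl`: `HCl H p`: `p = ∑ u i * star (u i)`, `star (u i) * u j = δ vx (a i)`, `a i ∈ H`.  `p * u i = u i`, so
  `x * u i = u i`; `u i * eS {a i} = u i`: `XH H x (u i)`.  `w2 p = ∑ w2 (u i * star (u i)) = ∑ w1 (u i) * star (w1 (u i))`
  (`a2`, `n11`), `star (w1 (u i)) * w1 (u j) = Ψ (star (u i) * u j) = δ_ij Ψ (vx (a i))` (`m11`).  Each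
  `w1 (u i) * star (w1 (u i))` is `*`-equivalent to `Ψ (vx (a i))`; `HCl.of_seqv`, `HCl.add`; `SCl.of_seqv`, `SCl.sum`
  with `m = ∑ mv (a i)`.
* `cl_rr`: `c = s f`, `c' = s f'`.  `ρ * star ρ = pw x σ N * star (pw x σ N) + ρ * (vx c' - a * star a) * star ρ` (`ρ * a = pw x σ N`).
  `w2 (pw x σ N * star (pw x σ N)) = pw (vx c) (ed f) N * star (..)` (`OM.pw` is in E6: reprove it or use `hpw`), `*`-equivalent to
  `vx c`, class `mv c`.  `p = ρ * (vx c' - a star a) * star ρ`: `HCl.conj`; `scl`: `SCl p m1`, `SCl (w2 p) (t.symm m1)`.  `p` is `*`-equivalent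
  to `vx c' - a star a`, so that has class `m1`, and `vx c' = a star a + (vx c' - a star a)`, `a star a` being `*`-equivalent to
  `x = Φ (vx c)` of class `t (mv c)`: `mv c' = t (mv c) + m1` (`SCl.unique`); apply `t.symm`.
-/

namespace DC29

open LPA74

section
variable {G G2 : Gph} {H : Set G.V} {H' : Set G2.V} {Ψ : LA G →⋆ₙₐ[ℂ] LA G2} {x p : LA G}
  {w1 w2 : LA G → LA G2}

theorem e7_w2_zero (h : OM H Ψ x w1 w2) : w2 0 = 0 := by
  have h0 : XX x 0 := ⟨mul_zero _, zero_mul _⟩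
  have := h.a2 0 0 h0 h0
  rw [add_zero] at this
  exact left_eq_add.mp this

theorem e7_w2_sum (h : OM H Ψ x w1 w2) {ι : Type} (s : Finset ι) (q : ι → LA G)
    (hq : ∀ i, XX x (q i)) : XX x (∑ i ∈ s, q i) ∧ w2 (∑ i ∈ s, q i) = ∑ i ∈ s, w2 (q i) := by
  classical
  induction s using Finset.induction_on with
  | empty => exact ⟨⟨by simp, by simp⟩, by simpa using e7_w2_zero h⟩
  | insert a s ha ih =>
    rw [Finset.sum_insert ha, Finset.sum_insert ha]
    refine ⟨⟨?_, ?_⟩, ?_⟩
    · rw [mul_add, (hq a).1, ih.1.1]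
    · rw [add_mul, (hq a).2, ih.1.2]
    · rw [h.a2 _ _ (hq a) ih.1, ih.2]

/-- the common part. -/
theorem e7_fam (h : OM H Ψ x w1 w2) (hx : Pj x) {n : ℕ} {a : Fin n → G.V} {u : Fin n → LA G}
    (ha : ∀ i, a i ∈ H) (hp : p = ∑ i, u i * star (u i))
    (h1 : ∀ i j, star (u i) * u j = if i = j then vx (a i) else 0)
    (h2 : ∀ i, u i * vx (a i) = u i) (hxp : x * p = p) :
    w2 p = ∑ i, w1 (u i) * star (w1 (u i)) ∧
    (∀ i j, star (w1 (u i)) * w1 (u j) = if i = j then Ψ (vx (a i)) else 0) ∧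
    (∀ i, w1 (u i) * Ψ (vx (a i)) = w1 (u i)) := by
  have hpu : ∀ i, p * u i = u i := by
    intro i
    rw [hp, Finset.sum_mul, Finset.sum_eq_single i]
    · rw [mul_assoc, h1, if_pos rfl, h2]
    · intro j _ hj
      rw [mul_assoc, h1, if_neg hj, mul_zero]
    · intro hi; exact absurd (Finset.mem_univ i) hi
  have hxu : ∀ i, x * u i = u i := by
    intro i
    rw [← hpu i, ← mul_assoc, hxp]
  have hXH : ∀ i, XH H x (u i) := by
    intro i
    refine ⟨hxu i, {a i}, ?_, ?_⟩
    · intro v hv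
      rw [Finset.coe_singleton, Set.mem_singleton_iff] at hv
      rw [hv]
      exact ha i
    · rw [DC29.eS, Finset.sum_singleton, h2]
  have hXX : ∀ i, XX x (u i * star (u i)) := by
    intro i
    refine ⟨by rw [← mul_assoc, hxu], ?_⟩
    have : star (u i) * x = star (u i) := by
      have := congrArg star (hxu i)
      rwa [star_mul, hx.2] at this
    rw [mul_assoc, this]
  refine ⟨?_, ?_, ?_⟩
  · rw [hp, (e7_w2_sum h Finset.univ _ hXX).2]
    exact Finset.sum_congr rfl fun i _ => (h.n11 _ _ (hXH i) (hXH i)).symm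
  · intro i j
    rw [h.m11 _ _ (hXH i) (hXH j), h1]
    split_ifs with hij
    · rfl
    · exact map_zero Ψ
  · intro i
    have := h.m10 (u i) (vx (a i)) (hXH i) (InCor.vx (ha i))
    rw [h2] at this
    exact this.symm

/-- `Pj x` is implied. -/
theorem e7_seqv {n : ℕ} {a : Fin n → G.V} {b : Fin n → LA G2}
    (h1 : ∀ i j, star (b i) * b j = if i = j then Ψ (vx (a i)) else 0)
    (h2 : ∀ i, b i * Ψ (vx (a i)) = b i) (i : Fin n) :
    SEqv (b i * star (b i)) (Ψ (vx (a i))) := by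
  refine ⟨b i, trivial, rfl, ?_, ?_⟩
  · rw [h1, if_pos rfl]
  · rw [mul_assoc, h1, if_pos rfl, h2]

theorem e7_orth {n : ℕ} {a : Fin n → G.V} {b : Fin n → LA G2}
    (h1 : ∀ i j, star (b i) * b j = if i = j then Ψ (vx (a i)) else 0) {i j : Fin n}
    (hij : i ≠ j) : (b i * star (b i)) * (b j * star (b j)) = 0 := by
  rw [mul_assoc, ← mul_assoc (star (b i)), h1, if_neg hij, zero_mul, mul_zero]

theorem OM.hcl (h : OM H Ψ x w1 w2) (hx : Pj x) (hH : ∀ v ∈ H, HCl H' (Ψ (vx v)))
    (hp : HCl H p) (hxp : x * p = p) : HCl H' (w2 p) := by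
  classical
  obtain ⟨n, a, u, ha, hp, h1, h2⟩ := hp
  obtain ⟨e1, e2, e3⟩ := e7_fam h hx ha hp h1 h2 hxp
  rw [e1]
  have key : ∀ s : Finset (Fin n), HCl H' (∑ i ∈ s, w1 (u i) * star (w1 (u i))) := by
    intro s
    induction s using Finset.induction_on with
    | empty => simpa using (HCl.zero : HCl H' (0 : LA G2))
    | insert i s hi ih =>
      rw [Finset.sum_insert hi]
      refine HCl.add ((hH _ (ha i)).of_seqv (e7_seqv e2 e3 i)) ih ?_
      rw [Finset.mul_sum]
      refine Finset.sum_eq_zero fun j hj => e7_orth e2 ?_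
      rintro rfl
      exact hi hj
  exact key Finset.univ

theorem OM.scl (h : OM H Ψ x w1 w2) (hx : Pj x) (t' : Mon G →+ Mon G2)
    (ht : ∀ v, SCl (Ψ (vx v)) (t' (mv v))) (hp : HCl H p) (hxp : x * p = p) :
    ∃ m, SCl p m ∧ SCl (w2 p) (t' m) := by
  classical
  obtain ⟨n, a, u, ha, hp, h1, h2⟩ := hp
  obtain ⟨e1, e2, e3⟩ := e7_fam h hx ha hp h1 h2 hxp
  refine ⟨∑ i, mv (a i), ⟨n, a, u, hp, h1, h2, rfl⟩, ?_⟩
  rw [e1, map_sum]
  exact SCl.sum Finset.univ _ _ (fun i _ => SCl.of_seqv (ht (a i)) (e7_seqv e2 e3 i))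
    fun i _ j _ hij => e7_orth e2 hij

end

variable {G G' : Gph} {hG : NG G} {hG' : NG G'} {t : Mon G ≃+ Mon G'}
  {M : MD hG.toLG hG'.toLG t}

theorem cl_rr {Φ : LA G →⋆ₙₐ[ℂ] LA G'} {Ψ : LA G' →⋆ₙₐ[ℂ] LA G} (hΦ : Gd M Φ)
    (hΨ : Gd M.symm Ψ) {f : G.Ed} {f' : G'.Ed} (hf : G.r f = G.s f) (hf' : G'.r f' = G'.s f')
    {w1 w2 : LA G' → LA G} (hOM : OM (NR G' (G'.s f')) Ψ (Φ (vx (G.s f))) w1 w2)
    (hx : w2 (Φ (vx (G.s f))) = vx (G.s f)) (hσ : w2 (Φ (ed f)) = ed f) {N : ℕ} {ρ a : LA G'}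
    (hρ : star ρ * ρ = vx (G'.s f') ∧ Φ (vx (G.s f)) * ρ = ρ ∧ ρ * vx (G'.s f') = ρ)
    (ha : star a * a = Φ (vx (G.s f)) ∧ vx (G'.s f') * a = a ∧ a * Φ (vx (G.s f)) = a)
    (hra : ρ * a = pw (Φ (vx (G.s f))) (Φ (ed f)) N)
    (hH : HCl (NR G' (G'.s f')) (vx (G'.s f') - a * star a)) :
    SCl (w2 (ρ * star ρ)) (t.symm (mv (G'.s f'))) := by
  have hloop : Isom (vx (G.s f) : LA G) (ed f) := Isom.loop hf
  have hI : Isom (Φ (vx (G.s f))) (Φ (ed f)) := hloop.map Φ
  have hX : Pj (Φ (vx (G.s f))) := hI.pj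
  set x := Φ (vx (G.s f)) with hxdef
  set σ := Φ (ed f) with hσdef
  have hρs : star ρ * x = star ρ := by
    have := congrArg star hρ.2.1
    rwa [star_mul, hX.2] at this
  have hvs : star (vx (G'.s f') : LA G') = vx (G'.s f') := star_vx _
  have hvρ : vx (G'.s f') * star ρ = star ρ := by
    have := congrArg star hρ.2.2
    rwa [star_mul, hvs] at this
  -- powers
  have hpw : ∀ n, w2 (pw x σ n) = pw (vx (G.s f)) (ed f) n := by
    intro n
    induction n with
    | zero => exact hx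
    | succ n ih =>
      change w2 (σ * pw x σ n) = ed f * pw (vx (G.s f)) (ed f) n
      rw [hOM.m22 _ _ ⟨hI.xs, hI.sx⟩ ⟨(hI.pw_corner n).1, (hI.pw_corner n).2.1⟩, hσ, ih]
  have hXXpw : ∀ n, XX x (pw x σ n) := fun n => ⟨(hI.pw_corner n).1, (hI.pw_corner n).2.1⟩
  have hXXstar : ∀ z, XX x z → XX x (star z) := by
    intro z hz
    constructor
    · have := congrArg star hz.2
      rwa [star_mul, hX.2] at this
    · have := congrArg star hz.1
      rwa [star_mul, hX.2] at this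
  have hXXmul : ∀ z z', XX x z → XX x z' → XX x (z * z') := by
    intro z z' hz hz'
    exact ⟨by rw [← mul_assoc, hz.1], by rw [mul_assoc, hz'.2]⟩
  -- decomposition
  set p := ρ * (vx (G'.s f') - a * star a) * star ρ with hpdef
  have hdec : ρ * star ρ = pw x σ N * star (pw x σ N) + p := by
    rw [hpdef, ← hra, star_mul, mul_sub, sub_mul, hρ.2.2]
    simp only [mul_assoc]
    abel
  have hxp : x * p = p := by
    rw [hpdef, ← mul_assoc, ← mul_assoc, hρ.2.1]
  have hpx : p * x = p := by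
    rw [hpdef, mul_assoc, hρs]
  have hva : vx (G'.s f') * (vx (G'.s f') - a * star a) = vx (G'.s f') - a * star a := by
    rw [mul_sub, vx_mul_self, ← mul_assoc, ha.2.1]
  have hpH : HCl (NR G' (G'.s f')) p := by
    refine HCl.conj hH ?_
    rw [hρ.1, hva]
  obtain ⟨m1, hm1, hm2⟩ := hOM.scl hX (t.symm : Mon G' →+ Mon G) hΨ.cl hpH hxp
  -- class of `vx c' - a a*`
  have hq : Pj (vx (G'.s f') - a * star a) := hH.pj
  have hse : SEqv (vx (G'.s f') - a * star a) p := by
    refine ⟨(vx (G'.s f') - a * star a) * star ρ, trivial, ?_, ?_, ?_⟩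
    · rw [star_mul, star_star, hq.2]
      calc (vx (G'.s f') - a * star a) * star ρ * (ρ * (vx (G'.s f') - a * star a))
          = (vx (G'.s f') - a * star a) * (star ρ * ρ) * (vx (G'.s f') - a * star a) := by
            simp only [mul_assoc]
        _ = (vx (G'.s f') - a * star a) * (vx (G'.s f') * (vx (G'.s f') - a * star a)) := by
            rw [hρ.1, mul_assoc]
        _ = vx (G'.s f') - a * star a := by rw [hva, hq.1]
    · rw [star_mul, star_star, hq.2, hpdef]
      calc ρ * (vx (G'.s f') - a * star a) * ((vx (G'.s f') - a * star a) * star ρ)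
          = ρ * ((vx (G'.s f') - a * star a) * (vx (G'.s f') - a * star a)) * star ρ := by
            simp only [mul_assoc]
        _ = _ := by rw [hq.1]
    · rw [star_mul, star_star, hq.2]
      calc (vx (G'.s f') - a * star a) * star ρ * (ρ * (vx (G'.s f') - a * star a)) *
            ((vx (G'.s f') - a * star a) * star ρ)
          = (vx (G'.s f') - a * star a) * (star ρ * ρ) * ((vx (G'.s f') - a * star a) *
            (vx (G'.s f') - a * star a)) * star ρ := by simp only [mul_assoc]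
        _ = (vx (G'.s f') - a * star a) * (vx (G'.s f') * (vx (G'.s f') - a * star a)) *
            star ρ := by rw [hρ.1, hq.1]; simp only [mul_assoc]
        _ = _ := by rw [hva, hq.1]
  have hcq : SCl (vx (G'.s f') - a * star a) m1 := hm1.of_seqv hse
  have haa : SCl (a * star a) (t (mv (G.s f))) := by
    refine (hΦ.cl (G.s f)).of_seqv ⟨a, trivial, rfl, ha.1, ?_⟩
    rw [mul_assoc, ha.1, ha.2.2]
  have hsum : SCl (vx (G'.s f')) (t (mv (G.s f)) + m1) := by
    have h0 : (a * star a) * (vx (G'.s f') - a * star a) = 0 := by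
      have h1 : star a * vx (G'.s f') = star a := by
        have := congrArg star ha.2.1
        rwa [star_mul, hvs] at this
      have h2 : star a * a * star a = star a := by
        have := congrArg star ha.2.2
        rw [star_mul, hX.2] at this
        rw [ha.1, this]
      rw [mul_sub, mul_assoc, h1]
      rw [show a * star a * (a * star a) = a * (star a * a * star a) by simp only [mul_assoc], h2,
        sub_self]
    have := haa.add hcq h0
    rwa [add_sub_cancel] at this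
  have hmv : mv (G'.s f') = t (mv (G.s f)) + m1 := SCl.unique hG' (SCl.vx _) hsum
  -- conclusion
  have hpwc := hloop.pw_corner N
  have hw : w2 (pw x σ N * star (pw x σ N)) =
      pw (vx (G.s f)) (ed f) N * star (pw (vx (G.s f)) (ed f) N) := by
    rw [hOM.m22 _ _ (hXXpw N) (hXXstar _ (hXXpw N)), hOM.t2 _ (hXXpw N), hpw]
  have hcl1 : SCl (pw (vx (G.s f)) (ed f) N * star (pw (vx (G.s f)) (ed f) N) : LA G)
      (mv (G.s f)) := by
    refine (SCl.vx (G.s f)).of_seqv ⟨pw (vx (G.s f)) (ed f) N, trivial, rfl, hpwc.2.2, ?_⟩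
    rw [mul_assoc, hpwc.2.2, hpwc.2.1]
  have hXXp : XX x p := ⟨hxp, hpx⟩
  have hXX1 : XX x (pw x σ N * star (pw x σ N)) := hXXmul _ _ (hXXpw N) (hXXstar _ (hXXpw N))
  have hfin : w2 (ρ * star ρ) = pw (vx (G.s f)) (ed f) N * star (pw (vx (G.s f)) (ed f) N) +
      w2 p := by
    rw [hdec, hOM.a2 _ _ hXX1 hXXp, hw]
  rw [hfin, hmv, map_add, AddEquiv.symm_apply_apply]
  refine hcl1.add hm2 ?_
  rw [← hw, ← hOM.m22 _ _ hXX1 hXXp]
  have h0 : pw x σ N * star (pw x σ N) * p = 0 := by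
    have h1 : star a * a * star a = star a := by
      have := congrArg star ha.2.2
      rw [star_mul, hX.2] at this
      rw [ha.1, this]
    have h2 : star a * vx (G'.s f') = star a := by
      have := congrArg star ha.2.1
      rwa [star_mul, hvs] at this
    have h3 : star a * (vx (G'.s f') - a * star a) = 0 := by
      rw [mul_sub, h2, ← mul_assoc, h1, sub_self]
    calc pw x σ N * star (pw x σ N) * p
        = ρ * a * (star a * (star ρ * ρ) * (vx (G'.s f') - a * star a)) * star ρ := by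
          rw [hpdef, ← hra, star_mul]; simp only [mul_assoc]
      _ = 0 := by rw [hρ.1, h2, h3, mul_zero, zero_mul]
  rw [h0, e7_w2_zero hOM]

end DC29
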