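import Pool.Agent.LibDC29.E1
import Pool.Agent.LibDC29.E0
import Pool.Agent.LibDC29.P4

/-!
[DC E8] The two isometries with exits of the loop step.  `x = Φ (vx c)`, `σ = Φ (ed f)`; index type
`κ = Σ g : {g // g ∈ exs hG c}, {w // w ∈ K g}`; `ν (g, w) = Φ (ed g) * vx w`, `ν' (g, w) = ed g * η (r g) * Ψ (vx w)`.
First: `star (ν (g,w)) * ν (g',w') = vx w * Φ (star (ed g) * ed g') * vx w'`, which is `0` for `g ≠ g'` and
`vx w * eS (K g) * vx w'` for `g = g'`; `x - σσ* = Φ (vx c - ed f star (ed f)) = ∑_g Φ (ed g star (ed g))` (`loop_defect`)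
`= ∑_g Φ (ed g) * eS (K g) * star (Φ (ed g))`.
Second: `η* (ed g)* (ed g) η = η (r g)* η (r g) = Ψ (eS (K g))`; `vx c - ed f star (ed f) = ∑ ed g * vx (r g) * star (ed g) =
∑ ed g * η η* * star (ed g)`, `η = η * star η * η = η * Ψ (eS (K g))`.
-/

namespace DC29

open LPA74

variable {G G' : Gph} {hG : LG G} {hG' : LG G'} {t : Mon G ≃+ Mon G'} {M : MD hG hG' t}
  {Φ : LA G →⋆ₙₐ[ℂ] LA G'} {Ψ : LA G' →⋆ₙₐ[ℂ] LA G} {f : G.Ed} {f' : G'.Ed}
  {B : Finset G'.V} {K : G.Ed → Finset G'.V} {η : G.V → LA G}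

/-- index type of the exits. -/
abbrev KI (hG : LG G) (f : G.Ed) (K : G.Ed → Finset G'.V) : Type :=
  Σ g : {g // g ∈ exs hG (G.s f)}, {w // w ∈ K g.1}

theorem E8_vx_eS {S : Finset G.V} {w : G.V} (hw : w ∈ S) : (vx w : LA G) * eS S = vx w := by
  unfold eS
  rw [Finset.mul_sum, Finset.sum_eq_single_of_mem w hw]
  · exact vx_mul_self w
  · intro v _ hv
    exact vx_mul_ne hv.symm

open Classical in
theorem E8_vx_eS_vx {S : Finset G.V} {w w' : G.V} (hw : w ∈ S) :
    (vx w : LA G) * eS S * vx w' = if w = w' then vx w else 0 := by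
  rw [E8_vx_eS hw]
  split_ifs with h
  · rw [← h]; exact vx_mul_self w
  · exact vx_mul_ne h

theorem E8_mem (q : KI hG f K) : G.s q.1.1 = G.s f := (mem_exs.1 q.1.2).1

theorem E8_sum {A : Type} [AddCommMonoid A] (F : G.Ed → G'.V → A) :
    ∑ q : KI hG f K, F q.1.1 q.2.1 = ∑ g ∈ exs hG (G.s f), ∑ w ∈ K g, F g w := by
  rw [Fintype.sum_sigma]
  have h1 : ∀ g : {g // g ∈ exs hG (G.s f)}, ∑ w : {w // w ∈ K g.1}, F g.1 w.1
      = ∑ w ∈ K g.1, F g.1 w := fun g => Finset.sum_coe_sort (K g.1) (fun w => F g.1 w)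
  rw [Finset.sum_congr rfl fun g _ => h1 g]
  exact Finset.sum_coe_sort (exs hG (G.s f)) (fun g => ∑ w ∈ K g, F g w)

theorem E8_isom {A : Type} [NonUnitalRing A] [StarRing A] [Module ℂ A] (Φ : LA G →⋆ₙₐ[ℂ] A)
    (hf : G.r f = G.s f) : Isom (Φ (vx (G.s f))) (Φ (ed f)) where
  pj := ⟨by rw [← map_mul, vx_mul_self], by rw [← map_star, star_vx]⟩
  ss := by rw [← map_star, ← map_mul, star_ed_mul_ed, hf]
  xs := by rw [← map_mul, vx_mul_ed]
  sx := by
    have h1 : (ed f : LA G) * vx (G.s f) = ed f := by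
      have := ed_mul_vx f
      rwa [hf] at this
    rw [← map_mul, h1]

theorem LSH.ext (h : LSH M Φ Ψ f f' B K η) :
    Ext (κ := KI hG f K) (NonUnitalStarAlgHom.id ℂ (LA G'))
      (fun q => (⟨q.2.1, (h.hK q.1.1 q.1.2).2 q.2.1 q.2.2⟩ : NR G' (G'.s f')))
      (Φ (vx (G.s f))) (Φ (ed f)) (fun q => Φ (ed q.1.1) * vx q.2.1) where
  isom := E8_isom Φ h.hf
  orth := by
    classical
    rintro ⟨⟨g, hg⟩, ⟨w, hw⟩⟩ ⟨⟨g', hg'⟩, ⟨w', hw'⟩⟩
    show star (Φ (ed g) * vx w) * (Φ (ed g') * vx w') = _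
    have e1 : star (Φ (ed g) * vx w) * (Φ (ed g') * vx w')
        = vx w * Φ (star (ed g) * ed g') * vx w' := by
      rw [star_mul, star_vx, map_mul, map_star]
      simp only [mul_assoc]
    rw [e1]
    by_cases hgg : g = g'
    · subst hgg
      rw [star_ed_mul_ed]
      have e2 : (vx w : LA G') * Φ (vx (G.r g)) * vx w' = if w = w' then vx w else 0 := by
        rw [(h.hK g hg).1, E8_vx_eS_vx hw]
      refine e2.trans ?_
      by_cases hww : w = w'
      · subst hww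
        rw [if_pos rfl, if_pos rfl]
        rfl
      · rw [if_neg hww, if_neg]
        intro hc
        apply hww
        have := eq_of_heq (Sigma.mk.inj_iff.1 hc).2
        exact congrArg Subtype.val this
    · rw [star_ed_mul_ed_ne hgg, map_zero, mul_zero, zero_mul, if_neg]
      intro hc
      apply hgg
      exact congrArg Subtype.val (Sigma.mk.inj_iff.1 hc).1
  nv := by
    rintro ⟨⟨g, hg⟩, ⟨w, hw⟩⟩
    show Φ (ed g) * vx w * vx w = Φ (ed g) * vx w
    rw [mul_assoc, vx_mul_self]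
  yn := by
    rintro ⟨⟨g, hg⟩, ⟨w, hw⟩⟩
    show Φ (vx (G.s f)) * (Φ (ed g) * vx w) = Φ (ed g) * vx w
    rw [← mul_assoc, ← map_mul, ← (mem_exs.1 hg).1, vx_mul_ed]
  df := by
    rw [E8_sum (fun g w => Φ (ed g) * vx w * star (Φ (ed g) * vx w)), ← map_star, ← map_mul,
      ← map_sub, (loop_defect hG h.hf).1, map_sum]
    refine Finset.sum_congr rfl fun g hg => ?_
    have e1 : ∀ w, Φ (ed g) * vx w * star (Φ (ed g) * vx w) = Φ (ed g) * vx w * Φ (star (ed g)) := by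
      intro w
      rw [star_mul, star_vx, ← map_star]
      calc Φ (ed g) * vx w * (vx w * Φ (star (ed g)))
          = Φ (ed g) * (vx w * vx w) * Φ (star (ed g)) := by simp only [mul_assoc]
        _ = _ := by rw [vx_mul_self]
    rw [Finset.sum_congr rfl fun w _ => e1 w, ← Finset.sum_mul, ← Finset.mul_sum]
    show _ = Φ (ed g) * eS (K g) * Φ (star (ed g))
    rw [← (h.hK g hg).1, ← map_mul, ← map_mul, ed_mul_vx]

theorem LSH.ext' (h : LSH M Φ Ψ f f' B K η) :
    Ext (κ := KI hG f K) Ψ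
      (fun q => (⟨q.2.1, (h.hK q.1.1 q.1.2).2 q.2.1 q.2.2⟩ : NR G' (G'.s f')))
      (vx (G.s f)) (ed f) (fun q => ed q.1.1 * η (G.r q.1.1) * Ψ (vx q.2.1)) where
  isom := E8_isom (NonUnitalStarAlgHom.id ℂ (LA G)) h.hf
  orth := by
    classical
    rintro ⟨⟨g, hg⟩, ⟨w, hw⟩⟩ ⟨⟨g', hg'⟩, ⟨w', hw'⟩⟩
    show star (ed g * η (G.r g) * Ψ (vx w)) * (ed g' * η (G.r g') * Ψ (vx w')) = _
    have e1 : star (ed g * η (G.r g) * Ψ (vx w)) * (ed g' * η (G.r g') * Ψ (vx w'))
        = Ψ (vx w) * (star (η (G.r g)) * ((star (ed g) * ed g') * η (G.r g'))) * Ψ (vx w') := by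
      rw [star_mul, star_mul, ← map_star, star_vx]
      simp only [mul_assoc]
    rw [e1]
    by_cases hgg : g = g'
    · subst hgg
      rw [star_ed_mul_ed]
      have e2 : Ψ (vx w) * (star (η (G.r g)) * (vx (G.r g) * η (G.r g))) * Ψ (vx w')
          = Ψ (if w = w' then vx w else 0) := by
        rw [(h.hη g hg).2.2, (h.hη g hg).1, (h.hK g hg).1, ← map_mul, ← map_mul,
          E8_vx_eS_vx hw]
      refine e2.trans ?_
      by_cases hww : w = w'
      · subst hww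
        rw [if_pos rfl, if_pos rfl]
      · rw [if_neg hww, if_neg, map_zero]
        intro hc
        apply hww
        have := eq_of_heq (Sigma.mk.inj_iff.1 hc).2
        exact congrArg Subtype.val this
    · rw [star_ed_mul_ed_ne hgg, zero_mul, mul_zero, mul_zero, zero_mul, if_neg]
      intro hc
      apply hgg
      exact congrArg Subtype.val (Sigma.mk.inj_iff.1 hc).1
  nv := by
    rintro ⟨⟨g, hg⟩, ⟨w, hw⟩⟩
    show ed g * η (G.r g) * Ψ (vx w) * Ψ (vx w) = ed g * η (G.r g) * Ψ (vx w)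
    rw [mul_assoc, ← map_mul, vx_mul_self]
  yn := by
    rintro ⟨⟨g, hg⟩, ⟨w, hw⟩⟩
    show vx (G.s f) * (ed g * η (G.r g) * Ψ (vx w)) = ed g * η (G.r g) * Ψ (vx w)
    rw [← mul_assoc, ← mul_assoc, ← (mem_exs.1 hg).1, vx_mul_ed]
  df := by
    rw [E8_sum (fun g w => ed g * η (G.r g) * Ψ (vx w) * star (ed g * η (G.r g) * Ψ (vx w))),
      (loop_defect hG h.hf).1]
    refine Finset.sum_congr rfl fun g hg => ?_
    have e1 : ∀ w, ed g * η (G.r g) * Ψ (vx w) * star (ed g * η (G.r g) * Ψ (vx w))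
        = ed g * η (G.r g) * Ψ (vx w) * (star (η (G.r g)) * star (ed g)) := by
      intro w
      rw [star_mul, star_mul, ← map_star, star_vx]
      calc ed g * η (G.r g) * Ψ (vx w) * (Ψ (vx w) * (star (η (G.r g)) * star (ed g)))
          = ed g * η (G.r g) * (Ψ (vx w) * Ψ (vx w)) * (star (η (G.r g)) * star (ed g)) := by
            simp only [mul_assoc]
        _ = _ := by rw [← map_mul, vx_mul_self]
    rw [Finset.sum_congr rfl fun w _ => e1 w, ← Finset.sum_mul, ← Finset.mul_sum, ← map_sum]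
    show _ = ed g * η (G.r g) * Ψ (eS (K g)) * (star (η (G.r g)) * star (ed g))
    rw [← (h.hK g hg).1, ← (h.hη g hg).1]
    have e2 := (h.hη g hg).2.1
    calc ed g * star (ed g) = ed g * (vx (G.r g) * vx (G.r g)) * star (ed g) := by
          rw [vx_mul_self, ed_mul_vx]
      _ = ed g * ((η (G.r g) * star (η (G.r g))) * (η (G.r g) * star (η (G.r g)))) * star (ed g) := by
          rw [e2]
      _ = _ := by simp only [mul_assoc]

end DC29
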