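import Pool.Agent.LibDC29.E5
import Pool.Agent.LibDC29.E6
import Pool.Agent.LibDC29.E7
import Pool.Agent.LibDC29.E8
import Pool.Agent.LibDC29.E10

/-!
[DC E9] The loop step.  `c = s f`, `c' = s f'`, `H = NR G' c'`, `x = Φ (vx c)`, `σ = Φ (ed f)`.  `N, ρ, a` from `hΦ.sh f f'`.
(1) `exists_OM` for the graph `G'`, loop `f'`, `h.ext`, `h.ext'`: `w1`, `w2`, `w2 x = vx c`, `w2 σ = ed f`,
`w1 (Φ (ed g) * vx w) = ed g * η (r g) * Ψ (vx w)`.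
(2) `cl_rr` and `hΨ.cl c'` (class `t.symm (mv c')`): `SCl.seqv`: `κ0` with `κ0 star κ0 = Ψ (vx c')`, `star κ0 κ0 = w2 (ρ star ρ)`.
(3) `OM.push` (`y0 = vx c'`): `W1`, `W2`; `W2 (vx c') = κ0 w2(ρρ*) κ0* = Ψ (vx c')`; `exists_new` for `G'`, `f'`: `Ψ'`.  So `NW`.
(4) `Gd M.symm Ψ'`: `cl` is unchanged; `sh` for a loop `e` of `G'` at another vertex: `Ψ'` has the same values as `Ψ` on `vx`, `ed e`;
for `e = f'` (`LG.one`), `M.symm.f c' = c` (`h.hff`, `M.gf`), the loop at `c` is `f` (`LG.one`): `NW.sh` with `H' = NR G c`,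
`g1`: `OM.hcl` for `x - ρρ*` (`HCl H` from `hΦ.sh`), `g2`: `OM.hcl` for the pushed `OM` and `vx c' - a a*`; `hH`: `Gd.her` for `Ψ`
(`M.symm`).
(5) `NW.exists_eta`: `ηc`.  `ed f * ηc = w2 σ * ηc = ηc * Ψ' σ`.  For an exit `g`: `Φ (ed g) = Φ (ed g) * eS (K g)`, `XH H x`, so
`ηc * Ψ' (Φ (ed g)) = w1 (Φ (ed g)) = ∑_{w ∈ K g} w1 (Φ (ed g) * vx w) = ed g * η (r g) * Ψ (eS (K g)) = ed g * η (r g)`
(`Ψ (eS (K g)) = star η * η`).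
-/

namespace DC29

open LPA74

variable {G G' : Gph} {hG : NG G} {hG' : NG G'} {t : Mon G ≃+ Mon G'}
  {M : MD hG.toLG hG'.toLG t}

/-- the value of `w1` at the exits. -/
theorem E9_exit {Φ : LA G →⋆ₙₐ[ℂ] LA G'} {Ψ : LA G' →⋆ₙₐ[ℂ] LA G} {f : G.Ed} {f' : G'.Ed}
    {B : Finset G'.V} {K : G.Ed → Finset G'.V} {η : G.V → LA G} (h : LSH M Φ Ψ f f' B K η)
    {w1 w2 : LA G' → LA G} (hOM : OM (NR G' (G'.s f')) Ψ (Φ (vx (G.s f))) w1 w2)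
    (hν : ∀ q : KI hG.toLG f K, w1 (Φ (ed q.1.1) * vx q.2.1) =
      ed q.1.1 * η (G.r q.1.1) * Ψ (vx q.2.1)) {g : G.Ed} (hg : g ∈ exs hG.toLG (G.s f)) :
    XH (NR G' (G'.s f')) (Φ (vx (G.s f))) (Φ (ed g)) ∧ w1 (Φ (ed g)) = ed g * η (G.r g) := by
  classical
  have hgs : G.s g = G.s f := by
    have h1 := hg
    unfold exs at h1
    rw [Finset.mem_filter, Set.Finite.mem_toFinset] at h1
    exact h1.1
  obtain ⟨k1, k2⟩ := h.hK g hg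
  obtain ⟨n1, n2, n3⟩ := h.hη g hg
  have kS : (↑(K g) : Set G'.V) ⊆ NR G' (G'.s f') := fun w hw => k2 w hw
  have e1 : Φ (vx (G.s f)) * Φ (ed g) = Φ (ed g) := by
    rw [← map_mul, ← hgs, vx_mul_ed]
  have e2 : Φ (ed g) * eS (K g) = Φ (ed g) := by
    rw [← k1, ← map_mul, ed_mul_vx]
  have hX : XH (NR G' (G'.s f')) (Φ (vx (G.s f))) (Φ (ed g)) := ⟨e1, K g, kS, e2⟩
  refine ⟨hX, ?_⟩
  have e3 : w1 (Φ (ed g)) = w1 (Φ (ed g)) * Ψ (eS (K g)) := by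
    rw [← hOM.m10 _ _ hX (InCor.eS kS), e2]
  have e4 : ∀ w ∈ K g, w1 (Φ (ed g)) * Ψ (vx w) = ed g * η (G.r g) * Ψ (vx w) := by
    intro w hw
    rw [← hOM.m10 _ _ hX (InCor.vx (k2 w hw))]
    exact hν ⟨⟨g, hg⟩, ⟨w, hw⟩⟩
  have e5 : w1 (Φ (ed g)) * Ψ (eS (K g)) = ed g * η (G.r g) * Ψ (eS (K g)) := by
    unfold eS
    rw [map_sum, Finset.mul_sum, Finset.mul_sum]
    exact Finset.sum_congr rfl e4
  rw [e3, e5, ← k1, ← n1, mul_assoc, ← mul_assoc (η (G.r g)), n2, n3]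

theorem loop_step {Φ : LA G →⋆ₙₐ[ℂ] LA G'} {Ψ : LA G' →⋆ₙₐ[ℂ] LA G} {f : G.Ed} {f' : G'.Ed}
    {B : Finset G'.V} {K : G.Ed → Finset G'.V} {η : G.V → LA G} (h : LSH M Φ Ψ f f' B K η) :
    ∃ Ψ' : LA G' →⋆ₙₐ[ℂ] LA G, Gd M.symm Ψ' ∧ (∀ w, Ψ' (vx w) = Ψ (vx w)) ∧
      (∀ e, G'.s e ≠ G'.s f' → Ψ' (ed e) = Ψ (ed e)) ∧
      ∃ ηc, star ηc * ηc = Ψ' (Φ (vx (G.s f))) ∧ ηc * star ηc = vx (G.s f) ∧
        vx (G.s f) * ηc = ηc ∧ ed f * ηc = ηc * Ψ' (Φ (ed f)) ∧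
        ∀ g ∈ exs hG.toLG (G.s f), ed g * η (G.r g) = ηc * Ψ' (Φ (ed g)) := by
  classical
  have hc : IsLp G (G.s f) := ⟨f, rfl, h.hf⟩
  have hc' : IsLp G' (G'.s f') := ⟨f', rfl, h.hf'⟩
  have hMc : M.symm.f (G'.s f') = G.s f := by
    rw [h.hff]
    exact M.gf _ hc
  have hsh := h.hΦ.sh f f' h.hf h.hff h.hf'
  obtain ⟨w1, w2, hOM, hx2, hσ2, hν⟩ := exists_OM hG' h.hf' h.ext hsh h.ext'
  obtain ⟨N, ρ, a, ⟨r1, r2, r3⟩, ⟨a1, a2, a3⟩, e1, e2, e3, e4, H1, H2⟩ := hsh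
  have hcl := cl_rr (hG := hG) (hG' := hG') h.hΦ h.hΨ h.hf h.hf' hOM hx2 hσ2 ⟨r1, r2, r3⟩
    ⟨a1, a2, a3⟩ e3 H2
  obtain ⟨κ0, -, k2, k1, k3⟩ := (h.hΨ.cl (G'.s f')).seqv hcl
  have hI : Isom (Φ (vx (G.s f))) (Φ (ed f)) := (Isom.loop h.hf).map Φ
  have hP := hOM.push hI.pj r1 r2 r3 (κ0 := κ0) k1 k3
  have hW : κ0 * w2 (ρ * vx (G'.s f') * star ρ) * star κ0 = Ψ (vx (G'.s f')) := by
    rw [r3, ← k1, ← mul_assoc, k3, k2]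
  obtain ⟨Ψ', v1, v2, c0, c1, c2⟩ := exists_new hG' h.hf' hP hW
  have hN : NW (NR G' (G'.s f')) Ψ Ψ' (Φ (vx (G.s f))) (G'.s f') w1 w2 ρ κ0 :=
    ⟨hOM, r1, r2, r3, k1, k2, k3, v1, c0, c1, c2⟩
  have hher : ∀ v ∈ NR G' (G'.s f'), HCl (NR G (G.s f)) (Ψ (vx v)) := by
    intro v hv
    have h1 := Gd.her (hG := hG') (hG' := hG) (M := M.symm) h.hΨ hc' hv
    rwa [hMc] at h1
  have g1 : HCl (NR G (G.s f)) (w2 (Φ (vx (G.s f)) - ρ * star ρ)) := by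
    refine hOM.hcl hI.pj hher H1 ?_
    rw [mul_sub, ← mul_assoc, r2, hI.pj.1]
  have g2 : HCl (NR G (G.s f)) (κ0 * w2 (ρ * (vx (G'.s f') - a * star a) * star ρ) *
      star κ0) := by
    refine hP.hcl (Isom.loop h.hf').pj hher H2 ?_
    rw [mul_sub, ← mul_assoc, a2, (Isom.loop h.hf').pj.1]
  have hSh := hN.sh hI ⟨rfl, h.hf'⟩ ⟨a1, a2, a3⟩ e1 e2 e3 e4 g1 g2
  rw [hx2, hσ2] at hSh
  refine ⟨Ψ', ⟨fun v => ?_, fun e e' he hee he' => ?_⟩, v1, v2, ?_⟩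
  · rw [v1]
    exact h.hΨ.cl v
  · by_cases hs : G'.s e = G'.s f'
    · have h1 : f' = e := hG'.one f' e h.hf'.symm hs (by rw [he, hs])
      subst h1
      rw [hMc] at hee
      have h2 : f = e' := hG.one f e' h.hf.symm hee (by rw [he', hee])
      subst h2
      exact hSh
    · rw [v1, v2 e hs]
      exact h.hΨ.sh e e' he hee he'
  · have hcB : G'.s f' ∉ B := fun h1 => h.hB _ h1 Relation.ReflTransGen.refl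
    obtain ⟨ηc, n1, n2, n3, n4, n5⟩ := hN.exists_eta h.hB hcB h.hx
    rw [hx2] at n2 n3
    refine ⟨ηc, n1, n2, n3, ?_, fun g hg => ?_⟩
    · rw [n5 _ ⟨hI.xs, hI.sx⟩, hσ2]
    · obtain ⟨b1, b2⟩ := E9_exit (hG := hG) (hG' := hG') h hOM hν hg
      rw [n4 _ b1, b2]

end DC29
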