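import Pool.Agent.LibLPA74.SEQ

/-!
[DC F1] Corners.  `io (C)` is the set of the `x` in `A` with a finite unit `∑_{i ∈ S} p i`, `io' (D)` the
same for the `T i` in `B`.  For finite `S` put `U_S = ∑_{i ∈ S} u i`; `star (u i) * u j = 0` for `i ≠ j`
(`u i = T i * u i`), `u i * star (u j) = 0` (`u i = u i * Φ (p i)`).  For `c : C` choose `S` with `p_S io c = io c = io c p_S`
and put `Ψ c = U_S * Φ (io c) * star U_S`; independent of `S`: if `S ⊆ S'` then `U_S' * Φ (p_S) = U_S`.
`T_S * Ψ c = Ψ c = Ψ c * T_S`, so `Ψ c` is in the range of `io'`.  Multiplicative: common `S`,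
`star U_S * U_S = Φ (p_S)`.  Injective: `star U_S * Ψ c * U_S = Φ (io c)`.  Surjective: for `d : D`, `S` a unit of `io' d`:
`x = Φ.symm (star U_S * io' d * U_S)` has unit `p_S`, so `x = io c`, and `Ψ c = U_S star U_S io' d U_S star U_S = io' d`
(`U_S * star U_S = T_S`).  The isomorphism is `c ↦` the preimage of `Ψ c` under `io'`.
-/

namespace DC29

open LPA74

variable {A : Type} [NonUnitalRing A] [StarRing A] [Module ℂ A] [IsScalarTower ℂ A A]
  [SMulCommClass ℂ A A] [StarModule ℂ A]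
variable {B : Type} [NonUnitalRing B] [StarRing B] [Module ℂ B] [IsScalarTower ℂ B B]
  [SMulCommClass ℂ B B] [StarModule ℂ B]
variable {C : Type} [NonUnitalRing C] [StarRing C] [Module ℂ C] [IsScalarTower ℂ C C]
  [SMulCommClass ℂ C C] [StarModule ℂ C]
variable {D : Type} [NonUnitalRing D] [StarRing D] [Module ℂ D] [IsScalarTower ℂ D D]
  [SMulCommClass ℂ D D] [StarModule ℂ D]

omit [IsScalarTower ℂ A A] [SMulCommClass ℂ A A] [StarModule ℂ A] [Module ℂ A] [StarRing A] in
private theorem F1_mul {I : Type} [DecidableEq I] (f g h : I → A)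
    (h0 : ∀ i j, i ≠ j → f i * g j = 0) (h1 : ∀ i, f i * g i = h i) (S S' : Finset I) :
    (∑ i ∈ S, f i) * ∑ j ∈ S', g j = ∑ i ∈ S ∩ S', h i := by
  rw [Finset.sum_mul, ← Finset.sum_ite_mem]
  refine Finset.sum_congr rfl fun i _ => ?_
  rw [Finset.mul_sum]
  by_cases hi : i ∈ S'
  · rw [if_pos hi, Finset.sum_eq_single_of_mem i hi fun j _ hj => h0 i j (Ne.symm hj), h1]
  · rw [if_neg hi]
    apply Finset.sum_eq_zero
    intro j hj
    exact h0 i j fun hij => hi (by rw [hij]; exact hj)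

theorem corner_lemma (io : C →⋆ₙₐ[ℂ] A) (hio : Function.Injective io) (io' : D →⋆ₙₐ[ℂ] B)
    (hio' : Function.Injective io') (Φ : A ≃⋆ₐ[ℂ] B) {I : Type} (p : I → A) (T u : I → B)
    (hp : ∀ i, Pj (p i)) (hp2 : ∀ i j, i ≠ j → p i * p j = 0)
    (hT : ∀ i, Pj (T i)) (hT2 : ∀ i j, i ≠ j → T i * T j = 0)
    (h1 : ∀ x, (∃ c, io c = x) ↔ ∃ S : Finset I, (∑ i ∈ S, p i) * x = x ∧ x * ∑ i ∈ S, p i = x)
    (h2 : ∀ x, (∃ d, io' d = x) ↔ ∃ S : Finset I, (∑ i ∈ S, T i) * x = x ∧ x * ∑ i ∈ S, T i = x)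
    (hu1 : ∀ i, u i * star (u i) = T i) (hu2 : ∀ i, star (u i) * u i = Φ (p i))
    (hu3 : ∀ i, u i * Φ (p i) = u i) : Nonempty (C ≃⋆ₐ[ℂ] D) := by
  classical
  have hTu : ∀ i, T i * u i = u i := fun i => by rw [← hu1, mul_assoc, hu2, hu3]
  have hsT : ∀ i, star (u i) * T i = star (u i) := fun i => by
    have h := congrArg star (hTu i)
    rwa [star_mul, (hT i).2] at h
  have hsP : ∀ i, Φ (p i) * star (u i) = star (u i) := fun i => by
    have h := congrArg star (hu3 i)
    rwa [star_mul, ← map_star, (hp i).2] at h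
  have huu : ∀ i j, i ≠ j → star (u i) * u j = 0 := fun i j hij => by
    rw [← hsT i, ← hTu j, mul_assoc, ← mul_assoc (T i), hT2 i j hij, zero_mul, mul_zero]
  have huu' : ∀ i j, i ≠ j → u i * star (u j) = 0 := fun i j hij => by
    rw [← hu3 i, ← hsP j, mul_assoc, ← mul_assoc (Φ (p i)), ← map_mul, hp2 i j hij, map_zero,
      zero_mul, mul_zero]
  have hup : ∀ i j, i ≠ j → u i * Φ (p j) = 0 := fun i j hij => by
    rw [← hu3 i, mul_assoc, ← map_mul, hp2 i j hij, map_zero, mul_zero]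
  have hTu' : ∀ i j, i ≠ j → T i * u j = 0 := fun i j hij => by
    rw [← hTu j, ← mul_assoc, hT2 i j hij, zero_mul]
  obtain ⟨U, hU⟩ : ∃ U : Finset I → B, ∀ S, U S = ∑ i ∈ S, u i := ⟨_, fun _ => rfl⟩
  obtain ⟨P, hP⟩ : ∃ P : Finset I → A, ∀ S, P S = ∑ i ∈ S, p i := ⟨_, fun _ => rfl⟩
  obtain ⟨Q, hQ⟩ : ∃ Q : Finset I → B, ∀ S, Q S = ∑ i ∈ S, T i := ⟨_, fun _ => rfl⟩
  have hΦP : ∀ S, Φ (P S) = ∑ i ∈ S, Φ (p i) := fun S => by rw [hP, map_sum]
  have hsU : ∀ S, star (U S) = ∑ i ∈ S, star (u i) := fun S => by rw [hU, star_sum]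
  have e1 : ∀ S S', U S * star (U S') = Q (S ∩ S') := fun S S' => by
    rw [hsU, hU, hQ]; exact F1_mul u (fun i => star (u i)) T huu' hu1 S S'
  have e2 : ∀ S S', star (U S) * U S' = Φ (P (S ∩ S')) := fun S S' => by
    rw [hsU, hU, hΦP]; exact F1_mul (fun i => star (u i)) u (fun i => Φ (p i)) huu hu2 S S'
  have e3 : ∀ S S', U S * Φ (P S') = U (S ∩ S') := fun S S' => by
    rw [hΦP, hU, hU]; exact F1_mul u (fun i => Φ (p i)) u hup hu3 S S'
  have e4 : ∀ S S', P S * P S' = P (S ∩ S') := fun S S' => by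
    rw [hP, hP, hP]; exact F1_mul p p p hp2 (fun i => (hp i).1) S S'
  have e5 : ∀ S S', Q S * U S' = U (S ∩ S') := fun S S' => by
    rw [hQ, hU, hU]; exact F1_mul T u u hTu' hTu S S'
  have sP : ∀ S, star (P S) = P S := fun S => by
    rw [hP, star_sum]; exact Finset.sum_congr rfl fun i _ => (hp i).2
  have sQ : ∀ S, star (Q S) = Q S := fun S => by
    rw [hQ, star_sum]; exact Finset.sum_congr rfl fun i _ => (hT i).2
  have e3' : ∀ S S', Φ (P S') * star (U S) = star (U (S ∩ S')) := fun S S' => by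
    rw [← e3, star_mul, ← map_star, sP]
  have e5' : ∀ S S', star (U S') * Q S = star (U (S ∩ S')) := fun S S' => by
    rw [← e5, star_mul, sQ]
  have i1 : ∀ S : Finset I, S ∩ S = S := fun S => Finset.inter_self S
  have up1 : ∀ S S' : Finset I, S ⊆ S' → ∀ x, P S * x = x → P S' * x = x := by
    intro S S' hSS x hx
    rw [← hx, ← mul_assoc, e4, Finset.inter_eq_right.2 hSS]
  have up2 : ∀ S S' : Finset I, S ⊆ S' → ∀ x, x * P S = x → x * P S' = x := by
    intro S S' hSS x hx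
    rw [← hx, mul_assoc, e4, Finset.inter_eq_left.2 hSS]
  have key : ∀ S S' : Finset I, S ⊆ S' → ∀ x, P S * x = x → x * P S = x →
      U S' * Φ x * star (U S') = U S * Φ x * star (U S) := by
    intro S S' hSS x hx hx'
    have h3 : Φ x = Φ (P S) * Φ x * Φ (P S) := by rw [← map_mul, ← map_mul, hx, hx']
    calc U S' * Φ x * star (U S') = U S' * (Φ (P S) * Φ x * Φ (P S)) * star (U S') := by
          rw [← h3]
      _ = (U S' * Φ (P S)) * Φ x * (Φ (P S) * star (U S')) := by simp only [mul_assoc]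
      _ = U S * Φ x * star (U S) := by rw [e3, e3', Finset.inter_eq_right.2 hSS]
  have hex : ∀ c, ∃ S : Finset I, P S * io c = io c ∧ io c * P S = io c := fun c => by
    obtain ⟨S, hS⟩ := (h1 (io c)).1 ⟨c, rfl⟩
    exact ⟨S, by rw [hP]; exact hS⟩
  choose Sc hSc using hex
  obtain ⟨Ψ, hΨ⟩ : ∃ Ψ : C → B, ∀ c, Ψ c = U (Sc c) * Φ (io c) * star (U (Sc c)) :=
    ⟨_, fun _ => rfl⟩
  have hK : ∀ c S, P S * io c = io c → io c * P S = io c →
      U S * Φ (io c) * star (U S) = Ψ c := by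
    intro c S h3 h4
    rw [hΨ, ← key S (S ∪ Sc c) Finset.subset_union_left _ h3 h4,
      key (Sc c) (S ∪ Sc c) Finset.subset_union_right _ (hSc c).1 (hSc c).2]
  have hrange : ∀ c, ∃ d, io' d = Ψ c := by
    intro c
    refine (h2 _).2 ⟨Sc c, ?_, ?_⟩
    · rw [← hQ, hΨ, mul_assoc, ← mul_assoc, e5, i1]
    · rw [← hQ, hΨ, mul_assoc, e5', i1]
  choose d hd using hrange
  have hcom : ∀ c c', ∃ S : Finset I, (P S * io c = io c ∧ io c * P S = io c) ∧
      (P S * io c' = io c' ∧ io c' * P S = io c') := fun c c' =>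
    ⟨Sc c ∪ Sc c', ⟨up1 _ _ Finset.subset_union_left _ (hSc c).1,
      up2 _ _ Finset.subset_union_left _ (hSc c).2⟩,
      ⟨up1 _ _ Finset.subset_union_right _ (hSc c').1,
      up2 _ _ Finset.subset_union_right _ (hSc c').2⟩⟩
  have hadd : ∀ c c', Ψ (c + c') = Ψ c + Ψ c' := by
    intro c c'
    obtain ⟨S, ⟨h3, h4⟩, h5, h6⟩ := hcom c c'
    rw [← hK c S h3 h4, ← hK c' S h5 h6, ← hK (c + c') S (by rw [map_add, mul_add, h3, h5])
      (by rw [map_add, add_mul, h4, h6]), map_add, map_add, mul_add, add_mul]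
  have hmul : ∀ c c', Ψ (c * c') = Ψ c * Ψ c' := by
    intro c c'
    obtain ⟨S, ⟨h3, h4⟩, h5, h6⟩ := hcom c c'
    rw [← hK c S h3 h4, ← hK c' S h5 h6, ← hK (c * c') S (by rw [map_mul, ← mul_assoc, h3])
      (by rw [map_mul, mul_assoc, h6]), map_mul, map_mul]
    calc U S * (Φ (io c) * Φ (io c')) * star (U S)
        = U S * (Φ (io c) * (Φ (P S) * Φ (io c'))) * star (U S) := by
          rw [← map_mul Φ (P S), h5]
      _ = U S * Φ (io c) * Φ (P S) * Φ (io c') * star (U S) := by simp only [mul_assoc]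
      _ = U S * Φ (io c) * (star (U S) * U S) * Φ (io c') * star (U S) := by rw [e2, i1]
      _ = _ := by simp only [mul_assoc]
  have hsmul : ∀ (r : ℂ) c, Ψ (r • c) = r • Ψ c := by
    intro r c
    rw [hΨ c, ← hK (r • c) (Sc c) (by rw [map_smul, mul_smul_comm, (hSc c).1])
      (by rw [map_smul, smul_mul_assoc, (hSc c).2]), map_smul, map_smul, mul_smul_comm,
      smul_mul_assoc]
  have hstar : ∀ c, Ψ (star c) = star (Ψ c) := by
    intro c
    rw [hΨ c, ← hK (star c) (Sc c)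
      (by
        have h := congrArg star (hSc c).2
        rwa [star_mul, sP, ← map_star] at h)
      (by
        have h := congrArg star (hSc c).1
        rwa [star_mul, sP, ← map_star] at h), star_mul, star_mul, star_star, map_star, map_star,
      mul_assoc]
  let f : C →⋆ₙₐ[ℂ] D :=
    { toFun := d
      map_smul' := fun r c => hio' (by
        rw [hd, hsmul, MonoidHom.id_apply, map_smul, hd])
      map_zero' := hio' (by
        rw [hd, map_zero]
        have h := hsmul 0 0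
        rwa [zero_smul, zero_smul] at h)
      map_add' := fun c c' => hio' (by rw [hd, hadd, map_add, hd, hd])
      map_mul' := fun c c' => hio' (by rw [hd, hmul, map_mul, hd, hd])
      map_star' := fun c => hio' (by rw [hd, hstar, map_star, hd]) }
  have hf : ∀ c, io' (f c) = Ψ c := hd
  refine ⟨StarAlgEquiv.ofBijective f ⟨?_, ?_⟩⟩
  · rw [injective_iff_map_eq_zero]
    intro c hc
    have h3 : Ψ c = 0 := by rw [← hf, hc, map_zero]
    have h4 : Φ (io c) = 0 := by
      calc Φ (io c) = Φ (P (Sc c)) * Φ (io c) * Φ (P (Sc c)) := by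
            rw [← map_mul, ← map_mul, (hSc c).1, (hSc c).2]
        _ = (star (U (Sc c)) * U (Sc c)) * Φ (io c) * (star (U (Sc c)) * U (Sc c)) := by
            rw [e2, i1]
        _ = star (U (Sc c)) * (U (Sc c) * Φ (io c) * star (U (Sc c))) * U (Sc c) := by
            simp only [mul_assoc]
        _ = 0 := by rw [← hΨ, h3, mul_zero, zero_mul]
    have h5 : io c = 0 := by
      have h6 := congrArg Φ.symm h4
      rwa [StarAlgEquiv.symm_apply_apply, map_zero] at h6
    exact hio (by rw [h5, map_zero])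
  · intro y
    obtain ⟨S, hS⟩ := (h2 (io' y)).1 ⟨y, rfl⟩
    rw [← hQ] at hS
    obtain ⟨x, hx⟩ : ∃ x, x = Φ.symm (star (U S) * io' y * U S) := ⟨_, rfl⟩
    have hΦx : Φ x = star (U S) * io' y * U S := by rw [hx, StarAlgEquiv.apply_symm_apply]
    have h3 : P S * x = x := by
      refine EquivLike.injective Φ ?_
      rw [map_mul, hΦx, mul_assoc, ← mul_assoc, e3', i1]
    have h4 : x * P S = x := by
      refine EquivLike.injective Φ ?_
      rw [map_mul, hΦx, mul_assoc, e3, i1]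
    obtain ⟨c, hc⟩ := (h1 x).2 ⟨S, by rw [← hP]; exact ⟨h3, h4⟩⟩
    refine ⟨c, hio' ?_⟩
    rw [hf, ← hK c S (by rw [hc, h3]) (by rw [hc, h4]), hc, hΦx]
    calc U S * (star (U S) * io' y * U S) * star (U S)
        = (U S * star (U S)) * io' y * (U S * star (U S)) := by simp only [mul_assoc]
      _ = io' y := by rw [e1, i1, hS.1, hS.2]

end DC29
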