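import Pool.Agent.LibDC29.A5
import Pool.Agent.LibDC29.B1

/-!
[DC F2] Orthogonal projections of given classes, cofinal.  Setting: `J` a set of vertices of the normal graph `G`,
`g i` (`i : I`, `I` countable) orthogonal idempotents in the corner on `J`, every element of the corner on `J` is
absorbed by a finite sum of the `g i`, `Cl (g i) (κ i)`.  Result: orthogonal projections `T i` in the corner on `J`,
`SCl (T i) (κ i)`, every element of the corner is absorbed by a finite sum of the `T i`.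
STATE: `(S, J', Q, T)`, `S : Finset I`, `J' : Finset G.V`, `↑J' ⊆ J`, `T : I → LA G`, `Q = ∑ i ∈ S, T i`, with
 (a) the `T i`, `i ∈ S`, are orthogonal projections, `SCl (T i) (κ i)`;
 (b) `eS J' * Q = Q`; (c) `g_S = ∑ i ∈ S, g i` satisfies `eS J' * g_S = g_S = g_S * eS J'`;
 (d) `SCl (eS J' - Q) m` and `Cl (eS J' - g_S) m` for some `m`.
Start: `S = ∅`, `J' = ∅`, `Q = 0`.
STEP (from a state, `i0 : I`, `j0 ∈ J`, to a state with `i0 ∈ S1`, `j0 ∈ J1`, `S ⊆ S1`, `J' ⊆ J1`, `T1 i = T i` on `S`,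
`eS J' * Q1 = eS J' = Q1 * eS J'`): choose `S1 ⊇ S ∪ {i0}` finite with `g_S1` absorbing `eS J'` on both sides (`eS J'`
is in the corner; sums over larger sets still absorb), and `J1 ⊇ J' ∪ {j0}` with `eS J1` absorbing the `g i`, `i ∈ S1`.
Idempotents (all commute in pairs): `g_S ≤ eS J' ≤ g_S1 ≤ eS J1`.  Let `k` be the class of `g_S1 - eS J'` and `m1` the
class of `eS J1 - g_S1` (`exists_cl`, `cl_of_idem`).  `eS J1 - eS J' = (eS J1 - g_S1) + (g_S1 - eS J')` has class `m1 + k`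
(`Cl.add`) and star class `∑_{j ∈ J1 \ J'} mv j` (`SCl.eS`), equal by `Cl.unique`; so (`SCl.split`)
`eS J1 - eS J' = R1 + R'1`, `SCl R1 m1`, `SCl R'1 k`.  `Q1 = eS J' + R'1`.
`Q1 - Q = (eS J' - Q) + R'1` has star class `m + k`, and `m + k` is the class of `(eS J' - g_S) + (g_S1 - eS J') = g_S1 - g_S =
∑_{i ∈ S1 \ S} g i`, i.e. (`Cl.unique`) `∑_{i ∈ S1 \ S} κ i`; `SCl.splitSum` gives the `T1 i`, `i ∈ S1 \ S`.
`eS J1 - Q1 = R1` has star class `m1`.
ITERATION: enumerate `I` and `J` (if `I` or `J` is empty or finite: use surjections from `ℕ` onto `Option I`-like types, or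
take `i0 : Option I`, `j0 : Option G.V`; `Countable`), dependent choice (`Nat.rec` on the subtype of states, or
`exists_seq_of_forall..`); `T i = T^(n) i` for `n` large.
-/

namespace DC29

open LPA74

theorem cl_of_idem {G : Gph} (hG : NG G) {x : LA G} (hx : x * x = x) : ∃ m, Cl x m := by
  obtain ⟨n, a, y, z, h1, h2, h3, h4, _⟩ := exists_cl hG hx ∅
  exact ⟨∑ i, mv (a i), n, a, y, z, h1, h2, h3, h4, rfl⟩

/-- the sum of orthogonal idempotents over a larger set absorbs. -/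
private theorem f2_sum_mul {A I : Type} [NonUnitalRing A] {g : I → A} {S S1 : Finset I}
    (h : S ⊆ S1) (hi : ∀ i ∈ S1, g i * g i = g i)
    (ho : ∀ i ∈ S1, ∀ j ∈ S1, i ≠ j → g i * g j = 0) :
    (∑ i ∈ S1, g i) * (∑ i ∈ S, g i) = ∑ i ∈ S, g i ∧
      (∑ i ∈ S, g i) * (∑ i ∈ S1, g i) = ∑ i ∈ S, g i := by
  classical
  constructor
  · rw [Finset.mul_sum]
    refine Finset.sum_congr rfl fun j hj => ?_
    rw [Finset.sum_mul, Finset.sum_eq_single_of_mem j (h hj) fun i hi' hij => ho i hi' j (h hj) hij]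
    exact hi j (h hj)
  · rw [Finset.sum_mul]
    refine Finset.sum_congr rfl fun j hj => ?_
    rw [Finset.mul_sum, Finset.sum_eq_single_of_mem j (h hj)
      fun i hi' hij => ho j (h hj) i hi' hij.symm]
    exact hi j (h hj)

private theorem f2_incor_sum {G : Gph} {J : Set G.V} {I : Type} (g : I → LA G)
    (hg : ∀ i, InCor J (g i)) (S : Finset I) : InCor J (∑ i ∈ S, g i) := by
  classical
  induction S using Finset.induction_on with
  | empty => rw [Finset.sum_empty]; exact InCor.zero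
  | insert a s ha ih => rw [Finset.sum_insert ha]; exact (hg a).add ih

private structure F2St {G : Gph} (J : Set G.V) {I : Type} (g : I → LA G) (κ : I → Mon G) where
  S : Finset I
  J' : Finset G.V
  T : I → LA G
  m : Mon G
  hJ : (↑J' : Set G.V) ⊆ J
  orth : ∀ i ∈ S, ∀ j ∈ S, i ≠ j → T i * T j = 0
  cl : ∀ i ∈ S, SCl (T i) (κ i)
  le : eS J' * (∑ i ∈ S, T i) = ∑ i ∈ S, T i
  gle : eS J' * (∑ i ∈ S, g i) = ∑ i ∈ S, g i
  gle' : (∑ i ∈ S, g i) * eS J' = ∑ i ∈ S, g i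
  c1 : SCl (eS J' - ∑ i ∈ S, T i) m
  c2 : Cl (eS J' - ∑ i ∈ S, g i) m

private theorem f2_cl_zero {G : Gph} : Cl (0 : LA G) 0 := SCl.zero.cl

private noncomputable def f2_init {G : Gph} (J : Set G.V) {I : Type} (g : I → LA G) (κ : I → Mon G) :
    F2St J g κ where
  S := ∅
  J' := ∅
  T := fun _ => 0
  m := 0
  hJ := by simp
  orth := by simp
  cl := by simp
  le := by simp
  gle := by simp
  gle' := by simp
  c1 := by
    have : (eS (∅ : Finset G.V) : LA G) - ∑ i ∈ (∅ : Finset I), (fun _ => (0 : LA G)) i = 0 := by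
      simp [eS]
    rw [this]
    exact SCl.zero
  c2 := by
    have : (eS (∅ : Finset G.V) : LA G) - ∑ i ∈ (∅ : Finset I), g i = 0 := by
      simp [eS]
    rw [this]
    exact f2_cl_zero

private theorem f2_pj_sum {A I : Type} [NonUnitalRing A] [StarRing A] {T : I → A} {S : Finset I}
    (hT : ∀ i ∈ S, Pj (T i)) (ho : ∀ i ∈ S, ∀ j ∈ S, i ≠ j → T i * T j = 0) :
    Pj (∑ i ∈ S, T i) := by
  refine ⟨(f2_sum_mul (Finset.Subset.refl S) (fun i hi => (hT i hi).1) ho).1, ?_⟩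
  rw [star_sum]
  exact Finset.sum_congr rfl fun i hi => (hT i hi).2

private theorem f2_step {G : Gph} (hG : NG G) (J : Set G.V) {I : Type} (g : I → LA G)
    (κ : I → Mon G) (hg : ∀ i, InCor J (g i)) (hg2 : ∀ i j, i ≠ j → g i * g j = 0)
    (hg3 : ∀ i, Cl (g i) (κ i))
    (hco : ∀ x, InCor J x → ∃ S : Finset I, (∑ i ∈ S, g i) * x = x ∧ x * ∑ i ∈ S, g i = x)
    (s : F2St J g κ) (A : Finset I) (B : Finset G.V) (hB : (↑B : Set G.V) ⊆ J) :
    ∃ s1 : F2St J g κ, A ⊆ s1.S ∧ B ⊆ s1.J' ∧ s.S ⊆ s1.S ∧ s.J' ⊆ s1.J' ∧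
      (∀ i ∈ s.S, s1.T i = s.T i) ∧ (∑ i ∈ s1.S, s1.T i) * eS s.J' = eS s.J' ∧
      eS s.J' * (∑ i ∈ s1.S, s1.T i) = eS s.J' := by
  classical
  obtain ⟨S, J', T, m, hJ, horth, hcl, hle, hgle, hgle', hc1, hc2⟩ := s
  dsimp only at *
  have hid : ∀ i, g i * g i = g i := fun i => (hg3 i).idem
  have ho : ∀ (U : Finset I), ∀ i ∈ U, ∀ j ∈ U, i ≠ j → g i * g j = 0 :=
    fun U i _ j _ hij => hg2 i j hij
  -- the set `S1`
  obtain ⟨S0, hS0, hS0'⟩ := hco (eS J') (InCor.eS hJ)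
  obtain ⟨S1, hS1⟩ : ∃ S1, S1 = S ∪ A ∪ S0 := ⟨_, rfl⟩
  have hSS1 : S ⊆ S1 := by
    rw [hS1]; exact Finset.subset_union_left.trans Finset.subset_union_left
  have hAS1 : A ⊆ S1 := by
    rw [hS1]; exact Finset.subset_union_right.trans Finset.subset_union_left
  have hS0S1 : S0 ⊆ S1 := by rw [hS1]; exact Finset.subset_union_right
  have hE : (∑ i ∈ S1, g i) * eS J' = eS J' := by
    conv_lhs => rw [← hS0]
    rw [← mul_assoc, (f2_sum_mul hS0S1 (fun i _ => hid i) (ho S1)).1, hS0]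
  have hE' : eS J' * (∑ i ∈ S1, g i) = eS J' := by
    conv_lhs => rw [← hS0']
    rw [mul_assoc, (f2_sum_mul hS0S1 (fun i _ => hid i) (ho S1)).2, hS0']
  obtain ⟨S', hS'J, hS'1, hS'2⟩ := f2_incor_sum g hg S1
  obtain ⟨J1, hJ1⟩ : ∃ J1, J1 = J' ∪ B ∪ S' := ⟨_, rfl⟩
  have hJJ1 : J' ⊆ J1 := by
    rw [hJ1]; exact Finset.subset_union_left.trans Finset.subset_union_left
  have hBJ1 : B ⊆ J1 := by
    rw [hJ1]; exact Finset.subset_union_right.trans Finset.subset_union_left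
  have hSJ1 : S' ⊆ J1 := by rw [hJ1]; exact Finset.subset_union_right
  have hJ1J : (↑J1 : Set G.V) ⊆ J := by
    rw [hJ1]; push_cast
    exact Set.union_subset (Set.union_subset hJ hB) hS'J
  have hF : eS J1 * (∑ i ∈ S1, g i) = ∑ i ∈ S1, g i := by
    conv_lhs => rw [← hS'1]
    rw [← mul_assoc, (eS_mul_of_subset hSJ1).2, hS'1]
  have hF' : (∑ i ∈ S1, g i) * eS J1 = ∑ i ∈ S1, g i := by
    conv_lhs => rw [← hS'2]
    rw [mul_assoc, (eS_mul_of_subset hSJ1).1, hS'2]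
  -- names
  obtain ⟨gS, hgS⟩ : ∃ x, x = ∑ i ∈ S, g i := ⟨_, rfl⟩
  obtain ⟨gS1, hgS1⟩ : ∃ x, x = ∑ i ∈ S1, g i := ⟨_, rfl⟩
  obtain ⟨Q, hQ⟩ : ∃ x, x = ∑ i ∈ S, T i := ⟨_, rfl⟩
  obtain ⟨E0, hE0⟩ : ∃ x : LA G, x = eS J' := ⟨_, rfl⟩
  obtain ⟨E1, hE1⟩ : ∃ x : LA G, x = eS J1 := ⟨_, rfl⟩
  have hgg : gS1 * gS = gS := by
    rw [hgS1, hgS]; exact (f2_sum_mul hSS1 (fun i _ => hid i) (ho S1)).1
  have hgg' : gS * gS1 = gS := by
    rw [hgS1, hgS]; exact (f2_sum_mul hSS1 (fun i _ => hid i) (ho S1)).2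
  have hggS : gS * gS = gS := by
    rw [hgS]; exact (f2_sum_mul (Finset.Subset.refl S) (fun i _ => hid i) (ho S)).1
  have hggS1 : gS1 * gS1 = gS1 := by
    rw [hgS1]; exact (f2_sum_mul (Finset.Subset.refl S1) (fun i _ => hid i) (ho S1)).1
  have hE01 : E0 * E1 = E0 := by rw [hE0, hE1]; exact (eS_mul_of_subset hJJ1).1
  have hE10 : E1 * E0 = E0 := by rw [hE0, hE1]; exact (eS_mul_of_subset hJJ1).2
  have hE00 : E0 * E0 = E0 := by rw [hE0]; exact (eS_pj J').1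
  have hE11 : E1 * E1 = E1 := by rw [hE1]; exact (eS_pj J1).1
  have hE0s : star E0 = E0 := by rw [hE0]; exact (eS_pj J').2
  have hE1s : star E1 = E1 := by rw [hE1]; exact (eS_pj J1).2
  rw [← hQ, ← hE0] at hle hc1
  rw [← hgS, ← hE0] at hgle hgle' hc2
  rw [← hgS1, ← hE0] at hE hE'
  rw [← hgS1, ← hE1] at hF hF'
  have hTp : ∀ i ∈ S, Pj (T i) := fun i hi => (hcl i hi).pj
  have hQp : Pj Q := by rw [hQ]; exact f2_pj_sum hTp horth
  have hle' : Q * E0 = Q := by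
    have := congrArg star hle
    rwa [star_mul, hQp.2, hE0s] at this
  -- classes
  obtain ⟨k, hk⟩ := cl_of_idem hG (x := gS1 - E0) (by
    rw [sub_mul, mul_sub, mul_sub, hggS1, hE, hE', hE00]; abel)
  obtain ⟨m1, hm1⟩ := cl_of_idem hG (x := E1 - gS1) (by
    rw [sub_mul, mul_sub, mul_sub, hE11, hF, hF', hggS1]; abel)
  have hadd : Cl (E1 - E0) (m1 + k) := by
    have := hm1.add hk (by
      rw [sub_mul, mul_sub, mul_sub, hF, hE10, hggS1, hE]; abel) (by
      rw [sub_mul, mul_sub, mul_sub, hF', hE01, hggS1, hE']; abel)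
    rwa [sub_add_sub_cancel] at this
  have hdiff : E1 - E0 = eS (J1 \ J') := by
    rw [hE1, hE0]
    unfold eS
    rw [← Finset.sum_sdiff hJJ1, add_sub_cancel_right]
  have hEE : (E1 - E0) * (E1 - E0) = E1 - E0 := hadd.idem
  have hscl : SCl (E1 - E0) (m1 + k) := by
    have h1 : SCl (E1 - E0) (∑ v ∈ J1 \ J', mv v) := by rw [hdiff]; exact SCl.eS _
    have h2 : m1 + k = ∑ v ∈ J1 \ J', mv v :=
      Cl.unique hG hadd h1.cl ⟨E1 - E0, E1 - E0, hEE, hEE, by rw [hEE, hEE], by rw [hEE, hEE]⟩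
    rw [h2]; exact h1
  obtain ⟨R1, R', hR, hRR, hRR', hR1, hR'⟩ := hscl.split
  have hR'p : Pj R' := hR'.pj
  have hR1p : Pj R1 := hR1.pj
  have hER' : (E1 - E0) * R' = R' := by rw [hR, add_mul, hRR, hR'p.1, zero_add]
  have hR'E : R' * (E1 - E0) = R' := by rw [hR, mul_add, hRR', hR'p.1, zero_add]
  have hE0R' : E0 * R' = 0 := by
    rw [← hER', ← mul_assoc, mul_sub, hE01, hE00, sub_self, zero_mul]
  have hR'E0 : R' * E0 = 0 := by
    rw [← hR'E, mul_assoc, sub_mul, hE10, hE00, sub_self, mul_zero]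
  have hE1R' : E1 * R' = R' := by
    have := hER'
    rwa [sub_mul, hE0R', sub_zero] at this
  have hQR' : Q * R' = 0 := by rw [← hle', mul_assoc, hE0R', mul_zero]
  have hR'Q : R' * Q = 0 := by rw [← hle, ← mul_assoc, hR'E0, zero_mul]
  have hsum : SCl ((E0 - Q) + R') (m + k) :=
    hc1.add hR' (by rw [sub_mul, hE0R', hQR', sub_self])
  have hcl1 : Cl (gS1 - gS) (m + k) := by
    have := hc2.add hk (by
      rw [sub_mul, mul_sub, mul_sub, hE', hE00, hgg', hgle']; abel) (by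
      rw [sub_mul, mul_sub, mul_sub, hE, hgg, hE00, hgle]; abel)
    have h2 : E0 - gS + (gS1 - E0) = gS1 - gS := by abel
    rwa [h2] at this
  have hcl2 : Cl (gS1 - gS) (∑ i ∈ S1 \ S, κ i) := by
    have h2 : gS1 - gS = ∑ i ∈ S1 \ S, g i := by
      rw [hgS1, hgS, ← Finset.sum_sdiff hSS1, add_sub_cancel_right]
    rw [h2]
    exact Cl.sum _ _ _ (fun i _ => hg3 i) (ho _)
  have hmk : m + k = ∑ i ∈ S1 \ S, κ i := by
    have hi := hcl1.idem
    exact Cl.unique hG hcl1 hcl2 ⟨gS1 - gS, gS1 - gS, hi, hi, by rw [hi, hi], by rw [hi, hi]⟩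
  rw [hmk] at hsum
  obtain ⟨q, hq1, hq2, hq3⟩ := SCl.splitSum (S1 \ S) κ hsum
  have hqp : ∀ i ∈ S1 \ S, Pj (q i) := fun i hi => (hq3 i hi).pj
  -- the new family
  obtain ⟨T1, hT1⟩ : ∃ T1 : I → LA G, T1 = fun i => if i ∈ S then T i else q i := ⟨_, rfl⟩
  have hT1S : ∀ i ∈ S, T1 i = T i := fun i hi => by rw [hT1]; exact if_pos hi
  have hT1q : ∀ i ∈ S1 \ S, T1 i = q i := fun i hi => by
    rw [hT1]; exact if_neg (Finset.mem_sdiff.1 hi).2
  have hQ1 : ∑ i ∈ S1, T1 i = E0 + R' := by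
    rw [← Finset.sum_sdiff hSS1, Finset.sum_congr rfl hT1q, ← hq1, Finset.sum_congr rfl hT1S, ← hQ]
    abel
  have hTQ : ∀ i ∈ S, T i * Q = T i := fun i hi => by
    rw [hQ, Finset.mul_sum, Finset.sum_eq_single_of_mem i hi
      fun j hj hji => horth i hi j hj hji.symm]
    exact (hTp i hi).1
  have hQq : ∀ j ∈ S1 \ S, (E0 - Q + R') * q j = q j := fun j hj => by
    rw [hq1, Finset.sum_mul, Finset.sum_eq_single_of_mem j hj
      fun i hi hij => hq2 i hi j hj hij]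
    exact (hqp j hj).1
  have hQz : Q * (E0 - Q + R') = 0 := by
    rw [mul_add, mul_sub, hle', hQp.1, sub_self, hQR', add_zero]
  have hTq : ∀ i ∈ S, ∀ j ∈ S1 \ S, T i * q j = 0 := fun i hi j hj => by
    rw [← hTQ i hi, ← hQq j hj, mul_assoc, ← mul_assoc Q, hQz, zero_mul, mul_zero]
  have hqT : ∀ i ∈ S, ∀ j ∈ S1 \ S, q j * T i = 0 := fun i hi j hj => by
    have := congrArg star (hTq i hi j hj)
    rwa [star_mul, star_zero, (hTp i hi).2, (hqp j hj).2] at this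
  have horth1 : ∀ i ∈ S1, ∀ j ∈ S1, i ≠ j → T1 i * T1 j = 0 := by
    intro i hi j hj hij
    by_cases hiS : i ∈ S
    · by_cases hjS : j ∈ S
      · rw [hT1S i hiS, hT1S j hjS]; exact horth i hiS j hjS hij
      · have hj' := Finset.mem_sdiff.2 ⟨hj, hjS⟩
        rw [hT1S i hiS, hT1q j hj']; exact hTq i hiS j hj'
    · have hi' := Finset.mem_sdiff.2 ⟨hi, hiS⟩
      by_cases hjS : j ∈ S
      · rw [hT1q i hi', hT1S j hjS]; exact hqT j hjS i hi'
      · have hj' := Finset.mem_sdiff.2 ⟨hj, hjS⟩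
        rw [hT1q i hi', hT1q j hj']; exact hq2 i hi' j hj' hij
  have hcl' : ∀ i ∈ S1, SCl (T1 i) (κ i) := by
    intro i hi
    by_cases hiS : i ∈ S
    · rw [hT1S i hiS]; exact hcl i hiS
    · have hi' := Finset.mem_sdiff.2 ⟨hi, hiS⟩
      rw [hT1q i hi']; exact hq3 i hi'
  refine ⟨⟨S1, J1, T1, m1, hJ1J, horth1, hcl', ?_, ?_, ?_, ?_, ?_⟩, hAS1, hBJ1, hSS1, hJJ1,
    hT1S, ?_, ?_⟩
  · rw [hQ1, ← hE1, mul_add, hE10, hE1R']
  · rw [← hgS1, ← hE1]; exact hF
  · rw [← hgS1, ← hE1]; exact hF'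
  · rw [hQ1, ← hE1]
    have : E1 - (E0 + R') = R1 := by
      rw [← sub_sub, hR, add_sub_cancel_right]
    rw [this]; exact hR1
  · rw [← hgS1, ← hE1]; exact hm1
  · dsimp only
    rw [hQ1, ← hE0, add_mul, hE00, hR'E0, add_zero]
  · dsimp only
    rw [hQ1, ← hE0, mul_add, hE00, hE0R', add_zero]

/-- an exhaustion of a set in a countable type by finite sets. -/
private theorem f2_exhaust {α : Type} (hα : Countable α) (X : Set α) :
    ∃ (A : ℕ → Finset α), (∀ n, (↑(A n) : Set α) ⊆ X) ∧ ∀ x ∈ X, ∃ n, ∀ k, n ≤ k → x ∈ A k := by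
  classical
  obtain ⟨f, hf⟩ := exists_injective_nat α
  have hfin : ∀ n, {a | a ∈ X ∧ f a < n}.Finite := fun n =>
    ((Set.finite_lt_nat n).preimage hf.injOn).subset fun a ha => ha.2
  refine ⟨fun n => (hfin n).toFinset, fun n => ?_, fun x hx => ⟨f x + 1, fun k hk => ?_⟩⟩
  · intro a ha
    exact ((hfin n).mem_toFinset.1 (Finset.mem_coe.1 ha)).1
  · exact (hfin k).mem_toFinset.2 ⟨hx, by omega⟩

theorem exists_T {G : Gph} (hG : NG G) (J : Set G.V) {I : Type} [Countable I] (g : I → LA G)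
    (κ : I → Mon G) (hg : ∀ i, InCor J (g i)) (hg2 : ∀ i j, i ≠ j → g i * g j = 0)
    (hg3 : ∀ i, Cl (g i) (κ i))
    (hco : ∀ x, InCor J x → ∃ S : Finset I, (∑ i ∈ S, g i) * x = x ∧ x * ∑ i ∈ S, g i = x) :
    ∃ T : I → LA G, (∀ i, InCor J (T i)) ∧ (∀ i j, i ≠ j → T i * T j = 0) ∧
      (∀ i, SCl (T i) (κ i)) ∧
      ∀ x, InCor J x → ∃ S : Finset I, (∑ i ∈ S, T i) * x = x ∧ x * ∑ i ∈ S, T i = x := by
  classical
  obtain ⟨A, _, hA⟩ := f2_exhaust (α := I) inferInstance Set.univ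
  obtain ⟨B, hB, hB'⟩ := f2_exhaust hG.cV J
  choose nx hnx using fun (n : ℕ) (s : F2St J g κ) =>
    f2_step hG J g κ hg hg2 hg3 hco s (A n) (B n) (hB n)
  obtain ⟨st, hst⟩ : ∃ st : ℕ → F2St J g κ, ∀ n, st (n + 1) = nx n (st n) :=
    ⟨fun n => Nat.rec (f2_init J g κ) (fun n s => nx n s) n, fun n => rfl⟩
  have hS : ∀ n, (st n).S ⊆ (st (n + 1)).S := fun n => by rw [hst]; exact (hnx n (st n)).2.2.1
  have hJ : ∀ n, (st n).J' ⊆ (st (n + 1)).J' := fun n => by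
    rw [hst]; exact (hnx n (st n)).2.2.2.1
  have hT : ∀ n, ∀ i ∈ (st n).S, (st (n + 1)).T i = (st n).T i := fun n => by
    rw [hst]; exact (hnx n (st n)).2.2.2.2.1
  have hSm : ∀ n k, n ≤ k → (st n).S ⊆ (st k).S := by
    intro n k hk
    induction k, hk using Nat.le_induction with
    | base => exact Finset.Subset.refl _
    | succ k _ ih => exact ih.trans (hS k)
  have hTm : ∀ n k, n ≤ k → ∀ i ∈ (st n).S, (st k).T i = (st n).T i := by
    intro n k hk
    induction k, hk using Nat.le_induction with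
    | base => exact fun _ _ => rfl
    | succ k hnk ih => exact fun i hi => by rw [hT k i (hSm n k hnk hi), ih i hi]
  have hmem : ∀ i : I, ∃ n, i ∈ (st n).S := by
    intro i
    obtain ⟨n, hn⟩ := hA i (Set.mem_univ i)
    exact ⟨n + 1, by rw [hst]; exact (hnx n (st n)).1 (hn n le_rfl)⟩
  choose N hN using hmem
  obtain ⟨T, hTdef⟩ : ∃ T : I → LA G, ∀ i, T i = (st (N i)).T i := ⟨_, fun i => rfl⟩
  have hTn : ∀ n i, i ∈ (st n).S → (st n).T i = T i := by
    intro n i hi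
    rw [hTdef]
    rcases le_total n (N i) with h | h
    · exact (hTm n (N i) h i hi).symm
    · exact hTm (N i) n h i (hN i)
  have hTs : ∀ n, ∑ i ∈ (st n).S, (st n).T i = ∑ i ∈ (st n).S, T i := fun n =>
    Finset.sum_congr rfl (hTn n)
  have hTcl : ∀ i, SCl (T i) (κ i) := fun i => by
    rw [hTdef]; exact (st (N i)).cl i (hN i)
  have hTp : ∀ i, Pj (T i) := fun i => (hTcl i).pj
  have hTo : ∀ i j, i ≠ j → T i * T j = 0 := by
    intro i j hij
    have hi : i ∈ (st (max (N i) (N j))).S := hSm _ _ (le_max_left _ _) (hN i)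
    have hj : j ∈ (st (max (N i) (N j))).S := hSm _ _ (le_max_right _ _) (hN j)
    rw [← hTn _ i hi, ← hTn _ j hj]
    exact (st _).orth i hi j hj hij
  refine ⟨T, fun i => ?_, hTo, hTcl, fun x hx => ?_⟩
  · have h1 := (st (N i)).le
    rw [hTs] at h1
    have h2 : (∑ j ∈ (st (N i)).S, T j) * T i = T i := by
      rw [Finset.sum_mul, Finset.sum_eq_single_of_mem i (hN i) fun j _ hji => hTo j i hji]
      exact (hTp i).1
    have h3 : eS (st (N i)).J' * T i = T i := by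
      conv_lhs => rw [← h2]
      rw [← mul_assoc, h1, h2]
    have h4 : T i * eS (st (N i)).J' = T i := by
      have := congrArg star h3
      rwa [star_mul, (hTp i).2, (eS_pj _).2] at this
    exact ⟨(st (N i)).J', (st (N i)).hJ, h3, h4⟩
  · obtain ⟨S0, hS0, h1, h2⟩ := hx
    have hex : ∃ n, S0 ⊆ (st n).J' := by
      have hall : ∀ v ∈ S0, ∃ n, ∀ k, n ≤ k → v ∈ B k := fun v hv =>
        hB' v (hS0 (Finset.mem_coe.2 hv))
      choose! c hc using hall
      refine ⟨S0.sup c + 1, fun v hv => ?_⟩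
      rw [hst]
      exact (hnx _ (st _)).2.1 (hc v hv _ (Finset.le_sup hv))
    obtain ⟨n, hn⟩ := hex
    have h5 : (∑ i ∈ (st (n + 1)).S, T i) * eS (st n).J' = eS (st n).J' := by
      rw [← hTs, hst]; exact (hnx n (st n)).2.2.2.2.2.1
    have h6 : eS (st n).J' * (∑ i ∈ (st (n + 1)).S, T i) = eS (st n).J' := by
      rw [← hTs, hst]; exact (hnx n (st n)).2.2.2.2.2.2
    have h3 : eS (st n).J' * x = x := by
      conv_lhs => rw [← h1]
      rw [← mul_assoc, (eS_mul_of_subset hn).2, h1]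
    have h4 : x * eS (st n).J' = x := by
      conv_lhs => rw [← h2]
      rw [mul_assoc, (eS_mul_of_subset hn).1, h2]
    refine ⟨(st (n + 1)).S, ?_, ?_⟩
    · conv_lhs => rw [← h3]
      rw [← mul_assoc, h5, h3]
    · conv_lhs => rw [← h4]
      rw [mul_assoc, h6, h4]

end DC29
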