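import Pool.Agent.LibDC29.F1
import Pool.Agent.LibDC29.F2

/-!
[DC F3] Assembly.  `I = {v // v ∈ s.V0}`; for `v : I` let `c v : LA E` with `s.io (c v) = vx v` (`s.rng`, `InCor.vx`),
`g v = s'.io (θ (c v))`: orthogonal idempotents in the corner on `s'.V0` (`s'.rng`), `Cl (g v) (t (mv v))` (`ht`, `SCl.vx`,
`SCl.cl`).  Cofinal: for `x` in the corner on `s'.V0`, `x = s'.io (θ y)`; `s.io y` is absorbed by `eS S`, `↑S ⊆ V0`; so `y`
is absorbed by `∑ c v` (injectivity of `io`; sum over `S` seen in `I`), and `x` by `∑ g v`.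
`exists_T`: `T v`.  `SEqv (T v) (Φ (vx v))` (`SCl.seqv`): `u v`.  `corner_lemma` with `p v = vx v`; `h2`: `InCor V0' x` iff absorbed
by a finite sum of `T v` (`exists_T`, and each `T v` is in the corner).
-/

namespace DC29

open LPA74

/-- sums of vertices of `V0` -/
theorem F3_inCor {G : Gph} (V0 : Set G.V) (x : LA G) : InCor V0 x ↔
    ∃ S : Finset {v // v ∈ V0}, (∑ i ∈ S, (vx i.1 : LA G)) * x = x ∧
      x * ∑ i ∈ S, (vx i.1 : LA G) = x := by
  classical
  constructor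
  · rintro ⟨S, hS, h1, h2⟩
    have h3 : ∑ i ∈ S.subtype (fun v => v ∈ V0), (vx i.1 : LA G) = eS S :=
      Finset.sum_subtype_of_mem (fun v => (vx v : LA G)) fun v hv => hS hv
    exact ⟨S.subtype (fun v => v ∈ V0), by rw [h3]; exact h1, by rw [h3]; exact h2⟩
  · rintro ⟨S, h1, h2⟩
    have h3 : (eS (S.map (Function.Embedding.subtype _)) : LA G) = ∑ i ∈ S, (vx i.1 : LA G) := by
      unfold eS
      rw [Finset.sum_map]
      rfl
    refine ⟨S.map (Function.Embedding.subtype _), ?_, by rw [h3]; exact h1, by rw [h3]; exact h2⟩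
    intro v hv
    rw [Finset.mem_coe, Finset.mem_map] at hv
    obtain ⟨w, -, rfl⟩ := hv
    exact w.2

theorem F3_sum {G : Gph} {V0 : Set G.V} {I : Type} (T : I → LA G) (h : ∀ i, InCor V0 (T i))
    (S : Finset I) : InCor V0 (∑ i ∈ S, T i) := by
  classical
  induction S using Finset.induction_on with
  | empty =>
    rw [Finset.sum_empty]
    exact InCor.zero
  | insert i S hi ih =>
    rw [Finset.sum_insert hi]
    exact (h i).add ih

theorem corner_iso {E F : Gph} (s : Setup E) (s' : Setup F) (θ : LA E ≃+* LA F)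
    (t : Mon s.G ≃+ Mon s'.G) (ht : ∀ x m, Cl (s.io x) m → Cl (s'.io (θ x)) (t m))
    (Φ : LA s.G ≃⋆ₐ[ℂ] LA s'.G) (hΦ : ∀ v, SCl (Φ (vx v)) (t (mv v))) :
    Nonempty (LA E ≃⋆ₐ[ℂ] LA F) := by
  have hcV : Countable s.G.V := s.ng.cV
  have hc : ∀ v : {v // v ∈ s.V0}, ∃ c : LA E, s.io c = vx v.1 := fun v =>
    (s.rng _).2 (InCor.vx v.2)
  choose c hc using hc
  have hcc : ∀ v w, v ≠ w → c v * c w = 0 := by
    intro v w hvw
    apply s.inj
    rw [map_mul, hc, hc, map_zero]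
    exact vx_mul_ne fun h => hvw (Subtype.ext h)
  have hio : ∀ S : Finset {v // v ∈ s.V0}, s.io (∑ i ∈ S, c i) = ∑ i ∈ S, (vx i.1 : LA s.G) := by
    intro S
    rw [map_sum]
    exact Finset.sum_congr rfl fun i _ => hc i
  have hio' : ∀ S : Finset {v // v ∈ s.V0}, s'.io (θ (∑ i ∈ S, c i)) =
      ∑ i ∈ S, s'.io (θ (c i)) := by
    intro S
    rw [map_sum, map_sum]
  obtain ⟨T, hT1, hT2, hT3, hT4⟩ := exists_T s'.ng s'.V0 (fun v => s'.io (θ (c v)))
    (fun v => t (mv v.1)) (fun v => (s'.rng _).1 ⟨_, rfl⟩)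
    (fun v w hvw => by
      have h1 := hcc v w hvw
      rw [← map_mul, ← map_mul, h1, map_zero, map_zero])
    (fun v => ht (c v) (mv v.1) (by
      rw [hc]
      exact (SCl.vx v.1).cl))
    (fun x hx => by
      obtain ⟨x', rfl⟩ := (s'.rng x).2 hx
      obtain ⟨y, rfl⟩ := θ.surjective x'
      obtain ⟨S, h1, h2⟩ := (F3_inCor s.V0 (s.io y)).1 ((s.rng _).1 ⟨y, rfl⟩)
      rw [← hio, ← map_mul] at h1 h2
      have h3 := s.inj h1
      have h4 := s.inj h2
      refine ⟨S, ?_, ?_⟩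
      · rw [← hio', ← map_mul, ← map_mul, h3]
      · rw [← hio', ← map_mul, ← map_mul, h4])
  have hu : ∀ v : {v // v ∈ s.V0}, ∃ w : LA s'.G, w * star w = T v ∧
      star w * w = Φ (vx v.1) ∧ w * star w * w = w := by
    intro v
    obtain ⟨w, -, h⟩ := (hT3 v).seqv (hΦ v.1)
    exact ⟨w, h⟩
  choose u hu1 hu2 hu3 using hu
  refine corner_lemma s.io s.inj s'.io s'.inj Φ (fun v : {v // v ∈ s.V0} => vx v.1) T u
    (fun v => (SCl.vx v.1).pj) (fun v w hvw => vx_mul_ne fun h => hvw (Subtype.ext h))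
    (fun v => (hT3 v).pj) hT2 (fun x => (s.rng x).trans (F3_inCor s.V0 x)) (fun x => ?_) hu1 hu2
    (fun v => by rw [← hu2, ← mul_assoc, hu3])
  rw [s'.rng]
  constructor
  · exact hT4 x
  · rintro ⟨S, h1, h2⟩
    have h3 := F3_sum T hT1 S
    have h4 := h3.sandwich h3 x
    rw [h1, h2] at h4
    exact h4

end DC29
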