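import Pool.Agent.LibDC29.Defs

/-!
# The P-move: definitions
-/

namespace DC29

open LPA74

/-- the list of edges is a path `e_1 … e_n`, `n ≥ 1`, with `e_1, …, e_(n-1) ∈ P`, `e_n ∉ P`. -/
def PV (G : Gph) (P : Set G.Ed) : List G.Ed → Prop
  | [] => False
  | [e] => e ∉ P
  | e :: f :: l => e ∈ P ∧ G.r e = G.s f ∧ PV G P (f :: l)

theorem PV.ne {G : Gph} {P : Set G.Ed} {l : List G.Ed} (h : PV G P l) : l ≠ [] := by
  rintro rfl
  exact h

/-- same vertices, the edges are the paths `PV`. -/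
def PG (G : Gph) (P : Set G.Ed) : Gph where
  V := G.V
  Ed := {l : List G.Ed // PV G P l}
  s := fun l => G.s (l.1.head l.2.ne)
  r := fun l => G.r (l.1.getLast l.2.ne)

/-- `P` is admissible: height function decreasing along `P`, and the range of an edge in `P` is not a sink. -/
structure PAd (G : Gph) (P : Set G.Ed) : Prop where
  rf : ∀ v, {e | G.s e = v}.Finite
  ht : ∃ h : G.V → ℕ, ∀ e ∈ P, h (G.r e) < h (G.s e)
  ns : ∀ e ∈ P, ∃ f, G.s f = G.r e

end DC29
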