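import Pool.Agent.LibDC29.L0
import Pool.Agent.LibDC29.If
import Pool.Agent.LibDC29.B1

/-!
[DC L1] The P-move does not change the algebra.  For `l = [e_1, …, e_n]` in `PV` write `pv l = pe l (r e_n) = e_1 ⋯ e_n`.
* `fin`, `sum`: by strong induction on the height `h v`, for every `v`: the set of the `l : (PG G P).Ed` with `s l = v` is finite, and if `v` is
  not a sink, `vx v = ∑_l pv l * star (pv l)`.  The edges `e` out of `v` (finite set): if `e ∉ P`, the list `[e]`; if `e ∈ P`, the lists
  `e :: l'`, `l'` in `PV` with `s l' = r e` (`h (r e) < h v`; `r e` is not a sink), and `ed e star (ed e) = ed e * vx (r e) * star (ed e) =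
  ∑_{l'} pv (e :: l') * star (..)`.
* `iso`: `Φ` by `LA.lift`: `vx v ↦ vx v`, `ed l ↦ pv l`.  `ck1'`: for different `l`, `l'` in `PV` with the same source neither is a prefix of the
  other: `star (pv l) * pv l' = 0` (induction on `l`).  `ck2`: `sum` (the `S` of `ck2` is the finite set; `v` is not a sink of `G`).
  Injective: `red`, `ind` for `G`: `Φ (pe α v) = pe (α.map Subtype.val).flatten v`, and flattening is injective on lists of elements of `PV`
  (induction: the first block ends with the first edge outside `P`).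
  Surjective: the range is a `*`-subalgebra containing `vx v`, `ed e` for `e ∉ P` (list `[e]`), and for `e ∈ P`:
  `ed e = ed e * vx (r e) = ∑_{l'} pv (e :: l') * star (pv l')`; `LA.induction`.  `StarAlgEquiv.ofBijective`.
-/

namespace DC29

open LPA74

variable {G : Gph} {P : Set G.Ed}

theorem L1_app {G : Gph} {α β : List G.Ed} {v : G.V} (hα : G.IsP α (G.st β v)) (hβ : G.IsP β v) :
    G.IsP (α ++ β) v ∧ (pe (α ++ β) v : LA G) = pe α (G.st β v) * pe β v ∧
      G.st (α ++ β) v = G.st α (G.st β v) := by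
  induction α with
  | nil => exact ⟨hβ, (vx_mul_pe β v).symm, rfl⟩
  | cons g α ih =>
    obtain ⟨h1, h2⟩ := hα
    obtain ⟨a, b, c⟩ := ih h2
    refine ⟨⟨?_, a⟩, ?_, rfl⟩
    · exact h1.trans c.symm
    · show ed g * pe (α ++ β) v = ed g * pe α (G.st β v) * pe β v
      rw [b, mul_assoc]

/-- a list in `PV` is `[e]`, `e ∉ P`, or `e :: l`, `e ∈ P`, `l` in `PV`. -/
theorem L1_cases {l : List G.Ed} (h : PV G P l) : (∃ e, e ∉ P ∧ l = [e]) ∨
    ∃ (e : G.Ed) (l' : List G.Ed) (h' : PV G P l'), e ∈ P ∧ l = e :: l' ∧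
      G.r e = G.s (l'.head h'.ne) := by
  match l, h with
  | [], h => exact h.elim
  | [e], h => exact Or.inl ⟨e, h, rfl⟩
  | e :: f :: l, h => exact Or.inr ⟨e, f :: l, h.2.2, h.1, rfl, h.2.1⟩

theorem L1_cons {e : G.Ed} {l : List G.Ed} (h : PV G P l) (he : e ∈ P)
    (hr : G.r e = G.s (l.head h.ne)) : PV G P (e :: l) := by
  match l, h with
  | [], h => exact h.elim
  | f :: l, h => exact ⟨he, hr, h⟩

def L1_mk (l : List G.Ed) (h : PV G P l) : (PG G P).Ed := ⟨l, h⟩

def L1_val (l : (PG G P).Ed) : List G.Ed := l.1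

theorem L1_prop (l : (PG G P).Ed) : PV G P (L1_val l) := l.2

theorem L1_ext {l l' : (PG G P).Ed} (h : L1_val l = L1_val l') : l = l' := Subtype.ext h

theorem L1_val_mk (l : List G.Ed) (h : PV G P l) : L1_val (L1_mk l h) = l := rfl

theorem L1_s (l : (PG G P).Ed) : (PG G P).s l = G.s ((L1_val l).head (L1_prop l).ne) := rfl

theorem L1_r (l : (PG G P).Ed) : (PG G P).r l = G.r ((L1_val l).getLast (L1_prop l).ne) := rfl

theorem L1_ex (l : (PG G P).Ed) : ∃ (m : List G.Ed) (h : PV G P m), l = L1_mk m h :=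
  ⟨L1_val l, L1_prop l, rfl⟩

/-- the product of a list. -/
noncomputable def L1_pv (l : (PG G P).Ed) : LA G := pe (L1_val l) ((PG G P).r l)

theorem L1_st (l : List G.Ed) (h : l ≠ []) (u : G.V) : G.st l u = G.s (l.head h) := by
  cases l with
  | nil => exact absurd rfl h
  | cons g l => rfl

theorem L1_isP {l : List G.Ed} (h : PV G P l) : G.IsP l (G.r (l.getLast h.ne)) := by
  induction l with
  | nil => exact h.elim
  | cons e l ih =>
    cases l with
    | nil => exact ⟨rfl, trivial⟩
    | cons f l =>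
      have h' : PV G P (f :: l) := h.2.2
      have h1 := ih h'
      have h2 : (e :: f :: l).getLast h.ne = (f :: l).getLast h'.ne :=
        List.getLast_cons (by simp)
      rw [h2]
      exact ⟨h.2.1, h1⟩

theorem L1_pv_cons {e : G.Ed} {l : (PG G P).Ed} (he : e ∈ P) (hr : G.r e = (PG G P).s l) :
    L1_pv (L1_mk (e :: L1_val l) (L1_cons (L1_prop l) he hr)) = ed e * L1_pv l := by
  obtain ⟨l, hl, rfl⟩ := L1_ex l
  have h2 : (e :: l).getLast (by simp) = l.getLast hl.ne := List.getLast_cons hl.ne
  show pe (e :: l) (G.r ((e :: l).getLast _)) = ed e * pe l (G.r (l.getLast _))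
  rw [h2]
  rfl

theorem L1_pv_single {e : G.Ed} (he : e ∉ P) :
    L1_pv (L1_mk [e] he) = ed e := ed_mul_vx e

theorem L1_star_pv (l : (PG G P).Ed) : star (L1_pv l) * L1_pv l = vx (E := G) ((PG G P).r l) :=
  star_pe_mul_pe (L1_isP (L1_prop l))

theorem L1_vx_pv (l : (PG G P).Ed) : vx (E := G) ((PG G P).s l) * L1_pv l = L1_pv l := by
  have h := vx_mul_pe (E := G) (L1_val l) ((PG G P).r l)
  have e1 := L1_st (L1_val l) (L1_prop l).ne ((PG G P).r l)
  rw [e1] at h
  exact h

/-- different lists in `PV`: neither is a prefix of the other. -/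
theorem L1_orth (l : List G.Ed) : ∀ (l' : List G.Ed) (u u' : G.V), PV G P l → PV G P l' → l ≠ l' →
    star (pe l u : LA G) * pe l' u' = 0 := by
  induction l with
  | nil => exact fun l' u u' h => h.elim
  | cons e l ih =>
    intro l' u u' h h' hne
    rcases l' with _ | ⟨e', l'⟩
    · exact h'.elim
    have e1 : star (pe (e :: l) u : LA G) * pe (e' :: l') u' =
        star (pe l u) * ((star (ed e) * ed e') * pe l' u') := by
      show star (ed e * pe l u) * (ed e' * pe l' u') = _
      rw [star_mul]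
      simp only [mul_assoc]
    by_cases hee : e = e'
    · subst hee
      rcases L1_cases h with ⟨f, hf, hl⟩ | ⟨f, l1, h1, hf, hl, hr⟩
      · rcases L1_cases h' with ⟨f', hf', hl'⟩ | ⟨f', l1', h1', hf', hl', hr'⟩
        · obtain ⟨rfl, rfl⟩ := List.cons.inj hl
          obtain ⟨-, rfl⟩ := List.cons.inj hl'
          exact absurd rfl hne
        · obtain ⟨rfl, rfl⟩ := List.cons.inj hl
          obtain ⟨rfl, rfl⟩ := List.cons.inj hl'
          exact absurd hf' hf
      · rcases L1_cases h' with ⟨f', hf', hl'⟩ | ⟨f', l1', h1', hf', hl', hr'⟩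
        · obtain ⟨rfl, rfl⟩ := List.cons.inj hl
          obtain ⟨rfl, rfl⟩ := List.cons.inj hl'
          exact absurd hf hf'
        · obtain ⟨rfl, rfl⟩ := List.cons.inj hl
          obtain ⟨rfl, rfl⟩ := List.cons.inj hl'
          have h2 := vx_mul_pe (E := G) l' u'
          rw [L1_st l' h1'.ne, ← hr'] at h2
          rw [e1, star_ed_mul_ed, h2]
          exact ih l' u u' h1 h1' (fun h => hne (by rw [h]))
    · rw [e1, star_ed_mul_ed_ne hee, zero_mul, mul_zero]

theorem L1_main (h : PAd G P) : ∀ v : G.V, ∃ T : Finset (PG G P).Ed,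
    (∀ l, l ∈ T ↔ (PG G P).s l = v) ∧ ((∃ f, G.s f = v) →
      vx (E := G) v = ∑ l ∈ T, L1_pv l * star (L1_pv l)) := by
  classical
  obtain ⟨ht, hht⟩ := h.ht
  have key : ∀ n : ℕ, ∀ v : G.V, ht v ≤ n → ∃ T : Finset (PG G P).Ed,
    (∀ l, l ∈ T ↔ (PG G P).s l = v) ∧ ((∃ f, G.s f = v) →
      vx (E := G) v = ∑ l ∈ T, L1_pv l * star (L1_pv l)) := by
    intro n
    induction n using Nat.strong_induction_on with
    | _ n ih =>
      intro v hv
      have hlow : ∀ e : G.Ed, G.s e = v → e ∈ P → ∃ T : Finset (PG G P).Ed,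
          (∀ l, l ∈ T ↔ (PG G P).s l = G.r e) ∧ ((∃ f, G.s f = G.r e) →
          vx (E := G) (G.r e) = ∑ l ∈ T, L1_pv l * star (L1_pv l)) := by
        intro e he heP
        have h1 := hht e heP
        rw [he] at h1
        exact ih (ht (G.r e)) (by omega) (G.r e) le_rfl
      choose! T hT1 hT2 using hlow
      -- the lists starting with the edge `e`
      have hB : ∀ e : G.Ed, G.s e = v → ∃ U : Finset (PG G P).Ed,
          (∀ l, l ∈ U ↔ (L1_val l).head (L1_prop l).ne = e) ∧
          ed e * star (ed e) = ∑ l ∈ U, L1_pv l * star (L1_pv l) := by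
        intro e he
        by_cases heP : e ∈ P
        · let F : (PG G P).Ed → (PG G P).Ed := fun l =>
            if hl : G.r e = (PG G P).s l then
              L1_mk (e :: L1_val l) (L1_cons (L1_prop l) heP hl) else l
          have hF : ∀ l : (PG G P).Ed, ∀ hl : G.r e = (PG G P).s l,
              F l = L1_mk (e :: L1_val l) (L1_cons (L1_prop l) heP hl) := fun l hl => dif_pos hl
          refine ⟨(T e).image F, ?_, ?_⟩
          · intro l
            constructor
            · intro hl
              obtain ⟨l', hl', hll⟩ := Finset.mem_image.1 hl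
              have h1 := ((hT1 e he heP l').1 hl').symm
              rw [hF l' h1] at hll
              subst hll
              rfl
            · intro hl
              obtain ⟨l, hlP, rfl⟩ := L1_ex l
              rcases L1_cases hlP with ⟨f, hf, rfl⟩ | ⟨f, l', h1, hf, rfl, hr⟩
              · have h2 : f = e := hl
                subst h2
                exact absurd heP hf
              · have h2 : f = e := hl
                subst h2
                refine Finset.mem_image.2 ⟨L1_mk l' h1, (hT1 f he heP _).2 hr.symm, ?_⟩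
                exact hF (L1_mk l' h1) hr
          · rw [Finset.sum_image]
            · have h1 : ∀ l ∈ T e, L1_pv (F l) * star (L1_pv (F l)) =
                  ed e * (L1_pv l * star (L1_pv l)) * star (ed e) := by
                intro l hl
                have h2 := ((hT1 e he heP l).1 hl).symm
                rw [hF l h2, L1_pv_cons heP h2, star_mul]
                simp only [mul_assoc]
              rw [Finset.sum_congr rfl h1, ← Finset.sum_mul, ← Finset.mul_sum,
                ← hT2 e he heP (h.ns e heP), ed_mul_vx]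
            · intro l hl l' hl' hll
              have h1 := ((hT1 e he heP l).1 hl).symm
              have h2 := ((hT1 e he heP l').1 hl').symm
              have h3 : F l = F l' := hll
              rw [hF l h1, hF l' h2] at h3
              have h4 := congrArg L1_val h3
              exact L1_ext (List.cons.inj h4).2
        · refine ⟨({L1_mk [e] heP} : Finset (PG G P).Ed), ?_, ?_⟩
          · intro l
            rw [Finset.mem_singleton]
            constructor
            · rintro rfl
              rfl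
            · intro hl
              obtain ⟨l, hlP, rfl⟩ := L1_ex l
              rcases L1_cases hlP with ⟨f, hf, rfl⟩ | ⟨f, l', h1, hf, rfl, hr⟩
              · have h2 : f = e := hl
                subst h2
                rfl
              · have h2 : f = e := hl
                subst h2
                exact absurd hf heP
          · rw [Finset.sum_singleton, L1_pv_single]
      choose! U hU1 hU2 using hB
      refine ⟨(h.rf v).toFinset.biUnion U, ?_, ?_⟩
      · intro l
        rw [Finset.mem_biUnion]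
        constructor
        · rintro ⟨e, he, hl⟩
          have he' : G.s e = v := (h.rf v).mem_toFinset.1 he
          have h1 := (hU1 e he' l).1 hl
          rw [L1_s, h1, he']
        · intro hl
          have hl' : G.s ((L1_val l).head (L1_prop l).ne) = v := hl
          exact ⟨(L1_val l).head (L1_prop l).ne, (h.rf v).mem_toFinset.2 hl', (hU1 _ hl' l).2 rfl⟩
      · rintro ⟨f, hf⟩
        rw [Finset.sum_biUnion]
        · rw [vx_eq_sum v (h.rf v).toFinset ⟨f, (h.rf v).mem_toFinset.2 hf⟩
            (fun g => (h.rf v).mem_toFinset)]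
          exact Finset.sum_congr rfl fun e he => hU2 e ((h.rf v).mem_toFinset.1 he)
        · intro e he e' he' hne
          refine Finset.disjoint_left.2 fun l hl hl' => hne ?_
          have h1 := (hU1 e ((h.rf v).mem_toFinset.1 he) l).1 hl
          have h2 := (hU1 e' ((h.rf v).mem_toFinset.1 he') l).1 hl'
          exact h1.symm.trans h2
  intro v
  exact key (ht v) v le_rfl

theorem PG.rf (h : PAd G P) (v : G.V) : {l : (PG G P).Ed | (PG G P).s l = v}.Finite := by
  obtain ⟨T, hT, -⟩ := L1_main h v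
  exact T.finite_toSet.subset fun l hl => (hT l).2 hl

/-- prefix code. -/
theorem L1_code (l : List G.Ed) : ∀ (l' A B : List G.Ed), PV G P l → PV G P l' →
    l ++ A = l' ++ B → l = l' ∧ A = B := by
  induction l with
  | nil => exact fun l' A B h => h.elim
  | cons e l ih =>
    intro l' A B h h' hAB
    rcases l' with _ | ⟨e', l'⟩
    · exact h'.elim
    obtain ⟨h1, h2⟩ := List.cons.inj (show e :: (l ++ A) = e' :: (l' ++ B) from hAB)
    subst h1
    rcases L1_cases h with ⟨f, hf, hl⟩ | ⟨f, l1, h1, hf, hl, hr⟩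
    · obtain ⟨rfl, rfl⟩ := List.cons.inj hl
      rcases L1_cases h' with ⟨f', hf', hl'⟩ | ⟨f', l1', h1', hf', hl', hr'⟩
      · obtain ⟨-, rfl⟩ := List.cons.inj hl'
        exact ⟨rfl, h2⟩
      · obtain ⟨rfl, rfl⟩ := List.cons.inj hl'
        exact absurd hf' hf
    · obtain ⟨rfl, rfl⟩ := List.cons.inj hl
      rcases L1_cases h' with ⟨f', hf', hl'⟩ | ⟨f', l1', h1', hf', hl', hr'⟩
      · obtain ⟨rfl, rfl⟩ := List.cons.inj hl'
        exact absurd hf hf'
      · obtain ⟨rfl, rfl⟩ := List.cons.inj hl'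
        obtain ⟨a, b⟩ := ih l' A B h1 h1' h2
        exact ⟨by rw [a], b⟩

/-- flattening. -/
def L1_fl : List (PG G P).Ed → List G.Ed
  | [] => []
  | l :: α => L1_val l ++ L1_fl α

theorem L1_fl_cons (l : (PG G P).Ed) (α : List (PG G P).Ed) :
    L1_fl (l :: α) = L1_val l ++ L1_fl α := rfl

theorem L1_fl_inj (α : List (PG G P).Ed) : ∀ β : List (PG G P).Ed, L1_fl α = L1_fl β → α = β := by
  induction α with
  | nil =>
    intro β h
    cases β with
    | nil => rfl
    | cons l β =>
      rw [L1_fl_cons] at h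
      have h1 : L1_val l ++ L1_fl β = [] := h.symm
      exact absurd (List.append_eq_nil_iff.1 h1).1 (L1_prop l).ne
  | cons l α ih =>
    intro β h
    cases β with
    | nil =>
      rw [L1_fl_cons] at h
      have h1 : L1_val l ++ L1_fl α = [] := h
      exact absurd (List.append_eq_nil_iff.1 h1).1 (L1_prop l).ne
    | cons l' β =>
      rw [L1_fl_cons, L1_fl_cons] at h
      obtain ⟨a, b⟩ := L1_code (L1_val l) (L1_val l') _ _ (L1_prop l) (L1_prop l') h
      rw [L1_ext a, ih β b]

theorem L1_fl_spec (Φ : LA (PG G P) →⋆ₙₐ[ℂ] LA G) (hv : ∀ v : G.V, Φ (vx (E := PG G P) v) = vx v)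
    (he : ∀ l, Φ (ed l) = L1_pv l) (v : G.V) (α : List (PG G P).Ed) :
    (PG G P).IsP α v → G.IsP (L1_fl α) v ∧ Φ (pe α v) = pe (L1_fl α) v ∧
      G.st (L1_fl α) v = (PG G P).st α v := by
  induction α with
  | nil => exact fun _ => ⟨trivial, hv v, rfl⟩
  | cons l α ih =>
    intro h
    obtain ⟨h1, h2⟩ := h
    obtain ⟨a, b, c⟩ := ih h2
    have h3 : G.IsP (L1_val l) (G.st (L1_fl α) v) := by
      rw [c, ← h1]
      exact L1_isP (L1_prop l)
    obtain ⟨a', b', c'⟩ := L1_app h3 a
    rw [L1_fl_cons]
    refine ⟨a', ?_, ?_⟩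
    · show Φ (ed l * pe α v) = _
      rw [map_mul, he, b, b', c, ← h1]
      rfl
    · rw [c', L1_st (L1_val l) (L1_prop l).ne]
      rfl

theorem PG.iso [Countable G.V] [Countable G.Ed] (h : PAd G P) :
    ∃ Φ : LA (PG G P) ≃⋆ₐ[ℂ] LA G, ∀ v : G.V, Φ (vx (E := PG G P) v) = vx v := by
  classical
  have hck : CK (PG G P) (fun v : G.V => (vx v : LA G)) (L1_pv (P := P)) := by
    refine ⟨fun a => vx_mul_self _, fun a => star_vx _, fun a b hab => vx_mul_ne hab, L1_vx_pv,
      fun l => pe_mul_vx _ _, L1_star_pv, fun l l' hne => ?_, ?_⟩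
    · exact L1_orth (L1_val l) (L1_val l') _ _ (L1_prop l) (L1_prop l') (fun e => hne (L1_ext e))
    · intro a S h0 hS
      obtain ⟨T, hT1, hT2⟩ := L1_main h a
      have hST : S = T := by
        ext l
        rw [hS l, hT1 l]
      rw [hST]
      obtain ⟨l, hl⟩ := h0
      exact hT2 ⟨(L1_val l).head (L1_prop l).ne, (hS l).1 hl⟩
  obtain ⟨Φ, hv, he⟩ := LA.lift hck
  have hinj : Function.Injective Φ := by
    refine red Φ fun v => ?_
    have h1 := ind (G := G) v
    have h2 := h1.comp (fun α : {α : List (PG G P).Ed // (PG G P).IsP α v} =>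
      (⟨L1_fl α.1, (L1_fl_spec Φ hv he v α.1 α.2).1⟩ : {α : List G.Ed // G.IsP α v}))
      (fun α β hαβ => Subtype.ext (L1_fl_inj α.1 β.1 (congrArg Subtype.val hαβ)))
    have h3 : (fun α : {α : List (PG G P).Ed // (PG G P).IsP α v} => Φ (pe α.1 v)) =
        (fun α : {α : List G.Ed // G.IsP α v} => (pe α.1 v : LA G)) ∘
        (fun α : {α : List (PG G P).Ed // (PG G P).IsP α v} =>
      (⟨L1_fl α.1, (L1_fl_spec Φ hv he v α.1 α.2).1⟩ : {α : List G.Ed // G.IsP α v})) := by
      funext α
      exact (L1_fl_spec Φ hv he v α.1 α.2).2.1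
    rw [h3]
    exact h2
  have hsurj : Function.Surjective Φ := by
    refine LA.induction ?_ ?_ ?_ ?_ ?_ ?_ ?_
    · intro a
      exact ⟨vx (E := PG G P) a, hv a⟩
    · intro e
      by_cases heP : e ∈ P
      · obtain ⟨T, hT1, hT2⟩ := L1_main h (G.r e)
        have h1 : ∀ l ∈ T, G.r e = (PG G P).s l := fun l hl => ((hT1 l).1 hl).symm
        refine ⟨∑ l ∈ T.attach, ed (E := PG G P) (L1_mk (e :: L1_val l.1) (L1_cons (L1_prop l.1) heP
          (h1 l.1 l.2))) * star (ed (E := PG G P) l.1), ?_⟩
        rw [map_sum]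
        have h2 : ∀ l ∈ T.attach, Φ (ed (E := PG G P) (L1_mk (e :: L1_val l.1) (L1_cons (L1_prop l.1) heP
          (h1 l.1 l.2))) * star (ed (E := PG G P) l.1)) =
            ed e * (L1_pv l.1 * star (L1_pv l.1)) := by
          intro l _
          rw [map_mul, map_star, he, he, L1_pv_cons heP (h1 l.1 l.2), mul_assoc]
        rw [Finset.sum_congr rfl h2, Finset.sum_attach T fun l =>
          ed e * (L1_pv l * star (L1_pv l)), ← Finset.mul_sum, ← hT2 (h.ns e heP), ed_mul_vx]
      · exact ⟨ed (E := PG G P) (L1_mk [e] heP), by rw [he, L1_pv_single]⟩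
    · exact ⟨0, map_zero Φ⟩
    · rintro x y ⟨a, rfl⟩ ⟨b, rfl⟩
      exact ⟨a + b, map_add Φ _ _⟩
    · rintro x y ⟨a, rfl⟩ ⟨b, rfl⟩
      exact ⟨a * b, map_mul Φ _ _⟩
    · rintro c x ⟨a, rfl⟩
      exact ⟨c • a, map_smul Φ _ _⟩
    · rintro x ⟨a, rfl⟩
      exact ⟨star a, map_star Φ _⟩
  exact ⟨StarAlgEquiv.ofBijective Φ ⟨hinj, hsurj⟩, hv⟩

end DC29
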