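import Pool.Agent.LibDC29.L0

/-!
[DC L2] Bases on the cycles.  A vertex `v` is cyclic if some edge `e` has `s e = v`, `Rch (r e) v`; it is then joined both ways
with some element of `V0` (`hV`).  Mutual reachability is an equivalence relation; for each class of cyclic vertices choose an element of
`V0` in it; `b` = the set of the chosen vertices (`Quotient.out`-like choice: `b v` depends only on the class of `v`).
`P = {e | Rch (r e) (s e), r e ∉ b}`.  `h v` = the least length `≥ 1` of a path from `v` to the chosen vertex of its class (`0` if `v` is not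
cyclic).  For `e ∈ P`: `s e`, `r e` are cyclic in the same class (`r e` is cyclic: the path `r e → s e → r e` is nonempty).  Let `e_1 … e_n` be a
shortest nonempty path from `s e` to the chosen `c`: `e_1` has a path back (`r e_1 → c → s e`), so `e_1 = e` (`DisjointCycles`); `n ≥ 2` since
`r e ∉ b`; so `e_2 … e_n` is a nonempty path from `r e` to `c`: `h (r e) < h (s e)`.
Output: `ret`: an edge with a path back which is not in `P` ends in `b`; `uniq`: two elements of `b` which reach each other are equal.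
[DC L2b] `PG.lg`: let `hb`.. `P` be as in the output.  `Rch (PG) v w → Rch G v w`.  `cyc`: `Rch (PG) v w`, `Rch (PG) w v`, `v ≠ w`: the last edge `l` of
the path to `w` has `r l = w`, its last `G`-edge `e ∉ P`, `r e = w`, `Rch G w (s e)` (through `v` and the source of `l`); so `w ∈ b`; also `v ∈ b`; so
`v = w`.  `one`: loops `l`, `l'` of `PG` at `c`: all their `G`-edges have paths back, so by `DisjointCycles` they agree step by step (a list in `PV` ends at
its first edge outside `P`): induction on `l`, for suffixes starting at the same vertex.  Loop vertices are in `b`.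
-/

namespace DC29

open LPA74

variable {G : Gph}

/-- output of the choice of the bases. -/
structure Bas (G : Gph) (V0 b : Set G.V) (P : Set G.Ed) : Prop where
  ad : PAd G P
  bV : b ⊆ V0
  cy : ∀ e ∈ P, Rch G (G.r e) (G.s e)
  ret : ∀ e, Rch G (G.r e) (G.s e) → e ∉ P → G.r e ∈ b
  uniq : ∀ v ∈ b, ∀ w ∈ b, Rch G v w → Rch G w v → v = w

/-- there is a path of length `n` -/
private def L2_Pl (G : Gph) : ℕ → G.V → G.V → Prop
  | 0, a, b => a = b
  | n + 1, a, b => ∃ e, G.s e = a ∧ L2_Pl G n (G.r e) b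

private theorem L2_of_pl {n : ℕ} : ∀ {a b : G.V}, L2_Pl G n a b → Rch G a b := by
  induction n with
  | zero =>
    intro a b h
    have h' : a = b := h
    rw [h']
  | succ n ih =>
    rintro a b ⟨e, he, h⟩
    exact Relation.ReflTransGen.head ⟨e, he, rfl⟩ (ih h)

private theorem L2_pl_of {a b : G.V} (h : Rch G a b) : ∃ n, L2_Pl G n a b := by
  induction h using Relation.ReflTransGen.head_induction_on with
  | refl => exact ⟨0, rfl⟩
  | head hab _ ih =>
    obtain ⟨e, he, rfl⟩ := hab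
    obtain ⟨n, hn⟩ := ih
    exact ⟨n + 1, e, he, hn⟩

private def L2_st (G : Gph) : Setoid G.V where
  r v w := Rch G v w ∧ Rch G w v
  iseqv := ⟨fun _ => ⟨Relation.ReflTransGen.refl, Relation.ReflTransGen.refl⟩,
    fun h => ⟨h.2, h.1⟩, fun h h' => ⟨h.1.trans h'.1, h'.2.trans h.2⟩⟩

theorem exists_bas (hrf : ∀ v, {e | G.s e = v}.Finite) (hdc : DisjointCycles G) (V0 : Set G.V)
    (hV : ∀ e, Rch G (G.r e) (G.s e) → ∃ v ∈ V0, Rch G (G.s e) v ∧ Rch G v (G.s e)) :
    ∃ (b : Set G.V) (P : Set G.Ed), Bas G V0 b P := by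
  classical
  -- the chosen element of a class
  have h1 : ∀ x : Quotient (L2_st G), ∃ c : G.V,
      (∃ c' ∈ V0, Quotient.mk (L2_st G) c' = x) → c ∈ V0 ∧ Quotient.mk (L2_st G) c = x := by
    intro x
    by_cases hx : ∃ c' ∈ V0, Quotient.mk (L2_st G) c' = x
    · obtain ⟨c', h1, h2⟩ := hx
      exact ⟨c', fun _ => ⟨h1, h2⟩⟩
    · obtain ⟨v, -⟩ := Quotient.exists_rep x
      exact ⟨v, fun h => absurd h hx⟩
  choose q hq using h1
  let β : G.V → G.V := fun v => q (Quotient.mk (L2_st G) v)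
  have hβ : ∀ e, Rch G (G.r e) (G.s e) →
      β (G.s e) ∈ V0 ∧ Rch G (β (G.s e)) (G.s e) ∧ Rch G (G.s e) (β (G.s e)) := by
    intro e he
    obtain ⟨v, hv, hv1, hv2⟩ := hV e he
    have h2 := hq (Quotient.mk (L2_st G) (G.s e)) ⟨v, hv, Quotient.sound ⟨hv2, hv1⟩⟩
    have h3 : Rch G (β (G.s e)) (G.s e) ∧ Rch G (G.s e) (β (G.s e)) := Quotient.exact h2.2
    exact ⟨h2.1, h3.1, h3.2⟩
  have hβc : ∀ v w, Rch G v w → Rch G w v → β v = β w := by
    intro v w h2 h3
    have h4 : Quotient.mk (L2_st G) v = Quotient.mk (L2_st G) w := Quotient.sound ⟨h2, h3⟩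
    change q _ = q _
    rw [h4]
  let b : Set G.V := {c | ∃ e, Rch G (G.r e) (G.s e) ∧ c = β (G.s e)}
  let P : Set G.Ed := {e | Rch G (G.r e) (G.s e) ∧ G.r e ∉ b}
  let ht : G.V → ℕ := fun v => if h : ∃ n, 1 ≤ n ∧ L2_Pl G n v (β v) then Nat.find h else 0
  refine ⟨b, P, ⟨⟨hrf, ⟨ht, ?_⟩, ?_⟩, ?_, ?_, ?_, ?_⟩⟩
  · rintro e ⟨he, heb⟩
    obtain ⟨-, hc1, hc2⟩ := hβ e he
    have hstep : Rch G (G.s e) (G.r e) := Relation.ReflTransGen.single ⟨e, rfl, rfl⟩
    have hbr : β (G.r e) = β (G.s e) := hβc _ _ he hstep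
    obtain ⟨m, hm⟩ := L2_pl_of (he.trans hc2)
    have hex : ∃ n, 1 ≤ n ∧ L2_Pl G n (G.s e) (β (G.s e)) := ⟨m + 1, by omega, e, rfl, hm⟩
    have hts : ht (G.s e) = Nat.find hex := dif_pos hex
    obtain ⟨hn1, hn2⟩ := Nat.find_spec hex
    rw [hts]
    generalize Nat.find hex = n at hn1 hn2
    obtain ⟨n, rfl⟩ : ∃ n', n = n' + 1 := ⟨n - 1, by omega⟩
    obtain ⟨e₁, he₁, hp⟩ := hn2
    have hback : Rch G (G.r e₁) (G.s e₁) := by
      rw [he₁]
      exact (L2_of_pl hp).trans hc1
    have hee : e₁ = e := hdc e₁ e he₁ hback he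
    subst hee
    have hn0 : 1 ≤ n := by
      by_contra h0
      have h2 : n = 0 := by omega
      subst h2
      have h3 : G.r e₁ = β (G.s e₁) := hp
      exact heb ⟨e₁, he, h3⟩
    have hex' : ∃ n, 1 ≤ n ∧ L2_Pl G n (G.r e₁) (β (G.r e₁)) := ⟨n, hn0, by rw [hbr]; exact hp⟩
    have htr : ht (G.r e₁) = Nat.find hex' := dif_pos hex'
    rw [htr]
    have h4 := Nat.find_min' hex' (m := n) ⟨hn0, by rw [hbr]; exact hp⟩
    omega
  · rintro e ⟨he, -⟩
    rcases Relation.ReflTransGen.cases_head he with h2 | ⟨c, ⟨f, hf, -⟩, -⟩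
    · exact ⟨e, h2.symm⟩
    · exact ⟨f, hf⟩
  · rintro c ⟨e, he, rfl⟩
    exact (hβ e he).1
  · rintro e ⟨he, -⟩
    exact he
  · intro e he heP
    by_contra h2
    exact heP ⟨he, h2⟩
  · rintro _ ⟨e, he, rfl⟩ _ ⟨e', he', rfl⟩ h2 h3
    obtain ⟨-, h4, h5⟩ := hβ e he
    obtain ⟨-, h6, h7⟩ := hβ e' he'
    exact hβc _ _ ((h5.trans h2).trans h6) ((h7.trans h3).trans h4)

private theorem L2_path {P : Set G.Ed} : ∀ {l : List G.Ed} (h : PV G P l),
    Rch G (G.s (l.head h.ne)) (G.s (l.getLast h.ne)) ∧ l.getLast h.ne ∉ P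
  | [], h => h.elim
  | [e], h => ⟨Relation.ReflTransGen.refl, h⟩
  | e :: f :: l, h => by
    obtain ⟨h1, h2, h3⟩ := h
    obtain ⟨h4, h5⟩ := L2_path h3
    refine ⟨Relation.ReflTransGen.head (b := G.s f) ⟨e, rfl, h2⟩ ?_, ?_⟩
    · exact h4
    · exact h5

private theorem L2_path' {P : Set G.Ed} {l : List G.Ed} (h : PV G P l) :
    Rch G (G.s (l.head h.ne)) (G.r (l.getLast h.ne)) :=
  (L2_path h).1.tail ⟨_, rfl, rfl⟩

private theorem L2_rch {P : Set G.Ed} {v w : G.V} (h : Rch (PG G P) v w) : Rch G v w := by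
  induction h with
  | refl => exact Relation.ReflTransGen.refl
  | tail _ hbc ih =>
    obtain ⟨l, h1, h2⟩ := hbc
    refine ih.trans ?_
    have h3 := L2_path' l.2
    rw [← h1, ← h2]
    exact h3

private theorem L2_mem {V0 b : Set G.V} {P : Set G.Ed} (h : Bas G V0 b P) {v w : G.V}
    (h1 : Rch (PG G P) v w) (h2 : Rch (PG G P) w v) (hne : v ≠ w) : w ∈ b := by
  rcases Relation.ReflTransGen.cases_tail h1 with h3 | ⟨u, hu, ⟨l, hl1, hl2⟩⟩
  · exact absurd h3.symm hne
  · obtain ⟨h4, h5⟩ := L2_path l.2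
    have h6 : G.r (l.1.getLast l.2.ne) = w := hl2
    have h7 : G.s (l.1.head l.2.ne) = u := hl1
    rw [← h6]
    apply h.ret _ _ h5
    rw [h6]
    have h8 : Rch G u (G.s (l.1.getLast l.2.ne)) := by
      rw [← h7]
      exact h4
    exact ((L2_rch h2).trans (L2_rch hu)).trans h8

private theorem L2_uniq (hdc : DisjointCycles G) {P : Set G.Ed} {c : G.V} :
    ∀ {l l' : List G.Ed} (h : PV G P l) (h' : PV G P l'),
      G.s (l.head h.ne) = G.s (l'.head h'.ne) → G.r (l.getLast h.ne) = c →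
      G.r (l'.getLast h'.ne) = c → Rch G c (G.s (l.head h.ne)) → l = l'
  | [], _, h, _ => h.elim
  | _ :: _, [], _, h' => h'.elim
  | [e], [e'], h, h' => by
    intro h1 h2 h3 h4
    have h1' : G.s e = G.s e' := h1
    have h2' : G.r e = c := h2
    have h3' : G.r e' = c := h3
    have h4' : Rch G c (G.s e) := h4
    have h5 := hdc e e' h1' (by rw [h2']; exact h4') (by rw [h3', ← h1']; exact h4')
    rw [h5]
  | [e], e' :: f' :: t', h, h' => by
    intro h1 h2 h3 h4
    exfalso
    obtain ⟨g1, g2, g3⟩ := h'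
    have h1' : G.s e = G.s e' := h1
    have h2' : G.r e = c := h2
    have h4' : Rch G c (G.s e) := h4
    have h3' : Rch G (G.r e') c := by
      rw [g2]
      have := L2_path' g3
      have e1 : G.r ((f' :: t').getLast g3.ne) = c := h3
      rw [e1] at this
      exact this
    have h5 := hdc e e' h1' (by rw [h2']; exact h4') (h3'.trans (by rw [← h1']; exact h4'))
    exact h (h5 ▸ g1)
  | e :: f :: t, [e'], h, h' => by
    intro h1 h2 h3 h4
    exfalso
    obtain ⟨g1, g2, g3⟩ := h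
    have h1' : G.s e = G.s e' := h1
    have h3' : G.r e' = c := h3
    have h4' : Rch G c (G.s e) := h4
    have h2' : Rch G (G.r e) c := by
      rw [g2]
      have := L2_path' g3
      have e1 : G.r ((f :: t).getLast g3.ne) = c := h2
      rw [e1] at this
      exact this
    have h5 := hdc e e' h1' (h2'.trans h4') (by rw [h3', ← h1']; exact h4')
    exact h' (h5 ▸ g1)
  | e :: f :: t, e' :: f' :: t', h, h' => by
    intro h1 h2 h3 h4
    obtain ⟨g1, g2, g3⟩ := h
    obtain ⟨k1, k2, k3⟩ := h'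
    have h1' : G.s e = G.s e' := h1
    have h4' : Rch G c (G.s e) := h4
    have h2' : Rch G (G.r e) c := by
      rw [g2]
      have := L2_path' g3
      have e1 : G.r ((f :: t).getLast g3.ne) = c := h2
      rw [e1] at this
      exact this
    have h3' : Rch G (G.r e') c := by
      rw [k2]
      have := L2_path' k3
      have e1 : G.r ((f' :: t').getLast k3.ne) = c := h3
      rw [e1] at this
      exact this
    have h5 := hdc e e' h1' (h2'.trans h4') (h3'.trans (by rw [← h1']; exact h4'))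
    subst h5
    have h6 : G.s f = G.s f' := g2.symm.trans k2
    have h7 : Rch G c (G.s f) := by
      rw [← g2]
      exact h4'.tail ⟨e, rfl, rfl⟩
    have h8 := L2_uniq hdc g3 k3 h6 h2 h3 h7
    rw [h8]

theorem PG.lg' (hdc : DisjointCycles G) {V0 b : Set G.V} {P : Set G.Ed} (h : Bas G V0 b P)
    (hrf : ∀ v : G.V, {l : (PG G P).Ed | (PG G P).s l = v}.Finite) :
    LG (PG G P) ∧ ∀ c : G.V, IsLp (PG G P) c → c ∈ b := by
  refine ⟨⟨hrf, ?_, ?_⟩, ?_⟩
  · intro v w h1 h2
    by_contra hne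
    exact hne (h.uniq v (L2_mem h h2 h1 (Ne.symm hne)) w (L2_mem h h1 h2 hne) (L2_rch h1)
      (L2_rch h2))
  · intro f g h1 h2 h3
    apply Subtype.ext
    have h1' : G.s (f.1.head f.2.ne) = G.r (f.1.getLast f.2.ne) := h1
    have h2' : G.s (g.1.head g.2.ne) = G.s (f.1.head f.2.ne) := h2
    have h3' : G.r (g.1.getLast g.2.ne) = G.s (f.1.head f.2.ne) := h3
    exact L2_uniq hdc f.2 g.2 h2'.symm h1'.symm h3' Relation.ReflTransGen.refl
  · rintro c ⟨l, h1, h2⟩
    obtain ⟨h4, h5⟩ := L2_path l.2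
    have h6 : G.r (l.1.getLast l.2.ne) = c := h2
    have h7 : G.s (l.1.head l.2.ne) = c := h1
    rw [← h6]
    apply h.ret _ _ h5
    rw [h6, ← h7]
    exact h4

end DC29
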