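import Pool.Agent.LibDC29.P12
import Pool.Agent.LibDC29.P13
import Pool.Agent.LibLPA74.FIN

/-!
[DC P14] Assembly of the star side.  `G = {Φ | Gd M Φ}`, `G' = {Ψ | Gd M.symm Ψ}`; nonempty by
`exists_Pos`, `exists_good`; `h1`: `step`; `h2`: `step` for `M.symm` (`M.symm.symm = M` by `rfl`, possibly after
`AddEquiv.symm_symm`; if `rfl` is inconvenient prove `Gd M.symm.symm Φ → Gd M Φ` by `⟨h.cl, h.sh⟩`);
generators: `fin_gen` of `LibLPA74/FIN.lean`; `intertwine'`; `SCl (Θ (vx v)) ..` from `Θ (vx v) = Φ (vx v)`.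
-/

namespace DC29

open LPA74

theorem star_iso {G G' : Gph} (hG : NG G) (hG' : NG G') (t : Mon G ≃+ Mon G')
    (M : MD hG.toLG hG'.toLG t) :
    ∃ Φ : LA G ≃⋆ₐ[ℂ] LA G', ∀ v, SCl (Φ (vx v)) (t (mv v)) := by
  have := hG.cV
  have := hG.cE
  have := hG'.cV
  have := hG'.cE
  obtain ⟨gA, hA⟩ := fin_gen G
  obtain ⟨gB, hB⟩ := fin_gen G'
  obtain ⟨Θ, hΘ⟩ := intertwine' gA hA gB hB {Φ | Gd M Φ} {Ψ | Gd M.symm Ψ}
    (by
      obtain ⟨P⟩ := exists_Pos hG hG' M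
      obtain ⟨Φ, h1, h2⟩ := exists_good (hG := hG) (hG' := hG') P
      exact ⟨Φ, h1⟩)
    (fun Φ hΦ S => by
      obtain ⟨Ψ, h1, h2⟩ := step (hG := hG) (hG' := hG') hΦ S
      exact ⟨Ψ, h1, h2⟩)
    (fun Ψ hΨ S => by
      obtain ⟨Φ, h1, h2⟩ := step (hG := hG') (hG' := hG) hΨ S
      exact ⟨Φ, h1, h2⟩)
  refine ⟨Θ, fun v => ?_⟩
  obtain ⟨Φ, h1, h2⟩ := hΘ (vx v)
  rw [h2]
  exact Gd.cl h1 v

end DC29
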