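import Pool.Agent.LibDC29.S2
import Pool.Agent.LibDC29.D2
import Pool.Agent.LibDC29.D4
import Pool.Agent.LibDC29.P14
import Pool.Agent.LibDC29.F3

/-! Main theorem. -/

namespace DC29

open LPA74

theorem main {E F : Gph} [Countable E.V] [Countable E.Ed] [Countable F.V] [Countable F.Ed]
    (hE : DisjointCycles E) (θ : LA E ≃+* LA F) : Nonempty (LA E ≃⋆ₐ[ℂ] LA F) := by
  obtain ⟨s⟩ := exists_setup E hE
  obtain ⟨s'⟩ := exists_setup F (dc_transfer s θ)
  obtain ⟨t, ht⟩ := exists_t s s' θ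
  obtain ⟨M⟩ := exists_MD s s' θ t ht
  obtain ⟨Φ, hΦ⟩ := star_iso s.ng s'.ng t M
  exact corner_iso s s' θ t ht Φ hΦ

end DC29
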