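import Mathlib

/-!
[DC P0] ONLY MATHLIB.  Disjoint choice for a countable family.
Injective code `c : ι → ℕ` (`exists_injective_nat`, or `Countable.exists_injective_nat`).  Define `U : ℕ → Finset α` (the union of the
sets chosen for the codes `< n`) by recursion: `U 0 = ∅`; at step `n`, if `n = c i` for some `i`
choose `T` with `Disjoint (U n) T`, `P i T`, and `U (n+1) = U n ∪ T`, otherwise `U (n+1) = U n`.
`T i := U (c i + 1) \ U (c i)`, which is the chosen set (by disjointness).  `U` is monotone, so for
`c i < c j`: `T i ⊆ U (c i + 1) ⊆ U (c j)`, disjoint from `T j`.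
-/

namespace DC29

theorem disjoint_choice {ι α : Type} [Countable ι] [DecidableEq α] (P : ι → Finset α → Prop)
    (h : ∀ (i : ι) (S : Finset α), ∃ T, Disjoint S T ∧ P i T) :
    ∃ T : ι → Finset α, (∀ i, P i (T i)) ∧ ∀ i j, i ≠ j → Disjoint (T i) (T j) := by
  classical
  choose f hf1 hf2 using h
  obtain ⟨c, hc⟩ := Countable.exists_injective_nat ι
  let U : ℕ → Finset α := fun n => Nat.rec ∅
    (fun n S => S ∪ if h : ∃ i, c i = n then f h.choose S else ∅) n
  have hU : ∀ n, U (n + 1) = U n ∪ if h : ∃ i, c i = n then f h.choose (U n) else ∅ :=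
    fun n => rfl
  have hmono : Monotone U := by
    apply monotone_nat_of_le_succ
    intro n
    rw [hU]
    exact Finset.subset_union_left
  have hT : ∀ i, f i (U (c i)) ⊆ U (c i + 1) := by
    intro i
    have h : ∃ j, c j = c i := ⟨i, rfl⟩
    have h1 : h.choose = i := hc h.choose_spec
    rw [hU, dif_pos h, h1]
    exact Finset.subset_union_right
  have key : ∀ i j, c i < c j → Disjoint (f i (U (c i))) (f j (U (c j))) := by
    intro i j hij
    exact Disjoint.mono_left ((hT i).trans (hmono hij)) (hf1 j (U (c j)))
  refine ⟨fun i => f i (U (c i)), fun i => hf2 i _, fun i j hij => ?_⟩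
  rcases lt_or_gt_of_ne (fun h => hij (hc h) : c i ≠ c j) with h | h
  · exact key i j h
  · exact (key j i h).symm

end DC29
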