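import Pool.Agent.LibDC29.A5
import Pool.Agent.LibDC29.B1
import Pool.Agent.LibDC29.P0

/-!
[DC P1] Positions.  For `v` without loop put `N v = t (mv v)`; for a loop vertex `c` let `N c = b`
from `M.h1 c` (choice).  `disjoint_choice` for `P v T := (∀ w ∈ T, ¬ IsLp G' w) ∧ ∑ w ∈ T, mv w = N v`
(`exists_room hG'`), `ι = G.V` (countable: `hG.cV`).  `q v = T v` without loop, `q c = insert (M.f c) (T c)`.
`M.f c` has a loop, so it is in no `T v`, and `M.f` is injective on loop vertices (`M.gf`).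
* `nr`: `w ∈ q v`: `Le (mv w) (t (mv v))` (sum over the finset).  If `Rch G' w (M.f c)` then
  `Le (mv (M.f c)) (mv w)` (`M5`), so `Le (mv (M.f c)) (t (mv v))`, apply `t.symm`:
  `Le (t.symm (mv (M.f c))) (mv v)`, and `t.symm (mv (M.f c)) = mv c + a` (`M.h2 (M.f c)`, `M.gf`), so
  `Le (mv c) (mv v)`, `Rch G v c` (`M5`), contradiction.
* `nr'`: `w ∈ B`: `Le (mv w) (n • wm (M.f c))`; `Rch G' w (M.f c)` would give
  `Le (mv (M.f c)) (n • wm ..)`, contradiction to `M2'`.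
* `scl`: `SCl.eS` and `P.cl`.
-/

namespace DC29

open LPA74

variable {G G' : Gph}

/-- positions in `G'` of the vertices of `G`. -/
structure Pos {hG : LG G} {hG' : LG G'} {t : Mon G ≃+ Mon G'} (M : MD hG hG' t) where
  q : G.V → Finset G'.V
  disj : ∀ v w, v ≠ w → Disjoint (q v) (q w)
  cl : ∀ v, ∑ w ∈ q v, mv w = t (mv v)
  nl : ∀ v, ¬ IsLp G v → ∀ w ∈ q v, ¬ IsLp G' w
  lp : ∀ c, IsLp G c → ∃ B : Finset G'.V, M.f c ∉ B ∧ (∀ w, w ∈ q c ↔ w = M.f c ∨ w ∈ B) ∧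
    (∀ w ∈ B, ¬ IsLp G' w) ∧ ∃ n : ℕ, Le (∑ w ∈ B, mv w) (n • wm hG' (M.f c))

theorem exists_Pos (hG : NG G) (hG' : NG G') {t : Mon G ≃+ Mon G'}
    (M : MD hG.toLG hG'.toLG t) : Nonempty (Pos M) := by
  classical
  have := hG.cV
  have hN : ∀ v : G.V, ∃ N : Mon G', (¬ IsLp G v → N = t (mv v)) ∧
      (IsLp G v → t (mv v) = mv (M.f v) + N ∧ ∃ n : ℕ, Le N (n • wm hG'.toLG (M.f v))) := by
    intro v
    by_cases hv : IsLp G v
    · obtain ⟨b, n, h1, h2⟩ := M.h1 v hv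
      exact ⟨b, fun h => absurd hv h, fun _ => ⟨h1, n, h2⟩⟩
    · exact ⟨t (mv v), fun _ => rfl, fun h => absurd h hv⟩
  choose N hN1 hN2 using hN
  obtain ⟨T, hT, hTd⟩ := disjoint_choice
    (fun (v : G.V) (T : Finset G'.V) => (∀ w ∈ T, ¬ IsLp G' w) ∧ ∑ w ∈ T, mv w = N v)
    (fun v S => by
      obtain ⟨T, h1, h2, h3⟩ := exists_room hG' (N v) S
      exact ⟨T, h1, h2, h3⟩)
  have hfT : ∀ c, IsLp G c → ∀ v, M.f c ∉ T v := fun c hc v h => (hT v).1 _ h (M.f_lp c hc)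
  have hmem : ∀ v u, u ∈ (if IsLp G v then insert (M.f v) (T v) else T v) ↔
      (IsLp G v ∧ u = M.f v) ∨ u ∈ T v := by
    intro v u
    by_cases hv : IsLp G v
    · rw [if_pos hv, Finset.mem_insert]
      exact ⟨fun h => h.imp_left fun h => ⟨hv, h⟩, fun h => h.imp_left fun h => h.2⟩
    · rw [if_neg hv]
      exact ⟨Or.inr, fun h => h.resolve_left fun h => hv h.1⟩
  refine ⟨⟨fun v => if IsLp G v then insert (M.f v) (T v) else T v, ?_, ?_, ?_, ?_⟩⟩
  · intro v w hvw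
    rw [Finset.disjoint_left]
    intro u hu hu'
    rcases (hmem v u).1 hu with ⟨hv, rfl⟩ | hu
    · rcases (hmem w _).1 hu' with ⟨hw, h⟩ | hu'
      · apply hvw
        rw [← M.gf v hv, h, M.gf w hw]
      · exact hfT v hv w hu'
    · rcases (hmem w _).1 hu' with ⟨hw, rfl⟩ | hu'
      · exact hfT w hw v hu
      · exact Finset.disjoint_left.1 (hTd v w hvw) hu hu'
  · intro v
    by_cases hv : IsLp G v
    · simp only [if_pos hv]
      rw [Finset.sum_insert (hfT v hv v), (hT v).2, (hN2 v hv).1]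
    · simp only [if_neg hv]
      rw [(hT v).2, hN1 v hv]
  · intro v hv w hw
    simp only [if_neg hv] at hw
    exact (hT v).1 w hw
  · intro c hc
    refine ⟨T c, hfT c hc c, fun w => ?_, (hT c).1, ?_⟩
    · simp only [if_pos hc]
      exact Finset.mem_insert
    · rw [(hT c).2]
      exact (hN2 c hc).2

private theorem P1_le_sum {G : Gph} {B : Finset G.V} {w : G.V} (hw : w ∈ B) :
    Le (mv w : Mon G) (∑ w ∈ B, mv w) := by
  classical
  exact ⟨∑ w ∈ B.erase w, mv w, Finset.add_sum_erase B (fun w => (mv w : Mon G)) hw⟩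

variable {hG : LG G} {hG' : LG G'} {t : Mon G ≃+ Mon G'} {M : MD hG hG' t} (P : Pos M)
include P

theorem Pos.nr {c v : G.V} (hc : IsLp G c) (hv : v ∈ NR G c) {w : G'.V} (hw : w ∈ P.q v) :
    w ∈ NR G' (M.f c) := by
  intro h
  have h1 : Le (mv (M.f c) : Mon G') (mv w) := (M5 hG' (M.f_lp c hc)).2 h
  have h2 : Le (mv (M.f c)) (t (mv v)) := by
    rw [← P.cl v]
    exact h1.trans' (P1_le_sum hw)
  obtain ⟨z, hz⟩ := h2
  obtain ⟨a, n, ha, -⟩ := M.h2 (M.f c) (M.f_lp c hc)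
  have h3 : Le (mv c : Mon G) (mv v) := by
    refine ⟨a + t.symm z, ?_⟩
    rw [← add_assoc]
    have h4 : (mv c : Mon G) + a = t.symm (mv (M.f c)) := by rw [ha, M.gf c hc]
    rw [h4, ← map_add, hz, AddEquiv.symm_apply_apply]
  exact hv ((M5 hG hc).1 h3)

omit P in
theorem nr_of_le {c : G'.V} (hc : IsLp G' c) {B : Finset G'.V} {n : ℕ}
    (h : Le (∑ w ∈ B, mv w) (n • wm hG' c)) {w : G'.V} (hw : w ∈ B) : w ∈ NR G' c := by
  intro h'
  exact M2' hG' hc n ((((M5 hG' hc).2 h').trans' (P1_le_sum hw)).trans' h)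

theorem Pos.scl (v : G.V) : SCl (eS (P.q v)) (t (mv v)) := by
  rw [← P.cl v]
  exact SCl.eS _

theorem Pos.orth {v w : G.V} (h : v ≠ w) : (eS (P.q v) : LA G') * eS (P.q w) = 0 :=
  eS_mul_of_disjoint (P.disj v w h)

/-- at a loop vertex. -/
theorem Pos.eS_lp {c : G.V} (hc : IsLp G c) : ∃ B : Finset G'.V, M.f c ∉ B ∧
    eS (P.q c) = (vx (M.f c) : LA G') + eS B ∧ (∀ w ∈ B, w ∈ NR G' (M.f c)) ∧
    ∃ n : ℕ, Le (∑ w ∈ B, mv w) (n • wm hG' (M.f c)) := by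
  classical
  obtain ⟨B, hB, hmem, -, n, hn⟩ := P.lp c hc
  refine ⟨B, hB, ?_, fun w hw => nr_of_le (M.f_lp c hc) hn hw, n, hn⟩
  have h1 : P.q c = insert (M.f c) B := by
    ext w
    rw [hmem w, Finset.mem_insert]
  rw [h1]
  unfold eS
  rw [Finset.sum_insert hB]

end DC29
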