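import Pool.Agent.LibDC29.A4

/-!
[DC P9] The intertwiner at an ordinary vertex.
`ord`: `ηv = ∑_{f ∈ S} ed f * η (r f) * star (Θ (ed f))`.  Note `η w = η w * star (η w) * η w =
η w * Θ (vx w)` for `w = r f`.  `star ηv * ηv = ∑ Θ(ed f) η(r f)* (ed f)* (ed f') η(r f') Θ(ed f')*
= ∑ Θ (ed f) * Θ (vx (r f)) * Θ (ed f)* = Θ (vx v)` (`vx_eq_sum`); `ηv * star ηv = ∑ ed f * η * Θ (ed f)*
* Θ (ed f') * η* * (ed f')* = ∑ ed f * η Θ(vx (r f)) η* * (ed f)* = ∑ ed f * (ed f)* = vx v`;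
`ηv * Θ (ed f) = ed f * η (r f) * Θ (vx (r f)) = ed f * η (r f)`.
`free`: `SCl.seqv h (SCl.vx v)`.
-/

namespace DC29

open LPA74

variable {G : Gph}

open Classical in
theorem P9_sum (S : Finset G.Ed) (A B C : G.Ed → LA G)
    (h : ∀ f ∈ S, ∀ g ∈ S, A f * B g = if f = g then C f else 0) :
    (∑ f ∈ S, A f) * (∑ g ∈ S, B g) = ∑ f ∈ S, C f := by
  rw [Finset.sum_mul]
  refine Finset.sum_congr rfl fun f hf => ?_
  rw [Finset.mul_sum, Finset.sum_eq_single f]
  · rw [h f hf f hf, if_pos rfl]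
  · intro g hg hgf
    rw [h f hf g hg, if_neg fun h' => hgf h'.symm]
  · intro h'
    exact absurd hf h'

theorem eta_ord (Θ : LA G →⋆ₙₐ[ℂ] LA G) (v : G.V) (S : Finset G.Ed) (h0 : S.Nonempty)
    (hS : ∀ f, f ∈ S ↔ G.s f = v) (η : G.V → LA G)
    (hη : ∀ f ∈ S, star (η (G.r f)) * η (G.r f) = Θ (vx (G.r f)) ∧
      η (G.r f) * star (η (G.r f)) = vx (G.r f) ∧ vx (G.r f) * η (G.r f) = η (G.r f)) :
    ∃ ηv, star ηv * ηv = Θ (vx v) ∧ ηv * star ηv = vx v ∧ vx v * ηv = ηv ∧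
      ∀ f, G.s f = v → ed f * η (G.r f) = ηv * Θ (ed f) := by
  classical
  have hv := vx_eq_sum v S h0 hS
  -- relations for the images
  have ht : ∀ f g : G.Ed, star (Θ (ed f)) * Θ (ed g) =
      if f = g then Θ (vx (G.r f)) else 0 := by
    intro f g
    rw [← map_star, ← map_mul]
    split_ifs with h
    · rw [← h, star_ed_mul_ed]
    · rw [star_ed_mul_ed_ne h, map_zero]
  have he : ∀ f g : G.Ed, star (ed f : LA G) * ed g = if f = g then vx (G.r f) else 0 := by
    intro f g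
    split_ifs with h
    · rw [← h, star_ed_mul_ed]
    · rw [star_ed_mul_ed_ne h]
  have htv : ∀ f : G.Ed, Θ (ed f) * Θ (vx (G.r f)) = Θ (ed f) := by
    intro f
    rw [← map_mul, ed_mul_vx]
  have hηΘ : ∀ f ∈ S, η (G.r f) * Θ (vx (G.r f)) = η (G.r f) := by
    intro f hf
    obtain ⟨h1, h2, h3⟩ := hη f hf
    rw [← h1, ← mul_assoc, h2, h3]
  have hstar : star (∑ f ∈ S, ed f * η (G.r f) * star (Θ (ed f))) =
      ∑ f ∈ S, Θ (ed f) * star (η (G.r f)) * star (ed f) := by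
    rw [star_sum]
    refine Finset.sum_congr rfl fun f _ => ?_
    rw [star_mul, star_mul, star_star, mul_assoc]
  refine ⟨∑ f ∈ S, ed f * η (G.r f) * star (Θ (ed f)), ?_, ?_, ?_, ?_⟩
  · rw [hstar, P9_sum S _ _ (fun f => Θ (ed f * star (ed f)))]
    · rw [hv, map_sum]
    · intro f hf g hg
      obtain ⟨h1, h2, h3⟩ := hη f hf
      have e1 : Θ (ed f) * star (η (G.r f)) * star (ed f) * (ed g * η (G.r g) * star (Θ (ed g))) =
          Θ (ed f) * star (η (G.r f)) * (star (ed f) * ed g) * (η (G.r g) * star (Θ (ed g))) := by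
        simp only [mul_assoc]
      rw [e1, he]
      by_cases h : f = g
      · rw [if_pos h, if_pos h, ← h]
        have e2 : Θ (ed f) * star (η (G.r f)) * vx (G.r f) * (η (G.r f) * star (Θ (ed f))) =
            Θ (ed f) * (star (η (G.r f)) * (vx (G.r f) * η (G.r f))) * star (Θ (ed f)) := by
          simp only [mul_assoc]
        rw [e2, h3, h1, htv, map_mul, map_star]
      · rw [if_neg h, if_neg h, mul_zero, zero_mul]
  · rw [hstar, P9_sum S _ _ (fun f => ed f * star (ed f))]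
    · rw [hv]
    · intro f hf g hg
      obtain ⟨h1, h2, h3⟩ := hη f hf
      have e1 : ed f * η (G.r f) * star (Θ (ed f)) * (Θ (ed g) * star (η (G.r g)) * star (ed g)) =
          ed f * η (G.r f) * (star (Θ (ed f)) * Θ (ed g)) * (star (η (G.r g)) * star (ed g)) := by
        simp only [mul_assoc]
      rw [e1, ht]
      by_cases h : f = g
      · rw [if_pos h, if_pos h, ← h]
        have e2 : ed f * η (G.r f) * Θ (vx (G.r f)) * (star (η (G.r f)) * star (ed f)) =
            ed f * ((η (G.r f) * Θ (vx (G.r f))) * star (η (G.r f))) * star (ed f) := by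
          simp only [mul_assoc]
        rw [e2, hηΘ f hf, h2, ed_mul_vx]
      · rw [if_neg h, if_neg h, mul_zero, zero_mul]
  · rw [Finset.mul_sum]
    refine Finset.sum_congr rfl fun f hf => ?_
    have hs : G.s f = v := (hS f).1 hf
    rw [← mul_assoc, ← mul_assoc, ← hs, vx_mul_ed]
  · intro f hs
    have hf : f ∈ S := (hS f).2 hs
    rw [Finset.sum_mul, Finset.sum_eq_single f]
    · rw [mul_assoc, ht, if_pos rfl, mul_assoc, hηΘ f hf]
    · intro g _ hgf
      rw [mul_assoc, ht, if_neg hgf, mul_zero]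
    · intro h'
      exact absurd hf h'

theorem eta_free {Θ : LA G →⋆ₙₐ[ℂ] LA G} {v : G.V} (h : SCl (Θ (vx v)) (mv v)) :
    ∃ ηv, star ηv * ηv = Θ (vx v) ∧ ηv * star ηv = vx v ∧ vx v * ηv = ηv := by
  obtain ⟨w, -, h1, h2, h3⟩ := SCl.seqv h (SCl.vx v)
  refine ⟨star w, ?_, ?_, ?_⟩
  · rw [star_star]
    exact h1
  · rw [star_star]
    exact h2
  · rw [← h2, mul_assoc]
    have h4 := congrArg star h3
    rw [star_mul, star_mul, star_star] at h4
    exact h4

end DC29
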