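import Pool.Agent.LibDC29.P5
import Pool.Agent.LibDC29.P7
import Pool.Agent.LibDC29.P9
import Pool.Agent.LibDC29.E9

/-!
[DC P10] The induction over the vertices of a stage.
`X' ⊆ X` is LOWER: `v ∈ X'`, `w ∈ X`, `Rch G v w` imply `w ∈ X'`.  Claim for all lower `X'`, by induction
on `card X'`: there are `Ψ`, `η` as in the statement with `X'` in place of `X`.
`X' = ∅`: `exists_good P'`.  Otherwise let `v ∈ X'` be such that no `w ∈ X'`, `w ≠ v`, reaches `v`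
(a maximal element of the finite set `X'` for the partial order `Rch`, `hG.cyc`: `Finset.exists_maximal`
or induction); `X'' = X'.erase v` is lower; take `Ψ`, `η` for `X''`.
(a) `v ∉ R`, or no edge starts at `v`: `eta_free` (`Gd.comp_cl`), `Ψ` unchanged, `η` updated at `v`.
(b) `v ∈ R` without loop: the edges at `v` are finite in number (`hG.rf`) and have `r g ∈ X''` (`hR`, lower,
`r g ≠ v`); `eta_ord`; `Ψ` unchanged.
(c) `v ∈ R`, `v = s f = r f`: `loop_step` with `B` from `P.eS_lp`, `K g = P.q (r g)` (`P.nr`: for an exit `g`,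
`r g ∈ NR G v` by `hG.cyc`), `f'` the loop at `M.f v`.  New `Ψ'`, `η v := ηc`.  For `u ∈ X''`: `Ψ' (Φ (vx u)) =
Ψ (Φ (vx u))` and `Ψ' (Φ (ed g)) = Ψ (Φ (ed g))` for `s g = u ∈ R`, by `agree` with `H = NR G' (M.f v)`:
`u ∈ NR G v` (`u ∈ X''`, `X''` lower, `v ∉ X''`), `Φ (vx u) = eS (P.q u)` is in the corner `NR G' (M.f v)`
(`Pos.nr`), `Φ (ed g) = Φ (vx u) * Φ (ed g) * Φ (vx (r g))`, `InCor.of_two`.
-/

namespace DC29

open LPA74

variable {G G' : Gph} {hG : NG G} {hG' : NG G'} {t : Mon G ≃+ Mon G'}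
  {M : MD hG.toLG hG'.toLG t}

/-- an upper vertex of a finite set. -/
theorem P10_top (hG : LG G) {X : Finset G.V} (h0 : X.Nonempty) :
    ∃ v ∈ X, ∀ w ∈ X, Rch G w v → w = v := by
  classical
  obtain ⟨v, hv, hmin⟩ := Finset.exists_min_image X
    (fun v => (X.filter fun w => Rch G w v).card) h0
  refine ⟨v, hv, fun w hw hwv => ?_⟩
  by_contra hne
  have h1 : (X.filter fun u => Rch G u w).card < (X.filter fun u => Rch G u v).card := by
    apply Finset.card_lt_card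
    rw [Finset.ssubset_iff_of_subset]
    · refine ⟨v, Finset.mem_filter.2 ⟨hv, Relation.ReflTransGen.refl⟩, fun h => ?_⟩
      exact hne (hG.cyc w v hwv (Finset.mem_filter.1 h).2)
    · intro u hu
      rw [Finset.mem_filter] at hu ⊢
      exact ⟨hu.1, hu.2.trans hwv⟩
  exact absurd (hmin w hw) (not_le.2 h1)

/-- the statement for a part of the stage. -/
def P10_St (M : MD hG.toLG hG'.toLG t) (P' : Pos M.symm) (Φ : LA G →⋆ₙₐ[ℂ] LA G')
    (R Y : Finset G.V) : Prop :=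
  ∃ (Ψ : LA G' →⋆ₙₐ[ℂ] LA G) (η : G.V → LA G), Gd M.symm Ψ ∧
      (∀ w, Ψ (vx w) = eS (P'.q w)) ∧ ∀ v ∈ Y, star (η v) * η v = Ψ (Φ (vx v)) ∧
        η v * star (η v) = vx v ∧ vx v * η v = η v ∧
        (v ∈ R → ∀ f, G.s f = v → ed f * η (G.r f) = η v * Ψ (Φ (ed f)))

/-- the step for a vertex at which only `η` is changed. -/
theorem P10_upd {P' : Pos M.symm} {Φ : LA G →⋆ₙₐ[ℂ] LA G'} {R Y : Finset G.V}
    {v : G.V} {Ψ : LA G' →⋆ₙₐ[ℂ] LA G} {η : G.V → LA G} (hΨ : Gd M.symm Ψ)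
    (hΨ' : ∀ w, Ψ (vx w) = eS (P'.q w))
    (hη : ∀ u ∈ Y, u ≠ v → star (η u) * η u = Ψ (Φ (vx u)) ∧
        η u * star (η u) = vx u ∧ vx u * η u = η u ∧
        (u ∈ R → ∀ f, G.s f = u → G.r f ≠ v ∧ ed f * η (G.r f) = η u * Ψ (Φ (ed f))))
    (ηv : LA G) (h1 : star ηv * ηv = Ψ (Φ (vx v))) (h2 : ηv * star ηv = vx v)
    (h3 : vx v * ηv = ηv)
    (h4 : v ∈ R → ∀ f, G.s f = v → (G.r f = v → ed f * ηv = ηv * Ψ (Φ (ed f))) ∧
      (G.r f ≠ v → ed f * η (G.r f) = ηv * Ψ (Φ (ed f)))) :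
    P10_St (hG := hG) (hG' := hG') M P' Φ R Y := by
  classical
  refine ⟨Ψ, Function.update η v ηv, hΨ, hΨ', fun u hu => ?_⟩
  by_cases huv : u = v
  · subst huv
    rw [Function.update_self]
    refine ⟨h1, h2, h3, fun hR f hf => ?_⟩
    by_cases hr : G.r f = u
    · rw [hr, Function.update_self]
      exact (h4 hR f hf).1 hr
    · rw [Function.update_of_ne hr]
      exact (h4 hR f hf).2 hr
  · rw [Function.update_of_ne huv]
    obtain ⟨a1, a2, a3, a4⟩ := hη u hu huv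
    refine ⟨a1, a2, a3, fun hR f hf => ?_⟩
    obtain ⟨b1, b2⟩ := a4 hR f hf
    rw [Function.update_of_ne b1]
    exact b2

theorem P10_step (P : Pos M) (P' : Pos M.symm) {Φ : LA G →⋆ₙₐ[ℂ] LA G'} (hΦ : Gd M Φ)
    (X R : Finset G.V) (hR : ∀ f, G.s f ∈ R → G.s f ∈ X ∧ G.r f ∈ X)
    (hX : ∀ v ∈ X, Φ (vx v) = eS (P.q v)) {Y : Finset G.V} (hY : Y ⊆ X)
    (hlow : ∀ v ∈ Y, ∀ w ∈ X, Rch G v w → w ∈ Y) {v : G.V} (hv : v ∈ Y)
    (htop : ∀ w ∈ Y, Rch G w v → w = v) {Y' : Finset G.V}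
    (hY' : ∀ w, w ∈ Y' ↔ w ∈ Y ∧ w ≠ v) (ih : P10_St (hG := hG) (hG' := hG') M P' Φ R Y') : P10_St (hG := hG) (hG' := hG') M P' Φ R Y := by
  classical
  obtain ⟨Ψ, η, hΨ, hΨ', hη⟩ := ih
  have hstep : ∀ f : G.Ed, Rch G (G.s f) (G.r f) := fun f =>
    Relation.ReflTransGen.single ⟨f, rfl, rfl⟩
  -- ranges of edges from `Y`
  have hr : ∀ f : G.Ed, G.s f ∈ Y → G.s f ∈ R → G.r f ∈ Y := fun f h1 h2 =>
    hlow (G.s f) h1 (G.r f) (hR f h2).2 (hstep f)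
  have hrv : ∀ f : G.Ed, G.s f ∈ Y → G.s f ≠ v → G.r f ≠ v := by
    intro f h1 h2 h3
    apply h2
    apply htop _ h1
    rw [← h3]
    exact hstep f
  have hold : ∀ u ∈ Y, u ≠ v → star (η u) * η u = Ψ (Φ (vx u)) ∧
        η u * star (η u) = vx u ∧ vx u * η u = η u ∧
        (u ∈ R → ∀ f, G.s f = u → G.r f ≠ v ∧ ed f * η (G.r f) = η u * Ψ (Φ (ed f))) := by
    intro u hu huv
    obtain ⟨a1, a2, a3, a4⟩ := hη u ((hY' u).2 ⟨hu, huv⟩)
    refine ⟨a1, a2, a3, fun hR f hf => ⟨?_, a4 hR f hf⟩⟩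
    apply hrv f
    · rw [hf]
      exact hu
    · rw [hf]
      exact huv
  have hη3 : ∀ f : G.Ed, G.s f = v → v ∈ R → G.r f ≠ v →
      star (η (G.r f)) * η (G.r f) = Ψ (Φ (vx (G.r f))) ∧
      η (G.r f) * star (η (G.r f)) = vx (G.r f) ∧ vx (G.r f) * η (G.r f) = η (G.r f) := by
    intro f hf hvR hfv
    have h1 : G.r f ∈ Y := hr f (by rw [hf]; exact hv) (by rw [hf]; exact hvR)
    obtain ⟨a1, a2, a3, -⟩ := hold _ h1 hfv
    exact ⟨a1, a2, a3⟩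
  by_cases hloop : v ∈ R ∧ IsLp G v
  · -- a loop
    obtain ⟨hvR, hc⟩ := hloop
    obtain ⟨f, hfs, hfr⟩ := hc
    obtain ⟨f', hfs', hfr'⟩ := M.f_lp v ⟨f, hfs, hfr⟩
    have hc : IsLp G v := ⟨f, hfs, hfr⟩
    obtain ⟨B, hB1, hB2, hB3, -⟩ := P.eS_lp hc
    have hnr : ∀ u ∈ Y, u ≠ v → u ∈ NR G v := fun u hu huv h => huv (htop u hu h)
    have hex : ∀ g ∈ exs hG.toLG (G.s f), G.s g = v ∧ G.r g ≠ v := by
      intro g hg
      unfold exs at hg
      rw [Finset.mem_filter, Set.Finite.mem_toFinset, hfs] at hg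
      exact hg
    have hL : LSH M Φ Ψ f f' B (fun g => P.q (G.r g)) η := by
      refine ⟨hΦ, hΨ, by rw [hfr, hfs], by rw [hfr', hfs'], by rw [hfs', hfs], ?_, ?_, ?_, ?_⟩
      · intro w hw
        rw [hfs']
        exact hB3 w hw
      · rw [hfs, hX v (hY hv), hB2, hfs']
      · intro g hg
        obtain ⟨hgs, hgr⟩ := hex g hg
        have h1 : G.r g ∈ Y := hr g (by rw [hgs]; exact hv) (by rw [hgs]; exact hvR)
        refine ⟨hX _ (hY h1), fun w hw => ?_⟩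
        rw [hfs']
        exact P.nr hc (hnr _ h1 hgr) hw
      · intro g hg
        obtain ⟨hgs, hgr⟩ := hex g hg
        exact hη3 g hgs hvR hgr
    obtain ⟨Ψ₁, hΨ₁, hvx, hed, ηc, e1, e2, e3, e4, e5⟩ := loop_step (hG := hG) (hG' := hG') hL
    rw [hfs] at e1 e2 e3 e5
    have hagree : ∀ x : LA G', InCor (NR G' (M.f v)) x → Ψ₁ x = Ψ x := by
      intro x hx
      refine agree Ψ₁ Ψ (NR_her (M.f v)) (fun w _ => hvx w) (fun e he => hed e ?_) hx
      rw [hfs']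
      intro h
      rw [h] at he
      exact he Relation.ReflTransGen.refl
    have hqn : ∀ u ∈ Y, u ≠ v → (↑(P.q u) : Set G'.V) ⊆ NR G' (M.f v) := by
      intro u hu huv w hw
      exact P.nr hc (hnr u hu huv) hw
    refine P10_upd (η := η) hΨ₁ (fun w => (hvx w).trans (hΨ' w)) ?_ ηc e1 e2 e3 ?_
    · intro u hu huv
      obtain ⟨a1, a2, a3, a4⟩ := hold u hu huv
      have b1 : Ψ₁ (Φ (vx u)) = Ψ (Φ (vx u)) := by
        apply hagree
        rw [hX u (hY hu)]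
        exact InCor.eS (hqn u hu huv)
      refine ⟨by rw [b1]; exact a1, a2, a3, fun huR g hg => ?_⟩
      obtain ⟨c1, c2⟩ := a4 huR g hg
      refine ⟨c1, ?_⟩
      have hgY : G.r g ∈ Y := hr g (by rw [hg]; exact hu) (by rw [hg]; exact huR)
      have b2 : Ψ₁ (Φ (ed g)) = Ψ (Φ (ed g)) := by
        apply hagree
        refine InCor.of_two (hqn u hu huv) (hqn _ hgY c1) ?_ ?_
        · rw [← hX u (hY hu), ← map_mul, ← hg, vx_mul_ed]
        · rw [← hX _ (hY hgY), ← map_mul, ed_mul_vx]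
      rw [b2]
      exact c2
    · intro _ g hg
      refine ⟨fun hgr => ?_, fun hgr => ?_⟩
      · have h1 : f = g := hG.one f g (by rw [hfs, hfr]) (by rw [hg, hfs]) (by rw [hgr, hfs])
        rw [← h1]
        exact e4
      · refine e5 g ?_
        unfold exs
        rw [Finset.mem_filter, Set.Finite.mem_toFinset]
        exact ⟨hg, hgr⟩
  by_cases hord : v ∈ R ∧ ∃ f, G.s f = v
  · -- an ordinary vertex
    obtain ⟨hvR, f, hf⟩ := hord
    have hnl : ∀ g : G.Ed, G.s g = v → G.r g ≠ v := fun g h1 h2 => hloop ⟨hvR, g, h1, h2⟩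
    obtain ⟨ηv, e1, e2, e3, e4⟩ := eta_ord (Ψ.comp Φ) v (hG.rf v).toFinset
      ⟨f, (Set.Finite.mem_toFinset _).2 hf⟩ (fun g => Set.Finite.mem_toFinset _) η
      (fun g hg => by
        have hg' : G.s g = v := by
          rw [Set.Finite.mem_toFinset] at hg
          exact hg
        exact hη3 g hg' hvR (hnl g hg'))
    refine P10_upd hΨ hΨ' hold ηv e1 e2 e3 fun _ g hg => ⟨fun h => absurd h (hnl g hg), fun _ => ?_⟩
    exact e4 g hg
  · -- a free vertex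
    obtain ⟨ηv, e1, e2, e3⟩ := eta_free (Θ := Ψ.comp Φ)
      (Gd.comp_cl (hG := hG) (hG' := hG') hΦ hΨ v)
    refine P10_upd hΨ hΨ' hold ηv e1 e2 e3 fun hvR g hg => ?_
    exact absurd ⟨hvR, g, hg⟩ hord

theorem P10_main (P : Pos M) (P' : Pos M.symm) {Φ : LA G →⋆ₙₐ[ℂ] LA G'} (hΦ : Gd M Φ)
    (X R : Finset G.V) (hR : ∀ f, G.s f ∈ R → G.s f ∈ X ∧ G.r f ∈ X)
    (hX : ∀ v ∈ X, Φ (vx v) = eS (P.q v)) : ∀ (n : ℕ) (Y : Finset G.V), Y.card = n → Y ⊆ X →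
    (∀ v ∈ Y, ∀ w ∈ X, Rch G v w → w ∈ Y) → P10_St (hG := hG) (hG' := hG') M P' Φ R Y := by
  classical
  intro n
  induction n with
  | zero =>
    intro Y hn _ _
    rw [Finset.card_eq_zero] at hn
    subst hn
    obtain ⟨Ψ, h1, h2⟩ := exists_good (hG := hG') (hG' := hG) P'
    exact ⟨Ψ, fun _ => 0, h1, h2, fun v hv => absurd hv (Finset.notMem_empty v)⟩
  | succ n ih =>
    intro Y hn hYX hlow
    obtain ⟨v, hv, htop⟩ := P10_top hG.toLG (X := Y) (Finset.card_pos.1 (by omega))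
    have hmem : ∀ w, w ∈ Y.erase v ↔ w ∈ Y ∧ w ≠ v := fun w => by
      rw [Finset.mem_erase, and_comm]
    refine P10_step (hG := hG) (hG' := hG') P P' hΦ X R hR hX hYX hlow hv htop hmem (ih _ ?_ ?_ ?_)
    · rw [Finset.card_erase_of_mem hv, hn]
      rfl
    · exact (Finset.erase_subset _ _).trans hYX
    · intro u hu w hw huw
      rw [hmem] at hu ⊢
      refine ⟨hlow u hu.1 w hw huw, ?_⟩
      rintro rfl
      exact hu.2 (htop u hu.1 huw)

theorem induct (P : Pos M) (P' : Pos M.symm) {Φ : LA G →⋆ₙₐ[ℂ] LA G'} (hΦ : Gd M Φ)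
    (X R : Finset G.V) (hR : ∀ f, G.s f ∈ R → G.s f ∈ X ∧ G.r f ∈ X)
    (hX : ∀ v ∈ X, Φ (vx v) = eS (P.q v)) :
    ∃ (Ψ : LA G' →⋆ₙₐ[ℂ] LA G) (η : G.V → LA G), Gd M.symm Ψ ∧
      (∀ w, Ψ (vx w) = eS (P'.q w)) ∧ ∀ v ∈ X, star (η v) * η v = Ψ (Φ (vx v)) ∧
        η v * star (η v) = vx v ∧ vx v * η v = η v ∧
        (v ∈ R → ∀ f, G.s f = v → ed f * η (G.r f) = η v * Ψ (Φ (ed f))) :=
  P10_main (hG := hG) (hG' := hG') P P' hΦ X R hR hX X.card X rfl (Finset.Subset.refl X) fun _ _ w hw _ => hw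

end DC29
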