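import Pool.Agent.LibDC29.Defs2

/-!
[DC P11] Exhaustion by stages.  For one `x` by `LA.induction` (take unions; `adjoin` is monotone:
`NonUnitalStarAlgebra.adjoin_mono`), for a finite set by `Finset.induction_on`.  For `ed f`: `R = {s f}`.  Given
`X0`, `R`: the edges with source in `R` are finitely many (`hG.rf`), add their sources and ranges to `X0`.
-/

namespace DC29

open LPA74

theorem p11_mono {G : Gph} {X X' R R' : Finset G.V} (hX : X ⊆ X') (hR : R ⊆ R') {x : LA G}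
    (h : x ∈ NonUnitalStarAlgebra.adjoin ℂ
      ((vx '' (↑X : Set G.V) ∪ ed '' {f | G.s f ∈ R}) : Set (LA G))) :
    x ∈ NonUnitalStarAlgebra.adjoin ℂ
      ((vx '' (↑X' : Set G.V) ∪ ed '' {f | G.s f ∈ R'}) : Set (LA G)) := by
  refine NonUnitalStarAlgebra.adjoin_mono ?_ h
  exact Set.union_subset_union (Set.image_mono (Finset.coe_subset.2 hX))
    (Set.image_mono fun f hf => hR hf)

theorem p11_one {G : Gph} (x : LA G) : ∃ X R : Finset G.V, x ∈ NonUnitalStarAlgebra.adjoin ℂ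
      ((vx '' (↑X : Set G.V) ∪ ed '' {f | G.s f ∈ R}) : Set (LA G)) := by
  classical
  refine LA.induction (p := fun x => ∃ X R : Finset G.V, x ∈ NonUnitalStarAlgebra.adjoin ℂ
      ((vx '' (↑X : Set G.V) ∪ ed '' {f | G.s f ∈ R}) : Set (LA G))) ?_ ?_ ?_ ?_ ?_ ?_ ?_ x
  · intro a
    refine ⟨{a}, ∅, NonUnitalStarAlgebra.subset_adjoin ℂ _ (Or.inl ⟨a, ?_, rfl⟩)⟩
    simp
  · intro f
    refine ⟨∅, {G.s f}, NonUnitalStarAlgebra.subset_adjoin ℂ _ (Or.inr ⟨f, ?_, rfl⟩)⟩
    simp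
  · exact ⟨∅, ∅, zero_mem _⟩
  · rintro x y ⟨X, R, h⟩ ⟨X', R', h'⟩
    exact ⟨X ∪ X', R ∪ R', add_mem
      (p11_mono Finset.subset_union_left Finset.subset_union_left h)
      (p11_mono Finset.subset_union_right Finset.subset_union_right h')⟩
  · rintro x y ⟨X, R, h⟩ ⟨X', R', h'⟩
    exact ⟨X ∪ X', R ∪ R', mul_mem
      (p11_mono Finset.subset_union_left Finset.subset_union_left h)
      (p11_mono Finset.subset_union_right Finset.subset_union_right h')⟩
  · rintro c x ⟨X, R, h⟩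
    exact ⟨X, R, SMulMemClass.smul_mem c h⟩
  · rintro x ⟨X, R, h⟩
    exact ⟨X, R, star_mem h⟩

theorem exists_stage {G : Gph} (hG : LG G) (S : Finset (LA G)) : ∃ X R : Finset G.V,
    (∀ f, G.s f ∈ R → G.s f ∈ X ∧ G.r f ∈ X) ∧ ∀ x ∈ S, x ∈ NonUnitalStarAlgebra.adjoin ℂ
      ((vx '' (↑X : Set G.V) ∪ ed '' {f | G.s f ∈ R}) : Set (LA G)) := by
  classical
  choose X0 R0 h0 using p11_one (G := G)
  refine ⟨S.biUnion X0 ∪ ((S.biUnion R0).biUnion fun v => (hG.rf v).toFinset.image G.s) ∪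
    ((S.biUnion R0).biUnion fun v => (hG.rf v).toFinset.image G.r), S.biUnion R0, ?_, ?_⟩
  · intro f hf
    constructor
    · refine Finset.mem_union_left _ (Finset.mem_union_right _ (Finset.mem_biUnion.2
        ⟨G.s f, hf, Finset.mem_image.2 ⟨f, ?_, rfl⟩⟩))
      exact (hG.rf (G.s f)).mem_toFinset.2 rfl
    · refine Finset.mem_union_right _ (Finset.mem_biUnion.2
        ⟨G.s f, hf, Finset.mem_image.2 ⟨f, ?_, rfl⟩⟩)
      exact (hG.rf (G.s f)).mem_toFinset.2 rfl
  · intro x hx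
    refine p11_mono ?_ ?_ (h0 x)
    · exact (Finset.subset_biUnion_of_mem X0 hx).trans
        (Finset.subset_union_left.trans Finset.subset_union_left)
    · exact Finset.subset_biUnion_of_mem R0 hx

end DC29
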