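import Pool.Agent.LibDC29.P10
import Pool.Agent.LibDC29.P11

/-!
[DC P12] The step of the intertwining.  `exists_stage`: `X`, `R`.  `P`, `P'` from `exists_Pos`
(`M`, `M.symm`).  `Gd.norm`: `d0` with `Ad d0 (Φ (vx v)) = eS (P.q v)` on `X`; `Φ1` from `Gd.ad`.
`induct` for `Φ1`: `Ψ1`, `η`.  `exists_dX` for `Θ = Ψ1.comp Φ1` (`Gd.comp_cl`): `d` with
`Θ (vx v) + d * Θ (vx v) = η v` on `X`.  `Ψ2 = Ad d ∘ Ψ1` (`Gd.ad` for `M.symm`).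
On the generators of the stage: `Ψ2 (Φ1 (vx v)) = η v * Θ (vx v) * star (η v) = vx v` (`Ad_eq` with
`z = Θ (vx v)`); for `s f ∈ R`: `Ψ2 (Φ1 (ed f)) = η (s f) * Θ (ed f) * star (η (r f)) =
ed f * η (r f) * star (η (r f)) = ed f` (`Ad_eq`).  So `Ψ2 (Φ1 x) = x` on the adjoin (both sides
are `*`-homomorphisms: `NonUnitalStarAlgebra.adjoin_induction`).
Finally `Ψ = Ψ2 ∘ Ad d0`: `Ψ (Φ x) = Ψ2 (Ad d0 (Φ x)) = Ψ2 (Φ1 x) = x` on `S`.  `Ψ` is good: `Ad d0` is a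
`*`-endomorphism of `LA G'` (`exists_AdH`); `Ψ2 (Ad d0 y) = Ad (Ψ2 d0) (Ψ2 y)` and `QU (Ψ2 d0)`:
apply `Gd.ad` to `Ψ2` and `Ψ2 d0`.
-/

namespace DC29

open LPA74

variable {G G' : Gph} {hG : NG G} {hG' : NG G'} {t : Mon G ≃+ Mon G'}
  {M : MD hG.toLG hG'.toLG t}

theorem step {Φ : LA G →⋆ₙₐ[ℂ] LA G'} (hΦ : Gd M Φ) (S : Finset (LA G)) :
    ∃ Ψ : LA G' →⋆ₙₐ[ℂ] LA G, Gd M.symm Ψ ∧ ∀ x ∈ S, Ψ (Φ x) = x := by
  obtain ⟨X, R, hR, hS⟩ := exists_stage hG.toLG S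
  obtain ⟨P⟩ := exists_Pos hG hG' M
  obtain ⟨P'⟩ := exists_Pos hG' hG M.symm
  obtain ⟨d0, hd0, hX0⟩ := Gd.norm (hG := hG) (hG' := hG') hΦ P X
  obtain ⟨Φ1, hΦ1, hΦ1e⟩ := Gd.ad (hG := hG) (hG' := hG') hΦ hd0
  have hX1 : ∀ v ∈ X, Φ1 (vx v) = eS (P.q v) := fun v hv => by rw [hΦ1e, hX0 v hv]
  obtain ⟨Ψ1, η, hΨ1, _, hη⟩ := induct (hG := hG) (hG' := hG') P P' hΦ1 X R hR hX1
  obtain ⟨d, hd, hdX⟩ := exists_dX hG (Θ := Ψ1.comp Φ1) (Gd.comp_cl (hG := hG) (hG' := hG') hΦ1 hΨ1) X η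
    (fun v hv => ⟨(hη v hv).1, (hη v hv).2.1, (hη v hv).2.2.1⟩)
  obtain ⟨Ψ2, hΨ2, hΨ2e⟩ := Gd.ad (hG := hG') (hG' := hG) hΨ1 hd
  have hdX' : ∀ v ∈ X, Ψ1 (Φ1 (vx v)) + d * Ψ1 (Φ1 (vx v)) = η v := hdX
  have hpj : ∀ v, Pj (Ψ1 (Φ1 (vx v))) := fun v => by
    refine ⟨?_, ?_⟩
    · rw [← map_mul, ← map_mul, vx_mul_self]
    · rw [← map_star, ← map_star, star_vx]
  -- on the generators of the stage
  have hv : ∀ v ∈ X, Ψ2 (Φ1 (vx v)) = vx v := by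
    intro v hv
    rw [hΨ2e, Ad_eq (hpj v) (hpj v) (hdX' v hv) (hdX' v hv) (hpj v).1 (hpj v).1]
    obtain ⟨h1, h2, _, _⟩ := hη v hv
    rw [← h1]
    calc η v * (star (η v) * η v) * star (η v) = (η v * star (η v)) * (η v * star (η v)) := by
          simp only [mul_assoc]
      _ = vx v := by rw [h2, vx_mul_self]
  have he : ∀ f, G.s f ∈ R → Ψ2 (Φ1 (ed f)) = ed f := by
    intro f hf
    obtain ⟨hs, hr⟩ := hR f hf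
    have hz : Ψ1 (Φ1 (vx (G.s f))) * Ψ1 (Φ1 (ed f)) = Ψ1 (Φ1 (ed f)) := by
      rw [← map_mul, ← map_mul, vx_mul_ed]
    have hz' : Ψ1 (Φ1 (ed f)) * Ψ1 (Φ1 (vx (G.r f))) = Ψ1 (Φ1 (ed f)) := by
      rw [← map_mul, ← map_mul, ed_mul_vx]
    rw [hΨ2e, Ad_eq (hpj _) (hpj _) (hdX' _ hs) (hdX' _ hr) hz hz',
      ← (hη _ hs).2.2.2 hf f rfl, mul_assoc, (hη _ hr).2.1, ed_mul_vx]
  have hall : ∀ x ∈ S, Ψ2 (Φ1 x) = x := by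
    intro x hx
    refine NonUnitalStarAlgebra.adjoin_induction (R := ℂ) (p := fun x _ => Ψ2 (Φ1 x) = x) ?_ ?_ ?_ ?_ ?_ ?_
      (hS x hx)
    · rintro y (⟨v, hvX, rfl⟩ | ⟨f, hf, rfl⟩)
      · exact hv v hvX
      · exact he f hf
    · intro a b _ _ ha hb
      rw [map_add, map_add, ha, hb]
    · rw [map_zero, map_zero]
    · intro a b _ _ ha hb
      rw [map_mul, map_mul, ha, hb]
    · intro c a _ ha
      rw [map_smul, map_smul, ha]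
    · intro a _ ha
      rw [map_star, map_star, ha]
  -- undo the first conjugation
  have hq : QU (Ψ2 d0) := by
    obtain ⟨h1, h2⟩ := hd0
    refine ⟨?_, ?_⟩
    · rw [← map_star, ← map_mul, ← map_add, ← map_add, h1, map_zero]
    · rw [← map_star, ← map_mul, ← map_add, ← map_add, h2, map_zero]
  obtain ⟨Ψ, hΨ, hΨe⟩ := Gd.ad (hG := hG') (hG' := hG) hΨ2 hq
  refine ⟨Ψ, hΨ, fun x hx => ?_⟩
  have h1 : Ad (Ψ2 d0) (Ψ2 (Φ x)) = Ψ2 (Ad d0 (Φ x)) := by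
    simp only [Ad, map_add, map_mul, map_star]
  rw [hΨe, h1, ← hΦ1e]
  exact hall x hx

end DC29
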