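import Pool.Agent.LibDC29.A7

/-!
[DC P3] Expansion of an isometry, pure `*`-algebra.  `D = y - ττ*` is a projection, `τ* D = 0`,
`D τ = 0`, `D y = D = y D`; `τ* δ = τ* D δ = 0`, `δ* τ = 0`, `d τ = d y τ = 0`, `d δ = d D δ = d y D δ = 0`,
`τ d = τ y d = 0`, `δ y = δ d y = 0`, `y δ = y D δ = δ`.
`(τ+δ)* (τ+δ) = y + d`; `(y+d)(τ+δ) = τ + δ = (τ+δ)(y+d)`; `(τ+δ)(τ+δ)* = ττ* + δδ*` as
`τ δ* = τ y d δ* = 0`.
Shift equivalence: `N = 1`, `ρ = y`, `a = τ + δ`: `(τ+δ) y = τ = y τ`; `τ (τ+δ) = (τ+δ)(τ+δ)` since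
`δ (τ+δ) = δ d (τ + δ) = 0`; `ρ a = τ + δ = pw (y+d) (τ+δ) 1 = (τ+δ)(y+d)`; `a ρ = τ = τ y`;
`(y+d) - y y* = d`; `y - a a* = y - ττ* - δδ*`.
-/

namespace DC29

open LPA74

variable {G : Gph} {H : Set G.V} {y τ d δ : LA G}

theorem p3_facts (hτ : Isom y τ) (hd : Pj d) (hyd : y * d = 0) (h1 : star δ * δ = d)
    (h2 : (y - τ * star τ) * δ = δ) (h3 : δ * d = δ) :
    d * y = 0 ∧ star τ * δ = 0 ∧ star δ * τ = 0 ∧ y * δ = δ ∧ d * τ = 0 ∧ d * δ = 0 ∧ τ * d = 0 ∧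
    δ * y = 0 ∧ τ * star δ = 0 ∧ δ * star τ = 0 ∧ δ * τ = 0 ∧ δ * δ = 0 := by
  obtain ⟨⟨yy, sy⟩, ss, ys, sy'⟩ := hτ
  obtain ⟨dd, sd⟩ := hd
  have dy : d * y = 0 := by
    have := congrArg star hyd
    rwa [star_mul, sy, sd, star_zero] at this
  have yst : y * star τ = star τ := by
    have := congrArg star sy'
    rwa [star_mul, sy] at this
  have sty : star τ * y = star τ := by
    have := congrArg star ys
    rwa [star_mul, sy] at this
  have stD : star τ * (y - τ * star τ) = 0 := by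
    rw [mul_sub, ← mul_assoc, ss, sty, yst, sub_self]
  have yD : y * (y - τ * star τ) = y - τ * star τ := by
    rw [mul_sub, ← mul_assoc, yy, ys]
  have stδ : star τ * δ = 0 := by
    rw [← h2, ← mul_assoc, stD, zero_mul]
  have sδt : star δ * τ = 0 := by
    have := congrArg star stδ
    rwa [star_mul, star_star, star_zero] at this
  have yδ : y * δ = δ := by
    conv_lhs => rw [← h2]
    rw [← mul_assoc, yD, h2]
  have dτ : d * τ = 0 := by
    rw [← ys, ← mul_assoc, dy, zero_mul]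
  have dδ : d * δ = 0 := by
    rw [← yδ, ← mul_assoc, dy, zero_mul]
  have τd : τ * d = 0 := by
    rw [← sy', mul_assoc, hyd, mul_zero]
  have δy : δ * y = 0 := by
    rw [← h3, mul_assoc, dy, mul_zero]
  have dsδ : d * star δ = star δ := by
    have := congrArg star h3
    rwa [star_mul, sd] at this
  have τsδ : τ * star δ = 0 := by
    rw [← dsδ, ← mul_assoc, τd, zero_mul]
  have δsτ : δ * star τ = 0 := by
    have := congrArg star τsδ
    rwa [star_mul, star_star, star_zero] at this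
  refine ⟨dy, stδ, sδt, yδ, dτ, dδ, τd, δy, τsδ, δsτ, ?_, ?_⟩
  · rw [← h3, mul_assoc, dτ, mul_zero]
  · have : δ * δ = δ * d * δ := by rw [h3]
    rw [this, mul_assoc, dδ, mul_zero]

theorem expand_isom (hτ : Isom y τ) (hd : Pj d) (hyd : y * d = 0) (h1 : star δ * δ = d)
    (h2 : (y - τ * star τ) * δ = δ) (h3 : δ * d = δ) : Isom (y + d) (τ + δ) ∧
    (y + d) - (τ + δ) * star (τ + δ) = (y - τ * star τ - δ * star δ) + d := by
  obtain ⟨dy, stδ, sδt, yδ, dτ, dδ, τd, δy, τsδ, δsτ, δτ, δδ⟩ := p3_facts hτ hd hyd h1 h2 h3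
  obtain ⟨⟨yy, sy⟩, ss, ys, sy'⟩ := hτ
  obtain ⟨dd, sd⟩ := hd
  refine ⟨⟨⟨?_, ?_⟩, ?_, ?_, ?_⟩, ?_⟩
  · rw [mul_add, add_mul, add_mul, yy, dy, hyd, dd, add_zero, zero_add]
  · rw [star_add, sy, sd]
  · rw [star_add, mul_add, add_mul, add_mul, ss, sδt, stδ, h1, add_zero, zero_add]
  · rw [mul_add, add_mul, add_mul, ys, dτ, yδ, dδ, add_zero, add_zero]
  · rw [mul_add, add_mul, add_mul, sy', δy, τd, h3, add_zero, zero_add]
  · rw [star_add, mul_add, add_mul, add_mul, τsδ, δsτ, add_zero, zero_add]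
    abel

theorem expand_sh (hτ : Isom y τ) (hd : Pj d) (hyd : y * d = 0) (h1 : star δ * δ = d)
    (h2 : (y - τ * star τ) * δ = δ) (h3 : δ * d = δ) (hH : HCl H d)
    (hH2 : HCl H (y - τ * star τ - δ * star δ)) : ShEq H (y + d) (τ + δ) y τ := by
  obtain ⟨⟨-, hi1, hi2, hi3⟩, -⟩ := expand_isom hτ hd hyd h1 h2 h3
  obtain ⟨dy, stδ, sδt, yδ, dτ, dδ, τd, δy, τsδ, δsτ, δτ, δδ⟩ := p3_facts hτ hd hyd h1 h2 h3
  obtain ⟨⟨yy, sy⟩, ss, ys, sy'⟩ := hτ
  obtain ⟨dd, sd⟩ := hd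
  have hay : (τ + δ) * y = τ := by rw [add_mul, sy', δy, add_zero]
  have hya : y * (τ + δ) = τ + δ := by rw [mul_add, ys, yδ]
  refine ⟨1, y, τ + δ, ⟨?_, ?_, yy⟩, ⟨hi1, hya, hi3⟩, ?_, ?_, ?_, ?_, ?_, ?_⟩
  · rw [sy, yy]
  · rw [add_mul, yy, dy, add_zero]
  · rw [hay, ys]
  · rw [mul_add, add_mul, mul_add, mul_add, δτ, δδ, add_zero, add_zero]
  · rw [hya]
    exact hi3.symm
  · rw [hay]
    exact sy'.symm
  · have : y + d - y * star y = d := by rw [sy, yy]; abel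
    rw [this]
    exact hH
  · have : y - (τ + δ) * star (τ + δ) = y - τ * star τ - δ * star δ := by
      rw [star_add, mul_add, add_mul, add_mul, τsδ, δsτ, add_zero, zero_add]
      abel
    rw [this]
    exact hH2

end DC29
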