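import Pool.Agent.LibDC29.P1
import Pool.Agent.LibDC29.P4

/-!
[DC P5] A good homomorphism with given positions.  For each vertex `v` choose elements `g e` for the edges
`e` out of `v`.
(a) `v` without loop, with at least one edge: `t (mv v) = ∑_{s e = v} t (mv (r e))` (`mk_single_sum`,
`MRel`), `SCl.frame` for `x = eS (q v)` and `y e = eS (q (r e))`.
(b) `v = c = s f = r f`, `c' = M.f c`: `eS (q c) = vx c' + eS B` (`Pos.eS_lp`).  `f'` = the loop edge at `c'`.
`expansions` for `y = x0 = vx c'`, `τ = σ0 = ed f'` (`Isom.loop`, `ShEq.refl`, `loop_defect`), `D = eS B`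
(`SCl.eS`): `σ`.  `g f = σ`; the defect has class `wm c' = t (wm c) = ∑_{exits} t (mv (r e))` (`M.h3`),
`SCl.frame` for `x = eS (q c) - σσ*`, `y e = eS (q (r e))`, `s = exs hG c`: the `g e` for the exits;
`σ* g e = σ* (x g e) = 0`.
`f` is the only loop at `c` (`LG.one`).
(c) CK family for `G`: `P v = eS (q v)`, `Sg e = g e`; `LA.lift`.  (d) `Gd.sh`: for the loop `f`, and the
loop `f'` at `M.f c` (unique by `LG.one`): (b).
For (a), (b) it is convenient to prove first: for every `v` there is `g : G.Ed → LA G'` with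
`∀ e e', s e = v → s e' = v → star (g e) * g e' = if e = e' then eS (q (r e)) else 0`,
`∀ e, s e = v → eS (q v) * g e = g e ∧ g e * eS (q (r e)) = g e`,
`∀ S nonempty, (∀ e, e ∈ S ↔ s e = v) → eS (q v) = ∑ e ∈ S, g e * star (g e)`, and the shift equivalence if `v` has a loop.
-/

namespace DC29

open LPA74

variable {G G' : Gph}

open Classical in
/-- what is needed at the vertex `v`. -/
def AtV {hG : LG G} {hG' : LG G'} {t : Mon G ≃+ Mon G'} {M : MD hG hG' t} (P : Pos M)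
    (v : G.V) (g : G.Ed → LA G') : Prop :=
  (∀ e e', G.s e = v → G.s e' = v → star (g e) * g e' = if e = e' then eS (P.q (G.r e)) else 0) ∧
  (∀ e, G.s e = v → eS (P.q v) * g e = g e ∧ g e * eS (P.q (G.r e)) = g e) ∧
  (∀ S : Finset G.Ed, S.Nonempty → (∀ e, e ∈ S ↔ G.s e = v) →
    eS (P.q v) = ∑ e ∈ S, g e * star (g e)) ∧
  (∀ (f : G.Ed) (f' : G'.Ed), G.s f = v → G.r f = v → G'.s f' = M.f v → G'.r f' = M.f v →
    ShEq (NR G' (M.f v)) (eS (P.q v)) (g f) (vx (M.f v)) (ed f'))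

private theorem p5_mk_rel {G : Gph} (v : G.V) (S : Finset G.Ed) (h0 : S.Nonempty)
    (h : ∀ f, f ∈ S ↔ G.s f = v) : (mv v : Mon G) = ∑ f ∈ S, mv (G.r f) := by
  rw [← mk_single_sum]
  exact (AddCon.eq (addConGen (MRel G))).2 (AddConGen.Rel.of _ _ (MRel.mk v S h0 h))

theorem atV_ord {hG : NG G} {hG' : NG G'} {t : Mon G ≃+ Mon G'} {M : MD hG.toLG hG'.toLG t}
    (P : Pos M) {v : G.V} (hv : ¬ IsLp G v) : ∃ g, AtV P v g := by
  classical
  obtain ⟨S, hS⟩ : ∃ S : Finset G.Ed, ∀ f, f ∈ S ↔ G.s f = v :=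
    ⟨(hG.rf v).toFinset, fun f => (hG.rf v).mem_toFinset⟩
  by_cases h0 : S.Nonempty
  · have h1 : t (mv v) = ∑ f ∈ S, t (mv (G.r f)) := by
      rw [p5_mk_rel v S h0 hS, map_sum]
    have h2 : SCl (eS (P.q v)) (∑ f ∈ S, t (mv (G.r f))) := by
      rw [← h1]; exact P.scl v
    obtain ⟨g, hg1, hg2, hg3⟩ := SCl.frame S (fun f => t (mv (G.r f)))
      (fun f => eS (P.q (G.r f))) h2 (fun f _ => P.scl _)
    refine ⟨g, ?_, ?_, ?_, ?_⟩
    · intro e e' he he'
      exact hg2 e ((hS e).2 he) e' ((hS e').2 he')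
    · intro e he
      exact ⟨(hg3 e ((hS e).2 he)).2, (hg3 e ((hS e).2 he)).1⟩
    · intro S' _ hS'
      have : S' = S := Finset.ext fun f => by rw [hS, hS']
      rw [this]; exact hg1
    · intro f f' hs hr _ _
      exact absurd ⟨f, hs, hr⟩ hv
  · refine ⟨fun _ => 0, ?_, ?_, ?_, ?_⟩
    · intro e e' he _
      exact absurd ⟨e, (hS e).2 he⟩ h0
    · intro e he
      exact absurd ⟨e, (hS e).2 he⟩ h0
    · intro S' h0' hS'
      obtain ⟨e, he⟩ := h0'
      exact absurd ⟨e, (hS e).2 ((hS' e).1 he)⟩ h0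
    · intro f f' hs hr _ _
      exact absurd ⟨f, hs, hr⟩ hv

theorem atV_loop {hG : NG G} {hG' : NG G'} {t : Mon G ≃+ Mon G'} {M : MD hG.toLG hG'.toLG t}
    (P : Pos M) {v : G.V} (hv : IsLp G v) : ∃ g, AtV P v g := by
  classical
  obtain ⟨f, hs, hr⟩ := hv
  obtain ⟨f', hs', hr'⟩ := M.f_lp v ⟨f, hs, hr⟩
  obtain ⟨B, hB, hq, _, n, hn⟩ := P.eS_lp (c := v) ⟨f, hs, hr⟩
  have hI : Isom (vx (M.f v) : LA G') (ed f') := by
    have := Isom.loop (G := G') (f := f') (hr'.trans hs'.symm)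
    rwa [hs'] at this
  have hdef : SCl ((vx (M.f v) : LA G') - ed f' * star (ed f')) (wm hG'.toLG (M.f v)) := by
    have := (loop_defect hG'.toLG (f := f') (hr'.trans hs'.symm)).2
    rwa [hs'] at this
  have hvB : (vx (M.f v) : LA G') * eS B = 0 := by
    have h1 : (eS {M.f v} : LA G') * eS B = 0 :=
      eS_mul_of_disjoint (Finset.disjoint_singleton_left.2 hB)
    have h2 : (eS {M.f v} : LA G') = vx (M.f v) := by
      unfold eS; exact Finset.sum_singleton _ _
    rwa [h2] at h1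
  obtain ⟨σ, hσ1, hσ2, hσ3⟩ := expansions hG' (c := M.f v) ⟨f', hs', hr'⟩ hI n (vx (M.f v)) (ed f')
    hI (ShEq.refl hI) hdef (eS B) (∑ w ∈ B, mv w) hvB (SCl.eS B) hn
  rw [← hq] at hσ1 hσ2 hσ3
  have hw : wm hG'.toLG (M.f v) = ∑ e ∈ exs hG.toLG v, t (mv (G.r e)) := by
    rw [← M.h3 v ⟨f, hs, hr⟩, wm, map_sum]
  rw [hw] at hσ3
  obtain ⟨g, hg1, hg2, hg3⟩ := SCl.frame (exs hG.toLG v) (fun e => t (mv (G.r e)))
      (fun e => eS (P.q (G.r e))) hσ3 (fun e _ => P.scl _)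
  obtain ⟨x, hx⟩ : ∃ x : LA G', x = eS (P.q v) := ⟨_, rfl⟩
  rw [← hx] at hσ1 hσ2 hσ3 hg1 hg3
  have hxx : x * x = x := hσ1.pj.1
  have hxs : star x = x := hσ1.pj.2
  have hσx : star σ * x = star σ := by
    have := congrArg star hσ1.xs
    rwa [star_mul, hxs] at this
  have hxσ : x * star σ = star σ := by
    have := congrArg star hσ1.sx
    rwa [star_mul, hxs] at this
  have hσg : ∀ e ∈ exs hG.toLG v, star σ * g e = 0 := fun e he => by
    rw [← (hg3 e he).2, ← mul_assoc, mul_sub, hσx, ← mul_assoc, hσ1.ss, hxσ, sub_self, zero_mul]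
  have hgσ : ∀ e ∈ exs hG.toLG v, star (g e) * σ = 0 := fun e he => by
    have := congrArg star (hσg e he)
    rwa [star_mul, star_star, star_zero] at this
  have hxg : ∀ e ∈ exs hG.toLG v, x * g e = g e := fun e he => by
    conv_lhs => rw [← (hg3 e he).2]
    rw [← mul_assoc, mul_sub, hxx, ← mul_assoc, hσ1.xs, (hg3 e he).2]
  have hexs : ∀ e, e ∈ exs hG.toLG v ↔ G.s e = v ∧ G.r e ≠ v := fun e => by
    unfold exs
    rw [Finset.mem_filter, Set.Finite.mem_toFinset]
    rfl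
  have hcase : ∀ e, G.s e = v → e = f ∨ e ∈ exs hG.toLG v := fun e he => by
    by_cases h : G.r e = v
    · left
      exact (hG.one f e (hs.trans hr.symm) (he.trans hs.symm) (h.trans hs.symm)).symm
    · exact Or.inr ((hexs e).2 ⟨he, h⟩)
  have hfx : ∀ e ∈ exs hG.toLG v, e ≠ f := fun e he hef => ((hexs e).1 he).2 (by rw [hef, hr])
  obtain ⟨k, hk⟩ : ∃ k : G.Ed → LA G', ∀ e, k e = if e = f then σ else g e := ⟨_, fun e => rfl⟩
  have hkf : k f = σ := by rw [hk]; exact if_pos rfl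
  have hkg : ∀ e ∈ exs hG.toLG v, k e = g e := fun e he => by rw [hk]; exact if_neg (hfx e he)
  refine ⟨k, ?_, ?_, ?_, ?_⟩
  · intro e e' he he'
    rcases hcase e he with rfl | h1
    · rcases hcase e' he' with rfl | h2
      · rw [hkf, if_pos rfl, hr, ← hx]; exact hσ1.ss
      · rw [hkf, hkg e' h2, if_neg (hfx e' h2).symm]; exact hσg e' h2
    · rcases hcase e' he' with rfl | h2
      · rw [hkf, hkg e h1, if_neg (hfx e h1)]; exact hgσ e h1
      · rw [hkg e h1, hkg e' h2, hg2 e h1 e' h2]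
  · intro e he
    rcases hcase e he with rfl | h1
    · rw [hkf, hr, ← hx]; exact ⟨hσ1.xs, hσ1.sx⟩
    · rw [hkg e h1, ← hx]; exact ⟨hxg e h1, (hg3 e h1).1⟩
  · intro S _ hS
    have hfne : f ∉ exs hG.toLG v := fun h => hfx f h rfl
    have hSe : S = insert f (exs hG.toLG v) := by
      ext e
      rw [hS, Finset.mem_insert]
      constructor
      · exact hcase e
      · rintro (rfl | h)
        · exact hs
        · exact ((hexs e).1 h).1
    rw [hSe, Finset.sum_insert hfne, hkf, ← hx]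
    have : ∑ e ∈ exs hG.toLG v, k e * star (k e) = x - σ * star σ := by
      rw [hg1]
      exact Finset.sum_congr rfl fun e he => by rw [hkg e he]
    rw [this]
    abel
  · intro f1 f1' hs1 hr1 hs1' hr1'
    have h1 : f1 = f := (hG.one f f1 (hs.trans hr.symm) (hs1.trans hs.symm)
      (hr1.trans hs.symm)).symm
    have h2 : f1' = f' := (hG'.one f' f1' (hs'.trans hr'.symm) (hs1'.trans hs'.symm)
      (hr1'.trans hs'.symm)).symm
    rw [h1, h2, hkf, ← hx]
    exact hσ2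

theorem exists_good {hG : NG G} {hG' : NG G'} {t : Mon G ≃+ Mon G'}
    {M : MD hG.toLG hG'.toLG t} (P : Pos M) :
    ∃ Φ : LA G →⋆ₙₐ[ℂ] LA G', Gd M Φ ∧ ∀ v, Φ (vx v) = eS (P.q v) := by
  classical
  have hall : ∀ v, ∃ g, AtV P v g := fun v => by
    by_cases hv : IsLp G v
    · exact atV_loop (hG := hG) (hG' := hG') P hv
    · exact atV_ord (hG := hG) (hG' := hG') P hv
  choose g hg using hall
  have hck : CK G (fun v => (eS (P.q v) : LA G')) (fun e => g (G.s e) e) := by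
    refine ⟨fun a => (eS_pj _).1, fun a => (eS_pj _).2, fun a b h => P.orth h, fun e => ?_,
      fun e => ?_, fun e => ?_, fun e e' h => ?_, fun a S h0 h => ?_⟩
    · exact ((hg (G.s e)).2.1 e rfl).1
    · exact ((hg (G.s e)).2.1 e rfl).2
    · have := (hg (G.s e)).1 e e rfl rfl
      rw [this]; exact if_pos rfl
    · by_cases hss : G.s e = G.s e'
      · rw [← hss]
        have := (hg (G.s e)).1 e e' rfl hss.symm
        rw [this]; exact if_neg h
      · have h1 := ((hg (G.s e)).2.1 e rfl).1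
        have h2 := ((hg (G.s e')).2.1 e' rfl).1
        rw [← h1, ← h2, star_mul, (eS_pj _).2, mul_assoc, ← mul_assoc (eS (P.q (G.s e)) : LA G'),
          P.orth hss, zero_mul, mul_zero]
    · rw [(hg a).2.2.1 S h0 h]
      refine Finset.sum_congr rfl fun e he => ?_
      rw [(h e).1 he]
  obtain ⟨Φ, hΦ1, hΦ2⟩ := LA.lift hck
  refine ⟨Φ, ⟨fun v => ?_, fun e e' hr hs' hr' => ?_⟩, hΦ1⟩
  · rw [hΦ1]; exact P.scl v
  · have := (hg (G.s e)).2.2.2 e e' rfl hr hs' (hr'.trans hs')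
    rw [hΦ1, hΦ2]
    rw [← hs'] at this
    exact this

end DC29
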