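import Pool.Agent.LibDC29.If
import Pool.Agent.LibDC29.B1

/-!
[DC S1] Stabilization.  `St G`: vertices `(v, n)`, edges of `G` at level `0` and `(v, n+1) → (v, n)`.
-/

namespace DC29

open LPA74

/-- stabilization of a graph. -/
def StG (G : Gph) : Gph where
  V := G.V × ℕ
  Ed := G.Ed ⊕ (G.V × ℕ)
  s := fun x => match x with
    | Sum.inl e => (G.s e, 0)
    | Sum.inr (v, n) => (v, n + 1)
  r := fun x => match x with
    | Sum.inl e => (G.r e, 0)
    | Sum.inr (v, n) => (v, n)

variable {G : Gph}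

private theorem S1_rch {a b : (StG G).V} (h : Rch (StG G) a b) :
    Rch G a.1 b.1 ∧ b.2 ≤ a.2 ∧ (b.2 ≠ 0 → a.1 = b.1) := by
  induction h with
  | refl => exact ⟨Relation.ReflTransGen.refl, le_rfl, fun _ => rfl⟩
  | tail _ hbc ih =>
    obtain ⟨h1, h2, h3⟩ := ih
    obtain ⟨g, hg1, hg2⟩ := hbc
    subst hg1 hg2
    match g with
    | Sum.inl e =>
      refine ⟨h1.tail ⟨e, rfl, rfl⟩, ?_, ?_⟩
      · exact Nat.zero_le _
      · intro h; exact absurd rfl h
    | Sum.inr (v, n) =>
      refine ⟨h1, ?_, ?_⟩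
      · exact le_trans (Nat.le_succ n) h2
      · intro _
        exact h3 (Nat.succ_ne_zero n)

theorem StG.isLp {v : G.V} {n : ℕ} (h : IsLp (StG G) (v, n)) : n = 0 ∧ IsLp G v := by
  obtain ⟨g, h1, h2⟩ := h
  match g with
  | Sum.inl e =>
    have h3 : (G.s e, 0) = (v, n) := h1
    have h4 : (G.r e, 0) = (v, n) := h2
    exact ⟨(congrArg Prod.snd h3).symm, e, congrArg Prod.fst h3, congrArg Prod.fst h4⟩
  | Sum.inr (w, m) =>
    have h3 : (w, m + 1) = (v, n) := h1
    have h4 : (w, m) = (v, n) := h2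
    have h5 := (congrArg Prod.snd h3).trans (congrArg Prod.snd h4).symm
    exact absurd h5 (Nat.succ_ne_self m)

theorem StG.seqv (v : G.V) (n : ℕ) :
    SEqv (vx (E := StG G) (v, n) : LA (StG G)) (vx (E := StG G) (v, 0)) := by
  classical
  induction n with
  | zero =>
    exact SEqvIn.refl (NonUnitalStarAlgebra.mem_top) ⟨vx_mul_self _, star_vx _⟩
  | succ n ih =>
    refine SEqvIn.trans ?_ ih
    have h1 : (vx (E := StG G) (v, n + 1) : LA (StG G)) =
        ed (E := StG G) (Sum.inr (v, n)) * star (ed (E := StG G) (Sum.inr (v, n))) := by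
      have h2 := vx_eq_sum (E := StG G) (v, n + 1) {Sum.inr (v, n)}
        (Finset.singleton_nonempty _) (by
          intro g
          refine ⟨fun h => congrArg (StG G).s (Finset.mem_singleton.mp h), fun h => ?_⟩
          refine Finset.mem_singleton.mpr ?_
          match g with
          | Sum.inl e =>
            have h3 : (G.s e, 0) = (v, n + 1) := h
            exact absurd (congrArg Prod.snd h3).symm (Nat.succ_ne_zero n)
          | Sum.inr (w, m) =>
            have h3 : (w, m + 1) = (v, n + 1) := h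
            have h4 : w = v := congrArg Prod.fst h3
            have h5 : m = n := Nat.succ_injective (congrArg Prod.snd h3)
            rw [h4, h5])
      exact h2.trans (Finset.sum_singleton _ _)
    have h2 : star (ed (E := StG G) (Sum.inr (v, n))) * ed (E := StG G) (Sum.inr (v, n)) =
        (vx (E := StG G) (v, n) : LA (StG G)) := star_ed_mul_ed (E := StG G) (Sum.inr (v, n))
    refine ⟨ed (E := StG G) (Sum.inr (v, n)), NonUnitalStarAlgebra.mem_top, h1.symm, h2, ?_⟩
    rw [mul_assoc, h2]
    exact ed_mul_vx (E := StG G) (Sum.inr (v, n))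

theorem StG.ng [Countable G.V] [Countable G.Ed] (hG : LG G) : NG (StG G) where
  rf := by
    rintro ⟨u, n⟩
    match n with
    | 0 =>
      refine ((hG.rf u).image (Sum.inl : G.Ed → G.Ed ⊕ (G.V × ℕ))).subset ?_
      intro g hg
      match g with
      | Sum.inl e =>
        have h3 : (G.s e, 0) = (u, 0) := hg
        exact ⟨e, congrArg Prod.fst h3, rfl⟩
      | Sum.inr (w, m) =>
        have h3 : (w, m + 1) = (u, 0) := hg
        exact absurd (congrArg Prod.snd h3) (Nat.succ_ne_zero m)
    | n + 1 =>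
      refine (Set.finite_singleton (Sum.inr (u, n) : G.Ed ⊕ (G.V × ℕ))).subset ?_
      intro g hg
      match g with
      | Sum.inl e =>
        have h3 : (G.s e, 0) = (u, n + 1) := hg
        exact absurd (congrArg Prod.snd h3).symm (Nat.succ_ne_zero n)
      | Sum.inr (w, m) =>
        have h3 : (w, m + 1) = (u, n + 1) := hg
        have h4 : w = u := congrArg Prod.fst h3
        have h5 : m = n := Nat.succ_injective (congrArg Prod.snd h3)
        rw [h4, h5]
        rfl
  cyc := by
    intro a b h h'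
    obtain ⟨h1, h2, h3⟩ := S1_rch h
    obtain ⟨h4, h5, h6⟩ := S1_rch h'
    exact Prod.ext (hG.cyc _ _ h1 h4) (le_antisymm h5 h2)
  one := by
    intro f g h1 h2 h3
    match f, g with
    | Sum.inl e, Sum.inl e' =>
      have k1 : (G.s e, 0) = (G.r e, 0) := h1
      have k2 : (G.s e', 0) = (G.s e, 0) := h2
      have k3 : (G.r e', 0) = (G.s e, 0) := h3
      exact congrArg Sum.inl (hG.one e e' (congrArg Prod.fst k1) (congrArg Prod.fst k2)
        (congrArg Prod.fst k3))
    | Sum.inl e, Sum.inr (w, m) =>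
      have k2 : (w, m + 1) = (G.s e, 0) := h2
      exact absurd (congrArg Prod.snd k2) (Nat.succ_ne_zero m)
    | Sum.inr (w, m), _ =>
      have k1 : (w, m + 1) = (w, m) := h1
      exact absurd (congrArg Prod.snd k1) (Nat.succ_ne_self m)
  cV := inferInstanceAs (Countable (G.V × ℕ))
  cE := inferInstanceAs (Countable (G.Ed ⊕ (G.V × ℕ)))
  room := by
    classical
    rintro ⟨u, m⟩ S
    refine ⟨(u, S.sup (fun w : G.V × ℕ => w.2) + 1), ?_, ?_, ?_⟩
    · intro h
      have h1 := Finset.le_sup (f := fun w : G.V × ℕ => w.2) h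
      exact absurd h1 (Nat.not_succ_le_self _)
    · intro h
      exact absurd (StG.isLp h).1 (Nat.succ_ne_zero _)
    · exact (StG.seqv u _).trans (StG.seqv u m).symm

private theorem S1_ck (G : Gph) : CK G (fun v => (vx (E := StG G) (v, 0) : LA (StG G)))
    (fun e => ed (E := StG G) (Sum.inl e)) where
  proj := fun a => vx_mul_self (E := StG G) (a, 0)
  sa := fun a => star_vx (E := StG G) (a, 0)
  orth := fun a b hab => vx_mul_ne (E := StG G) (fun h => hab (congrArg Prod.fst h))
  se := fun f => vx_mul_ed (E := StG G) (Sum.inl f)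
  er := fun f => ed_mul_vx (E := StG G) (Sum.inl f)
  ck1 := fun f => star_ed_mul_ed (E := StG G) (Sum.inl f)
  ck1' := fun f f' h => star_ed_mul_ed_ne (E := StG G) (fun h' => h (Sum.inl_injective h'))
  ck2 := by
    intro a S hS h
    have h1 := vx_eq_sum (E := StG G) (a, 0)
      (S.map (⟨Sum.inl, Sum.inl_injective⟩ : G.Ed ↪ G.Ed ⊕ (G.V × ℕ))) (by simpa using hS) (by
        intro g
        rw [Finset.mem_map]
        constructor
        · rintro ⟨e, he, rfl⟩
          have h2 : G.s e = a := (h e).mp he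
          change (G.s e, 0) = (a, 0)
          rw [h2]
        · intro hg
          match g with
          | Sum.inl e =>
            have h3 : (G.s e, 0) = (a, 0) := hg
            exact ⟨e, (h e).mpr (congrArg Prod.fst h3), rfl⟩
          | Sum.inr (w, m) =>
            have h3 : (w, m + 1) = (a, 0) := hg
            exact absurd (congrArg Prod.snd h3) (Nat.succ_ne_zero m))
    refine h1.trans ?_
    exact Finset.sum_map _ _ _

private theorem S1_isP (α : List G.Ed) (v : G.V) :
    (StG G).st (α.map (Sum.inl : G.Ed → (StG G).Ed)) (v, 0) = (G.st α v, 0) ∧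
    (G.IsP α v → (StG G).IsP (α.map (Sum.inl : G.Ed → (StG G).Ed)) (v, 0)) := by
  induction α with
  | nil => exact ⟨rfl, fun _ => trivial⟩
  | cons g l ih =>
    refine ⟨rfl, ?_⟩
    rintro ⟨h1, h2⟩
    refine ⟨?_, ih.2 h2⟩
    have h3 : ((G.r g, 0) : G.V × ℕ) = (G.st l v, 0) := by rw [h1]
    exact h3.trans ih.1.symm

private theorem S1_path {u : (StG G).V} (α : List (StG G).Ed) (h : (StG G).IsP α u)
    (hs : ((StG G).st α u).2 = 0) :
    ∃ (β : List G.Ed) (v : G.V), u = (v, 0) ∧ α = β.map (Sum.inl : G.Ed → (StG G).Ed) := by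
  induction α with
  | nil =>
    refine ⟨[], u.1, ?_, rfl⟩
    exact Prod.ext rfl hs
  | cons g l ih =>
    obtain ⟨h1, h2⟩ := h
    match g with
    | Sum.inl e =>
      have h3 : ((StG G).st l u).2 = 0 := by
        rw [← h1]
        rfl
      obtain ⟨β, v, h4, h5⟩ := ih h2 h3
      exact ⟨e :: β, v, h4, by rw [h5]; rfl⟩
    | Sum.inr (w, m) =>
      exact absurd hs (Nat.succ_ne_zero m)

theorem StG.exists_io (G : Gph) [Countable G.V] [Countable G.Ed] :
    ∃ io : LA G →⋆ₙₐ[ℂ] LA (StG G), Function.Injective io ∧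
      (∀ v, io (vx v) = vx (E := StG G) (v, 0)) ∧
      ∀ x, (∃ y, io y = x) ↔ InCor {w : (StG G).V | w.2 = 0} x := by
  classical
  have : Countable (StG G).Ed := inferInstanceAs (Countable (G.Ed ⊕ (G.V × ℕ)))
  obtain ⟨io, h1, h2⟩ := LA.lift (S1_ck G)
  have hpe : ∀ (α : List G.Ed) (v : G.V), io (pe α v) =
      pe (α.map (Sum.inl : G.Ed → (StG G).Ed)) (v, 0) := by
    intro α v
    induction α with
    | nil => exact h1 v
    | cons g l ih =>
      change io (ed g * pe l v) = ed (E := StG G) (Sum.inl g) *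
        pe (l.map (Sum.inl : G.Ed → (StG G).Ed)) (v, 0)
      rw [map_mul, ih, h2]
  have hmi : Function.Injective (List.map (Sum.inl : G.Ed → (StG G).Ed)) :=
    List.map_injective_iff.mpr Sum.inl_injective
  refine ⟨io, ?_, h1, ?_⟩
  · refine red io fun v => ?_
    have h3 := (ind (G := StG G) ((v, 0) : G.V × ℕ)).comp
      (fun α : {α : List G.Ed // G.IsP α v} =>
        (⟨α.1.map (Sum.inl : G.Ed → (StG G).Ed), (S1_isP α.1 v).2 α.2⟩ :
          {α : List (StG G).Ed // (StG G).IsP α ((v, 0) : G.V × ℕ)})) (by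
        intro α β hab
        exact Subtype.ext (hmi (congrArg Subtype.val hab)))
    have h4 : (fun α : {α : List G.Ed // G.IsP α v} => io (pe α.1 v)) =
        (fun α : {α : List (StG G).Ed // (StG G).IsP α ((v, 0) : G.V × ℕ)} =>
          (pe α.1 ((v, 0) : G.V × ℕ) : LA (StG G))) ∘
        (fun α : {α : List G.Ed // G.IsP α v} =>
        (⟨α.1.map (Sum.inl : G.Ed → (StG G).Ed), (S1_isP α.1 v).2 α.2⟩ :
          {α : List (StG G).Ed // (StG G).IsP α ((v, 0) : G.V × ℕ)})) :=
      funext fun α => hpe α.1 v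
    rw [h4]
    exact h3
  · have heS : ∀ S : Finset G.V, io (eS S) =
        eS (G := StG G) (S.map (⟨fun v => (v, 0), fun a b h => congrArg Prod.fst h⟩ :
          G.V ↪ G.V × ℕ)) := by
      intro S
      unfold eS
      rw [map_sum]
      refine Eq.trans (Finset.sum_congr rfl fun v _ => h1 v) ?_
      exact (Finset.sum_map S (⟨fun v => (v, 0), fun a b h => congrArg Prod.fst h⟩ :
          G.V ↪ G.V × ℕ) (fun w => (vx (E := StG G) w : LA (StG G)))).symm
    intro x
    constructor
    · rintro ⟨y, rfl⟩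
      obtain ⟨S, hS⟩ := exists_unit ({y} : Finset (LA G))
      obtain ⟨h3, h4⟩ := hS S (Finset.Subset.refl S) y (Finset.mem_singleton_self y)
      refine ⟨S.map (⟨fun v => (v, 0), fun a b h => congrArg Prod.fst h⟩ :
          G.V ↪ G.V × ℕ), ?_, ?_, ?_⟩
      · intro w hw
        obtain ⟨v, -, rfl⟩ := Finset.mem_map.mp (Finset.mem_coe.mp hw)
        rfl
      · rw [← heS, ← map_mul, h3]
      · rw [← heS, ← map_mul, h4]
    · intro hx
      refine Submodule.span_induction (p := fun z _ => ∃ y, io y = z) ?_ ?_ ?_ ?_ (cor_span hx)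
      · rintro z ⟨u, α, β, hα, hβ, hsα, hsβ, rfl⟩
        obtain ⟨α', v, hv, rfl⟩ := S1_path α hα hsα
        obtain ⟨β', v', hv', rfl⟩ := S1_path β hβ hsβ
        subst hv
        have hvv : v = v' := congrArg Prod.fst hv'
        subst hvv
        refine ⟨pe α' v * star (pe β' v), ?_⟩
        rw [map_mul, map_star, hpe, hpe]
        rfl
      · exact ⟨0, map_zero _⟩
      · rintro z w - - ⟨y, rfl⟩ ⟨y', rfl⟩
        exact ⟨y + y', map_add _ _ _⟩
      · rintro c z - ⟨y, rfl⟩
        exact ⟨c • y, map_smul _ _ _⟩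

end DC29
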