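import Pool.Agent.LibDC29.S1
import Pool.Agent.LibDC29.D2g
import Pool.Agent.LibDC29.L1
import Pool.Agent.LibDC29.L2

/-!
[DC S2] Setup lemma.  `k` from `exists_k`; `G1 = DG E k` (countable, `DG.rf`, `DG.dc`), `V1 = {w | ∃ v, w = inl v}`; `exists_bas` for `V0 = V1`
(`DG.base`): `b`, `P`; `G2 = PG G1 P` (`PG.lg'` with `PG.rf`; countable: subtype of lists); `Φ : LA G2 ≃ LA G1` (`PG.iso`); `G3 = StG G2` (`StG.ng`).
`io = io_S ∘ Φ.symm ∘ io_D`.  `V0 = {(w, 0) | w ∈ V1}`.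
`rng`: if `y : LA E`, `io_D y` is absorbed by `eS S`, `S ⊆ V1`, so `Φ.symm (io_D y)` by `eS S` (`Φ.symm (vx v) = vx v`), and `io y` by
`eS (S.image (·, 0))`.  Conversely `x` in the corner on `V0` is in the corner on level `0`, so `x = io_S x1`, `io_S (eS S * x1) = x = io_S x1`, so `x1` is
absorbed by `eS S`, `S ⊆ V1`, hence `Φ x1` too, `Φ x1 = io_D y`.
`lp`: a loop vertex of `G3` is `(c, 0)` with `c` a loop vertex of `G2` (`StG.isLp`), `c ∈ b ⊆ V1`.
`full`: `(w, n)`: `vx (w, n)` is `*`-equivalent to `vx (w, 0) = io_S (Φ.symm (vx w))` (`StG.seqv`), and `vx w` to `io_D p` (`DG.exists_io`); images of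
`SEqv` under `*`-homomorphisms (`SEqvIn.map`), `SEqvIn.trans`.
-/

namespace DC29

open LPA74

private theorem s2_seqv_map {A B : Type} [NonUnitalRing A] [StarRing A] [Module ℂ A] [IsScalarTower ℂ A A]
    [SMulCommClass ℂ A A] [StarModule ℂ A] [NonUnitalRing B] [StarRing B] [Module ℂ B] [IsScalarTower ℂ B B]
    [SMulCommClass ℂ B B] [StarModule ℂ B] (φ : A →⋆ₙₐ[ℂ] B) {p q : A} (h : SEqv p q) : SEqv (φ p) (φ q) :=
  SEqvIn.map φ (fun _ _ => NonUnitalStarAlgebra.mem_top) h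

private def s2_emb (G : Gph) : G.V ↪ (StG G).V := ⟨fun w => (w, 0), fun a b h => congrArg Prod.fst h⟩

private theorem s2_eS {G : Gph} (io : LA G →⋆ₙₐ[ℂ] LA (StG G)) (h : ∀ v, io (vx v) = vx (E := StG G) (v, 0))
    (S : Finset G.V) : io (eS S) = eS (S.map (s2_emb G)) := by
  unfold eS
  rw [map_sum, Finset.sum_map]
  exact Finset.sum_congr rfl fun v _ => h v

open Classical in
private theorem s2_map {G : Gph} {S' : Finset (StG G).V} (h : ∀ w ∈ S', w.2 = 0) :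
    (S'.image (fun w : (StG G).V => (w.1 : G.V))).map (s2_emb G) = S' := by
  ext ⟨w, n⟩
  rw [Finset.mem_map]
  constructor
  · rintro ⟨v, hv, hvw⟩
    obtain ⟨x, hx, hxv⟩ := Finset.mem_image.1 hv
    have h1 : (v, 0) = (w, n) := hvw
    have h2 := h x hx
    obtain ⟨x1, x2⟩ := x
    simp only at hxv h2
    rw [← h1, ← hxv, ← h2]
    exact hx
  · intro hw
    have h1 : n = 0 := h _ hw
    subst h1
    exact ⟨w, Finset.mem_image.2 ⟨_, hw, rfl⟩, rfl⟩

theorem exists_setup (E : Gph) [Countable E.V] [Countable E.Ed] (h : DisjointCycles E) :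
    Nonempty (Setup E) := by
  classical
  obtain ⟨k, hk⟩ := exists_k E
  have hdc := DG.dc hk h
  obtain ⟨b, P, hbas⟩ := exists_bas (DG.rf hk) hdc {w : (DG E k).V | ∃ v : E.V, w = Sum.inl v}
    (fun e he => by
      obtain ⟨v, h1, h2⟩ := DG.base hk e he
      exact ⟨_, ⟨v, rfl⟩, h1, h2⟩)
  obtain ⟨hLG, hlp⟩ := PG.lg' hdc hbas (PG.rf hbas.ad)
  haveI c1 : Countable (DG E k).V := inferInstanceAs (Countable (E.V ⊕ ({v // IE E v} × ℕ)))
  haveI c2 : Countable (DG E k).Ed := inferInstanceAs (Countable (E.Ed ⊕ ({v // IE E v} × ℕ)))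
  haveI c3 : Countable (PG (DG E k) P).V := c1
  haveI c4 : Countable (PG (DG E k) P).Ed :=
    inferInstanceAs (Countable {l : List (DG E k).Ed // PV (DG E k) P l})
  obtain ⟨Φ, hΦ⟩ := PG.iso hbas.ad
  obtain ⟨ioS, hSinj, hSvx, hSrng⟩ := StG.exists_io (PG (DG E k) P)
  obtain ⟨ioD, hDinj, hDrng, hDseq⟩ := DG.exists_io hk
  let Ψ : LA (DG E k) →⋆ₙₐ[ℂ] LA (PG (DG E k) P) :=
    { toFun := Φ.symm
      map_smul' := fun c x => map_smul Φ.symm c x
      map_zero' := map_zero Φ.symm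
      map_add' := map_add Φ.symm
      map_mul' := map_mul Φ.symm
      map_star' := map_star Φ.symm }
  have hΨ : ∀ v : (DG E k).V, Ψ (vx v) = vx (E := PG (DG E k) P) v := by
    intro v
    show Φ.symm (vx v) = _
    rw [← hΦ v, Φ.symm_apply_apply]
  have hΨS : ∀ S : Finset (DG E k).V, Ψ (eS S) = eS (G := PG (DG E k) P) S := by
    intro S
    unfold eS
    rw [map_sum]
    exact Finset.sum_congr rfl fun v _ => hΨ v
  have hΦS : ∀ S : Finset (DG E k).V, Φ (eS (G := PG (DG E k) P) S) = eS S := by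
    intro S
    unfold eS
    rw [map_sum]
    exact Finset.sum_congr rfl fun v _ => hΦ v
  have hio : ∀ y, (ioS.comp (Ψ.comp ioD)) y = ioS (Ψ (ioD y)) := fun y => rfl
  refine ⟨⟨StG (PG (DG E k) P), StG.ng hLG, {w | w.2 = 0 ∧ ∃ v : E.V, w.1 = (Sum.inl v : (DG E k).V)},
    ioS.comp (Ψ.comp ioD), ?_, ?_, ?_, ?_⟩⟩
  · intro x y hxy
    rw [hio, hio] at hxy
    exact hDinj (Φ.symm.injective (hSinj hxy))
  · intro x
    constructor
    · rintro ⟨y, rfl⟩
      rw [hio]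
      obtain ⟨S, hS, h1, h2⟩ := (hDrng (ioD y)).1 ⟨y, rfl⟩
      refine ⟨Finset.map (s2_emb (PG (DG E k) P)) S, ?_, ?_, ?_⟩
      · intro w hw
        obtain ⟨v, hv, hvw⟩ := Finset.mem_map.1 (Finset.mem_coe.1 hw)
        obtain ⟨u, hu⟩ := hS (Finset.mem_coe.2 hv)
        rw [← hvw]
        exact ⟨rfl, u, hu⟩
      · rw [← s2_eS ioS hSvx, ← hΨS, ← map_mul, ← map_mul, h1]
      · rw [← s2_eS ioS hSvx, ← hΨS, ← map_mul, ← map_mul, h2]
    · rintro ⟨S', hS', h1, h2⟩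
      obtain ⟨x1, rfl⟩ := (hSrng x).2 ⟨S', fun w hw => (hS' hw).1, h1, h2⟩
      have hmap := s2_map (S' := S') (fun w hw => (hS' (Finset.mem_coe.2 hw)).1)
      rw [← hmap, ← s2_eS ioS hSvx, ← map_mul] at h1 h2
      have h3 := hSinj h1
      have h4 := hSinj h2
      have h5 := congrArg Φ h3
      have h6 := congrArg Φ h4
      rw [map_mul] at h5 h6
      have e1 := hΦS (S'.image (fun w : (StG (PG (DG E k) P)).V => (w.1 : (DG E k).V)))
      have hin : InCor {w : (DG E k).V | ∃ v : E.V, w = Sum.inl v} (Φ x1) := by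
        refine ⟨S'.image (fun w : (StG (PG (DG E k) P)).V => (w.1 : (DG E k).V)), ?_, ?_, ?_⟩
        · intro w hw
          obtain ⟨w', hw', rfl⟩ := Finset.mem_image.1 (Finset.mem_coe.1 hw)
          exact (hS' (Finset.mem_coe.2 hw')).2
        · rw [← e1]
          exact h5
        · rw [← e1]
          exact h6
      obtain ⟨y, hy⟩ := (hDrng (Φ x1)).2 hin
      refine ⟨y, ?_⟩
      rw [hio, hy]
      exact congrArg ioS (Φ.symm_apply_apply x1)
  · rintro ⟨v, n⟩ hc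
    obtain ⟨h1, h2⟩ := StG.isLp hc
    exact ⟨h1, hbas.bV (hlp v h2)⟩
  · rintro ⟨w, n⟩
    obtain ⟨p, hp⟩ := hDseq w
    refine ⟨p, ?_⟩
    rw [hio]
    have h1 := s2_seqv_map ioS (s2_seqv_map Ψ hp)
    rw [hΨ, hSvx] at h1
    exact h1.trans (StG.seqv w n).symm

end DC29
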